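import Pool.Agent.Helper24.RUL.Lists

/-!
# RUL-11: bookkeeping for `mrg` and closed links (project RUL, MP_409f7f_co)
-/

namespace Pool.Agent.Helper24.RUL

variable {E : Lk} {k : ℤ}

theorem mem_img2 {α β : Type*} [DecidableEq α] [DecidableEq β] {g : α → β} {F : Finset α} {e : β} :
    e ∈ img2 g F ↔ Odd ((F.filter (fun s => g s = e)).card) := by
  unfold img2
  rw [Finset.mem_filter, Finset.mem_image]
  constructor
  · exact fun h => h.2
  · intro h
    obtain ⟨s, hs⟩ := Finset.card_pos.1 h.pos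
    rw [Finset.mem_filter] at hs
    exact ⟨⟨s, hs.1, hs.2⟩, h⟩

theorem img2_inj {α β : Type*} [DecidableEq α] [DecidableEq β] {g : α → β} {F : Finset α}
    (h : ∀ s ∈ F, ∀ t ∈ F, g s = g t → s = t) : img2 g F = F.image g := by
  ext e
  rw [mem_img2, Finset.mem_image]
  constructor
  · intro h'
    obtain ⟨s, hs⟩ := Finset.card_pos.1 h'.pos
    rw [Finset.mem_filter] at hs
    exact ⟨s, hs.1, hs.2⟩
  · rintro ⟨s, hs, he⟩
    have h1 : F.filter (fun t => g t = e) = {s} := by
      ext t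
      rw [Finset.mem_filter, Finset.mem_singleton]
      constructor
      · rintro ⟨ht, hte⟩
        exact h t ht s hs (by rw [hte, he])
      · rintro rfl
        exact ⟨hs, he⟩
    rw [h1, Finset.card_singleton]
    exact odd_one

theorem img2_comp {α β γ : Type*} [DecidableEq α] [DecidableEq β] [DecidableEq γ]
    (g : α → β) (g' : β → γ) (F : Finset α) : img2 g' (img2 g F) = img2 (g' ∘ g) F := by
  ext e
  rw [mem_img2, mem_img2]
  have h1 : (F.filter (fun s => (g' ∘ g) s = e)).card =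
      ∑ y ∈ (F.image g).filter (fun y => g' y = e),
        ((F.filter (fun s => (g' ∘ g) s = e)).filter (fun s => g s = y)).card := by
    refine Finset.card_eq_sum_card_fiberwise ?_
    intro s hs
    have hs' := Finset.mem_filter.1 (Finset.mem_coe.1 hs)
    exact Finset.mem_coe.2 (Finset.mem_filter.2 ⟨Finset.mem_image_of_mem g hs'.1, hs'.2⟩)
  rw [h1, Finset.odd_sum_iff_odd_card_odd]
  have h2 : (img2 g F).filter (fun y => g' y = e) =
      ((F.image g).filter (fun y => g' y = e)).filter (fun y =>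
        Odd (((F.filter (fun s => (g' ∘ g) s = e)).filter (fun s => g s = y)).card)) := by
    ext y
    rw [Finset.mem_filter, Finset.mem_filter, Finset.mem_filter, mem_img2]
    have h3 : g' y = e → (F.filter (fun s => (g' ∘ g) s = e)).filter (fun s => g s = y) =
        F.filter (fun s => g s = y) := by
      intro hy
      ext s
      rw [Finset.mem_filter, Finset.mem_filter, Finset.mem_filter]
      constructor
      · rintro ⟨⟨a, _⟩, c⟩
        exact ⟨a, c⟩
      · rintro ⟨a, c⟩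
        refine ⟨⟨a, ?_⟩, c⟩
        rw [Function.comp_apply, c, hy]
    constructor
    · rintro ⟨ho, hy⟩
      refine ⟨⟨?_, hy⟩, ?_⟩
      · obtain ⟨s, hs⟩ := Finset.card_pos.1 ho.pos
        rw [Finset.mem_filter] at hs
        exact Finset.mem_image.2 ⟨s, hs.1, hs.2⟩
      · rw [h3 hy]
        exact ho
    · rintro ⟨⟨_, hy⟩, ho⟩
      rw [h3 hy] at ho
      exact ⟨ho, hy⟩
  rw [h2]

theorem FD_card_symmDiff {α : Type*} [DecidableEq α] (A B : Finset α) :
    (symmDiff A B).card + 2 * (A ∩ B).card = A.card + B.card := by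
  have h0 : symmDiff A B = (A \ B) ∪ (B \ A) := rfl
  have hd : Disjoint (A \ B) (B \ A) := by
    rw [Finset.disjoint_left]
    intro x hx hx'
    rw [Finset.mem_sdiff] at hx hx'
    exact hx.2 hx'.1
  rw [h0, Finset.card_union_of_disjoint hd]
  have h1 := Finset.card_sdiff_add_card_inter A B
  have h2 := Finset.card_sdiff_add_card_inter B A
  rw [Finset.inter_comm B A] at h2
  omega

theorem img2_symmDiff {α β : Type*} [DecidableEq α] [DecidableEq β] (g : α → β)
    (F F' : Finset α) : img2 g (symmDiff F F') = symmDiff (img2 g F) (img2 g F') := by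
  ext e
  rw [mem_img2, Finset.mem_symmDiff, mem_img2, mem_img2]
  have h1 : (symmDiff F F').filter (fun s => g s = e) =
      symmDiff (F.filter (fun s => g s = e)) (F'.filter (fun s => g s = e)) := by
    ext s
    simp only [Finset.mem_filter, Finset.mem_symmDiff]
    tauto
  rw [h1]
  have h2 := FD_card_symmDiff (F.filter (fun s => g s = e)) (F'.filter (fun s => g s = e))
  simp only [Nat.odd_iff]
  omega

/-- In a closed link an up end of a segment determines the number of ends. -/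
theorem up_ends (hE : Closed E) {v x : ℚ} (h : (v, x) ∈ E k) : deg E k v = 2 := by
  rcases hE k v with h0 | h0
  · exfalso
    have h1 : (v, x) ∈ (E k).filter (fun s => s.1 = v) := Finset.mem_filter.2 ⟨h, rfl⟩
    have h2 := Finset.card_pos.2 ⟨_, h1⟩
    unfold deg at h0
    omega
  · exact h0

theorem dn_ends (hE : Closed E) {v x : ℚ} (h : (x, v) ∈ E (k - 1)) : deg E k v = 2 := by
  rcases hE k v with h0 | h0
  · exfalso
    have h1 : (x, v) ∈ (E (k - 1)).filter (fun s => s.2 = v) := Finset.mem_filter.2 ⟨h, rfl⟩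
    have h2 := Finset.card_pos.2 ⟨_, h1⟩
    unfold deg at h0
    omega
  · exact h0

/-- Two known up ends: nothing else. -/
theorem uu_ends (hE : Closed E) {v x y : ℚ} (h : (v, x) ∈ E k) (h' : (v, y) ∈ E k) (hxy : x ≠ y) :
    (∀ s ∈ E (k - 1), s.2 ≠ v) ∧ (∀ s ∈ E k, s.1 = v → s = (v, x) ∨ s = (v, y)) := by
  have hd := up_ends hE h
  unfold deg at hd
  have hsub : ({(v, x), (v, y)} : Finset (ℚ × ℚ)) ⊆ (E k).filter (fun s => s.1 = v) := by
    intro s hs
    rw [Finset.mem_insert, Finset.mem_singleton] at hs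
    rcases hs with rfl | rfl
    · exact Finset.mem_filter.2 ⟨h, rfl⟩
    · exact Finset.mem_filter.2 ⟨h', rfl⟩
  have hc : ({(v, x), (v, y)} : Finset (ℚ × ℚ)).card = 2 := by
    refine Finset.card_pair ?_
    intro he
    exact hxy (Prod.mk.inj he).2
  have hle := Finset.card_le_card hsub
  rw [hc] at hle
  constructor
  · intro s hs hv
    have h1 : s ∈ (E (k - 1)).filter (fun s => s.2 = v) := Finset.mem_filter.2 ⟨hs, hv⟩
    have h2 := Finset.card_pos.2 ⟨_, h1⟩
    omega
  · intro s hs hv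
    have heq := Finset.eq_of_subset_of_card_le hsub (by rw [hc]; omega)
    have h1 : s ∈ ({(v, x), (v, y)} : Finset (ℚ × ℚ)) := by
      rw [heq]
      exact Finset.mem_filter.2 ⟨hs, hv⟩
    rw [Finset.mem_insert, Finset.mem_singleton] at h1
    exact h1

theorem dd_ends (hE : Closed E) {v x y : ℚ} (h : (x, v) ∈ E (k - 1)) (h' : (y, v) ∈ E (k - 1))
    (hxy : x ≠ y) :
    (∀ s ∈ E k, s.1 ≠ v) ∧ (∀ s ∈ E (k - 1), s.2 = v → s = (x, v) ∨ s = (y, v)) := by
  have hd := dn_ends hE h
  unfold deg at hd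
  have hsub : ({(x, v), (y, v)} : Finset (ℚ × ℚ)) ⊆ (E (k - 1)).filter (fun s => s.2 = v) := by
    intro s hs
    rw [Finset.mem_insert, Finset.mem_singleton] at hs
    rcases hs with rfl | rfl
    · exact Finset.mem_filter.2 ⟨h, rfl⟩
    · exact Finset.mem_filter.2 ⟨h', rfl⟩
  have hc : ({(x, v), (y, v)} : Finset (ℚ × ℚ)).card = 2 := by
    refine Finset.card_pair ?_
    intro he
    exact hxy (Prod.mk.inj he).1
  have hle := Finset.card_le_card hsub
  rw [hc] at hle
  constructor
  · intro s hs hv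
    have h1 : s ∈ (E k).filter (fun s => s.1 = v) := Finset.mem_filter.2 ⟨hs, hv⟩
    have h2 := Finset.card_pos.2 ⟨_, h1⟩
    omega
  · intro s hs hv
    have heq := Finset.eq_of_subset_of_card_le hsub (by rw [hc]; omega)
    have h1 : s ∈ ({(x, v), (y, v)} : Finset (ℚ × ℚ)) := by
      rw [heq]
      exact Finset.mem_filter.2 ⟨hs, hv⟩
    rw [Finset.mem_insert, Finset.mem_singleton] at h1
    exact h1

theorem ud_ends (hE : Closed E) {v x y : ℚ} (h : (v, x) ∈ E k) (h' : (y, v) ∈ E (k - 1)) :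
    (∀ s ∈ E k, s.1 = v → s = (v, x)) ∧ (∀ s ∈ E (k - 1), s.2 = v → s = (y, v)) := by
  have hd := up_ends hE h
  unfold deg at hd
  have h1 : (v, x) ∈ (E k).filter (fun s => s.1 = v) := Finset.mem_filter.2 ⟨h, rfl⟩
  have h2 : (y, v) ∈ (E (k - 1)).filter (fun s => s.2 = v) := Finset.mem_filter.2 ⟨h', rfl⟩
  have c1 := Finset.card_pos.2 ⟨_, h1⟩
  have c2 := Finset.card_pos.2 ⟨_, h2⟩
  constructor
  · intro s hs hv
    have h3 : s ∈ (E k).filter (fun s => s.1 = v) := Finset.mem_filter.2 ⟨hs, hv⟩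
    exact Finset.card_le_one.1 (by omega) s h3 _ h1
  · intro s hs hv
    have h3 : s ∈ (E (k - 1)).filter (fun s => s.2 = v) := Finset.mem_filter.2 ⟨hs, hv⟩
    exact Finset.card_le_one.1 (by omega) s h3 _ h2

theorem FD_swap_img2 (F : Finset (ℚ × ℚ)) (g g' : ℚ × ℚ → ℚ × ℚ)
    (h : ∀ s, Prod.swap (g s) = g' (Prod.swap s)) :
    (img2 g F).image Prod.swap = img2 g' (F.image Prod.swap) := by
  have hs : ∀ G : Finset (ℚ × ℚ), img2 Prod.swap G = G.image Prod.swap := fun G =>
    img2_inj (fun s _ t _ he => Prod.swap_injective he)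
  rw [← hs, ← hs, img2_comp, img2_comp]
  have he : Prod.swap ∘ g = g' ∘ Prod.swap := funext h
  rw [he]

theorem rev_mrg (E : Lk) (k : ℤ) (v1 v2 : ℚ) : rev (mrg E k v1 v2) = mrg (rev E) (-k) v1 v2 := by
  funext j
  unfold rev mrg
  dsimp only
  by_cases h1 : j = -k - 1
  · have e1 : -1 - j = k := by omega
    have e2 : ¬ (-1 - j = k - 1) := by omega
    rw [if_pos h1, if_neg e2, if_pos e1]
    refine FD_swap_img2 _ _ _ ?_
    intro s
    rfl
  · by_cases h2 : j = -k
    · have e1 : -1 - j = k - 1 := by omega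
      rw [if_neg h1, if_pos h2, if_pos e1]
      refine FD_swap_img2 _ _ _ ?_
      intro s
      rfl
    · have e1 : ¬ (-1 - j = k - 1) := by omega
      have e2 : ¬ (-1 - j = k) := by omega
      rw [if_neg h1, if_neg h2, if_neg e1, if_neg e2]

theorem rev_deg (E : Lk) (k : ℤ) (v : ℚ) : deg (rev E) (-k) v = deg E k v := by
  unfold deg rev
  have e1 : -1 - (-k - 1) = k := by omega
  have e2 : -1 - -k = k - 1 := by omega
  rw [e1, e2]
  have h1 : ((E k).image Prod.swap).filter (fun s => s.2 = v) =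
      ((E k).filter (fun s => s.1 = v)).image Prod.swap := by
    ext s
    simp only [Finset.mem_filter, Finset.mem_image]
    constructor
    · rintro ⟨⟨t, ht, rfl⟩, hv⟩
      exact ⟨t, ⟨ht, hv⟩, rfl⟩
    · rintro ⟨t, ⟨ht, hv⟩, rfl⟩
      exact ⟨⟨t, ht, rfl⟩, hv⟩
  have h2 : ((E (k - 1)).image Prod.swap).filter (fun s => s.1 = v) =
      ((E (k - 1)).filter (fun s => s.2 = v)).image Prod.swap := by
    ext s
    simp only [Finset.mem_filter, Finset.mem_image]
    constructor
    · rintro ⟨⟨t, ht, rfl⟩, hv⟩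
      exact ⟨t, ⟨ht, hv⟩, rfl⟩
    · rintro ⟨t, ⟨ht, hv⟩, rfl⟩
      exact ⟨⟨t, ht, rfl⟩, hv⟩
  rw [h1, h2, Finset.card_image_of_injective _ Prod.swap_injective,
    Finset.card_image_of_injective _ Prod.swap_injective, add_comm]

theorem FD_mem_rev (E : Lk) (j : ℤ) (s : ℚ × ℚ) : s ∈ rev E j ↔ s.swap ∈ E (-1 - j) := by
  unfold rev
  rw [Finset.mem_image]
  constructor
  · rintro ⟨t, ht, rfl⟩
    rw [Prod.swap_swap]
    exact ht
  · intro h
    exact ⟨s.swap, h, Prod.swap_swap s⟩

theorem rev_end (E : Lk) (k : ℤ) (v : ℚ) (κ : Bool × ℚ) :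
    EndAt (rev E) (-k) v (!κ.1, κ.2) ↔ EndAt E k v κ := by
  obtain ⟨b, x⟩ := κ
  have e1 : -1 - (-k - 1) = k := by omega
  have e2 : -1 - -k = k - 1 := by omega
  unfold EndAt
  cases b
  · simp only [Bool.not_false, if_true, Bool.false_eq_true, if_false]
    rw [FD_mem_rev, e1]
    exact Iff.rfl
  · simp only [Bool.not_true, if_true, Bool.false_eq_true, if_false]
    rw [FD_mem_rev, e2]
    exact Iff.rfl

theorem cyc_flip (x y z : Bool × ℚ) :
    Cyc (!x.1, x.2) (!y.1, y.2) (!z.1, z.2) ↔ Cyc x y z := by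
  obtain ⟨bx, x⟩ := x
  obtain ⟨b', y⟩ := y
  obtain ⟨bz, z⟩ := z
  cases bx <;> cases b' <;> cases bz <;> simp [Cyc, kle, klt]

end Pool.Agent.Helper24.RUL
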