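import Mathlib

/-!
# Normal rulings of combinatorial Legendrian links (project RUL, MP_409f7f_co)

A link is given by layers: the strands of layer `k` are pairs `(lo, hi)` of rational numbers, `lo`
is the value of the segment of level `k` at which the strand begins and `hi` the value of the
segment of level `k + 1` at which it ends. Every segment has exactly two strand ends.
In layer `k` the strands are sorted from `(lo, hi)`-lexicographic to `(hi, lo)`-lexicographic order
by adjacent crossings. A ruling is a family of labellings, every label occurs exactly twice.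
-/

namespace Pool.Agent.Helper24.RUL

/-- Every label occurs exactly twice (or not at all). -/
def Two (w : List ℕ) : Prop := ∀ p ∈ w, w.count p = 2

/-- A crossing at position `n` (numbered from 0): the strands at the positions `n`, `n + 1` have
different labels `p`, `q`, which are exchanged (the strands cross), or are kept (a switch) if the
other `q` comes before the other `p` in the cyclic order starting after the crossing. -/
def Cr (n : ℕ) (w w' : List ℕ) : Prop :=
  ∃ (W Z : List ℕ) (p q : ℕ), w = W ++ p :: q :: Z ∧ W.length = n ∧ p ≠ q ∧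
    (w' = W ++ q :: p :: Z ∨ (w' = w ∧ (Z ++ W).idxOf q < (Z ++ W).idxOf p))

/-- Sorting the list of names to the list `T` by crossings of adjacent names that are in the wrong
order with respect to `T`; `C n` is the effect of a crossing at position `n`. -/
inductive SrtG {ι Ω : Type*} [DecidableEq ι] (C : ℕ → Ω → Ω → Prop) (T : List ι) :
    List ι → Ω → Ω → Prop
  | refl (w : Ω) : SrtG C T T w w
  | step (U V : List ι) (s t : ι) (w u w' : Ω) (h : T.idxOf t < T.idxOf s)
      (hc : C U.length w u) (hr : SrtG C T (U ++ t :: s :: V) u w') :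
      SrtG C T (U ++ s :: t :: V) w w'

/-- The words `w`, `w'` differ by the names of the labels only. -/
def Ren (w w' : List ℕ) : Prop := ∃ s : Equiv.Perm ℕ, w' = w.map s

/-- A crossing up to the names of the labels. -/
def CrN (n : ℕ) (w w' : List ℕ) : Prop := ∃ u, Cr n w u ∧ Ren u w'

/-- Sorting with rulings (up to the names of the labels). -/
def Srt {ι : Type*} [DecidableEq ι] (T L : List ι) (w w' : List ℕ) : Prop :=
  ∃ u, SrtG CrN T L w u ∧ Ren u w'

/-- Betweenness of three orders of the same names. -/
def Btw {ι : Type*} [DecidableEq ι] (L M T : List ι) : Prop :=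
  ∀ s ∈ L, ∀ t ∈ L, L.idxOf s < L.idxOf t → T.idxOf s < T.idxOf t → M.idxOf s < M.idxOf t

/-- The lexicographic order of pairs. -/
def lexLt (s t : ℚ × ℚ) : Prop := s.1 < t.1 ∨ (s.1 = t.1 ∧ s.2 < t.2)

/-- The strands of a layer in `(lo, hi)` order. -/
def AL (F : Finset (ℚ × ℚ)) : List (ℚ × ℚ) :=
  ((F.map toLex.toEmbedding).sort (fun a b : ℚ ×ₗ ℚ => a ≤ b)).map ofLex

/-- The strands of a layer in `(hi, lo)` order. -/
def BL (F : Finset (ℚ × ℚ)) : List (ℚ × ℚ) := (AL (F.image Prod.swap)).map Prod.swap

/-- A link. -/
abbrev Lk := ℤ → Finset (ℚ × ℚ)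

/-- The number of strand ends at the value `v` of level `k`. -/
def deg (E : Lk) (k : ℤ) (v : ℚ) : ℕ :=
  ((E (k - 1)).filter (fun s => s.2 = v)).card + ((E k).filter (fun s => s.1 = v)).card

/-- Every segment has two ends. -/
def Closed (E : Lk) : Prop := ∀ k v, deg E k v = 0 ∨ deg E k v = 2

/-- Compatibility of the labels `b` of layer `k - 1` and `a` of layer `k` at level `k`: strands
that end (begin) at the same segment have the same label, and strands that pass have the same
label below the level iff they have the same label above. -/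
def Lev (E : Lk) (k : ℤ) (b a : ℚ × ℚ → ℕ) : Prop :=
  (∀ s ∈ E (k - 1), ∀ s' ∈ E (k - 1), s ≠ s' → s.2 = s'.2 → b s = b s') ∧
  (∀ t ∈ E k, ∀ t' ∈ E k, t ≠ t' → t.1 = t'.1 → a t = a t') ∧
  (∀ s ∈ E (k - 1), ∀ s' ∈ E (k - 1), ∀ t ∈ E k, ∀ t' ∈ E k, s.2 = t.1 → s'.2 = t'.1 →
    (b s = b s' ↔ a t = a t'))

/-- The link has a normal ruling. -/
def Rul (E : Lk) : Prop :=
  ∃ a b : ℤ → ℚ × ℚ → ℕ, ∀ k : ℤ,
    Two ((AL (E k)).map (a k)) ∧
    Srt (BL (E k)) (AL (E k)) ((AL (E k)).map (a k)) ((BL (E k)).map (b k)) ∧
    Lev E k (b (k - 1)) (a k)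

/-- Values of level `k` are replaced by `φ`. -/
def rel (E : Lk) (k : ℤ) (φ : ℚ → ℚ) : Lk := fun j =>
  if j = k - 1 then (E j).image (fun s => (s.1, φ s.2))
  else if j = k then (E j).image (fun s => (φ s.1, s.2))
  else E j

/-- At level `k` the segment `v` lies on the left of the segment `w` (all strands that go up have
smaller `hi`, all strands that go down have larger `lo`). -/
def Sep (E : Lk) (k : ℤ) (v w : ℚ) : Prop :=
  (∀ x y, (v, x) ∈ E k → (w, y) ∈ E k → x < y) ∧
  (∀ x y, (x, v) ∈ E (k - 1) → (y, w) ∈ E (k - 1) → y < x)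

/-- The image of a finite set modulo two. -/
def img2 {α β : Type*} [DecidableEq α] [DecidableEq β] (g : α → β) (F : Finset α) : Finset β :=
  (F.image g).filter (fun e => Odd ((F.filter (fun s => g s = e)).card))

/-- The segments `v1` and `v2` of level `k` are merged (parallel strands cancel). -/
def mrg (E : Lk) (k : ℤ) (v1 v2 : ℚ) : Lk := fun j =>
  if j = k - 1 then img2 (fun s => (s.1, if s.2 = v2 then v1 else s.2)) (E j)
  else if j = k then img2 (fun s => (if s.1 = v2 then v1 else s.1, s.2)) (E j)
  else E j

/-- The strand end with key `κ` at the value `v` of level `k`: key `(false, x)` is the strand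
`(v, x)` of layer `k` (going up), key `(true, x)` is the strand `(x, v)` of layer `k - 1` (going
down). -/
def EndAt (E : Lk) (k : ℤ) (v : ℚ) (κ : Bool × ℚ) : Prop :=
  if κ.1 = true then (κ.2, v) ∈ E (k - 1) else (v, κ.2) ∈ E k

/-- Keys are ordered: first the strands going up by `hi`, then the strands going down by `lo`. -/
def klt (x y : Bool × ℚ) : Prop := (x.1 = false ∧ y.1 = true) ∨ (x.1 = y.1 ∧ x.2 < y.2)

/-- Weak order of keys. -/
def kle (x y : Bool × ℚ) : Prop := klt x y ∨ x = y

/-- `x, y, z` are in cyclic order (`x = y` is allowed). -/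
def Cyc (x y z : Bool × ℚ) : Prop :=
  (kle x y ∧ klt y z) ∨ (klt y z ∧ klt z x) ∨ (klt z x ∧ kle x y)

end Pool.Agent.Helper24.RUL
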