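import Pool.Agent.Helper24.RUL.Swap

/-!
# RUL-10: relabelling (project RUL, MP_409f7f_co)

Induction on the number of pairs `v < w` of used values with `φ w < φ v`. None: `rel_mono`. Otherwise
there are neighbouring used values `v < w` with `φ w < φ v`; put `E1 = rel E k (swap v w)`,
`φ1 = φ ∘ swap v w`, then `rel E1 k φ1 = rel E k φ` and the number is smaller; `rul_swap` in both
directions (`rel E1 k (swap v w) = E`, and the hypothesis of `rul_swap` is symmetric, `rel_sep`).
-/

namespace Pool.Agent.Helper24.RUL

/-- The used values of level `k`. -/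
def usedV (E : Lk) (k : ℤ) : Finset ℚ :=
  ((E (k - 1)).image Prod.snd ∪ (E k).image Prod.fst).filter (fun v => deg E k v ≠ 0)

theorem mem_usedV {E : Lk} {k : ℤ} {v : ℚ} : v ∈ usedV E k ↔ deg E k v ≠ 0 := by
  unfold usedV
  rw [Finset.mem_filter]
  constructor
  · exact fun h => h.2
  · intro h
    refine ⟨?_, h⟩
    rw [Finset.mem_union, Finset.mem_image, Finset.mem_image]
    by_contra hc
    push Not at hc
    apply h
    unfold deg
    have h1 : (E (k - 1)).filter (fun s => s.2 = v) = ∅ :=
      Finset.filter_eq_empty_iff.2 (fun s hs => hc.1 s hs)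
    have h2 : (E k).filter (fun s => s.1 = v) = ∅ :=
      Finset.filter_eq_empty_iff.2 (fun s hs => hc.2 s hs)
    rw [h1, h2]
    rfl

/-- The inversions of `φ`. -/
def invs (E : Lk) (k : ℤ) (φ : ℚ → ℚ) : Finset (ℚ × ℚ) :=
  (usedV E k ×ˢ usedV E k).filter (fun p => p.1 < p.2 ∧ φ p.2 < φ p.1)

theorem mem_invs {E : Lk} {k : ℤ} {φ : ℚ → ℚ} {v w : ℚ} :
    (v, w) ∈ invs E k φ ↔ deg E k v ≠ 0 ∧ deg E k w ≠ 0 ∧ v < w ∧ φ w < φ v := by
  unfold invs
  rw [Finset.mem_filter, Finset.mem_product, mem_usedV, mem_usedV]
  simp only [and_assoc]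

theorem deg_swap {E : Lk} {k : ℤ} {v w : ℚ} (hv : deg E k v ≠ 0) (hw : deg E k w ≠ 0) (u : ℚ) :
    deg (rel E k (Equiv.swap v w)) k u = deg E k (Equiv.swap v w u) := by
  have hinj : InjU E k (Equiv.swap v w) := fun a b _ _ h => (Equiv.swap v w).injective h
  by_cases h : deg E k (Equiv.swap v w u) = 0
  · rw [h]
    apply rel_deg_zero
    intro x hx hxu
    apply hx
    rw [← hxu, Equiv.swap_apply_self] at h
    exact h
  · have := rel_deg_self hinj h
    rw [Equiv.swap_apply_self] at this
    exact this

theorem deg_swap_ne {E : Lk} {k : ℤ} {v w : ℚ} (hv : deg E k v ≠ 0) (hw : deg E k w ≠ 0) (u : ℚ) :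
    deg E k (Equiv.swap v w u) ≠ 0 ↔ deg E k u ≠ 0 := by
  by_cases h1 : u = v
  · subst h1
    rw [Equiv.swap_apply_left]
    exact ⟨fun _ => hv, fun _ => hw⟩
  · by_cases h2 : u = w
    · subst h2
      rw [Equiv.swap_apply_right]
      exact ⟨fun _ => hw, fun _ => hv⟩
    · rw [Equiv.swap_apply_of_ne_of_ne h1 h2]

theorem relabel {E : Lk} {k : ℤ} (hE : Closed E) {φ : ℚ → ℚ}
    (hφ : ∀ v w, deg E k v ≠ 0 → deg E k w ≠ 0 → v < w →
      φ v < φ w ∨ (φ w < φ v ∧ (Sep E k v w ∨ Sep E k w v))) :
    Rul (rel E k φ) ↔ Rul E := by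
  induction hn : (invs E k φ).card using Nat.strong_induction_on generalizing E φ with
  | _ n ih =>
  by_cases h0 : invs E k φ = ∅
  · apply rel_mono
    intro v w hv hw hvw
    rcases hφ v w hv hw hvw with h | ⟨h, _⟩
    · exact h
    · exfalso
      have : (v, w) ∈ invs E k φ := mem_invs.2 ⟨hv, hw, hvw, h⟩
      rw [h0] at this
      exact absurd this (Finset.notMem_empty _)
  · obtain ⟨⟨v, w⟩, hm, hmin⟩ := Finset.exists_min_image (invs E k φ) (fun p => p.2 - p.1)
      (Finset.nonempty_iff_ne_empty.2 h0)
    obtain ⟨hv, hw, hvw, hwv⟩ := mem_invs.1 hm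
    have hadj : ∀ u, v < u → u < w → deg E k u = 0 := by
      intro u h1 h2
      by_contra hu
      rcases hφ v u hv hu h1 with h | ⟨h, _⟩
      · have h3 : (u, w) ∈ invs E k φ := mem_invs.2 ⟨hu, hw, h2, lt_trans hwv h⟩
        have := hmin _ h3
        simp only at this
        linarith
      · have h3 : (v, u) ∈ invs E k φ := mem_invs.2 ⟨hv, hu, h1, h⟩
        have := hmin _ h3
        simp only at this
        linarith
    have hsep : Sep E k v w ∨ Sep E k w v := by
      rcases hφ v w hv hw hvw with h | ⟨_, h⟩
      · exact absurd h (not_lt.2 hwv.le)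
      · exact h
    have hinj : InjU E k (Equiv.swap v w) := fun a b _ _ h => (Equiv.swap v w).injective h
    have hE1 : Closed (rel E k (Equiv.swap v w)) := rel_closed hinj hE
    have hss : (Equiv.swap v w : ℚ → ℚ) ∘ (Equiv.swap v w : ℚ → ℚ) = id := by
      funext x
      exact Equiv.swap_apply_self v w x
    have hback : rel (rel E k (Equiv.swap v w)) k (Equiv.swap v w) = E := by
      rw [rel_rel, hss, rel_id]
    have hsame : rel (rel E k (Equiv.swap v w)) k (φ ∘ (Equiv.swap v w : ℚ → ℚ)) = rel E k φ := by
      rw [rel_rel, Function.comp_assoc, hss, Function.comp_id]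
    have hdeg : ∀ u, deg (rel E k (Equiv.swap v w)) k u ≠ 0 ↔ deg E k u ≠ 0 := by
      intro u
      rw [deg_swap hv hw, deg_swap_ne hv hw]
    have hsw : ∀ a b, deg E k a ≠ 0 → deg E k b ≠ 0 →
        (Sep (rel E k (Equiv.swap v w)) k a b ↔
          Sep E k (Equiv.swap v w a) (Equiv.swap v w b)) := by
      intro a b ha hb
      have := rel_sep hinj ((deg_swap_ne hv hw a).2 ha) ((deg_swap_ne hv hw b).2 hb)
      rw [Equiv.swap_apply_self, Equiv.swap_apply_self] at this
      exact this
    -- the order of the images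
    have hord : ∀ a b, deg E k a ≠ 0 → deg E k b ≠ 0 → a < b →
        (a = v ∧ b = w) ∨ Equiv.swap v w a < Equiv.swap v w b := by
      intro a b ha hb hab
      by_cases h1 : a = v
      · subst h1
        by_cases h2 : b = w
        · exact Or.inl ⟨rfl, h2⟩
        · right
          rw [Equiv.swap_apply_left, Equiv.swap_apply_of_ne_of_ne (ne_of_gt hab) h2]
          by_contra hc
          exact hb (hadj b hab (lt_of_le_of_ne (not_lt.1 hc) h2))
      · by_cases h3 : a = w
        · subst h3
          right
          rw [Equiv.swap_apply_right, Equiv.swap_apply_of_ne_of_ne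
            (ne_of_gt (lt_trans hvw hab)) (ne_of_gt hab)]
          exact lt_trans hvw hab
        · right
          rw [Equiv.swap_apply_of_ne_of_ne h1 h3]
          by_cases h4 : b = v
          · subst h4
            rw [Equiv.swap_apply_left]
            exact lt_trans hab hvw
          · by_cases h5 : b = w
            · subst h5
              rw [Equiv.swap_apply_right]
              by_contra hc
              exact ha (hadj a (lt_of_le_of_ne (not_lt.1 hc) (Ne.symm h1)) hab)
            · rw [Equiv.swap_apply_of_ne_of_ne h4 h5]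
              exact hab
    have hrul : Rul (rel E k (Equiv.swap v w)) ↔ Rul E := by
      constructor
      · intro h
        have h1 := rul_swap hE1 hvw ((hdeg v).2 hv) ((hdeg w).2 hw)
          (fun u h1 h2 => by
            by_contra hc
            exact ((hdeg u).1 hc) (hadj u h1 h2))
          (by
            rw [hsw v w hv hw, hsw w v hw hv, Equiv.swap_apply_left, Equiv.swap_apply_right]
            exact hsep.symm) h
        rw [hback] at h1
        exact h1
      · exact rul_swap hE hvw hv hw hadj hsep
    rw [← hrul, ← hsame]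
    refine ih _ ?_ hE1 ?_ rfl
    · rw [← hn]
      -- the number of inversions
      have hsub : (invs (rel E k (Equiv.swap v w)) k (φ ∘ (Equiv.swap v w : ℚ → ℚ))).image
          (fun p => (Equiv.swap v w p.1, Equiv.swap v w p.2)) ⊆ (invs E k φ).erase (v, w) := by
        intro q hq
        obtain ⟨⟨a, b⟩, hab, rfl⟩ := Finset.mem_image.1 hq
        obtain ⟨ha, hb, hlt, hgt⟩ := mem_invs.1 hab
        rw [hdeg] at ha hb
        simp only [Function.comp_apply] at hgt
        rcases hord a b ha hb hlt with ⟨rfl, rfl⟩ | h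
        · rw [Equiv.swap_apply_left, Equiv.swap_apply_right] at hgt
          exact absurd hgt (not_lt.2 hwv.le)
        · rw [Finset.mem_erase]
          refine ⟨?_, mem_invs.2 ⟨(deg_swap_ne hv hw a).2 ha, (deg_swap_ne hv hw b).2 hb, h, hgt⟩⟩
          intro hc
          have h1 : Equiv.swap v w a = v := congrArg Prod.fst hc
          have h2 : Equiv.swap v w b = w := congrArg Prod.snd hc
          have h3 : a = w := by
            rw [← Equiv.swap_apply_self v w a, h1, Equiv.swap_apply_left]
          have h4 : b = v := by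
            rw [← Equiv.swap_apply_self v w b, h2, Equiv.swap_apply_right]
          rw [h3, h4] at hlt
          exact absurd hlt (not_lt.2 hvw.le)
      have hinj2 : Function.Injective
          (fun p : ℚ × ℚ => ((Equiv.swap v w p.1, Equiv.swap v w p.2) : ℚ × ℚ)) := by
        rintro ⟨a, b⟩ ⟨c, d⟩ h
        have h1 : Equiv.swap v w a = Equiv.swap v w c := congrArg Prod.fst h
        have h2 : Equiv.swap v w b = Equiv.swap v w d := congrArg Prod.snd h
        rw [(Equiv.swap v w).injective h1, (Equiv.swap v w).injective h2]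
      have hc := Finset.card_le_card hsub
      rw [Finset.card_image_of_injective _ hinj2] at hc
      exact lt_of_le_of_lt hc (Finset.card_erase_lt_of_mem hm)
    · intro a b ha hb hab
      rw [hdeg] at ha hb
      rw [hsw a b ha hb, hsw b a hb ha]
      simp only [Function.comp_apply]
      rcases hord a b ha hb hab with ⟨rfl, rfl⟩ | h
      · left
        rw [Equiv.swap_apply_left, Equiv.swap_apply_right]
        exact hwv
      · exact hφ _ _ ((deg_swap_ne hv hw a).2 ha) ((deg_swap_ne hv hw b).2 hb) h

end Pool.Agent.Helper24.RUL
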