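import Pool.Agent.Helper24.RUL.FingerDef

/-!
# RUL-14: finger lemma, case down/down (project RUL, MP_409f7f_co)

Names in layer `k - 1`: `α = (a, v1)`, `β = (b, v2)`; in layer `k`: `γ = (v1, t)`, `γ' = (v2, t)`.
`AL (E k) = U ++ γ :: γ' :: V`, `BL (E k) = U2 ++ γ :: γ' :: V2`: `pair_nat`, `pair_nat'`: `γ`, `γ'` have equal labels
all the time, hence also `α`, `β` at the end of layer `k - 1`, where they are neighbours
(`BL (E (k-1)) = U3 ++ α :: β :: V3`).
* `a < b`: `mrg` = `γ, γ'` removed, `β` renamed `(b, v1)`: the same list (the tie at `v1` is broken by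
  the first coordinate: `α` before `β`); `AL (E (k-1))` does not change either.
* `b < a`: in `AL (E (k-1))` `β` is before `α`, so the last step of layer `k - 1` can be taken to be the
  crossing of `β, α` (`srt_through` with the intermediate list `U3 ++ β :: α :: V3`), but the results of
  a crossing have different labels: no ruling.
* `a = b`: in layer `k - 1` `α` and `β` are neighbours at the beginning (`AL (E (k-1)) = .. α :: β ..`, tie at
  `a` broken by `v1 < v2`, and `a` has exactly these two ends) and at the end; in `mrg` they cancel: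
  remove the pair `α, β` by `pair_nat` (the labels are equal).
In the direction from `mrg` to `E` new labels are chosen for the removed pairs.
-/

namespace Pool.Agent.Helper24.RUL

/-- layer condition -/
private def ddLay (F : Finset (ℚ × ℚ)) (A B : ℚ × ℚ → ℕ) : Prop :=
  Two ((AL F).map A) ∧ Srt (BL F) (AL F) ((AL F).map A) ((BL F).map B)

/-- level condition -/
private def ddLev (F G : Finset (ℚ × ℚ)) (b a : ℚ × ℚ → ℕ) : Prop :=
  (∀ s ∈ F, ∀ s' ∈ F, s ≠ s' → s.2 = s'.2 → b s = b s') ∧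
  (∀ t ∈ G, ∀ t' ∈ G, t ≠ t' → t.1 = t'.1 → a t = a t') ∧
  (∀ s ∈ F, ∀ s' ∈ F, ∀ t ∈ G, ∀ t' ∈ G, s.2 = t.1 → s'.2 = t'.1 → (b s = b s' ↔ a t = a t'))

private def ddLoc (P F G Q : Finset (ℚ × ℚ)) (B0 A3 A1 B1 A2 B2 : ℚ × ℚ → ℕ) : Prop :=
  ddLay F A1 B1 ∧ ddLay G A2 B2 ∧ ddLev P F B0 A1 ∧ ddLev F G B1 A2 ∧ ddLev G Q B2 A3

private theorem dd_transfer {E E' : Lk} {k : ℤ} (hout : ∀ j, j ≠ k - 1 → j ≠ k → E' j = E j)
    (h : ∀ B0 A3 A1 B1 A2 B2,
      ddLoc (E (k - 2)) (E (k - 1)) (E k) (E (k + 1)) B0 A3 A1 B1 A2 B2 →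
      ∃ A1' B1' A2' B2',
        ddLoc (E (k - 2)) (E' (k - 1)) (E' k) (E (k + 1)) B0 A3 A1' B1' A2' B2') :
    Rul E → Rul E' := by
  rintro ⟨A, B, hAB⟩
  have e1 := hAB (k - 1)
  have e2 := hAB k
  have e3 := hAB (k + 1)
  rw [show k - 1 - 1 = k - 2 by ring] at e1
  rw [show k + 1 - 1 = k by ring] at e3
  have l1 : ddLev (E (k - 2)) (E (k - 1)) (B (k - 2)) (A (k - 1)) := by
    have := e1.2.2
    unfold Lev at this
    rw [show k - 1 - 1 = k - 2 by ring] at this
    exact this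
  have l2 : ddLev (E (k - 1)) (E k) (B (k - 1)) (A k) := e2.2.2
  have l3 : ddLev (E k) (E (k + 1)) (B k) (A (k + 1)) := by
    have := e3.2.2
    unfold Lev at this
    rw [show k + 1 - 1 = k by ring] at this
    exact this
  obtain ⟨A1, B1, A2, B2, m1, m2, m3, m4, m5⟩ := h (B (k - 2)) (A (k + 1)) (A (k - 1)) (B (k - 1))
    (A k) (B k) ⟨⟨e1.1, e1.2.1⟩, ⟨e2.1, e2.2.1⟩, l1, l2, l3⟩
  refine ⟨fun j => if j = k - 1 then A1 else if j = k then A2 else A j,
    fun j => if j = k - 1 then B1 else if j = k then B2 else B j, fun j => ?_⟩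
  by_cases h1 : j = k - 1
  · subst h1
    have n1 : ¬ (k - 1 - 1 = k - 1) := by omega
    have n2 : ¬ (k - 1 - 1 = k) := by omega
    simp only [if_true, if_neg n1, if_neg n2]
    refine ⟨m1.1, m1.2, ?_⟩
    unfold Lev
    rw [hout (k - 1 - 1) (by omega) (by omega), show k - 1 - 1 = k - 2 by ring]
    exact m3
  by_cases h2 : j = k
  · subst h2
    have n1 : ¬ (j = j - 1) := by omega
    simp only [if_true, if_neg n1]
    exact ⟨m2.1, m2.2, m4⟩
  by_cases h3 : j = k + 1
  · subst h3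
    have n1 : ¬ (k + 1 = k - 1) := by omega
    have n2 : ¬ (k + 1 = k) := by omega
    have n3 : ¬ (k + 1 - 1 = k - 1) := by omega
    have n4 : k + 1 - 1 = k := by omega
    simp only [if_neg n1, if_neg n2, if_neg n3, if_pos n4]
    rw [hout (k + 1) (by omega) (by omega)]
    refine ⟨e3.1, e3.2.1, ?_⟩
    unfold Lev
    rw [hout (k + 1) (by omega) (by omega), show k + 1 - 1 = k by ring]
    exact m5
  · have n3 : ¬ (j - 1 = k - 1) := by omega
    have n4 : ¬ (j - 1 = k) := by omega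
    simp only [if_neg h1, if_neg h2, if_neg n3, if_neg n4]
    rw [hout j h1 h2]
    refine ⟨(hAB j).1, (hAB j).2.1, ?_⟩
    unfold Lev
    rw [hout j h1 h2, hout (j - 1) n3 n4]
    exact (hAB j).2.2

private theorem dd_two_rem {W Z : List ℕ} {p : ℕ} (h : Two (W ++ p :: p :: Z)) :
    Two (W ++ Z) := by
  have hc : ∀ x, (W ++ p :: p :: Z).count x = (W ++ Z).count x + (if p = x then 2 else 0) := by
    intro x
    simp only [List.count_append, List.count_cons, beq_iff_eq]
    split_ifs <;> omega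
  intro x hx
  have h1 : x ∈ W ++ p :: p :: Z := by
    rw [List.mem_append] at hx ⊢
    rcases hx with hx | hx
    · exact Or.inl hx
    · exact Or.inr (List.mem_cons_of_mem _ (List.mem_cons_of_mem _ hx))
  have h2 := h x h1
  rw [hc x] at h2
  have h3 : 0 < (W ++ Z).count x := List.count_pos_iff.2 hx
  split_ifs at h2 with h4
  · omega
  · omega

private theorem dd_two_add {W Z : List ℕ} {p : ℕ} (h : Two (W ++ Z)) (hp : p ∉ W ++ Z) :
    Two (W ++ p :: p :: Z) := by
  have hc : ∀ x, (W ++ p :: p :: Z).count x = (W ++ Z).count x + (if p = x then 2 else 0) := by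
    intro x
    simp only [List.count_append, List.count_cons, beq_iff_eq]
    split_ifs <;> omega
  intro x hx
  rw [hc x]
  by_cases h4 : p = x
  · subst h4
    rw [if_pos rfl, List.count_eq_zero_of_not_mem hp]
  · rw [if_neg h4, add_zero]
    apply h x
    rw [List.mem_append] at hx ⊢
    rcases hx with hx | hx
    · exact Or.inl hx
    · rw [List.mem_cons, List.mem_cons] at hx
      rcases hx with hx | hx | hx
      · exact absurd hx.symm h4
      · exact absurd hx.symm h4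
      · exact Or.inr hx

private theorem dd_perm {ι : Type*} {U V U' V' : List ι} {x y : ι}
    (h : (U ++ x :: y :: V).Perm (U' ++ x :: y :: V')) : (U ++ V).Perm (U' ++ V') := by
  have h1 : (U ++ x :: y :: V).Perm (x :: y :: (U ++ V)) :=
    List.perm_middle.trans (List.Perm.cons x List.perm_middle)
  have h2 : (U' ++ x :: y :: V').Perm (x :: y :: (U' ++ V')) :=
    List.perm_middle.trans (List.Perm.cons x List.perm_middle)
  exact ((h1.symm.trans h).trans h2).cons_inv.cons_inv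

private theorem dd_mem {F : Finset (ℚ × ℚ)} {U V : List (ℚ × ℚ)} {x y : ℚ × ℚ}
    (hm : ∀ s, s ∈ U ++ x :: y :: V ↔ s ∈ F) (hn : (U ++ x :: y :: V).Nodup) (s : ℚ × ℚ) :
    s ∈ U ++ V ↔ s ∈ F \ {x, y} := by
  have h1 : (U ++ x :: y :: V).Perm (x :: y :: (U ++ V)) :=
    List.perm_middle.trans (List.Perm.cons x List.perm_middle)
  have h2 := h1.nodup_iff.1 hn
  rw [Finset.mem_sdiff, ← hm s, h1.mem_iff, Finset.mem_insert, Finset.mem_singleton,
    List.mem_cons, List.mem_cons]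
  rw [List.nodup_cons, List.nodup_cons, List.mem_cons] at h2
  constructor
  · intro h
    refine ⟨Or.inr (Or.inr h), ?_⟩
    rintro (rfl | rfl)
    · exact h2.1 (Or.inr h)
    · exact h2.2.1 h
  · rintro ⟨h | h | h, h'⟩
    · exact absurd (Or.inl h) h'
    · exact absurd (Or.inr h) h'
    · exact h

private theorem dd_sub {ι : Type*} (U V : List ι) (x y : ι) :
    (U ++ V).Sublist (U ++ x :: y :: V) :=
  List.Sublist.append (List.Sublist.refl U)
    ((List.sublist_cons_self y V).trans (List.sublist_cons_self x (y :: V)))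

private theorem dd_AL {F : Finset (ℚ × ℚ)} {U V : List (ℚ × ℚ)} {x y : ℚ × ℚ}
    (hA : AL F = U ++ x :: y :: V) : AL (F \ {x, y}) = U ++ V := by
  symm
  apply AL_unique
  · have := AL_pairwise F
    rw [hA] at this
    exact this.sublist (dd_sub U V x y)
  · apply dd_mem
    · intro s
      rw [← hA, mem_AL]
    · rw [← hA]
      exact AL_nodup F

private theorem dd_BL {F : Finset (ℚ × ℚ)} {U V : List (ℚ × ℚ)} {x y : ℚ × ℚ}
    (hB : BL F = U ++ x :: y :: V) : BL (F \ {x, y}) = U ++ V := by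
  symm
  apply BL_unique
  · have := BL_pairwise F
    rw [hB] at this
    exact this.sublist (dd_sub U V x y)
  · apply dd_mem
    · intro s
      rw [← hB, mem_BL]
    · rw [← hB]
      exact BL_nodup F

private theorem dd_rem {F : Finset (ℚ × ℚ)} {U V U2 V2 : List (ℚ × ℚ)} {x y : ℚ × ℚ}
    (hA : AL F = U ++ x :: y :: V) (hB : BL F = U2 ++ x :: y :: V2) {A B : ℚ × ℚ → ℕ}
    (h : ddLay F A B) (he : A x = A y ∨ B x = B y) :
    A x = A y ∧ B x = B y ∧ ddLay (F \ {x, y}) A B := by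
  have hnd := AL_nodup F
  have hP : (U ++ V).Perm (U2 ++ V2) := by
    have := AL_perm_BL F
    rw [hA, hB] at this
    exact dd_perm this
  obtain ⟨h1, h2⟩ := h
  rw [hA] at hnd
  rw [hA, hB, List.map_append, List.map_cons, List.map_cons, List.map_append, List.map_cons,
    List.map_cons] at h2
  rw [hA, List.map_append, List.map_cons, List.map_cons] at h1
  have hAxy : A x = A y := by
    rcases he with he | he
    · exact he
    · rw [← he] at h2
      obtain ⟨W, Z, q, hW1, hW2, hW3⟩ := pair_nat' hnd hP (by rw [List.length_map])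
        (by simp [List.length_append]) h1 h2
      have h3 := (List.append_inj hW1 (by rw [List.length_map, hW2])).2
      rw [List.cons.injEq, List.cons.injEq] at h3
      rw [h3.1, h3.2.1]
  rw [← hAxy] at h1 h2
  have h3 := (pair_nat hnd hP (by rw [List.length_map]) (by rw [List.length_map]) h1).1 h2
  obtain ⟨W', Z', q, hW1, hW2, _, _, hW3⟩ := h3
  have h4 := List.append_inj hW1 (by rw [List.length_map, hW2])
  obtain ⟨h5, h6⟩ := h4
  rw [List.cons.injEq, List.cons.injEq] at h6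
  refine ⟨hAxy, by rw [h6.1, h6.2.1], ?_, ?_⟩
  · rw [dd_AL hA, List.map_append]
    exact dd_two_rem h1
  · rw [dd_AL hA, dd_BL hB, List.map_append, List.map_append, h5, h6.2.2]
    exact hW3

/-- the labelling with the new label `q` at `x` and `y` -/
private noncomputable def ddUp (x y : ℚ × ℚ) (q : ℕ) (A : ℚ × ℚ → ℕ) : ℚ × ℚ → ℕ := by
  classical exact fun s => if s = x ∨ s = y then q else A s

private theorem ddUp_x (x y : ℚ × ℚ) (q : ℕ) (A : ℚ × ℚ → ℕ) : ddUp x y q A x = q := by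
  unfold ddUp; rw [if_pos (Or.inl rfl)]

private theorem ddUp_y (x y : ℚ × ℚ) (q : ℕ) (A : ℚ × ℚ → ℕ) : ddUp x y q A y = q := by
  unfold ddUp; rw [if_pos (Or.inr rfl)]

private theorem ddUp_o {x y : ℚ × ℚ} (q : ℕ) (A : ℚ × ℚ → ℕ) {s : ℚ × ℚ} (h1 : s ≠ x)
    (h2 : s ≠ y) : ddUp x y q A s = A s := by
  unfold ddUp; rw [if_neg (by rintro (h | h); exacts [h1 h, h2 h])]

private theorem dd_add {F : Finset (ℚ × ℚ)} {U V U2 V2 : List (ℚ × ℚ)} {x y : ℚ × ℚ}
    (hA : AL F = U ++ x :: y :: V) (hB : BL F = U2 ++ x :: y :: V2) {A B : ℚ × ℚ → ℕ}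
    (h : ddLay (F \ {x, y}) A B) : ∃ q : ℕ, (∀ s ∈ F \ {x, y}, A s ≠ q) ∧
      (∀ s ∈ F \ {x, y}, B s ≠ q) ∧ ddLay F (ddUp x y q A) (ddUp x y q B) := by
  have hnd := AL_nodup F
  have hmA := dd_mem (F := F) (x := x) (y := y) (U := U) (V := V)
    (fun s => by rw [← hA, mem_AL]) (by rw [← hA]; exact hnd)
  have hmB := dd_mem (F := F) (x := x) (y := y) (U := U2) (V := V2)
    (fun s => by rw [← hB, mem_BL]) (by rw [← hB]; exact BL_nodup F)
  have hP : (U ++ V).Perm (U2 ++ V2) := by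
    have := AL_perm_BL F
    rw [hA, hB] at this
    exact dd_perm this
  have hq1 : ∀ s ∈ F \ {x, y}, A s ≠ (F.sup A + F.sup B) + 1 := by
    intro s hs
    have h1 : A s ≤ F.sup A := Finset.le_sup (Finset.mem_sdiff.1 hs).1
    omega
  have hq2 : ∀ s ∈ F \ {x, y}, B s ≠ (F.sup A + F.sup B) + 1 := by
    intro s hs
    have h1 : B s ≤ F.sup B := Finset.le_sup (Finset.mem_sdiff.1 hs).1
    omega
  generalize (F.sup A + F.sup B) + 1 = q at hq1 hq2
  refine ⟨q, hq1, hq2, ?_⟩
  obtain ⟨h1, h2⟩ := h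
  rw [dd_AL hA] at h1 h2
  rw [dd_BL hB] at h2
  have eA : (U ++ V).map (ddUp x y q A) = (U ++ V).map A := by
    apply List.map_congr_left
    intro s hs
    have := (hmA s).1 hs
    rw [Finset.mem_sdiff, Finset.mem_insert, Finset.mem_singleton] at this
    exact ddUp_o q A (fun h => this.2 (Or.inl h)) (fun h => this.2 (Or.inr h))
  have eB : (U2 ++ V2).map (ddUp x y q B) = (U2 ++ V2).map B := by
    apply List.map_congr_left
    intro s hs
    have := (hmB s).1 hs
    rw [Finset.mem_sdiff, Finset.mem_insert, Finset.mem_singleton] at this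
    exact ddUp_o q B (fun h => this.2 (Or.inl h)) (fun h => this.2 (Or.inr h))
  rw [← eA] at h1 h2
  rw [← eB] at h2
  rw [List.map_append] at h1 h2
  rw [List.map_append (l₁ := U2)] at h2
  have hqn : q ∉ U.map (ddUp x y q A) ++ V.map (ddUp x y q A) := by
    rw [← List.map_append, eA]
    intro hq
    obtain ⟨s, hs, hsq⟩ := List.mem_map.1 hq
    exact hq1 s ((hmA s).1 hs) hsq
  have h3 := dd_two_add h1 hqn
  have hqn2 : q ∉ U2.map (ddUp x y q B) ++ V2.map (ddUp x y q B) := by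
    rw [← List.map_append, eB]
    intro hq
    obtain ⟨s, hs, hsq⟩ := List.mem_map.1 hq
    exact hq2 s ((hmB s).1 hs) hsq
  rw [List.mem_append, not_or] at hqn2
  obtain ⟨hqU, hqV⟩ := hqn2
  rw [hA] at hnd
  constructor
  · rw [hA, List.map_append, List.map_cons, List.map_cons, ddUp_x, ddUp_y]
    exact h3
  · rw [hA, hB, List.map_append, List.map_cons, List.map_cons, ddUp_x, ddUp_y, List.map_append,
      List.map_cons, List.map_cons, ddUp_x, ddUp_y]
    exact (pair_nat hnd hP (by rw [List.length_map]) (by rw [List.length_map]) h3).2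
      ⟨_, _, _, rfl, by rw [List.length_map], hqU, hqV, h2⟩

private theorem dd_congr {F : Finset (ℚ × ℚ)} {A B A' B' : ℚ × ℚ → ℕ}
    (h1 : ∀ s ∈ F, A s = A' s) (h2 : ∀ s ∈ F, B s = B' s) (h : ddLay F A B) : ddLay F A' B' := by
  have e1 : (AL F).map A = (AL F).map A' :=
    List.map_congr_left fun s hs => h1 s (mem_AL.1 hs)
  have e2 : (BL F).map B = (BL F).map B' :=
    List.map_congr_left fun s hs => h2 s (mem_BL.1 hs)
  unfold ddLay at h ⊢
  rw [← e1, ← e2]
  exact h

private theorem dd_inj {F : Finset (ℚ × ℚ)} {μ : ℚ × ℚ → ℚ × ℚ}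
    (hA : ∀ s ∈ F, ∀ t ∈ F, lexLt s t → lexLt (μ s) (μ t)) :
    ∀ s ∈ F, ∀ t ∈ F, μ s = μ t → s = t := by
  intro s hs t ht hst
  rcases lexLt_total s t with h | h | h
  · have := hA s hs t ht h
    rw [hst] at this
    exact absurd this (lexLt_irrefl _)
  · exact h
  · have := hA t ht s hs h
    rw [hst] at this
    exact absurd this (lexLt_irrefl _)

private theorem dd_img {F : Finset (ℚ × ℚ)} {μ : ℚ × ℚ → ℚ × ℚ}
    (hA : ∀ s ∈ F, ∀ t ∈ F, lexLt s t → lexLt (μ s) (μ t))
    (hB : ∀ s ∈ F, ∀ t ∈ F, lexLt s.swap t.swap → lexLt (μ s).swap (μ t).swap)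
    {A B : ℚ × ℚ → ℕ} : ddLay (F.image μ) A B ↔ ddLay F (A ∘ μ) (B ∘ μ) := by
  unfold ddLay
  rw [AL_image μ hA, BL_image μ hB, List.map_map, List.map_map]
  have h : Srt ((BL F).map μ) ((AL F).map μ) ((AL F).map (A ∘ μ)) ((BL F).map (B ∘ μ)) ↔
      Srt (BL F) (AL F) ((AL F).map (A ∘ μ)) ((BL F).map (B ∘ μ)) := by
    apply srtN_map μ (AL_perm_BL F)
    intro x hx y hy hxy
    exact dd_inj hA x (mem_AL.1 hx) y (mem_AL.1 hy) hxy
  rw [h]

private theorem dd_twoB {F : Finset (ℚ × ℚ)} {A B : ℚ × ℚ → ℕ} (h : ddLay F A B) :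
    Two ((BL F).map B) := srtN_two h.1 h.2

private theorem dd_three {L : List (ℚ × ℚ)} {B : ℚ × ℚ → ℕ} (h2 : Two (L.map B)) {x y z : ℚ × ℚ}
    (hx : x ∈ L) (hy : y ∈ L) (hz : z ∈ L) (hxy : x ≠ y) (hxz : x ≠ z) (hyz : y ≠ z)
    (h : B x = B y) : B z ≠ B x := by
  classical
  intro hzx
  have h3 := h2 (B x) (List.mem_map.2 ⟨x, hx, rfl⟩)
  rw [List.count_eq_countP, List.countP_map, List.countP_eq_length_filter] at h3
  have h4 : ({x, y, z} : Finset (ℚ × ℚ)) ⊆
      (L.filter ((fun a => a == B x) ∘ B)).toFinset := by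
    intro s hs
    rw [Finset.mem_insert, Finset.mem_insert, Finset.mem_singleton] at hs
    rw [List.mem_toFinset, List.mem_filter]
    rcases hs with rfl | rfl | rfl
    · exact ⟨hx, by simp⟩
    · exact ⟨hy, by simp [h]⟩
    · exact ⟨hz, by simp [hzx]⟩
  have h5 := Finset.card_le_card h4
  have h6 : ({x, y, z} : Finset (ℚ × ℚ)).card = 3 := by
    rw [Finset.card_eq_three]
    exact ⟨x, y, z, hxy, hxz, hyz, rfl⟩
  have h7 := List.toFinset_card_le (L.filter ((fun a => a == B x) ∘ B))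
  omega

private theorem dd_idx {ι : Type*} [DecidableEq ι] {U V : List ι} {x y s t : ι} (hn : (U ++ x :: y :: V).Nodup)
    (h : (U ++ x :: y :: V).idxOf s < (U ++ x :: y :: V).idxOf t) (hne : ¬ (s = x ∧ t = y)) :
    (U ++ y :: x :: V).idxOf s < (U ++ y :: x :: V).idxOf t := by
  have hxy : x ≠ y := by
    rw [List.nodup_append] at hn
    have := hn.2.1
    rw [List.nodup_cons] at this
    intro h
    exact this.1 (by rw [h]; exact List.mem_cons_self)
  by_cases hs : s ∈ U
  · by_cases ht : t ∈ U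
    · rw [List.idxOf_append_of_mem hs, List.idxOf_append_of_mem ht] at h ⊢
      exact h
    · rw [List.idxOf_append_of_mem hs, List.idxOf_append_of_notMem ht]
      have := List.idxOf_lt_length_of_mem hs
      omega
  · by_cases ht : t ∈ U
    · rw [List.idxOf_append_of_notMem hs, List.idxOf_append_of_mem ht] at h
      have := List.idxOf_lt_length_of_mem ht
      omega
    · rw [List.idxOf_append_of_notMem hs, List.idxOf_append_of_notMem ht] at h ⊢
      have e : ∀ p q r : ι, (p :: q :: V).idxOf r =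
          if p = r then 0 else if q = r then 1 else V.idxOf r + 2 := by
        intro p q r
        by_cases h1 : p = r
        · rw [if_pos h1, h1, List.idxOf_cons_self]
        · rw [if_neg h1, List.idxOf_cons_ne _ h1]
          by_cases h2 : q = r
          · rw [if_pos h2, h2, List.idxOf_cons_self]
          · rw [if_neg h2, List.idxOf_cons_ne _ h2]
      rw [e, e] at h ⊢
      by_cases h1 : x = s
      · have h2 : ¬ y = s := fun h2 => hxy (h1.trans h2.symm)
        have h4 : ¬ y = t := fun h4 => hne ⟨h1.symm, h4.symm⟩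
        by_cases h3 : x = t
        · rw [if_pos h1, if_pos h3] at h
          omega
        · rw [if_neg h2, if_pos h1, if_neg h4, if_neg h3]
          omega
      · by_cases h2 : y = s
        · by_cases h3 : x = t
          · rw [if_neg h1, if_pos h2, if_pos h3] at h
            omega
          · by_cases h4 : y = t
            · rw [if_neg h1, if_pos h2, if_neg h3, if_pos h4] at h
              omega
            · rw [if_pos h2, if_neg h4, if_neg h3]
              omega
        · rw [if_neg h1, if_neg h2] at h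
          rw [if_neg h2, if_neg h1]
          by_cases h3 : x = t
          · rw [if_pos h3] at h
            omega
          · by_cases h4 : y = t
            · rw [if_neg h3, if_pos h4] at h
              omega
            · rw [if_neg h3, if_neg h4] at h
              rw [if_neg h4, if_neg h3]
              exact h

private theorem dd_no {F : Finset (ℚ × ℚ)} {U V : List (ℚ × ℚ)} {x y : ℚ × ℚ}
    (hB : BL F = U ++ x :: y :: V) (hyx : lexLt y x) {A B : ℚ × ℚ → ℕ} (h : ddLay F A B) :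
    B x ≠ B y := by
  have hn := BL_nodup F
  have hxF : x ∈ F := by
    rw [← mem_BL, hB]
    simp
  have hyF : y ∈ F := by
    rw [← mem_BL, hB]
    simp
  have hbtw : Btw (AL F) (U ++ y :: x :: V) (BL F) := by
    intro s hs t ht h1 h2
    rw [hB] at h2
    rw [hB] at hn
    apply dd_idx hn h2
    rintro ⟨rfl, rfl⟩
    have h3 : lexLt s t := by
      apply (AL_idx hxF hyF).1
      have e : (instBEqProd : BEq (ℚ × ℚ)) = instBEqOfDecidableEq := lawful_beq_subsingleton _ _
      rw [e]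
      exact h1
    exact lexLt_irrefl _ (lexLt_trans h3 hyx)
  have hperm : (AL F).Perm (U ++ y :: x :: V) := by
    refine (AL_perm_BL F).trans ?_
    rw [hB]
    exact List.Perm.append_left U (List.Perm.swap y x V)
  obtain ⟨u, _, h2⟩ := (srtN_through h.1 (AL_nodup F) hperm (AL_perm_BL F) hbtw).1 h.2
  rw [hB] at h2 hn
  have hn2 : (U ++ y :: x :: V).Nodup :=
    (List.Perm.append_left U (List.Perm.swap y x V)).nodup_iff.1 hn
  have h3 := (srtN_one hn2).1 h2
  obtain ⟨u', ⟨W, Z, p, q, hu, hW, hpq, h4⟩, ⟨σ, hσ⟩⟩ := h3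
  rw [List.map_append, List.map_cons, List.map_cons] at hσ
  rcases h4 with h4 | ⟨h4, _⟩
  · rw [h4, List.map_append, List.map_cons, List.map_cons] at hσ
    have h5 := (List.append_inj hσ (by rw [List.length_map, List.length_map, hW])).2
    rw [List.cons.injEq, List.cons.injEq] at h5
    rw [h5.1, h5.2.1]
    exact fun hh => hpq (σ.injective hh).symm
  · rw [h4, hu, List.map_append, List.map_cons, List.map_cons] at hσ
    have h5 := (List.append_inj hσ (by rw [List.length_map, List.length_map, hW])).2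
    rw [List.cons.injEq, List.cons.injEq] at h5
    rw [h5.1, h5.2.1]
    exact fun hh => hpq (σ.injective hh)

/-- the geometric facts at the level `k` -/
private structure DDF (F G Q : Finset (ℚ × ℚ)) (v1 v2 a b t : ℚ) : Prop where
  h12 : v1 < v2
  hα : (a, v1) ∈ F
  hβ : (b, v2) ∈ F
  hγ : (v1, t) ∈ G
  hγ' : (v2, t) ∈ G
  hF1 : ∀ s ∈ F, s.2 = v1 → s = (a, v1)
  hF2 : ∀ s ∈ F, s.2 = v2 → s = (b, v2)
  hG1 : ∀ s ∈ G, s.1 = v1 → s = (v1, t)
  hG2 : ∀ s ∈ G, s.1 = v2 → s = (v2, t)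
  hGt : ∀ s ∈ G, s.2 = t → s = (v1, t) ∨ s = (v2, t)
  hQt : ∀ s ∈ Q, s.1 ≠ t
  hFa : ∀ s ∈ F, ¬ (v1 < s.2 ∧ s.2 < v2)
  hGa : ∀ s ∈ G, ¬ (v1 < s.1 ∧ s.1 < v2)

variable {P F G Q : Finset (ℚ × ℚ)} {v1 v2 a b t : ℚ}

private theorem dd_AG (h : DDF F G Q v1 v2 a b t) :
    ∃ U V, AL G = U ++ (v1, t) :: (v2, t) :: V := by
  have h1 : G.filter (fun s => s.1 = v1) = {(v1, t)} := by
    ext s
    rw [Finset.mem_filter, Finset.mem_singleton]
    exact ⟨fun hs => h.hG1 s hs.1 hs.2, fun hs => by rw [hs]; exact ⟨h.hγ, rfl⟩⟩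
  have h2 : G.filter (fun s => s.1 = v2) = {(v2, t)} := by
    ext s
    rw [Finset.mem_filter, Finset.mem_singleton]
    exact ⟨fun hs => h.hG2 s hs.1 hs.2, fun hs => by rw [hs]; exact ⟨h.hγ', rfl⟩⟩
  have h3 := AL_split2 G h.h12 h.hGa
  rw [h1, h2, AL_singleton, AL_singleton] at h3
  refine ⟨AL (G.filter (fun s => s.1 < v1)), AL (G.filter (fun s => v2 < s.1)), ?_⟩
  rw [h3]
  simp

private theorem dd_BG (h : DDF F G Q v1 v2 a b t) :
    ∃ U V, BL G = U ++ (v1, t) :: (v2, t) :: V := by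
  have h1 : G.filter (fun s => s.2 = t) = {(v1, t), (v2, t)} := by
    ext s
    rw [Finset.mem_filter, Finset.mem_insert, Finset.mem_singleton]
    refine ⟨fun hs => h.hGt s hs.1 hs.2, fun hs => ?_⟩
    rcases hs with hs | hs
    · rw [hs]; exact ⟨h.hγ, rfl⟩
    · rw [hs]; exact ⟨h.hγ', rfl⟩
  have h3 := BL_split G t
  rw [h1, BL_pair (s := (v1, t)) (t := (v2, t)) (Or.inr ⟨rfl, h.h12⟩)] at h3
  refine ⟨BL (G.filter (fun s => s.2 < t)), BL (G.filter (fun s => t < s.2)), ?_⟩
  rw [h3]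
  simp

private theorem dd_BF (h : DDF F G Q v1 v2 a b t) :
    ∃ U V, BL F = U ++ (a, v1) :: (b, v2) :: V := by
  have h1 : F.filter (fun s => s.2 = v1) = {(a, v1)} := by
    ext s
    rw [Finset.mem_filter, Finset.mem_singleton]
    exact ⟨fun hs => h.hF1 s hs.1 hs.2, fun hs => by rw [hs]; exact ⟨h.hα, rfl⟩⟩
  have h2 : F.filter (fun s => s.2 = v2) = {(b, v2)} := by
    ext s
    rw [Finset.mem_filter, Finset.mem_singleton]
    exact ⟨fun hs => h.hF2 s hs.1 hs.2, fun hs => by rw [hs]; exact ⟨h.hβ, rfl⟩⟩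
  have h3 := BL_split2 F h.h12 h.hFa
  rw [h1, h2, BL_singleton, BL_singleton] at h3
  refine ⟨BL (F.filter (fun s => s.2 < v1)), BL (F.filter (fun s => v2 < s.2)), ?_⟩
  rw [h3]
  simp

private theorem dd_AF (h : DDF F G Q v1 v2 a a t)
    (ha : ∀ s ∈ F, s.1 = a → s = (a, v1) ∨ s = (a, v2)) :
    ∃ U V, AL F = U ++ (a, v1) :: (a, v2) :: V := by
  have h1 : F.filter (fun s => s.1 = a) = {(a, v1), (a, v2)} := by
    ext s
    rw [Finset.mem_filter, Finset.mem_insert, Finset.mem_singleton]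
    refine ⟨fun hs => ha s hs.1 hs.2, fun hs => ?_⟩
    rcases hs with hs | hs
    · rw [hs]; exact ⟨h.hα, rfl⟩
    · rw [hs]; exact ⟨h.hβ, rfl⟩
  have h3 := AL_split F a
  rw [h1, AL_pair (s := (a, v1)) (t := (a, v2)) (Or.inr ⟨rfl, h.h12⟩)] at h3
  refine ⟨AL (F.filter (fun s => s.1 < a)), AL (F.filter (fun s => a < s.1)), ?_⟩
  rw [h3]
  simp

/-- forward direction, layer `k` -/
private theorem dd_fwd (h : DDF F G Q v1 v2 a b t) {B0 A3 A1 B1 A2 B2 : ℚ × ℚ → ℕ}
    (hl : ddLoc P F G Q B0 A3 A1 B1 A2 B2) :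
    B1 (a, v1) = B1 (b, v2) ∧ ddLay (G \ {(v1, t), (v2, t)}) A2 B2 ∧
      ddLev (G \ {(v1, t), (v2, t)}) Q B2 A3 := by
  obtain ⟨l1, l2, l3, l4, l5⟩ := hl
  obtain ⟨U, V, hA⟩ := dd_AG h
  obtain ⟨U2, V2, hB⟩ := dd_BG h
  have hne : ((v1, t) : ℚ × ℚ) ≠ (v2, t) := by
    intro he
    rw [Prod.mk.injEq] at he
    exact h.h12.ne he.1
  have h1 : B2 (v1, t) = B2 (v2, t) := l5.1 _ h.hγ _ h.hγ' hne rfl
  obtain ⟨h2, _, h3⟩ := dd_rem hA hB l2 (Or.inr h1)
  refine ⟨(l4.2.2 _ h.hα _ h.hβ _ h.hγ _ h.hγ' rfl rfl).2 h2, h3, ?_, l5.2.1, ?_⟩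
  · intro s hs s' hs'
    exact l5.1 s (Finset.mem_sdiff.1 hs).1 s' (Finset.mem_sdiff.1 hs').1
  · intro s hs s' hs'
    exact l5.2.2 s (Finset.mem_sdiff.1 hs).1 s' (Finset.mem_sdiff.1 hs').1

private theorem dd_mem2 {G : Finset (ℚ × ℚ)} {x y s : ℚ × ℚ} :
    s ∈ G \ {x, y} ↔ s ∈ G ∧ s ≠ x ∧ s ≠ y := by
  rw [Finset.mem_sdiff, Finset.mem_insert, Finset.mem_singleton, not_or]

/-- backward direction, layer `k`, levels `k` and `k + 1` -/
private theorem dd_bwd (h : DDF F G Q v1 v2 a b t) {A3 A1 B1 A2 B2 : ℚ × ℚ → ℕ}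
    (l1 : ddLay F A1 B1) (l2 : ddLay (G \ {(v1, t), (v2, t)}) A2 B2)
    (l4 : ddLev F (G \ {(v1, t), (v2, t)}) B1 A2)
    (l5 : ddLev (G \ {(v1, t), (v2, t)}) Q B2 A3) (he : B1 (a, v1) = B1 (b, v2)) :
    ∃ A2' B2', ddLay G A2' B2' ∧ ddLev F G B1 A2' ∧ ddLev G Q B2' A3 := by
  obtain ⟨U, V, hA⟩ := dd_AG h
  obtain ⟨U2, V2, hB⟩ := dd_BG h
  obtain ⟨q, hq1, hq2, l2'⟩ := dd_add hA hB l2
  have h12 := h.h12
  have hne : ((v1, t) : ℚ × ℚ) ≠ (v2, t) := by
    intro he
    rw [Prod.mk.injEq] at he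
    exact h12.ne he.1
  have hαβ : ((a, v1) : ℚ × ℚ) ≠ (b, v2) := by
    intro he
    rw [Prod.mk.injEq] at he
    exact h12.ne he.2
  refine ⟨_, _, l2', ⟨l4.1, ?_, ?_⟩, ?_, l5.2.1, ?_⟩
  · intro s hs s' hs' hss h1
    have key : ∀ r ∈ G, ∀ r' ∈ G, r ≠ r' → r.1 = r'.1 → r ≠ (v1, t) ∧ r ≠ (v2, t) := by
      intro r hr r' hr' hrr h2
      constructor
      · rintro rfl
        exact hrr (h.hG1 r' hr' h2.symm).symm
      · rintro rfl
        exact hrr (h.hG2 r' hr' h2.symm).symm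
    have k1 := key s hs s' hs' hss h1
    have k2 := key s' hs' s hs hss.symm h1.symm
    rw [ddUp_o q A2 k1.1 k1.2, ddUp_o q A2 k2.1 k2.2]
    exact l4.2.1 s (dd_mem2.2 ⟨hs, k1⟩) s' (dd_mem2.2 ⟨hs', k2⟩) hss h1
  · have c1 : ∀ s ∈ F, ∀ r ∈ G, s.2 = r.1 → (r = (v1, t) ∨ r = (v2, t)) →
        (s = (a, v1) ∨ s = (b, v2)) := by
      intro s hs r hr h1 h2
      rcases h2 with h2 | h2
      · left
        apply h.hF1 s hs
        rw [h1, h2]
      · right
        apply h.hF2 s hs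
        rw [h1, h2]
    have c2 : ∀ s ∈ F, ∀ r ∈ G, s.2 = r.1 → (s = (a, v1) ∨ s = (b, v2)) →
        (r = (v1, t) ∨ r = (v2, t)) := by
      intro s hs r hr h1 h2
      rcases h2 with h2 | h2
      · left
        apply h.hG1 r hr
        rw [← h1, h2]
      · right
        apply h.hG2 r hr
        rw [← h1, h2]
    have c3 : ∀ s, (s = (a, v1) ∨ s = (b, v2)) → B1 s = B1 (a, v1) := by
      intro s hs
      rcases hs with rfl | rfl
      · rfl
      · exact he.symm
    have c4 : ∀ r, (r = (v1, t) ∨ r = (v2, t)) →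
        ddUp (v1, t) (v2, t) q A2 r = q := by
      intro r hr
      rcases hr with rfl | rfl
      · exact ddUp_x _ _ _ _
      · exact ddUp_y _ _ _ _
    have c5 : ∀ s ∈ F, ¬ (s = (a, v1) ∨ s = (b, v2)) → B1 s ≠ B1 (a, v1) := by
      intro s hs hn
      rw [not_or] at hn
      exact dd_three (dd_twoB l1) (mem_BL.2 h.hα) (mem_BL.2 h.hβ) (mem_BL.2 hs) hαβ
        (Ne.symm hn.1) (Ne.symm hn.2) he
    have c6 : ∀ r ∈ G, ¬ (r = (v1, t) ∨ r = (v2, t)) →
        ddUp (v1, t) (v2, t) q A2 r = A2 r ∧ A2 r ≠ q := by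
      intro r hr hn
      rw [not_or] at hn
      exact ⟨ddUp_o q A2 hn.1 hn.2, hq1 r (dd_mem2.2 ⟨hr, hn⟩)⟩
    intro s hs s' hs' r hr r' hr' h1 h2
    by_cases i1 : r = (v1, t) ∨ r = (v2, t)
    · have j1 := c1 s hs r hr h1 i1
      rw [c4 r i1, c3 s j1]
      by_cases i2 : r' = (v1, t) ∨ r' = (v2, t)
      · rw [c4 r' i2, c3 s' (c1 s' hs' r' hr' h2 i2)]
        exact ⟨fun _ => rfl, fun _ => rfl⟩
      · have j2 : ¬ (s' = (a, v1) ∨ s' = (b, v2)) := fun hj => i2 (c2 s' hs' r' hr' h2 hj)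
        rw [(c6 r' hr' i2).1]
        exact ⟨fun hj => absurd hj.symm (c5 s' hs' j2),
          fun hj => absurd hj.symm (c6 r' hr' i2).2⟩
    · have j1 : ¬ (s = (a, v1) ∨ s = (b, v2)) := fun hj => i1 (c2 s hs r hr h1 hj)
      rw [(c6 r hr i1).1]
      by_cases i2 : r' = (v1, t) ∨ r' = (v2, t)
      · rw [c4 r' i2, c3 s' (c1 s' hs' r' hr' h2 i2)]
        exact ⟨fun hj => absurd hj (c5 s hs j1), fun hj => absurd hj (c6 r hr i1).2⟩
      · rw [(c6 r' hr' i2).1]
        rw [not_or] at i1 i2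
        exact l4.2.2 s hs s' hs' r (dd_mem2.2 ⟨hr, i1⟩) r' (dd_mem2.2 ⟨hr', i2⟩) h1 h2
  · intro s hs s' hs' hss h1
    by_cases i1 : s = (v1, t) ∨ s = (v2, t)
    · have h2 : s.2 = t := by rcases i1 with rfl | rfl <;> rfl
      have i2 := h.hGt s' hs' (by rw [← h1, h2])
      have c4 : ∀ r, (r = (v1, t) ∨ r = (v2, t)) →
          ddUp (v1, t) (v2, t) q B2 r = q := by
        intro r hr
        rcases hr with rfl | rfl
        · exact ddUp_x _ _ _ _
        · exact ddUp_y _ _ _ _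
      rw [c4 s i1, c4 s' i2]
    · by_cases i2 : s' = (v1, t) ∨ s' = (v2, t)
      · have h2 : s'.2 = t := by rcases i2 with rfl | rfl <;> rfl
        exact absurd (h.hGt s hs (by rw [h1, h2])) i1
      · rw [not_or] at i1 i2
        rw [ddUp_o q B2 i1.1 i1.2, ddUp_o q B2 i2.1 i2.2]
        exact l5.1 s (dd_mem2.2 ⟨hs, i1⟩) s' (dd_mem2.2 ⟨hs', i2⟩) hss h1
  · have key : ∀ s ∈ G, ∀ r ∈ Q, s.2 = r.1 → s ≠ (v1, t) ∧ s ≠ (v2, t) := by
      intro s hs r hr h1
      constructor
      · rintro rfl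
        exact h.hQt r hr h1.symm
      · rintro rfl
        exact h.hQt r hr h1.symm
    intro s hs s' hs' r hr r' hr' h1 h2
    have k1 := key s hs r hr h1
    have k2 := key s' hs' r' hr' h2
    rw [ddUp_o q B2 k1.1 k1.2, ddUp_o q B2 k2.1 k2.2]
    exact l5.2.2 s (dd_mem2.2 ⟨hs, k1⟩) s' (dd_mem2.2 ⟨hs', k2⟩) r hr r' hr' h1 h2

private theorem dd_img2 {g : ℚ × ℚ → ℚ × ℚ} {x y : ℚ × ℚ} (hx : x ∈ F) (hy : y ∈ F)
    (hxy : x ≠ y) (hgx : g x = x) (hgy : g y = x)
    (ho : ∀ s ∈ F, s ≠ x → s ≠ y → g s = s) : img2 g F = F \ {x, y} := by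
  ext e
  rw [mem_img2, dd_mem2]
  by_cases h1 : e = x
  · subst h1
    have h2 : F.filter (fun s => g s = e) = {e, y} := by
      ext s
      rw [Finset.mem_filter, Finset.mem_insert, Finset.mem_singleton]
      constructor
      · rintro ⟨h3, h4⟩
        by_contra hn
        rw [not_or] at hn
        rw [ho s h3 hn.1 hn.2] at h4
        exact hn.1 h4
      · rintro (rfl | rfl)
        · exact ⟨hx, hgx⟩
        · exact ⟨hy, hgy⟩
    rw [h2, Finset.card_pair hxy]
    constructor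
    · intro h
      exact absurd h (by decide)
    · rintro ⟨_, h, _⟩
      exact absurd rfl h
  · by_cases h2 : e ∈ F ∧ e ≠ y
    · have h3 : F.filter (fun s => g s = e) = {e} := by
        ext s
        rw [Finset.mem_filter, Finset.mem_singleton]
        constructor
        · rintro ⟨h3, h4⟩
          by_cases h5 : s = x
          · rw [h5, hgx] at h4
            exact absurd h4.symm h1
          · by_cases h6 : s = y
            · rw [h6, hgy] at h4
              exact absurd h4.symm h1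
            · rw [ho s h3 h5 h6] at h4
              exact h4
        · rintro rfl
          exact ⟨h2.1, ho s h2.1 h1 h2.2⟩
      rw [h3, Finset.card_singleton]
      exact ⟨fun _ => ⟨h2.1, h1, h2.2⟩, fun _ => odd_one⟩
    · have h3 : F.filter (fun s => g s = e) = ∅ := by
        ext s
        rw [Finset.mem_filter]
        constructor
        · rintro ⟨h3, h4⟩
          exfalso
          by_cases h5 : s = x
          · rw [h5, hgx] at h4
            exact absurd h4.symm h1
          · by_cases h6 : s = y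
            · rw [h6, hgy] at h4
              exact absurd h4.symm h1
            · rw [ho s h3 h5 h6] at h4
              exact h2 ⟨h4 ▸ h3, h4 ▸ h6⟩
        · intro h
          exact absurd h (Finset.notMem_empty s)
      rw [h3, Finset.card_empty]
      constructor
      · intro h
        exact absurd h (by decide)
      · rintro ⟨h4, _, h5⟩
        exact absurd ⟨h4, h5⟩ h2

private def ddMu (v1 v2 : ℚ) (s : ℚ × ℚ) : ℚ × ℚ := (s.1, if s.2 = v2 then v1 else s.2)

private theorem ddMu_o {s : ℚ × ℚ} (h : s.2 ≠ v2) : ddMu v1 v2 s = s := by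
  unfold ddMu
  rw [if_neg h]

private theorem dd_G' (h : DDF F G Q v1 v2 a b t) :
    img2 (fun s : ℚ × ℚ => (if s.1 = v2 then v1 else s.1, s.2)) G = G \ {(v1, t), (v2, t)} := by
  have h12 := h.h12
  apply dd_img2 h.hγ h.hγ'
  · intro he
    rw [Prod.mk.injEq] at he
    exact h12.ne he.1
  · simp [h12.ne]
  · simp
  · intro s hs h1 h2
    have : s.1 ≠ v2 := fun h3 => h2 (h.hG2 s hs h3)
    simp [this]

private theorem dd_F0 (h : DDF F G Q v1 v2 a a t) :
    img2 (fun s : ℚ × ℚ => (s.1, if s.2 = v2 then v1 else s.2)) F = F \ {(a, v1), (a, v2)} := by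
  have h12 := h.h12
  apply dd_img2 h.hα h.hβ
  · intro he
    rw [Prod.mk.injEq] at he
    exact h12.ne he.2
  · simp [h12.ne]
  · simp
  · intro s hs h1 h2
    have : s.2 ≠ v2 := fun h3 => h2 (h.hF2 s hs h3)
    simp [this]

private theorem dd_muA (h : DDF F G Q v1 v2 a b t) (hab : a < b) :
    ∀ s ∈ F, ∀ s' ∈ F, lexLt s s' → lexLt (ddMu v1 v2 s) (ddMu v1 v2 s') := by
  have h12 := h.h12
  intro s hs s' hs' hl
  by_cases h1 : s.2 = v2
  · have e1 := h.hF2 s hs h1
    by_cases h2 : s'.2 = v2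
    · have e2 := h.hF2 s' hs' h2
      rw [e1, e2] at hl
      exact absurd hl (lexLt_irrefl _)
    · rw [ddMu_o h2]
      unfold ddMu
      rw [if_pos h1]
      rcases hl with hl | ⟨hl, hl'⟩
      · exact Or.inl hl
      · refine Or.inr ⟨hl, ?_⟩
        rw [h1] at hl'
        exact h12.trans hl'
  · rw [ddMu_o h1]
    by_cases h2 : s'.2 = v2
    · have e2 := h.hF2 s' hs' h2
      unfold ddMu
      rw [if_pos h2]
      rcases hl with hl | ⟨hl, hl'⟩
      · exact Or.inl hl
      · refine Or.inr ⟨hl, ?_⟩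
        rw [h2] at hl'
        rcases lt_trichotomy s.2 v1 with h3 | h3 | h3
        · exact h3
        · have e1 := h.hF1 s hs h3
          rw [e1, e2] at hl
          exact absurd hl hab.ne
        · exact absurd ⟨h3, hl'⟩ (h.hFa s hs)
    · rw [ddMu_o h2]
      exact hl

private theorem dd_muB (h : DDF F G Q v1 v2 a b t) (hab : a < b) :
    ∀ s ∈ F, ∀ s' ∈ F, lexLt s.swap s'.swap →
      lexLt (ddMu v1 v2 s).swap (ddMu v1 v2 s').swap := by
  have h12 := h.h12
  intro s hs s' hs' hl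
  by_cases h1 : s.2 = v2
  · have e1 := h.hF2 s hs h1
    by_cases h2 : s'.2 = v2
    · have e2 := h.hF2 s' hs' h2
      rw [e1, e2] at hl
      exact absurd hl (lexLt_irrefl _)
    · rw [ddMu_o h2]
      unfold ddMu
      rw [if_pos h1]
      rcases hl with hl | ⟨hl, hl'⟩
      · refine Or.inl ?_
        simp only [Prod.fst_swap] at hl ⊢
        rw [h1] at hl
        exact h12.trans hl
      · simp only [Prod.fst_swap] at hl
        exact absurd (hl.symm.trans h1) h2
  · rw [ddMu_o h1]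
    by_cases h2 : s'.2 = v2
    · have e2 := h.hF2 s' hs' h2
      unfold ddMu
      rw [if_pos h2]
      rcases hl with hl | ⟨hl, hl'⟩
      · simp only [Prod.fst_swap] at hl
        rw [h2] at hl
        rcases lt_trichotomy s.2 v1 with h3 | h3 | h3
        · exact Or.inl h3
        · refine Or.inr ⟨h3, ?_⟩
          have e1 := h.hF1 s hs h3
          rw [e1, e2]
          exact hab
        · exact absurd ⟨h3, hl⟩ (h.hFa s hs)
      · simp only [Prod.fst_swap] at hl
        exact absurd (hl.trans h2) h1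
    · rw [ddMu_o h2]
      exact hl

private theorem dd_F1 (h : DDF F G Q v1 v2 a b t) (hab : a < b) :
    img2 (fun s : ℚ × ℚ => (s.1, if s.2 = v2 then v1 else s.2)) F = F.image (ddMu v1 v2) :=
  img2_inj (dd_inj (dd_muA h hab))

/-- labels on `F.image μ`: the level `k - 1` -/
private theorem dd_levP {μ : ℚ × ℚ → ℚ × ℚ} (hi : ∀ s ∈ F, ∀ t ∈ F, μ s = μ t → s = t)
    (h1 : ∀ s, (μ s).1 = s.1) {B0 A : ℚ × ℚ → ℕ} :
    ddLev P (F.image μ) B0 A ↔ ddLev P F B0 (A ∘ μ) := by
  constructor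
  · rintro ⟨m1, m2, m3⟩
    refine ⟨m1, ?_, ?_⟩
    · intro s hs s' hs' hne he
      apply m2 _ (Finset.mem_image_of_mem μ hs) _ (Finset.mem_image_of_mem μ hs')
      · exact fun hh => hne (hi s hs s' hs' hh)
      · rw [h1, h1, he]
    · intro p hp p' hp' s hs s' hs' e1 e2
      apply m3 p hp p' hp' _ (Finset.mem_image_of_mem μ hs) _ (Finset.mem_image_of_mem μ hs')
      · rw [h1, e1]
      · rw [h1, e2]
  · rintro ⟨m1, m2, m3⟩
    refine ⟨m1, ?_, ?_⟩
    · intro s hs s' hs' hne he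
      obtain ⟨r, hr, rfl⟩ := Finset.mem_image.1 hs
      obtain ⟨r', hr', rfl⟩ := Finset.mem_image.1 hs'
      rw [h1, h1] at he
      exact m2 r hr r' hr' (fun hh => hne (by rw [hh])) he
    · intro p hp p' hp' s hs s' hs' e1 e2
      obtain ⟨r, hr, rfl⟩ := Finset.mem_image.1 hs
      obtain ⟨r', hr', rfl⟩ := Finset.mem_image.1 hs'
      rw [h1] at e1 e2
      exact m3 p hp p' hp' r hr r' hr' e1 e2

private theorem dd_levF (h : DDF F G Q v1 v2 a b t) (hab : a < b) {B A : ℚ × ℚ → ℕ} :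
    ddLev (F.image (ddMu v1 v2)) (G \ {(v1, t), (v2, t)}) B A ↔
      ddLev F (G \ {(v1, t), (v2, t)}) (B ∘ ddMu v1 v2) A ∧ B (a, v1) = B (b, v1) := by
  have h12 := h.h12
  have hμα : ddMu v1 v2 (a, v1) = (a, v1) := ddMu_o h12.ne
  have hμβ : ddMu v1 v2 (b, v2) = (b, v1) := by
    unfold ddMu
    rw [if_pos rfl]
  have hi := dd_inj (dd_muA h hab)
  have k1 : ∀ r ∈ G \ {((v1, t) : ℚ × ℚ), (v2, t)}, r.1 ≠ v1 ∧ r.1 ≠ v2 := by
    intro r hr
    rw [dd_mem2] at hr
    exact ⟨fun hh => hr.2.1 (h.hG1 r hr.1 hh), fun hh => hr.2.2 (h.hG2 r hr.1 hh)⟩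
  have k2 : ∀ s ∈ F, ∀ r ∈ G \ {((v1, t) : ℚ × ℚ), (v2, t)},
      ((ddMu v1 v2 s).2 = r.1 ↔ s.2 = r.1) := by
    intro s hs r hr
    have k3 := k1 r hr
    by_cases h1 : s.2 = v2
    · unfold ddMu
      rw [if_pos h1, h1]
      exact ⟨fun hh => absurd hh.symm k3.1, fun hh => absurd hh.symm k3.2⟩
    · rw [ddMu_o h1]
  constructor
  · rintro ⟨m1, m2, m3⟩
    refine ⟨⟨?_, m2, ?_⟩, ?_⟩
    · intro s hs s' hs' hne he
      apply m1 _ (Finset.mem_image_of_mem _ hs) _ (Finset.mem_image_of_mem _ hs')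
      · exact fun hh => hne (hi s hs s' hs' hh)
      · unfold ddMu
        simp only [he]
    · intro s hs s' hs' r hr r' hr' e1 e2
      exact m3 _ (Finset.mem_image_of_mem _ hs) _ (Finset.mem_image_of_mem _ hs') r hr r' hr'
        ((k2 s hs r hr).2 e1) ((k2 s' hs' r' hr').2 e2)
    · apply m1
      · exact Finset.mem_image.2 ⟨_, h.hα, hμα⟩
      · exact Finset.mem_image.2 ⟨_, h.hβ, hμβ⟩
      · intro hh
        rw [Prod.mk.injEq] at hh
        exact hab.ne hh.1
      · rfl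
  · rintro ⟨⟨m1, m2, m3⟩, m4⟩
    refine ⟨?_, m2, ?_⟩
    · intro s hs s' hs' hne he
      obtain ⟨r, hr, rfl⟩ := Finset.mem_image.1 hs
      obtain ⟨r', hr', rfl⟩ := Finset.mem_image.1 hs'
      have hrr : r ≠ r' := fun hh => hne (by rw [hh])
      by_cases i1 : r.2 = v2
      · have j1 := h.hF2 r hr i1
        subst j1
        rw [hμβ] at he ⊢
        by_cases i2 : r'.2 = v2
        · exact absurd (h.hF2 r' hr' i2).symm hrr
        · rw [ddMu_o i2] at he ⊢
          have j2 := h.hF1 r' hr' he.symm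
          rw [j2]
          exact m4.symm
      · rw [ddMu_o i1] at he ⊢
        by_cases i2 : r'.2 = v2
        · have j2 := h.hF2 r' hr' i2
          subst j2
          rw [hμβ] at he ⊢
          have j1 := h.hF1 r hr he
          rw [j1]
          exact m4
        · rw [ddMu_o i2] at he ⊢
          have := m1 r hr r' hr' hrr he
          simp only [Function.comp_apply] at this
          rw [ddMu_o i1, ddMu_o i2] at this
          exact this
    · intro s hs s' hs' r hr r' hr' e1 e2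
      obtain ⟨p, hp, rfl⟩ := Finset.mem_image.1 hs
      obtain ⟨p', hp', rfl⟩ := Finset.mem_image.1 hs'
      exact m3 p hp p' hp' r hr r' hr' ((k2 p hp r hr).1 e1) ((k2 p' hp' r' hr').1 e2)

theorem finger_dd {E : Lk} {k : ℤ} (hE : Closed E) {v1 v2 a b t : ℚ} (h12 : v1 < v2)
    (hadj : ∀ v, v1 < v → v < v2 → deg E k v = 0)
    (hα : (a, v1) ∈ E (k - 1)) (hβ : (b, v2) ∈ E (k - 1)) (hγ : (v1, t) ∈ E k)
    (hγ' : (v2, t) ∈ E k) : Rul E ↔ a ≤ b ∧ Rul (mrg E k v1 v2) := by
  have hD : DDF (E (k - 1)) (E k) (E (k + 1)) v1 v2 a b t := by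
    have e1 := ud_ends hE hγ hα
    have e2 := ud_ends hE hγ' hβ
    have e3 : (v1, t) ∈ E (k + 1 - 1) := by rw [show k + 1 - 1 = k by ring]; exact hγ
    have e4 : (v2, t) ∈ E (k + 1 - 1) := by rw [show k + 1 - 1 = k by ring]; exact hγ'
    have e5 := dd_ends hE e3 e4 h12.ne
    rw [show k + 1 - 1 = k by ring] at e5
    refine ⟨h12, hα, hβ, hγ, hγ', e1.2, e2.2, e1.1, e2.1, e5.2, e5.1, ?_, ?_⟩
    · rintro s hs ⟨i1, i2⟩
      have i3 := dn_ends hE (x := s.1) (v := s.2) hs
      rw [hadj s.2 i1 i2] at i3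
      exact absurd i3 (by decide)
    · rintro s hs ⟨i1, i2⟩
      have i3 := up_ends hE (v := s.1) (x := s.2) hs
      rw [hadj s.1 i1 i2] at i3
      exact absurd i3 (by decide)
  have hout : ∀ j, j ≠ k - 1 → j ≠ k → mrg E k v1 v2 j = E j := by
    intro j h1 h2
    unfold mrg
    rw [if_neg h1, if_neg h2]
  have hmk : mrg E k v1 v2 k = E k \ {(v1, t), (v2, t)} := by
    unfold mrg
    rw [if_neg (by omega), if_pos rfl]
    exact dd_G' hD
  have hmk1 : mrg E k v1 v2 (k - 1) =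
      img2 (fun s : ℚ × ℚ => (s.1, if s.2 = v2 then v1 else s.2)) (E (k - 1)) := by
    unfold mrg
    rw [if_pos rfl]
  have hfalse : ¬ (b < a ∧ Rul E) := by
    rintro ⟨hba, A, B, hAB⟩
    obtain ⟨U, V, hB⟩ := dd_BF hD
    have h1 : ddLay (E (k - 1)) (A (k - 1)) (B (k - 1)) := ⟨(hAB (k - 1)).1, (hAB (k - 1)).2.1⟩
    have h2 := dd_no hB (Or.inl hba) h1
    obtain ⟨UA, VA, hAA⟩ := dd_AG hD
    obtain ⟨UB, VB, hBB⟩ := dd_BG hD
    have h3 : ddLay (E k) (A k) (B k) := ⟨(hAB k).1, (hAB k).2.1⟩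
    have h4 : B k (v1, t) = B k (v2, t) := by
      have h5 := (hAB (k + 1)).2.2.1
      rw [show k + 1 - 1 = k by ring] at h5
      apply h5 _ hγ _ hγ'
      · intro he
        rw [Prod.mk.injEq] at he
        exact h12.ne he.1
      · rfl
    have h5 := (dd_rem hAA hBB h3 (Or.inr h4)).1
    exact h2 (((hAB k).2.2.2.2 _ hα _ hβ _ hγ _ hγ' rfl rfl).2 h5)
  rcases lt_trichotomy a b with hab | hab | hab
  · -- case a < b
    have hmk2 : mrg E k v1 v2 (k - 1) = (E (k - 1)).image (ddMu v1 v2) := by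
      rw [hmk1, dd_F1 hD hab]
    have hi := dd_inj (dd_muA hD hab)
    have hμα : ddMu v1 v2 (a, v1) = (a, v1) := ddMu_o h12.ne
    have hμβ : ddMu v1 v2 (b, v2) = (b, v1) := by
      unfold ddMu
      rw [if_pos rfl]
    constructor
    · intro hR
      refine ⟨hab.le, ?_⟩
      revert hR
      apply dd_transfer hout
      intro B0 A3 A1 B1 A2 B2 hl
      obtain ⟨f1, f2, f3⟩ := dd_fwd hD hl
      obtain ⟨l1, l2, l3, l4, l5⟩ := hl
      classical
      set ν : ℚ × ℚ → ℚ × ℚ := fun s => if s = (b, v1) then (b, v2) else s with hν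
      have hνμ : ∀ s ∈ E (k - 1), ν (ddMu v1 v2 s) = s := by
        intro s hs
        by_cases i1 : s.2 = v2
        · have := hD.hF2 s hs i1
          rw [this, hμβ]
          simp [hν]
        · rw [ddMu_o i1]
          simp only [hν]
          rw [if_neg]
          rintro rfl
          have := hD.hF1 _ hs rfl
          rw [Prod.mk.injEq] at this
          exact hab.ne this.1.symm
      refine ⟨A1 ∘ ν, B1 ∘ ν, A2, B2, ?_⟩
      rw [hmk2, hmk]
      refine ⟨?_, f2, ?_, ?_, f3⟩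
      · rw [dd_img (dd_muA hD hab) (dd_muB hD hab)]
        apply dd_congr _ _ l1
        · intro s hs
          simp only [Function.comp_apply, hνμ s hs]
        · intro s hs
          simp only [Function.comp_apply, hνμ s hs]
      · rw [dd_levP hi (fun s => rfl)]
        refine ⟨l3.1, ?_, ?_⟩
        · intro s hs s' hs' hne he
          simp only [Function.comp_apply, hνμ s hs, hνμ s' hs']
          exact l3.2.1 s hs s' hs' hne he
        · intro p hp p' hp' s hs s' hs' e1 e2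
          simp only [Function.comp_apply, hνμ s hs, hνμ s' hs']
          exact l3.2.2 p hp p' hp' s hs s' hs' e1 e2
      · rw [dd_levF hD hab]
        refine ⟨⟨?_, ?_, ?_⟩, ?_⟩
        · intro s hs s' hs' hne he
          simp only [Function.comp_apply, hνμ s hs, hνμ s' hs']
          exact l4.1 s hs s' hs' hne he
        · intro s hs s' hs'
          exact l4.2.1 s (dd_mem2.1 hs).1 s' (dd_mem2.1 hs').1
        · intro p hp p' hp' s hs s' hs' e1 e2
          simp only [Function.comp_apply, hνμ p hp, hνμ p' hp']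
          exact l4.2.2 p hp p' hp' s (dd_mem2.1 hs).1 s' (dd_mem2.1 hs').1 e1 e2
        · have i1 := hνμ _ hα
          have i2 := hνμ _ hβ
          rw [hμα] at i1
          rw [hμβ] at i2
          simp only [Function.comp_apply, i1, i2]
          exact f1
    · rintro ⟨_, hR⟩
      revert hR
      apply dd_transfer (k := k) (fun j h1 h2 => (hout j h1 h2).symm)
      intro B0 A3 A1 B1 A2 B2 hl
      rw [hmk2, hmk, hout (k - 2) (by omega) (by omega), hout (k + 1) (by omega) (by omega)] at hl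
      rw [hout (k - 2) (by omega) (by omega), hout (k + 1) (by omega) (by omega)]
      obtain ⟨l1, l2, l3, l4, l5⟩ := hl
      rw [dd_img (dd_muA hD hab) (dd_muB hD hab)] at l1
      rw [dd_levP hi (fun s => rfl)] at l3
      rw [dd_levF hD hab] at l4
      obtain ⟨A2', B2', g1, g2, g3⟩ := dd_bwd hD l1 l2 l4.1 l5 (by
        simp only [Function.comp_apply, hμα, hμβ]
        exact l4.2)
      exact ⟨_, _, A2', B2', l1, g1, l3, g2, g3⟩
  · -- case a = b
    subst hab
    have hmk2 : mrg E k v1 v2 (k - 1) = E (k - 1) \ {(a, v1), (a, v2)} := by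
      rw [hmk1, dd_F0 hD]
    have hends := uu_ends (k := k - 1) hE hα hβ h12.ne
    rw [show k - 1 - 1 = k - 2 by ring] at hends
    obtain ⟨UA, VA, hAF⟩ := dd_AF hD hends.2
    obtain ⟨UB, VB, hBF⟩ := dd_BF hD
    have hne : ((a, v1) : ℚ × ℚ) ≠ (a, v2) := by
      intro he
      rw [Prod.mk.injEq] at he
      exact h12.ne he.2
    constructor
    · intro hR
      refine ⟨le_rfl, ?_⟩
      revert hR
      apply dd_transfer hout
      intro B0 A3 A1 B1 A2 B2 hl
      obtain ⟨f1, f2, f3⟩ := dd_fwd hD hl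
      obtain ⟨l1, l2, l3, l4, l5⟩ := hl
      have f4 := (dd_rem hAF hBF l1 (Or.inr f1)).2.2
      refine ⟨A1, B1, A2, B2, ?_⟩
      rw [hmk2, hmk]
      refine ⟨f4, f2, ⟨l3.1, ?_, ?_⟩, ⟨?_, ?_, ?_⟩, f3⟩
      · intro s hs s' hs'
        exact l3.2.1 s (dd_mem2.1 hs).1 s' (dd_mem2.1 hs').1
      · intro p hp p' hp' s hs s' hs'
        exact l3.2.2 p hp p' hp' s (dd_mem2.1 hs).1 s' (dd_mem2.1 hs').1
      · intro s hs s' hs'
        exact l4.1 s (dd_mem2.1 hs).1 s' (dd_mem2.1 hs').1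
      · intro s hs s' hs'
        exact l4.2.1 s (dd_mem2.1 hs).1 s' (dd_mem2.1 hs').1
      · intro p hp p' hp' s hs s' hs'
        exact l4.2.2 p (dd_mem2.1 hp).1 p' (dd_mem2.1 hp').1 s (dd_mem2.1 hs).1 s'
          (dd_mem2.1 hs').1
    · rintro ⟨_, hR⟩
      revert hR
      apply dd_transfer (k := k) (fun j h1 h2 => (hout j h1 h2).symm)
      intro B0 A3 A1 B1 A2 B2 hl
      rw [hmk2, hmk, hout (k - 2) (by omega) (by omega), hout (k + 1) (by omega) (by omega)] at hl
      rw [hout (k - 2) (by omega) (by omega), hout (k + 1) (by omega) (by omega)]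
      obtain ⟨l1, l2, l3, l4, l5⟩ := hl
      obtain ⟨q, hq1, hq2, g1⟩ := dd_add hAF hBF l1
      have k0 : ∀ s ∈ E (k - 1), ¬ (s = (a, v1) ∨ s = (a, v2)) →
          s ∈ E (k - 1) \ {(a, v1), (a, v2)} := by
        intro s hs hn
        rw [not_or] at hn
        exact dd_mem2.2 ⟨hs, hn⟩
      have k1 : ∀ A : ℚ × ℚ → ℕ, ∀ s, (s = (a, v1) ∨ s = (a, v2)) →
          ddUp (a, v1) (a, v2) q A s = q := by
        intro A s hs
        rcases hs with rfl | rfl
        · exact ddUp_x _ _ _ _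
        · exact ddUp_y _ _ _ _
      have k2 : ∀ A : ℚ × ℚ → ℕ, ∀ s, ¬ (s = (a, v1) ∨ s = (a, v2)) →
          ddUp (a, v1) (a, v2) q A s = A s := by
        intro A s hs
        rw [not_or] at hs
        exact ddUp_o q A hs.1 hs.2
      have l4' : ddLev (E (k - 1)) (E k \ {(v1, t), (v2, t)}) (ddUp (a, v1) (a, v2) q B1) A2 := by
        refine ⟨?_, l4.2.1, ?_⟩
        · have key : ∀ s ∈ E (k - 1), ∀ s' ∈ E (k - 1), s ≠ s' → s.2 = s'.2 →
              ¬ (s = (a, v1) ∨ s = (a, v2)) := by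
            rintro s hs s' hs' hss he (rfl | rfl)
            · exact hss (hD.hF1 s' hs' he.symm).symm
            · exact hss (hD.hF2 s' hs' he.symm).symm
          intro s hs s' hs' hss he
          have i1 := key s hs s' hs' hss he
          have i2 := key s' hs' s hs hss.symm he.symm
          rw [k2 B1 s i1, k2 B1 s' i2]
          exact l4.1 s (k0 s hs i1) s' (k0 s' hs' i2) hss he
        · have key : ∀ s ∈ E (k - 1), ∀ r ∈ E k \ {((v1, t) : ℚ × ℚ), (v2, t)}, s.2 = r.1 →
              ¬ (s = (a, v1) ∨ s = (a, v2)) := by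
            rintro s hs r hr he (rfl | rfl)
            · rw [dd_mem2] at hr
              exact hr.2.1 (hD.hG1 r hr.1 he.symm)
            · rw [dd_mem2] at hr
              exact hr.2.2 (hD.hG2 r hr.1 he.symm)
          intro s hs s' hs' r hr r' hr' e1 e2
          have i1 := key s hs r hr e1
          have i2 := key s' hs' r' hr' e2
          rw [k2 B1 s i1, k2 B1 s' i2]
          exact l4.2.2 s (k0 s hs i1) s' (k0 s' hs' i2) r hr r' hr' e1 e2
      have l3' : ddLev (E (k - 2)) (E (k - 1)) B0 (ddUp (a, v1) (a, v2) q A1) := by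
        refine ⟨l3.1, ?_, ?_⟩
        · intro s hs s' hs' hss he
          by_cases i1 : s = (a, v1) ∨ s = (a, v2)
          · have i3 : s.1 = a := by rcases i1 with rfl | rfl <;> rfl
            have i2 := hends.2 s' hs' (by rw [← he, i3])
            rw [k1 A1 s i1, k1 A1 s' i2]
          · by_cases i2 : s' = (a, v1) ∨ s' = (a, v2)
            · have i3 : s'.1 = a := by rcases i2 with rfl | rfl <;> rfl
              exact absurd (hends.2 s hs (by rw [he, i3])) i1
            · rw [k2 A1 s i1, k2 A1 s' i2]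
              exact l3.2.1 s (k0 s hs i1) s' (k0 s' hs' i2) hss he
        · have key : ∀ p ∈ E (k - 2), ∀ s ∈ E (k - 1), p.2 = s.1 →
              ¬ (s = (a, v1) ∨ s = (a, v2)) := by
            rintro p hp s hs he (rfl | rfl)
            · exact hends.1 p hp he
            · exact hends.1 p hp he
          intro p hp p' hp' s hs s' hs' e1 e2
          have i1 := key p hp s hs e1
          have i2 := key p' hp' s' hs' e2
          rw [k2 A1 s i1, k2 A1 s' i2]
          exact l3.2.2 p hp p' hp' s (k0 s hs i1) s' (k0 s' hs' i2) e1 e2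
      obtain ⟨A2', B2', g2, g3, g4⟩ := dd_bwd hD g1 l2 l4' l5 (by
        rw [ddUp_x, ddUp_y])
      exact ⟨_, _, A2', B2', g1, g2, l3', g3, g4⟩
  · -- case b < a
    constructor
    · intro hR
      exact absurd ⟨hab, hR⟩ hfalse
    · rintro ⟨h, _⟩
      exact absurd h (not_le.2 hab)

end Pool.Agent.Helper24.RUL
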