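import Pool.Agent.Helper24.RUL.FingerDef

/-!
# RUL-13: finger lemma, case up/down (project RUL, MP_409f7f_co)

Names in layer `k`: `α = (v1, a)`, `γ = (v1, t)`, `γ' = (v2, t)`; in layer `k - 1`: `β = (b, v2)`.
`mrg E k v1 v2` is `E` with `γ, γ'` removed and `β` renamed `(b, v1)`.
* `t < a`: `AL (E k) = U ++ γ :: α :: γ' :: V`, `M = U ++ γ :: γ' :: α :: V`: one crossing of `α, γ'`. `γ`, `α` have
  the label `y` (birth), `γ'` the label `x` of `β`; at `M` the labels of `γ, γ'` are equal
  (`pair_nat'`), so the crossing is a switch (allowed), afterwards `α` has the label `x`; `pair_nat`.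
* `a < t`: `AL = U ++ α :: γ :: γ' :: V`: `γ, γ'` equal by `pair_nat'` and `α, γ` equal: three times.
See `FingerDU.lean` for the details of the method.
-/

namespace Pool.Agent.Helper24.RUL

namespace UDAux

theorem two_facts {W Z : List ℕ} {x y : ℕ} (h2 : Two (W ++ y :: y :: x :: Z)) :
    x ≠ y ∧ y ∉ W ∧ y ∉ Z ∧ x ∈ Z ++ W := by
  have hy := h2 y (by simp)
  have hx := h2 x (by simp)
  have hxy : x ≠ y := by
    rintro rfl
    simp [List.count_append] at hy
    omega
  rw [List.count_append, List.count_cons_self, List.count_cons_self,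
    List.count_cons_of_ne hxy] at hy
  rw [List.count_append, List.count_cons_of_ne hxy.symm, List.count_cons_of_ne hxy.symm,
    List.count_cons_self] at hx
  refine ⟨hxy, ?_, ?_, ?_⟩
  · exact List.count_eq_zero.1 (by omega)
  · exact List.count_eq_zero.1 (by omega)
  · rw [List.mem_append]
    by_contra hc
    push Not at hc
    have h1 := List.count_eq_zero.2 hc.1
    have h3 := List.count_eq_zero.2 hc.2
    omega

theorem two_small {W Z : List ℕ} {x y : ℕ} (h2 : Two (W ++ y :: y :: x :: Z)) :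
    Two (W ++ x :: Z) := by
  obtain ⟨hxy, hW, hZ, -⟩ := two_facts h2
  intro p hp
  have hpy : y ≠ p := by
    rintro rfl
    rw [List.mem_append, List.mem_cons] at hp
    rcases hp with h | h | h
    · exact hW h
    · exact hxy h.symm
    · exact hZ h
  have hp' := h2 p (by
    rw [List.mem_append] at hp ⊢
    rcases hp with h | h
    · exact Or.inl h
    · exact Or.inr (List.mem_cons_of_mem _ (List.mem_cons_of_mem _ h)))
  rw [List.count_append, List.count_cons_of_ne hpy, List.count_cons_of_ne hpy,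
    ← List.count_append] at hp'
  exact hp'

theorem two_big {W Z : List ℕ} {x y : ℕ} (h2 : Two (W ++ x :: Z)) (hy : y ∉ W ++ x :: Z) :
    Two (W ++ y :: y :: x :: Z) := by
  intro p hp
  rw [List.count_append]
  by_cases hpy : y = p
  · subst hpy
    rw [List.count_cons_self, List.count_cons_self]
    have := List.count_eq_zero.2 hy
    rw [List.count_append] at this
    omega
  · rw [List.count_cons_of_ne hpy, List.count_cons_of_ne hpy, ← List.count_append]
    refine h2 p ?_
    rw [List.mem_append] at hp ⊢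
    rcases hp with h | h
    · exact Or.inl h
    · rw [List.mem_cons, List.mem_cons] at h
      rcases h with h | h | h
      · exact absurd h.symm hpy
      · exact absurd h.symm hpy
      · exact Or.inr h

theorem switch_ok {W Z : List ℕ} {x y : ℕ} (h2 : Two (W ++ y :: y :: x :: Z)) :
    (Z ++ (W ++ [y])).idxOf x < (Z ++ (W ++ [y])).idxOf y := by
  obtain ⟨hxy, hW, hZ, hx⟩ := two_facts h2
  have hyn : y ∉ Z ++ W := by
    rw [List.mem_append]
    rintro (h | h)
    · exact hZ h
    · exact hW h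
  rw [← List.append_assoc, List.idxOf_append_of_mem hx, List.idxOf_append_of_notMem hyn]
  have := List.idxOf_lt_length_of_mem hx
  omega

/-- Exchange of neighbours. -/
theorem idx_swap {ι : Type*} [DecidableEq ι] {U V : List ι} {p q : ι}
    (hnd : (U ++ p :: q :: V).Nodup) {s t : ι} (hs : s ∈ U ++ p :: q :: V)
    (ht : t ∈ U ++ p :: q :: V) (hst : (U ++ p :: q :: V).idxOf s < (U ++ p :: q :: V).idxOf t)
    (hne : ¬ (s = p ∧ t = q)) : (U ++ q :: p :: V).idxOf s < (U ++ q :: p :: V).idxOf t := by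
  have hpU : p ∉ U := fun h => (List.nodup_append.1 hnd).2.2 p h p (by simp) rfl
  have hqU : q ∉ U := fun h => (List.nodup_append.1 hnd).2.2 q h q (by simp) rfl
  have hpq : p ≠ q := by
    have := (List.nodup_append.1 hnd).2.1
    rintro rfl
    simp at this
  have e1 : (U ++ p :: q :: V).idxOf p = U.length := by
    rw [List.idxOf_append_of_notMem hpU]
    simp
  have e2 : (U ++ p :: q :: V).idxOf q = U.length + 1 := by
    rw [List.idxOf_append_of_notMem hqU, List.idxOf_cons_ne _ hpq]
    simp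
  have e3 : (U ++ q :: p :: V).idxOf q = U.length := by
    rw [List.idxOf_append_of_notMem hqU]
    simp
  have e4 : (U ++ q :: p :: V).idxOf p = U.length + 1 := by
    rw [List.idxOf_append_of_notMem hpU, List.idxOf_cons_ne _ hpq.symm]
    simp
  have e5 : ∀ r, r ≠ p → r ≠ q → (U ++ q :: p :: V).idxOf r = (U ++ p :: q :: V).idxOf r := by
    intro r h1 h2
    by_cases hr : r ∈ U
    · rw [List.idxOf_append_of_mem hr, List.idxOf_append_of_mem hr]
    · rw [List.idxOf_append_of_notMem hr, List.idxOf_append_of_notMem hr,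
        List.idxOf_cons_ne _ h2.symm, List.idxOf_cons_ne _ h1.symm,
        List.idxOf_cons_ne _ h1.symm, List.idxOf_cons_ne _ h2.symm]
  have inj : ∀ r ∈ U ++ p :: q :: V, ∀ r', (U ++ p :: q :: V).idxOf r =
      (U ++ p :: q :: V).idxOf r' → r = r' := fun r hr r' h => (List.idxOf_inj hr).1 h
  by_cases hsp : s = p
  · subst hsp
    have htq : t ≠ q := fun h => hne ⟨rfl, h⟩
    have hts : t ≠ s := by
      rintro rfl
      exact lt_irrefl _ hst
    rw [e4, e5 t hts htq]
    rw [e1] at hst
    have : (U ++ s :: q :: V).idxOf t ≠ U.length + 1 := by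
      intro h
      exact htq (inj t ht q (h.trans e2.symm))
    omega
  by_cases hsq : s = q
  · subst hsq
    have hts : t ≠ s := by
      rintro rfl
      exact lt_irrefl _ hst
    rw [e2] at hst
    have htp : t ≠ p := by
      rintro rfl
      rw [e1] at hst
      omega
    rw [e3, e5 t htp hts]
    omega
  rw [e5 s hsp hsq]
  by_cases htp : t = p
  · subst htp
    rw [e4]
    rw [e1] at hst
    omega
  by_cases htq : t = q
  · subst htq
    rw [e3]
    rw [e2] at hst
    have : (U ++ p :: t :: V).idxOf s ≠ U.length := by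
      intro h
      exact hsp (inj s hs p (h.trans e1.symm))
    omega
  rw [e5 t htp htq]
  exact hst

/-- The layer lemma, `t < a`. -/
theorem layer_lt {ι : Type*} [DecidableEq ι] {U V U2 V2 : List ι} {c g g' : ι}
    (hnd : (U ++ g :: c :: g' :: V).Nodup) (hP : (U ++ c :: V).Perm (U2 ++ V2))
    (hlast : c ∈ V2)
    {W Z W' Z' : List ℕ} {x y p : ℕ} (hW : W.length = U.length) (hZ : Z.length = V.length)
    (hW' : W'.length = U2.length) (h2 : Two (W ++ y :: y :: x :: Z)) :
    Srt (U2 ++ g :: g' :: V2) (U ++ g :: c :: g' :: V) (W ++ y :: y :: x :: Z)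
      (W' ++ p :: p :: Z') ↔
      (p ∉ W' ∧ p ∉ Z') ∧ Srt (U2 ++ V2) (U ++ c :: V) (W ++ x :: Z) (W' ++ Z') := by
  have hnd' : (U ++ g :: g' :: c :: V).Nodup := by
    refine (List.Perm.nodup_iff ?_).1 hnd
    exact List.Perm.append_left _ (List.Perm.cons _ (List.Perm.swap _ _ _))
  have hLT : (U ++ g :: c :: g' :: V).Perm (U2 ++ g :: g' :: V2) := by
    have h1 : (U ++ g :: c :: g' :: V).Perm (g :: g' :: (U ++ c :: V)) := by
      refine List.perm_middle.trans (List.Perm.cons _ ?_)
      have : (U ++ c :: g' :: V) = (U ++ [c]) ++ g' :: V := by simp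
      rw [this]
      refine List.perm_middle.trans (List.Perm.cons _ ?_)
      simp
    have h3 : (U2 ++ g :: g' :: V2).Perm (g :: g' :: (U2 ++ V2)) :=
      List.perm_middle.trans (List.Perm.cons _ List.perm_middle)
    exact h1.trans (((hP.cons _).cons _).trans h3.symm)
  have hb : Btw (U ++ g :: c :: g' :: V) (U ++ g :: g' :: c :: V) (U2 ++ g :: g' :: V2) := by
    intro s hs t ht h1 h3
    have e1 : U ++ g :: c :: g' :: V = (U ++ [g]) ++ c :: g' :: V := by simp
    have e2 : U ++ g :: g' :: c :: V = (U ++ [g]) ++ g' :: c :: V := by simp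
    rw [e1] at hs ht h1 hnd
    rw [e2]
    refine idx_swap hnd hs ht h1 ?_
    rintro ⟨rfl, rfl⟩
    have hnd2 := (List.Perm.nodup_iff hLT).1 (by rw [e1]; exact hnd)
    have h5 : s ∉ U2 := fun h => (List.nodup_append.1 hnd2).2.2 s h s
      (List.mem_cons_of_mem _ (List.mem_cons_of_mem _ hlast)) rfl
    have h6 : t ∉ U2 := fun h => (List.nodup_append.1 hnd2).2.2 t h t (by simp) rfl
    have h7 := (List.nodup_append.1 hnd2).2.1
    rw [List.nodup_cons, List.nodup_cons, List.mem_cons, not_or] at h7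
    have h8 : g ≠ s := fun h => h7.1.2 (h ▸ hlast)
    have h9 : t ≠ s := fun h => h7.2.1 (h ▸ hlast)
    rw [List.idxOf_append_of_notMem h5, List.idxOf_append_of_notMem h6,
      List.idxOf_cons_ne _ h8, List.idxOf_cons_ne _ h9, List.idxOf_cons_ne _ h7.1.1,
      List.idxOf_cons_self] at h3
    omega
  have hM : (U ++ g :: c :: g' :: V).Perm (U ++ g :: g' :: c :: V) :=
    List.Perm.append_left _ (List.Perm.cons _ (List.Perm.swap _ _ _))
  have key : Srt (U2 ++ g :: g' :: V2) (U ++ g :: g' :: c :: V) (W ++ y :: y :: x :: Z)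
      (W' ++ p :: p :: Z') ↔
      (p ∉ W' ∧ p ∉ Z') ∧ Srt (U2 ++ V2) (U ++ c :: V) (W ++ x :: Z) (W' ++ Z') := by
    rw [show W ++ y :: y :: x :: Z = W ++ y :: y :: (x :: Z) from rfl]
    rw [pair_nat (U := U) (V := c :: V) hnd' hP hW (by simp [hZ]) h2]
    constructor
    · rintro ⟨W1, Z1, q, he, hl, hq1, hq2, hs⟩
      obtain ⟨h1, h3⟩ := List.append_inj he (by rw [hW', hl])
      simp only [List.cons.injEq] at h3
      obtain ⟨rfl, -, rfl⟩ := h3
      subst h1
      exact ⟨⟨hq1, hq2⟩, hs⟩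
    · rintro ⟨⟨hq1, hq2⟩, hs⟩
      exact ⟨W', Z', p, rfl, hW', hq1, hq2, hs⟩
  rw [← key]
  rw [srtN_through h2 hnd hM hLT hb]
  have hone : ∀ u, Srt (U ++ g :: g' :: c :: V) (U ++ g :: c :: g' :: V)
      (W ++ y :: y :: x :: Z) u ↔ CrN (U ++ [g]).length (W ++ y :: y :: x :: Z) u := by
    intro u
    have e1 : U ++ g :: c :: g' :: V = (U ++ [g]) ++ c :: g' :: V := by simp
    have e2 : U ++ g :: g' :: c :: V = (U ++ [g]) ++ g' :: c :: V := by simp
    rw [e1] at hnd
    rw [e1, e2]
    exact srtN_one hnd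
  have hcr : ∀ u, CrN (U ++ [g]).length (W ++ y :: y :: x :: Z) u ↔
      y ≠ x ∧ (Ren (W ++ y :: x :: y :: Z) u ∨ (Ren (W ++ y :: y :: x :: Z) u ∧
        (Z ++ (W ++ [y])).idxOf x < (Z ++ (W ++ [y])).idxOf y)) := by
    intro u
    have e1 : W ++ y :: y :: x :: Z = (W ++ [y]) ++ y :: x :: Z := by simp
    have e2 : (U ++ [g]).length = (W ++ [y]).length := by simp [hW]
    rw [e1, e2, crN_iff]
    simp only [List.append_assoc, List.cons_append, List.nil_append]
  constructor
  · rintro ⟨u, hu1, hu2⟩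
    rw [hone, hcr] at hu1
    obtain ⟨hyx, hu | ⟨hu, -⟩⟩ := hu1
    · exfalso
      have hu3 := hu2.ren hu.symm (Ren.refl _)
      have h2' : Two (W ++ y :: x :: y :: Z) := by
        intro q hq
        have hperm : (W ++ y :: x :: y :: Z).Perm (W ++ y :: y :: x :: Z) :=
          List.Perm.append_left _ (List.Perm.cons _ (List.Perm.swap _ _ _))
        rw [hperm.count_eq]
        exact h2 q (hperm.mem_iff.1 hq)
      obtain ⟨W1, Z1, q, he, hl, -⟩ := pair_nat' (U := U) (V := c :: V) hnd' hP hW'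
        (by simp [hW, hZ]) h2' hu3
      obtain ⟨-, h3⟩ := List.append_inj he (by rw [hW, hl])
      simp only [List.cons.injEq] at h3
      exact hyx (h3.1.trans h3.2.1.symm)
    · exact hu2.ren hu.symm (Ren.refl _)
  · intro h
    refine ⟨W ++ y :: y :: x :: Z, ?_, h⟩
    rw [hone, hcr]
    exact ⟨(two_facts h2).1.symm, Or.inr ⟨Ren.refl _, switch_ok h2⟩⟩

/-- The layer lemma, `a < t`. -/
theorem layer_gt {ι : Type*} [DecidableEq ι] {U V U2 V2 : List ι} {c g g' : ι}
    (hnd : (U ++ c :: g :: g' :: V).Nodup) (hP : (U ++ c :: V).Perm (U2 ++ V2))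
    {W Z W' Z' : List ℕ} {x y p : ℕ} (hW : W.length = U.length) (hZ : Z.length = V.length)
    (hW' : W'.length = U2.length) (h2 : Two (W ++ y :: y :: x :: Z)) :
    ¬ Srt (U2 ++ g :: g' :: V2) (U ++ c :: g :: g' :: V) (W ++ y :: y :: x :: Z)
      (W' ++ p :: p :: Z') := by
  intro h
  have e1 : U ++ c :: g :: g' :: V = (U ++ [c]) ++ g :: g' :: V := by simp
  rw [e1] at hnd h
  have hP' : ((U ++ [c]) ++ V).Perm (U2 ++ V2) := by simpa using hP
  obtain ⟨W1, Z1, q, he, hl, -⟩ := pair_nat' hnd hP' hW' (by simp [hW, hZ]) h2 h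
  have e2 : W ++ y :: y :: x :: Z = (W ++ [y]) ++ y :: x :: Z := by simp
  rw [e2] at he
  obtain ⟨-, h3⟩ := List.append_inj he (by simp [hW, hl])
  simp only [List.cons.injEq] at h3
  exact (two_facts h2).1 (h3.2.1.trans h3.1.symm)

/-- `Lev` as a property of two layers. -/
def LevF (D U : Finset (ℚ × ℚ)) (b a : ℚ × ℚ → ℕ) : Prop :=
  (∀ s ∈ D, ∀ s' ∈ D, s ≠ s' → s.2 = s'.2 → b s = b s') ∧
  (∀ t ∈ U, ∀ t' ∈ U, t ≠ t' → t.1 = t'.1 → a t = a t') ∧
  (∀ s ∈ D, ∀ s' ∈ D, ∀ t ∈ U, ∀ t' ∈ U, s.2 = t.1 → s'.2 = t'.1 → (b s = b s' ↔ a t = a t'))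

theorem lev_iff {E : Lk} {k : ℤ} {b a : ℚ × ℚ → ℕ} :
    Lev E k b a ↔ LevF (E (k - 1)) (E k) b a := Iff.rfl

/-- A layer with labels. -/
def LayF (F : Finset (ℚ × ℚ)) (a b : ℚ × ℚ → ℕ) : Prop :=
  Two ((AL F).map a) ∧ Srt (BL F) (AL F) ((AL F).map a) ((BL F).map b)

theorem rul_iff {E : Lk} : Rul E ↔ ∃ a b : ℤ → ℚ × ℚ → ℕ, ∀ k : ℤ,
    LayF (E k) (a k) (b k) ∧ LevF (E (k - 1)) (E k) (b (k - 1)) (a k) := by
  constructor
  · rintro ⟨a, b, h⟩
    exact ⟨a, b, fun k => ⟨⟨(h k).1, (h k).2.1⟩, (h k).2.2⟩⟩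
  · rintro ⟨a, b, h⟩
    exact ⟨a, b, fun k => ⟨(h k).1.1, (h k).1.2, (h k).2⟩⟩

theorem rul_build {E : Lk} {k : ℤ} (a b : ℤ → ℚ × ℚ → ℕ) (a0 b0 a1 b1 : ℚ × ℚ → ℕ)
    (hF : ∀ j, j ≠ k → j ≠ k - 1 → LayF (E j) (a j) (b j))
    (hL : ∀ j, j ≠ k → j ≠ k - 1 → j ≠ k + 1 → LevF (E (j - 1)) (E j) (b (j - 1)) (a j))
    (h0 : LayF (E (k - 1)) a0 b0) (h1 : LayF (E k) a1 b1)
    (l0 : LevF (E (k - 1 - 1)) (E (k - 1)) (b (k - 1 - 1)) a0)
    (l1 : LevF (E (k - 1)) (E k) b0 a1)
    (l2 : LevF (E k) (E (k + 1)) b1 (a (k + 1))) : Rul E := by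
  rw [rul_iff]
  refine ⟨fun j => if j = k then a1 else if j = k - 1 then a0 else a j,
    fun j => if j = k then b1 else if j = k - 1 then b0 else b j, fun j => ?_⟩
  rcases eq_or_ne j k with rfl | hjk
  · have e1 : ¬ (j - 1 = j) := by omega
    simp only [if_true, if_neg e1]
    exact ⟨h1, l1⟩
  rcases eq_or_ne j (k - 1) with rfl | hjk1
  · have e1 : ¬ (k - 1 = k) := by omega
    have e2 : ¬ (k - 1 - 1 = k) := by omega
    have e3 : ¬ (k - 1 - 1 = k - 1) := by omega
    simp only [if_true, if_neg e1, if_neg e2, if_neg e3]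
    exact ⟨h0, l0⟩
  rcases eq_or_ne j (k + 1) with rfl | hjk2
  · have e3 : k + 1 - 1 = k := by omega
    simp only [if_neg hjk, if_neg hjk1, e3, if_true]
    exact ⟨hF _ hjk hjk1, l2⟩
  · have e1 : ¬ (j - 1 = k) := by omega
    have e2 : ¬ (j - 1 = k - 1) := by omega
    simp only [if_neg hjk, if_neg hjk1, if_neg e1, if_neg e2]
    exact ⟨hF _ hjk hjk1, hL _ hjk hjk1 hjk2⟩

/-- The renaming in layer `k - 1`. -/
def psi (v1 v2 : ℚ) (s : ℚ × ℚ) : ℚ × ℚ := (s.1, if s.2 = v2 then v1 else s.2)

theorem mrg_other {E : Lk} {k j : ℤ} {v1 v2 : ℚ} (h : j ≠ k) (h' : j ≠ k - 1) :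
    mrg E k v1 v2 j = E j := by
  unfold mrg
  rw [if_neg h', if_neg h]

theorem mrg_dn {E : Lk} {k : ℤ} {v1 v2 : ℚ} (hv1 : ∀ s ∈ E (k - 1), s.2 ≠ v1) :
    mrg E k v1 v2 (k - 1) = (E (k - 1)).image (psi v1 v2) := by
  unfold mrg
  rw [if_pos rfl]
  refine img2_inj (fun s hs s' hs' h => ?_)
  simp only [Prod.mk.injEq] at h
  obtain ⟨h1, h2⟩ := h
  refine Prod.ext h1 ?_
  split_ifs at h2 with h3 h4 h4
  · rw [h3, h4]
  · exact absurd h2.symm (hv1 s' hs')
  · exact absurd h2 (hv1 s hs)
  · exact h2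

theorem mrg_up {E : Lk} {k : ℤ} {v1 v2 t : ℚ} (h12 : v1 ≠ v2) (hγ : (v1, t) ∈ E k)
    (hγ' : (v2, t) ∈ E k) (hv2 : ∀ s ∈ E k, s.1 = v2 → s = (v2, t)) :
    mrg E k v1 v2 k = (E k) \ {(v1, t), (v2, t)} := by
  have e1 : ¬ (k = k - 1) := by omega
  unfold mrg
  rw [if_neg e1, if_pos rfl]
  ext e
  rw [mem_img2, Finset.mem_sdiff, Finset.mem_insert, Finset.mem_singleton]
  by_cases he : e = (v1, t)
  · have h1 : (E k).filter (fun s => (if s.1 = v2 then v1 else s.1, s.2) = e) =
        {(v1, t), (v2, t)} := by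
      ext s
      rw [Finset.mem_filter, Finset.mem_insert, Finset.mem_singleton]
      constructor
      · rintro ⟨hs, h⟩
        rw [he] at h
        simp only [Prod.mk.injEq] at h
        by_cases h3 : s.1 = v2
        · exact Or.inr (hv2 s hs h3)
        · rw [if_neg h3] at h
          exact Or.inl (Prod.ext h.1 h.2)
      · rintro (rfl | rfl)
        · refine ⟨hγ, ?_⟩
          rw [if_neg h12, he]
        · refine ⟨hγ', ?_⟩
          rw [if_pos rfl, he]
    rw [h1, Finset.card_pair (by simp [h12])]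
    constructor
    · intro h
      exact absurd h (by decide)
    · rintro ⟨-, h⟩
      exact absurd (Or.inl he) h
  by_cases he2 : e.1 = v2
  · have h1 : (E k).filter (fun s => (if s.1 = v2 then v1 else s.1, s.2) = e) = ∅ := by
      rw [Finset.filter_eq_empty_iff]
      intro s hs h
      rw [← h] at he2
      simp only at he2
      by_cases h3 : s.1 = v2
      · rw [if_pos h3] at he2
        exact h12 he2
      · rw [if_neg h3] at he2
        exact h3 he2
    rw [h1]
    constructor
    · intro h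
      exact absurd h (by decide)
    · rintro ⟨h, h'⟩
      exact absurd (Or.inr (hv2 e h he2)) h'
  · have h1 : (E k).filter (fun s => (if s.1 = v2 then v1 else s.1, s.2) = e) =
        (E k).filter (fun s => s = e) := by
      refine Finset.filter_congr (fun s hs => ?_)
      by_cases h3 : s.1 = v2
      · have h4 := hv2 s hs h3
        rw [if_pos h3, h4]
        constructor
        · intro h
          exact absurd h.symm he
        · intro h
          rw [← h] at he2
          exact absurd rfl he2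
      · rw [if_neg h3]
    rw [h1, Finset.filter_eq']
    by_cases h5 : e ∈ E k
    · rw [if_pos h5, Finset.card_singleton]
      refine ⟨fun _ => ⟨h5, ?_⟩, fun _ => odd_one⟩
      rintro (h | h)
      · exact he h
      · exact he2 (by rw [h])
    · rw [if_neg h5]
      constructor
      · intro h
        exact absurd h (by decide)
      · rintro ⟨h, -⟩
        exact absurd h h5

/-- The lists of layer `k`. -/
theorem shapes {F : Finset (ℚ × ℚ)} {v1 v2 a t : ℚ} (h12 : v1 < v2)
    (hbt : ∀ s ∈ F, ¬ (v1 < s.1 ∧ s.1 < v2)) (hα : (v1, a) ∈ F) (hγ : (v1, t) ∈ F)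
    (hγ' : (v2, t) ∈ F) (hat : a ≠ t) (h1 : ∀ s ∈ F, s.1 = v1 → s = (v1, a) ∨ s = (v1, t))
    (h2 : ∀ s ∈ F, s.1 = v2 → s = (v2, t)) (h3 : ∀ s ∈ F, s.2 = t → s = (v1, t) ∨ s = (v2, t)) :
    ∃ U V U2 V2 : List (ℚ × ℚ),
      BL F = U2 ++ (v1, t) :: (v2, t) :: V2 ∧
      BL (F \ {(v1, t), (v2, t)}) = U2 ++ V2 ∧
      AL (F \ {(v1, t), (v2, t)}) = U ++ (v1, a) :: V ∧
      (t < a → (v1, a) ∈ V2) ∧
      (t < a → AL F = U ++ (v1, t) :: (v1, a) :: (v2, t) :: V) ∧
      (a < t → AL F = U ++ (v1, a) :: (v1, t) :: (v2, t) :: V) := by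
  have n1 : ∀ s : ℚ × ℚ, s ∈ F \ {(v1, t), (v2, t)} ↔ s ∈ F ∧ s ≠ (v1, t) ∧ s ≠ (v2, t) := by
    intro s
    rw [Finset.mem_sdiff, Finset.mem_insert, Finset.mem_singleton, not_or]
  refine ⟨AL (F.filter (fun s => s.1 < v1)), AL (F.filter (fun s => v2 < s.1)),
    BL (F.filter (fun s => s.2 < t)), BL (F.filter (fun s => t < s.2)), ?_, ?_, ?_,
    fun h => mem_BL.2 (Finset.mem_filter.2 ⟨hα, h⟩), ?_⟩
  · have e : F.filter (fun s => s.2 = t) = {(v1, t), (v2, t)} := by
      ext s
      rw [Finset.mem_filter, Finset.mem_insert, Finset.mem_singleton]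
      constructor
      · rintro ⟨hs, h⟩
        exact h3 s hs h
      · rintro (rfl | rfl)
        · exact ⟨hγ, rfl⟩
        · exact ⟨hγ', rfl⟩
    rw [BL_split F t, e, BL_pair (s := (v1, t)) (t := (v2, t)) (Or.inr ⟨rfl, h12⟩)]
    simp
  · have e : (F \ {(v1, t), (v2, t)}).filter (fun s => s.2 = t) = ∅ := by
      rw [Finset.filter_eq_empty_iff]
      intro s hs h
      obtain ⟨h4, h5, h6⟩ := (n1 s).1 hs
      rcases h3 s h4 h with h | h
      · exact h5 h
      · exact h6 h
    have e1 : (F \ {(v1, t), (v2, t)}).filter (fun s => s.2 < t) =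
        F.filter (fun s => s.2 < t) := by
      ext s
      rw [Finset.mem_filter, Finset.mem_filter, n1]
      constructor
      · rintro ⟨⟨h4, -⟩, h⟩
        exact ⟨h4, h⟩
      · rintro ⟨h4, h⟩
        refine ⟨⟨h4, ?_, ?_⟩, h⟩
        · rintro rfl
          exact lt_irrefl _ h
        · rintro rfl
          exact lt_irrefl _ h
    have e2 : (F \ {(v1, t), (v2, t)}).filter (fun s => t < s.2) =
        F.filter (fun s => t < s.2) := by
      ext s
      rw [Finset.mem_filter, Finset.mem_filter, n1]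
      constructor
      · rintro ⟨⟨h4, -⟩, h⟩
        exact ⟨h4, h⟩
      · rintro ⟨h4, h⟩
        refine ⟨⟨h4, ?_, ?_⟩, h⟩
        · rintro rfl
          exact lt_irrefl _ h
        · rintro rfl
          exact lt_irrefl _ h
    rw [BL_split _ t, e, e1, e2, BL_empty]
    simp
  · have hbt' : ∀ s ∈ F \ {(v1, t), (v2, t)}, ¬ (v1 < s.1 ∧ s.1 < v2) := fun s hs =>
      hbt s ((n1 s).1 hs).1
    have e0 : (F \ {(v1, t), (v2, t)}).filter (fun s => s.1 < v1) =
        F.filter (fun s => s.1 < v1) := by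
      ext s
      rw [Finset.mem_filter, Finset.mem_filter, n1]
      constructor
      · rintro ⟨⟨h4, -⟩, h⟩
        exact ⟨h4, h⟩
      · rintro ⟨h4, h⟩
        refine ⟨⟨h4, ?_, ?_⟩, h⟩
        · rintro rfl
          exact lt_irrefl _ h
        · rintro rfl
          exact lt_irrefl _ (h.trans h12)
    have e1 : (F \ {(v1, t), (v2, t)}).filter (fun s => s.1 = v1) = {(v1, a)} := by
      ext s
      rw [Finset.mem_filter, n1, Finset.mem_singleton]
      constructor
      · rintro ⟨⟨h4, h5, -⟩, h⟩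
        rcases h1 s h4 h with h | h
        · exact h
        · exact absurd h h5
      · rintro rfl
        refine ⟨⟨hα, ?_, ?_⟩, rfl⟩
        · intro h
          exact hat (Prod.ext_iff.1 h).2
        · intro h
          exact hat (Prod.ext_iff.1 h).2
    have e2 : (F \ {(v1, t), (v2, t)}).filter (fun s => s.1 = v2) = ∅ := by
      rw [Finset.filter_eq_empty_iff]
      intro s hs h
      obtain ⟨h4, h5, h6⟩ := (n1 s).1 hs
      exact h6 (h2 s h4 h)
    have e3 : (F \ {(v1, t), (v2, t)}).filter (fun s => v2 < s.1) =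
        F.filter (fun s => v2 < s.1) := by
      ext s
      rw [Finset.mem_filter, Finset.mem_filter, n1]
      constructor
      · rintro ⟨⟨h4, -⟩, h⟩
        exact ⟨h4, h⟩
      · rintro ⟨h4, h⟩
        refine ⟨⟨h4, ?_, ?_⟩, h⟩
        · rintro rfl
          exact lt_irrefl _ (h.trans h12)
        · rintro rfl
          exact lt_irrefl _ h
    rw [AL_split2 _ h12 hbt', e0, e1, e2, e3, AL_singleton, AL_empty]
    simp
  · have e2 : F.filter (fun s => s.1 = v2) = {(v2, t)} := by
      ext s
      rw [Finset.mem_filter, Finset.mem_singleton]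
      constructor
      · rintro ⟨hs, h⟩
        exact h2 s hs h
      · rintro rfl
        exact ⟨hγ', rfl⟩
    have e1 : F.filter (fun s => s.1 = v1) = {(v1, a), (v1, t)} := by
      ext s
      rw [Finset.mem_filter, Finset.mem_insert, Finset.mem_singleton]
      constructor
      · rintro ⟨hs, h⟩
        exact h1 s hs h
      · rintro (rfl | rfl)
        · exact ⟨hα, rfl⟩
        · exact ⟨hγ, rfl⟩
    constructor
    · intro hta
      rw [AL_split2 F h12 hbt, e1, e2, AL_singleton, Finset.pair_comm,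
        AL_pair (s := (v1, t)) (t := (v1, a)) (Or.inr ⟨rfl, hta⟩)]
      simp
    · intro hta
      rw [AL_split2 F h12 hbt, e1, e2, AL_singleton,
        AL_pair (s := (v1, a)) (t := (v1, t)) (Or.inr ⟨rfl, hta⟩)]
      simp

theorem psi_mono {D : Finset (ℚ × ℚ)} {v1 v2 : ℚ} (h12 : v1 < v2)
    (hv1 : ∀ s ∈ D, s.2 ≠ v1) (hbt : ∀ s ∈ D, ¬ (v1 < s.2 ∧ s.2 < v2)) {s u : ℚ × ℚ}
    (hs : s ∈ D) (_hu : u ∈ D) (h : s.2 < u.2) : (psi v1 v2 s).2 < (psi v1 v2 u).2 := by
  unfold psi
  simp only
  by_cases h1 : s.2 = v2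
  · have h2 : u.2 ≠ v2 := by
      rintro h3
      rw [h1, h3] at h
      exact lt_irrefl _ h
    rw [if_pos h1, if_neg h2]
    exact h12.trans (h1 ▸ h)
  · rw [if_neg h1]
    by_cases h2 : u.2 = v2
    · rw [if_pos h2]
      rw [h2] at h
      by_contra h3
      push Not at h3
      rcases h3.eq_or_lt with h4 | h4
      · exact hv1 s hs h4.symm
      · exact hbt s hs ⟨h4, h⟩
    · rw [if_neg h2]
      exact h

/-- Layer `k - 1`. -/
theorem lay_psi {D : Finset (ℚ × ℚ)} {v1 v2 : ℚ} (h12 : v1 < v2)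
    (hv1 : ∀ s ∈ D, s.2 ≠ v1) (hbt : ∀ s ∈ D, ¬ (v1 < s.2 ∧ s.2 < v2)) (a b : ℚ × ℚ → ℕ) :
    LayF (D.image (psi v1 v2)) a b ↔ LayF D (a ∘ psi v1 v2) (b ∘ psi v1 v2) := by
  have hm := fun s hs u hu => psi_mono (s := s) (u := u) h12 hv1 hbt hs hu
  have hinj : ∀ s ∈ D, ∀ u ∈ D, (psi v1 v2 s).2 = (psi v1 v2 u).2 → s.2 = u.2 := by
    intro s hs u hu h
    rcases lt_trichotomy s.2 u.2 with h1 | h1 | h1
    · exact absurd h (hm s hs u hu h1).ne
    · exact h1
    · exact absurd h (hm u hu s hs h1).ne'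
  have hcong : ∀ s u : ℚ × ℚ, s.2 = u.2 → (psi v1 v2 s).2 = (psi v1 v2 u).2 := by
    intro s u h
    unfold psi
    simp only [h]
  have hA : AL (D.image (psi v1 v2)) = (AL D).map (psi v1 v2) := by
    refine AL_image _ (fun s hs u hu h => ?_)
    rcases h with h | ⟨h, h'⟩
    · exact Or.inl h
    · exact Or.inr ⟨h, hm s hs u hu h'⟩
  have hB : BL (D.image (psi v1 v2)) = (BL D).map (psi v1 v2) := by
    refine BL_image _ (fun s hs u hu h => ?_)
    rcases h with h | ⟨h, h'⟩
    · exact Or.inl (hm s hs u hu h)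
    · exact Or.inr ⟨hcong s u h, h'⟩
  unfold LayF
  rw [hA, hB, List.map_map, List.map_map]
  have hmap : Srt ((BL D).map (psi v1 v2)) ((AL D).map (psi v1 v2)) ((AL D).map (a ∘ psi v1 v2))
      ((BL D).map (b ∘ psi v1 v2)) ↔
      Srt (BL D) (AL D) ((AL D).map (a ∘ psi v1 v2)) ((BL D).map (b ∘ psi v1 v2)) := by
    refine srtN_map _ (AL_perm_BL D) (fun s hs u hu h => ?_)
    rw [mem_AL] at hs hu
    refine Prod.ext ?_ (hinj s hs u hu (by rw [h]))
    have := congrArg Prod.fst h
    exact this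
  rw [hmap]

end UDAux

open UDAux in
theorem finger_ud {E : Lk} {k : ℤ} (hE : Closed E) {v1 v2 a b t : ℚ} (h12 : v1 < v2)
    (hadj : ∀ v, v1 < v → v < v2 → deg E k v = 0)
    (hα : (v1, a) ∈ E k) (hβ : (b, v2) ∈ E (k - 1)) (hγ : (v1, t) ∈ E k) (hγ' : (v2, t) ∈ E k)
    (hat : a ≠ t) : Rul E ↔ t < a ∧ Rul (mrg E k v1 v2) := by
  obtain ⟨hd1, hu1⟩ := uu_ends hE hα hγ hat
  obtain ⟨hu2, hd2⟩ := ud_ends hE hγ' hβ
  have hk1 : k + 1 - 1 = k := by omega
  obtain ⟨hu3, hd3⟩ := dd_ends (E := E) (k := k + 1) (v := t) (x := v1) (y := v2) hE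
    (by rw [hk1]; exact hγ) (by rw [hk1]; exact hγ') h12.ne
  rw [hk1] at hd3
  have hbtD : ∀ s ∈ E (k - 1), ¬ (v1 < s.2 ∧ s.2 < v2) := by
    rintro s hs ⟨h1, h2⟩
    have h3 := hadj s.2 h1 h2
    unfold deg at h3
    have h4 : (E (k - 1)).filter (fun u => u.2 = s.2) = ∅ :=
      Finset.card_eq_zero.1 (by omega)
    rw [Finset.filter_eq_empty_iff] at h4
    exact h4 hs rfl
  have hbtU : ∀ s ∈ E k, ¬ (v1 < s.1 ∧ s.1 < v2) := by
    rintro s hs ⟨h1, h2⟩
    have h3 := hadj s.1 h1 h2
    unfold deg at h3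
    have h4 : (E k).filter (fun u => u.1 = s.1) = ∅ :=
      Finset.card_eq_zero.1 (by omega)
    rw [Finset.filter_eq_empty_iff] at h4
    exact h4 hs rfl
  obtain ⟨U, V, U2, V2, hBL, hBL', hAL', hlast, hALlt, hALgt⟩ :=
    shapes h12 hbtU hα hγ hγ' hat hu1 hu2 hd3
  have hmd := mrg_dn (E := E) (k := k) (v1 := v1) (v2 := v2) hd1
  have hmu := mrg_up (E := E) (k := k) h12.ne hγ hγ' hu2
  have hmo : ∀ j, j ≠ k → j ≠ k - 1 → mrg E k v1 v2 j = E j := fun j h h' => mrg_other h h'
  have hP : (U ++ (v1, a) :: V).Perm (U2 ++ V2) := by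
    rw [← hAL', ← hBL']
    exact AL_perm_BL _
  have hne1 : (v1, t) ≠ (v2, t) := fun h => h12.ne (Prod.ext_iff.1 h).1
  have hne2 : (v1, a) ≠ (v1, t) := fun h => hat (Prod.ext_iff.1 h).2
  have hne3 : (v1, a) ≠ (v2, t) := fun h => hat (Prod.ext_iff.1 h).2
  have n1 : ∀ s : ℚ × ℚ, s ∈ E k \ {(v1, t), (v2, t)} ↔
      s ∈ E k ∧ s ≠ (v1, t) ∧ s ≠ (v2, t) := by
    intro s
    rw [Finset.mem_sdiff, Finset.mem_insert, Finset.mem_singleton, not_or]
  have nA : ∀ s : ℚ × ℚ, s ∈ U ∨ s ∈ V → s ≠ (v1, a) ∧ s ≠ (v1, t) ∧ s ≠ (v2, t) := by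
    intro s hs
    have h1 := AL_nodup (E k \ {(v1, t), (v2, t)})
    rw [hAL'] at h1
    have h2 : s ∈ AL (E k \ {(v1, t), (v2, t)}) := by
      rw [hAL', List.mem_append, List.mem_cons]
      rcases hs with h | h
      · exact Or.inl h
      · exact Or.inr (Or.inr h)
    rw [mem_AL, n1] at h2
    refine ⟨?_, h2.2⟩
    rintro rfl
    have h3 := (List.nodup_append.1 h1)
    rcases hs with h | h
    · exact h3.2.2 _ h _ (by simp) rfl
    · exact (List.nodup_cons.1 h3.2.1).1 h
  have nB : ∀ s : ℚ × ℚ, s ∈ U2 ∨ s ∈ V2 → s ≠ (v1, t) ∧ s ≠ (v2, t) := by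
    intro s hs
    have h2 : s ∈ BL (E k \ {(v1, t), (v2, t)}) := by
      rw [hBL', List.mem_append]
      exact hs
    rw [mem_BL, n1] at h2
    exact h2.2
  constructor
  · intro hR
    rw [rul_iff] at hR
    obtain ⟨la, lb, hR⟩ := hR
    have hy : la k (v1, a) = la k (v1, t) := (hR k).2.2.1 _ hα _ hγ hne2 rfl
    have hp : lb k (v1, t) = lb k (v2, t) := by
      have := (hR (k + 1)).2.1
      rw [hk1] at this
      exact this _ hγ _ hγ' hne1 rfl
    have hs := (hR k).1.2
    have h2 := (hR k).1.1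
    rw [hBL] at hs
    rcases lt_or_gt_of_ne hat with hta | hta
    · exfalso
      rw [hALgt hta] at hs h2
      have hnd := AL_nodup (E k)
      rw [hALgt hta] at hnd
      simp only [List.map_append, List.map_cons] at hs h2
      rw [hy] at hs h2
      rw [hp] at hs
      exact layer_gt hnd hP (by simp) (by simp) (by simp) h2 hs
    · refine ⟨hta, ?_⟩
      rw [hALlt hta] at hs h2
      have hnd := AL_nodup (E k)
      rw [hALlt hta] at hnd
      simp only [List.map_append, List.map_cons] at hs h2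
      rw [hy] at hs h2
      rw [hp] at hs
      obtain ⟨-, hs'⟩ := (layer_lt hnd hP (hlast hta) (by simp) (by simp) (by simp) h2).1 hs
      have hmapU : ∀ f : ℚ × ℚ → ℕ, ∀ c : ℕ, U.map (fun s => if s = (v1, a) then c else f s) =
          U.map f := fun f c => List.map_congr_left (fun s hs => if_neg (nA s (Or.inl hs)).1)
      have hmapV : ∀ f : ℚ × ℚ → ℕ, ∀ c : ℕ, V.map (fun s => if s = (v1, a) then c else f s) =
          V.map f := fun f c => List.map_congr_left (fun s hs => if_neg (nA s (Or.inr hs)).1)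
      have hpinv : ∀ s ∈ E (k - 1),
          ((psi v1 v2 s).1, if (psi v1 v2 s).2 = v1 then v2 else (psi v1 v2 s).2) = s := by
        intro s hs
        unfold psi
        simp only
        by_cases h : s.2 = v2
        · rw [if_pos h, if_pos rfl, ← h]
        · rw [if_neg h, if_neg (hd1 s hs)]
      refine rul_build (k := k) la lb
        (fun s => la (k - 1) (s.1, if s.2 = v1 then v2 else s.2))
        (fun s => lb (k - 1) (s.1, if s.2 = v1 then v2 else s.2))
        (fun s => if s = (v1, a) then la k (v2, t) else la k s) (lb k) ?_ ?_ ?_ ?_ ?_ ?_ ?_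
      · intro j h1 h3
        rw [hmo j h1 h3]
        exact (hR j).1
      · intro j h1 h3 h4
        rw [hmo j h1 h3, hmo (j - 1) (by omega) (by omega)]
        exact (hR j).2
      · rw [hmd, lay_psi h12 hd1 hbtD]
        have e1 : (AL (E (k - 1))).map
            ((fun s => la (k - 1) (s.1, if s.2 = v1 then v2 else s.2)) ∘ psi v1 v2) =
            (AL (E (k - 1))).map (la (k - 1)) := by
          refine List.map_congr_left (fun s hs => ?_)
          rw [mem_AL] at hs
          simp only [Function.comp]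
          rw [hpinv s hs]
        have e2 : (BL (E (k - 1))).map
            ((fun s => lb (k - 1) (s.1, if s.2 = v1 then v2 else s.2)) ∘ psi v1 v2) =
            (BL (E (k - 1))).map (lb (k - 1)) := by
          refine List.map_congr_left (fun s hs => ?_)
          rw [mem_BL] at hs
          simp only [Function.comp]
          rw [hpinv s hs]
        unfold LayF
        rw [e1, e2]
        exact (hR (k - 1)).1
      · rw [hmu]
        unfold LayF
        rw [hAL', hBL']
        simp only [List.map_append, List.map_cons, if_true]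
        rw [hmapU, hmapV]
        exact ⟨two_small h2, hs'⟩
      · rw [hmo (k - 1 - 1) (by omega) (by omega), hmd]
        obtain ⟨l1, l2, l3⟩ := (hR (k - 1)).2
        refine ⟨l1, ?_, ?_⟩
        · intro s hs s' hs' hne h
          obtain ⟨r, hr, rfl⟩ := Finset.mem_image.1 hs
          obtain ⟨r', hr', rfl⟩ := Finset.mem_image.1 hs'
          beta_reduce
          rw [hpinv r hr, hpinv r' hr']
          refine l2 r hr r' hr' ?_ h
          rintro rfl
          exact hne rfl
        · intro s hs s' hs' u hu u' hu' h h'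
          obtain ⟨r, hr, rfl⟩ := Finset.mem_image.1 hu
          obtain ⟨r', hr', rfl⟩ := Finset.mem_image.1 hu'
          beta_reduce
          rw [hpinv r hr, hpinv r' hr']
          exact l3 s hs s' hs' r hr r' hr' h h'
      · rw [hmd, hmu]
        obtain ⟨l1, l2, l3⟩ := (hR k).2
        refine ⟨?_, ?_, ?_⟩
        · intro s hs s' hs' hne h
          obtain ⟨r, hr, rfl⟩ := Finset.mem_image.1 hs
          obtain ⟨r', hr', rfl⟩ := Finset.mem_image.1 hs'
          beta_reduce
          rw [hpinv r hr, hpinv r' hr']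
          refine l1 r hr r' hr' ?_ ?_
          · rintro rfl
            exact hne rfl
          · have e1 := congrArg Prod.snd (hpinv r hr)
            have e2 := congrArg Prod.snd (hpinv r' hr')
            simp only at e1 e2
            rw [← e1, ← e2, h]
        · intro s hs s' hs' hne h
          obtain ⟨h5, h6, h7⟩ := (n1 s).1 hs
          obtain ⟨h5', h6', h7'⟩ := (n1 s').1 hs'
          have hsα : s ≠ (v1, a) := by
            rintro rfl
            rcases hu1 s' h5' h.symm with h8 | h8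
            · exact hne h8.symm
            · exact h6' h8
          have hsα' : s' ≠ (v1, a) := by
            rintro rfl
            rcases hu1 s h5 h with h8 | h8
            · exact hne h8
            · exact h6 h8
          beta_reduce
          rw [if_neg hsα, if_neg hsα']
          exact l2 s h5 s' h5' hne h
        · -- passing strands
          have hback : ∀ r ∈ E (k - 1), ∀ s ∈ E k \ {(v1, t), (v2, t)}, (psi v1 v2 r).2 = s.1 →
              ∃ s0 ∈ E k, r.2 = s0.1 ∧
                (if s = (v1, a) then la k (v2, t) else la k s) = la k s0 := by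
            intro r hr s hs h
            obtain ⟨h5, h6, h7⟩ := (n1 s).1 hs
            by_cases hsα : s = (v1, a)
            · refine ⟨(v2, t), hγ', ?_, by rw [if_pos hsα]⟩
              have h8 := congrArg Prod.snd (hpinv r hr)
              simp only at h8
              rw [h, hsα, if_pos rfl] at h8
              exact h8.symm
            · refine ⟨s, h5, ?_, by rw [if_neg hsα]⟩
              have h8 := congrArg Prod.snd (hpinv r hr)
              simp only at h8
              have h9 : s.1 ≠ v1 := by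
                intro h9
                rcases hu1 s h5 h9 with h10 | h10
                · exact hsα h10
                · exact h6 h10
              rw [h, if_neg h9] at h8
              exact h8.symm
          intro r hr r' hr' s hs s' hs' h h'
          obtain ⟨r0, hr0, rfl⟩ := Finset.mem_image.1 hr
          obtain ⟨r0', hr0', rfl⟩ := Finset.mem_image.1 hr'
          beta_reduce
          rw [hpinv r0 hr0, hpinv r0' hr0']
          obtain ⟨s0, hs0, e1, e2⟩ := hback r0 hr0 s hs h
          obtain ⟨s0', hs0', e1', e2'⟩ := hback r0' hr0' s' hs' h'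
          rw [e2, e2']
          exact l3 r0 hr0 r0' hr0' s0 hs0 s0' hs0' e1 e1'
      · rw [hmu, hmo (k + 1) (by omega) (by omega)]
        obtain ⟨l1, l2, l3⟩ := (hR (k + 1)).2
        rw [hk1] at l1 l3
        exact ⟨fun s hs s' hs' => l1 s ((n1 s).1 hs).1 s' ((n1 s').1 hs').1, l2,
          fun s hs s' hs' => l3 s ((n1 s).1 hs).1 s' ((n1 s').1 hs').1⟩
  · rintro ⟨hta, hR⟩
    rw [rul_iff] at hR
    obtain ⟨la, lb, hR⟩ := hR
    have hF := (hR k).1
    rw [hmu] at hF
    unfold LayF at hF
    rw [hAL', hBL'] at hF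
    obtain ⟨y, hyf⟩ := Infinite.exists_notMem_finset
      (List.toFinset ((U ++ (v1, a) :: V).map (la k) ++ (U2 ++ V2).map (lb k)))
    rw [List.mem_toFinset, List.mem_append, not_or] at hyf
    obtain ⟨hyf, hyg⟩ := hyf
    simp only [List.map_append, List.map_cons] at hF hyf hyg
    rw [List.mem_append, not_or] at hyg
    have hmapU : U.map (fun s => if s = (v1, t) ∨ s = (v1, a) then y else
        if s = (v2, t) then la k (v1, a) else la k s) = U.map (la k) := by
      refine List.map_congr_left (fun s hs => ?_)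
      obtain ⟨h1, h2, h3⟩ := nA s (Or.inl hs)
      rw [if_neg (by tauto), if_neg h3]
    have hmapV : V.map (fun s => if s = (v1, t) ∨ s = (v1, a) then y else
        if s = (v2, t) then la k (v1, a) else la k s) = V.map (la k) := by
      refine List.map_congr_left (fun s hs => ?_)
      obtain ⟨h1, h2, h3⟩ := nA s (Or.inr hs)
      rw [if_neg (by tauto), if_neg h3]
    have hmapU2 : U2.map (fun s => if s = (v1, t) ∨ s = (v2, t) then y else lb k s) =
        U2.map (lb k) := by
      refine List.map_congr_left (fun s hs => ?_)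
      obtain ⟨h2, h3⟩ := nB s (Or.inl hs)
      rw [if_neg (by tauto)]
    have hmapV2 : V2.map (fun s => if s = (v1, t) ∨ s = (v2, t) then y else lb k s) =
        V2.map (lb k) := by
      refine List.map_congr_left (fun s hs => ?_)
      obtain ⟨h2, h3⟩ := nB s (Or.inr hs)
      rw [if_neg (by tauto)]
    have hnd := AL_nodup (E k)
    rw [hALlt hta] at hnd
    refine rul_build (k := k) la lb (la (k - 1) ∘ psi v1 v2) (lb (k - 1) ∘ psi v1 v2)
      (fun s => if s = (v1, t) ∨ s = (v1, a) then y else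
        if s = (v2, t) then la k (v1, a) else la k s)
      (fun s => if s = (v1, t) ∨ s = (v2, t) then y else lb k s) ?_ ?_ ?_ ?_ ?_ ?_ ?_
    · intro j h1 h3
      have := (hR j).1
      rwa [hmo j h1 h3] at this
    · intro j h1 h3 h4
      have := (hR j).2
      rwa [hmo j h1 h3, hmo (j - 1) (by omega) (by omega)] at this
    · have := (hR (k - 1)).1
      rwa [hmd, lay_psi h12 hd1 hbtD] at this
    · have hbig := two_big (y := y) hF.1 hyf
      have := (layer_lt hnd hP (hlast hta) (by simp) (by simp) (by simp) hbig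
        (p := y) (W' := U2.map (lb k)) (Z' := V2.map (lb k))).2 ⟨hyg, hF.2⟩
      unfold LayF
      rw [hALlt hta, hBL]
      simp only [List.map_append, List.map_cons]
      rw [hmapU, hmapV, hmapU2, hmapV2]
      simp only [true_or, or_true, if_true, hne1.symm, hne3.symm, or_self, if_false]
      exact ⟨hbig, this⟩
    · have := (hR (k - 1)).2
      rw [hmo (k - 1 - 1) (by omega) (by omega), hmd] at this
      obtain ⟨l1, l2, l3⟩ := this
      refine ⟨l1, ?_, ?_⟩
      · intro s hs s' hs' hne h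
        refine l2 _ (Finset.mem_image_of_mem _ hs) _ (Finset.mem_image_of_mem _ hs') ?_ h
        intro h'
        have h3 : (psi v1 v2 s).2 = (psi v1 v2 s').2 := by rw [h']
        apply hne
        refine Prod.ext h ?_
        rcases lt_trichotomy s.2 s'.2 with h4 | h4 | h4
        · exact absurd h3 (psi_mono h12 hd1 hbtD hs hs' h4).ne
        · exact h4
        · exact absurd h3 (psi_mono h12 hd1 hbtD hs' hs h4).ne'
      · intro s hs s' hs' u hu u' hu' h h'
        exact l3 s hs s' hs' _ (Finset.mem_image_of_mem _ hu) _ (Finset.mem_image_of_mem _ hu')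
          h h'
    · have := (hR k).2
      rw [hmd, hmu] at this
      obtain ⟨l1, l2, l3⟩ := this
      have hcong : ∀ s s' : ℚ × ℚ, s.2 = s'.2 → (psi v1 v2 s).2 = (psi v1 v2 s').2 := by
        intro s s' h
        unfold psi
        simp only [h]
      refine ⟨?_, ?_, ?_⟩
      · intro s hs s' hs' hne h
        refine l1 _ (Finset.mem_image_of_mem _ hs) _ (Finset.mem_image_of_mem _ hs') ?_
          (hcong s s' h)
        intro h'
        have h5 : s.1 = s'.1 := by
          have := congrArg Prod.fst h'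
          exact this
        exact hne (Prod.ext h5 h)
      · intro s hs s' hs' hne h
        by_cases h1 : s.1 = v1
        · have e1 : s = (v1, t) ∨ s = (v1, a) := (hu1 s hs h1).symm
          have e2 : s' = (v1, t) ∨ s' = (v1, a) := (hu1 s' hs' (h ▸ h1)).symm
          beta_reduce
          rw [if_pos e1, if_pos e2]
        by_cases h3 : s.1 = v2
        · exact absurd ((hu2 s hs h3).trans (hu2 s' hs' (h ▸ h3)).symm) hne
        · have h1' : s'.1 ≠ v1 := h ▸ h1
          have h3' : s'.1 ≠ v2 := h ▸ h3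
          have f1 : s ≠ (v1, t) := fun h => h1 (by rw [h])
          have f2 : s ≠ (v1, a) := fun h => h1 (by rw [h])
          have f3 : s ≠ (v2, t) := fun h => h3 (by rw [h])
          have f1' : s' ≠ (v1, t) := fun h => h1' (by rw [h])
          have f2' : s' ≠ (v1, a) := fun h => h1' (by rw [h])
          have f3' : s' ≠ (v2, t) := fun h => h3' (by rw [h])
          beta_reduce
          rw [if_neg (by tauto), if_neg f3, if_neg (by tauto), if_neg f3']
          exact l2 s ((n1 s).2 ⟨hs, f1, f3⟩) s' ((n1 s').2 ⟨hs', f1', f3'⟩) hne h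
      · have hfwd : ∀ r ∈ E (k - 1), ∀ s ∈ E k, r.2 = s.1 →
            ∃ s0 ∈ E k \ {(v1, t), (v2, t)}, (psi v1 v2 r).2 = s0.1 ∧
              (if s = (v1, t) ∨ s = (v1, a) then y else
                if s = (v2, t) then la k (v1, a) else la k s) = la k s0 := by
          intro r hr s hs h
          have h1 : s.1 ≠ v1 := h ▸ hd1 r hr
          have f1 : s ≠ (v1, t) := fun h => h1 (by rw [h])
          have f2 : s ≠ (v1, a) := fun h => h1 (by rw [h])
          by_cases h3 : s.1 = v2
          · have f3 := hu2 s hs h3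
            refine ⟨(v1, a), (n1 _).2 ⟨hα, hne2, hne3⟩, ?_, ?_⟩
            · unfold psi
              simp only
              rw [if_pos (h.trans h3)]
            · rw [if_neg (by tauto), if_pos f3]
          · have f3 : s ≠ (v2, t) := fun h => h3 (by rw [h])
            refine ⟨s, (n1 _).2 ⟨hs, f1, f3⟩, ?_, ?_⟩
            · unfold psi
              simp only
              rw [if_neg (by rw [h]; exact h3)]
              exact h
            · rw [if_neg (by tauto), if_neg f3]
        intro r hr r' hr' s hs s' hs' h h'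
        obtain ⟨s0, hs0, e1, e2⟩ := hfwd r hr s hs h
        obtain ⟨s0', hs0', e1', e2'⟩ := hfwd r' hr' s' hs' h'
        beta_reduce
        rw [e2, e2']
        exact l3 _ (Finset.mem_image_of_mem _ hr) _ (Finset.mem_image_of_mem _ hr') s0 hs0
          s0' hs0' e1 e1'
    · have := (hR (k + 1)).2
      rw [hk1, hmu, hmo (k + 1) (by omega) (by omega)] at this
      obtain ⟨l1, l2, l3⟩ := this
      refine ⟨?_, l2, ?_⟩
      · intro s hs s' hs' hne h
        by_cases h1 : s.2 = t
        · beta_reduce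
          rw [if_pos (hd3 s hs h1), if_pos (hd3 s' hs' (h ▸ h1))]
        · have h1' : s'.2 ≠ t := h ▸ h1
          have f1 : s ≠ (v1, t) := fun h => h1 (by rw [h])
          have f3 : s ≠ (v2, t) := fun h => h1 (by rw [h])
          have f1' : s' ≠ (v1, t) := fun h => h1' (by rw [h])
          have f3' : s' ≠ (v2, t) := fun h => h1' (by rw [h])
          beta_reduce
          rw [if_neg (by tauto), if_neg (by tauto)]
          exact l1 s ((n1 s).2 ⟨hs, f1, f3⟩) s' ((n1 s').2 ⟨hs', f1', f3'⟩) hne h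
      · intro s hs s' hs' u hu u' hu' h h'
        have h1 : s.2 ≠ t := h ▸ hu3 u hu
        have h1' : s'.2 ≠ t := h' ▸ hu3 u' hu'
        have f1 : s ≠ (v1, t) := fun h => h1 (by rw [h])
        have f3 : s ≠ (v2, t) := fun h => h1 (by rw [h])
        have f1' : s' ≠ (v1, t) := fun h => h1' (by rw [h])
        have f3' : s' ≠ (v2, t) := fun h => h1' (by rw [h])
        beta_reduce
        rw [if_neg (by tauto), if_neg (by tauto)]
        exact l3 s ((n1 s).2 ⟨hs, f1, f3⟩) s' ((n1 s').2 ⟨hs', f1', f3'⟩) u hu u' hu' h h'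

end Pool.Agent.Helper24.RUL
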