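import Pool.Agent.Helper24.RUL.FingerDef

/-!
# RUL-15: finger lemma, case up/up (project RUL, MP_409f7f_co)

All four names are in layer `k`: `α = (v1, a)`, `γ = (v1, t)`, `γ' = (v2, t)`, `β = (v2, b)`; `α, γ` have
equal labels `y` at the beginning, `γ', β` equal labels `z`. In `mrg` the names `γ, γ'` are removed and
`β` is renamed `(v1, b)` (if `a = b` it cancels with `α`, and one removes the pair `α, β` by `pair_nat`).
List at the beginning -> intermediate list `M` (same end, `γ, γ'` neighbours), and the labels at `M`;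
`pair_nat'` says that `γ, γ'` have equal labels at `M`:
* `b < t < a`: `γ α β γ'` (y y z z) -> `β γ γ' α`: cross `α β`, `γ β`, `α γ'`: the only way is pass, pass,
  switch with result (z y y z).
* `t < a <= b`: `γ α γ' β` (y y z z) -> `γ γ' α β`: cross `α γ'`: switch (y y z z).
* `a <= b < t`: `α γ β γ'` (y y z z) -> `α β γ γ'`: cross `γ β`: switch, result (y y z z).
* no ruling: `b < a < t`: `α γ β γ'` -> `β α γ γ'` (cross `γ β`: must be a pass or a switch, then `α β`);
  `a < t < b`: `α γ γ' β` at once; `t < b < a`: `γ α γ' β` -> `γ γ' β α` (cross `α γ'`, then `α β`, which have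
  equal labels if `γ, γ'` have).
In the good cases the remaining labels of `β, α` are equal (every label twice): the birth of the
merged segment. Conversely choose a new label.
-/

set_option linter.unusedSimpArgs false

namespace Pool.Agent.Helper24.RUL

namespace FUU

theorem cr1 {W Z w' : List ℕ} {y z : ℕ} (hyz : y ≠ z) :
    CrN (W.length + 1) (W ++ y :: y :: z :: z :: Z) w' ↔
      (Ren (W ++ y :: z :: y :: z :: Z) w' ∨ Ren (W ++ y :: y :: z :: z :: Z) w') := by
  have h := @crN_iff (W ++ [y]) (z :: Z) w' y z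
  simp only [List.length_append, List.length_cons, List.length_nil, List.append_assoc,
    List.cons_append, List.nil_append, zero_add] at h
  rw [h]
  have h1 : (z :: (Z ++ (W ++ [y]))).idxOf z < (z :: (Z ++ (W ++ [y]))).idxOf y := by
    rw [List.idxOf_cons_self, List.idxOf_cons_ne _ hyz.symm]
    omega
  constructor
  · rintro ⟨_, h2 | ⟨h2, _⟩⟩
    · exact Or.inl h2
    · exact Or.inr h2
  · rintro (h2 | h2)
    · exact ⟨hyz, Or.inl h2⟩
    · exact ⟨hyz, Or.inr ⟨h2, h1⟩⟩

theorem cr2 {W Z w' : List ℕ} {y z : ℕ} (hyz : y ≠ z) :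
    CrN W.length (W ++ y :: z :: y :: z :: Z) w' ↔ Ren (W ++ z :: y :: y :: z :: Z) w' := by
  rw [crN_iff]
  have h1 : ¬ ((y :: z :: Z ++ W).idxOf z < (y :: z :: Z ++ W).idxOf y) := by
    simp only [List.cons_append]
    rw [List.idxOf_cons_self]
    omega
  constructor
  · rintro ⟨_, h2 | ⟨_, h2⟩⟩
    · exact h2
    · exact absurd h2 h1
  · intro h2
    exact ⟨hyz, Or.inl h2⟩

theorem cr3 {W Z w' : List ℕ} {y z : ℕ} (hyz : y ≠ z) (hyW : y ∉ W) (hyZ : y ∉ Z) (hzW : z ∉ W)
    (hzZ : z ∉ Z) : CrN (W.length + 2) (W ++ z :: y :: y :: z :: Z) w' ↔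
      (Ren (W ++ z :: y :: z :: y :: Z) w' ∨ Ren (W ++ z :: y :: y :: z :: Z) w') := by
  have h := @crN_iff (W ++ [z, y]) Z w' y z
  simp only [List.length_append, List.length_cons, List.length_nil, List.append_assoc,
    List.cons_append, List.nil_append, zero_add, Nat.reduceAdd] at h
  rw [h]
  have h1 : (Z ++ (W ++ [z, y])).idxOf z < (Z ++ (W ++ [z, y])).idxOf y := by
    rw [List.idxOf_append_of_notMem hzZ, List.idxOf_append_of_notMem hyZ,
      List.idxOf_append_of_notMem hzW, List.idxOf_append_of_notMem hyW, List.idxOf_cons_self,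
      List.idxOf_cons_ne _ hyz.symm]
    omega
  constructor
  · rintro ⟨_, h2 | ⟨h2, _⟩⟩
    · exact Or.inl h2
    · exact Or.inr h2
  · rintro (h2 | h2)
    · exact ⟨hyz, Or.inl h2⟩
    · exact ⟨hyz, Or.inr ⟨h2, h1⟩⟩

/-- Consequences of `Two`. -/
theorem two_mid {W Z : List ℕ} {y z : ℕ} (h : Two (W ++ y :: y :: z :: z :: Z)) :
    y ≠ z ∧ y ∉ W ∧ y ∉ Z ∧ z ∉ W ∧ z ∉ Z ∧ Two (W ++ y :: y :: Z) ∧ Two (W ++ z :: z :: Z) := by
  have hy := h y (by simp)
  have hz := h z (by simp)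
  have hyz : y ≠ z := by
    rintro rfl
    simp only [List.count_append, List.count_cons_self] at hy
    omega
  simp only [List.count_append, List.count_cons_self, List.count_cons_of_ne hyz,
    List.count_cons_of_ne hyz.symm] at hy hz
  have h1 : W.count y = 0 := by omega
  have h2 : Z.count y = 0 := by omega
  have h3 : W.count z = 0 := by omega
  have h4 : Z.count z = 0 := by omega
  rw [List.count_eq_zero] at h1 h2 h3 h4
  refine ⟨hyz, h1, h2, h3, h4, ?_, ?_⟩
  · intro r hr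
    have hr' : r ∈ W ++ y :: y :: z :: z :: Z := by
      simp only [List.mem_append, List.mem_cons] at hr ⊢
      tauto
    have := h r hr'
    have hrz : r ≠ z := by
      rintro rfl
      simp only [List.mem_append, List.mem_cons] at hr
      tauto
    simp only [List.count_append, List.count_cons, beq_iff_eq, hrz.symm, if_false] at this ⊢
    omega
  · intro r hr
    have hr' : r ∈ W ++ y :: y :: z :: z :: Z := by
      simp only [List.mem_append, List.mem_cons] at hr ⊢
      tauto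
    have := h r hr'
    have hrz : r ≠ y := by
      rintro rfl
      simp only [List.mem_append, List.mem_cons] at hr
      tauto
    simp only [List.count_append, List.count_cons, beq_iff_eq, hrz.symm, if_false] at this ⊢
    omega

section

variable {ι : Type*} [DecidableEq ι]

theorem exch {T A B L L' : List ι} {s t : ι} {w w' : List ℕ} {n : ℕ} (hw : Two w)
    (hT : T.Nodup) (hst : T.idxOf t < T.idxOf s) (hL : L = A ++ s :: t :: B)
    (hL' : L' = A ++ t :: s :: B) (hn : n = A.length) (h : Srt T L w w') :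
    ∃ u, CrN n w u ∧ Srt T L' u w' := by
  subst hL hL' hn
  exact srtN_exch hw hT hst h

theorem stp {T A B L L' : List ι} {s t : ι} {w u w' : List ℕ} {n : ℕ}
    (hst : T.idxOf t < T.idxOf s) (hL : L = A ++ s :: t :: B)
    (hL' : L' = A ++ t :: s :: B) (hn : n = A.length) (hc : CrN n w u) (h : Srt T L' u w') :
    Srt T L w w' := by
  subst hL hL' hn
  exact srtN_step hst hc h

/-- The label word is replaced by an equivalent one. -/
theorem chg {T L : List ι} {w u w' : List ℕ} (hr : Ren u w) (h : Srt T L w w') : Srt T L u w' :=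
  h.ren hr.symm (Ren.refl _)

theorem idx_lt {A B C : List ι} {s t : ι} {M : List ι} (hM : M = A ++ s :: B ++ t :: C)
    (h : M.Nodup) : M.idxOf s < M.idxOf t := by
  subst hM
  rw [List.append_assoc, List.nodup_append] at h
  obtain ⟨h1, h2, h3⟩ := h
  have hsA : s ∉ A := fun hs => h3 s hs s (by simp) rfl
  have htA : t ∉ A := fun hs => h3 t hs t (by simp) rfl
  have hst : s ≠ t := by
    rintro rfl
    simp at h2
  rw [List.append_assoc, List.idxOf_append_of_notMem hsA, List.idxOf_append_of_notMem htA,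
    List.cons_append, List.idxOf_cons_self, List.idxOf_cons_ne _ hst]
  omega

theorem idx_block {U X X' V : List ι} (hp : X.Perm X') {s t : ι}
    (h : (U ++ X ++ V).idxOf s < (U ++ X ++ V).idxOf t)
    (hX : s ∈ X → t ∈ X → X'.idxOf s < X'.idxOf t) :
    (U ++ X' ++ V).idxOf s < (U ++ X' ++ V).idxOf t := by
  have hl := hp.length_eq
  have hm : ∀ x, x ∈ X ↔ x ∈ X' := fun x => hp.mem_iff
  have e1 : ∀ x, (U ++ X ++ V).idxOf x = if x ∈ U then U.idxOf x else if x ∈ X then
      X.idxOf x + U.length else V.idxOf x + X.length + U.length := by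
    intro x
    rw [List.append_assoc, List.idxOf_append, List.idxOf_append]
    split_ifs <;> omega
  have e2 : ∀ x, (U ++ X' ++ V).idxOf x = if x ∈ U then U.idxOf x else if x ∈ X then
      X'.idxOf x + U.length else V.idxOf x + X.length + U.length := by
    intro x
    rw [List.append_assoc, List.idxOf_append, List.idxOf_append]
    simp only [← hm x, ← hl]
    split_ifs <;> omega
  rw [e1, e1] at h
  rw [e2, e2]
  have b1 : ∀ x, x ∈ U → U.idxOf x < U.length := fun x hx => List.idxOf_lt_length_of_mem hx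
  have b2 : ∀ x, x ∈ X → X.idxOf x < X.length := fun x hx => List.idxOf_lt_length_of_mem hx
  have b3 : ∀ x, x ∈ X → X'.idxOf x < X.length := fun x hx => by
    rw [hl]
    exact List.idxOf_lt_length_of_mem ((hm x).1 hx)
  by_cases s1 : s ∈ U <;> by_cases s2 : s ∈ X <;> by_cases t1 : t ∈ U <;> by_cases t2 : t ∈ X <;>
    simp only [s1, s2, t1, t2, if_true, if_false] at h ⊢ <;>
    first
    | omega
    | (have := b1 s s1; omega)
    | (have := b3 s s2; omega)
    | (have := b1 t t1; omega)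
    | (have := hX s2 t2; omega)
    | (have := b2 t t2; omega)

/-- From the list `M` with neighbours `γ, γ'` to the end. -/
theorem fin {A B U2 V2 M : List ι} {g g' : ι} {WA ZB W2 Z2 w : List ℕ} {q q' p : ℕ}
    (hM : M = A ++ g :: g' :: B) (hw : w = WA ++ q :: q' :: ZB)
    (hnd : M.Nodup) (hP : M.Perm (U2 ++ g :: g' :: V2))
    (hA : WA.length = A.length) (hB : ZB.length = B.length) (hW2 : W2.length = U2.length)
    (h2 : Two w) :
    Srt (U2 ++ g :: g' :: V2) M w (W2 ++ p :: p :: Z2) ↔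
      q' = q ∧ (p ∉ W2 ∧ p ∉ Z2) ∧ Srt (U2 ++ V2) (A ++ B) (WA ++ ZB) (W2 ++ Z2) := by
  subst hM hw
  have hP' : (A ++ B).Perm (U2 ++ V2) := List.perm_iff_count.2 (fun x => by
    have := (List.perm_iff_count.1 hP) x
    simp only [List.count_append, List.count_cons] at this ⊢
    omega)
  constructor
  · intro h
    obtain ⟨W, Z, q1, e1, e2, e3⟩ := pair_nat' hnd hP' hW2 (by simp [hA, hB]) h2 h
    obtain ⟨e4, e5⟩ := List.append_inj e1 (by rw [hA, e2])
    simp only [List.cons.injEq] at e5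
    obtain ⟨rfl, rfl, rfl⟩ := e5
    subst e4
    refine ⟨rfl, ?_⟩
    obtain ⟨W', Z', q2, f1, f2, f2a, f2b, f3⟩ := (pair_nat hnd hP' hA hB h2).1 h
    obtain ⟨f4, f5⟩ := List.append_inj f1 (by rw [hW2, f2])
    simp only [List.cons.injEq] at f5
    obtain ⟨rfl, _, rfl⟩ := f5
    subst f4
    exact ⟨⟨f2a, f2b⟩, f3⟩
  · rintro ⟨rfl, ⟨hp1, hp2⟩, h⟩
    exact (pair_nat hnd hP' hA hB h2).2 ⟨W2, Z2, p, rfl, hW2, hp1, hp2, h⟩

/-- The hypotheses of the six cases. -/
structure Hyp (L M U2 V2 : List ι) (g g' : ι) (w : List ℕ) (W2 : List ℕ) : Prop where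
  nd : L.Nodup
  pm : L.Perm M
  pt : L.Perm (U2 ++ g :: g' :: V2)
  bt : Btw L M (U2 ++ g :: g' :: V2)
  len : W2.length = U2.length
  two : Two w

theorem Hyp.mnd {L M U2 V2 : List ι} {g g' : ι} {w W2 : List ℕ} (h : Hyp L M U2 V2 g g' w W2) :
    M.Nodup := h.pm.nodup_iff.1 h.nd

theorem Hyp.mp {L M U2 V2 : List ι} {g g' : ι} {w W2 : List ℕ} (h : Hyp L M U2 V2 g g' w W2) :
    M.Perm (U2 ++ g :: g' :: V2) := h.pm.symm.trans h.pt

theorem Hyp.thr {L M U2 V2 : List ι} {g g' : ι} {w W2 w' : List ℕ}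
    (h : Hyp L M U2 V2 g g' w W2) : Srt (U2 ++ g :: g' :: V2) L w w' ↔
      ∃ u, Srt M L w u ∧ Srt (U2 ++ g :: g' :: V2) M u w' :=
  srtN_through h.two h.nd h.pm h.pt h.bt

theorem g1 {U V U2 V2 : List ι} {α β g g' : ι} {W Z W2 Z2 : List ℕ} {y z p : ℕ}
    (h : Hyp (U ++ g :: α :: β :: g' :: V) (U ++ β :: g :: g' :: α :: V) U2 V2 g g'
      (W ++ y :: y :: z :: z :: Z) W2) (hW : W.length = U.length) (hZ : Z.length = V.length) :
    Srt (U2 ++ g :: g' :: V2) (U ++ g :: α :: β :: g' :: V) (W ++ y :: y :: z :: z :: Z)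
      (W2 ++ p :: p :: Z2) ↔
      (p ∉ W2 ∧ p ∉ Z2) ∧ Srt (U2 ++ V2) (U ++ β :: α :: V) (W ++ z :: z :: Z) (W2 ++ Z2) := by
  obtain ⟨hyz, hyW, hyZ, hzW, hzZ, _, _⟩ := two_mid h.two
  have hM := h.mnd
  have i1 := idx_lt (A := U) (B := [g, g']) (C := V) (s := β) (t := α) (by simp) hM
  have i2 := idx_lt (A := U) (B := []) (C := g' :: α :: V) (s := β) (t := g) (by simp) hM
  have i3 := idx_lt (A := U ++ [β, g]) (B := []) (C := V) (s := g') (t := α) (by simp) hM
  have c1' := (cr1 (W := W) (Z := Z) hyz).2 (Or.inl (Ren.refl _))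
  have t1 := CrN.two h.two c1'
  have c2' := (cr2 (W := W) (Z := Z) hyz).2 (Ren.refl _)
  have t2 := CrN.two t1 c2'
  have c3' := (cr3 (W := W) (Z := Z) hyz hyW hyZ hzW hzZ).2 (Or.inl (Ren.refl _))
  have t3 := CrN.two t2 c3'
  have c3 := (cr3 (W := W) (Z := Z) hyz hyW hyZ hzW hzZ).2 (Or.inr (Ren.refl _))
  rw [h.thr]
  constructor
  · rintro ⟨u, h1, h2⟩
    obtain ⟨u1, c1, h1⟩ := exch (A := U ++ [g]) (B := g' :: V) (s := α) (t := β)
      (n := W.length + 1) h.two hM i1 (by simp) (L' := U ++ g :: β :: α :: g' :: V) (by simp)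
      (by simp [hW]) h1
    rcases (cr1 hyz).1 c1 with r1 | r1
    · obtain ⟨u2, c2, h1⟩ := exch (A := U) (B := α :: g' :: V) (s := g) (t := β)
        (n := W.length) t1 hM i2 (by simp) (L' := U ++ β :: g :: α :: g' :: V) (by simp) hW
        (chg r1 h1)
      obtain ⟨u3, c3, h1⟩ := exch (A := U ++ [β, g]) (B := V) (s := α) (t := g')
        (n := W.length + 2) t2 hM i3 (by simp) (L' := U ++ β :: g :: g' :: α :: V) (by simp)
        (by simp [hW]) (chg ((cr2 hyz).1 c2) h1)
      have h1' := (srtN_self hM).1 h1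
      rcases (cr3 hyz hyW hyZ hzW hzZ).1 c3 with r3 | r3
      · have h3 := (fin (A := U ++ [β]) (B := α :: V) (WA := W ++ [z]) (ZB := y :: Z) (q := y)
          (q' := z) (by simp) (by simp) hM h.mp (by simp [hW]) (by simp [hZ]) h.len t3).1
          (chg (r3.trans h1') h2)
        exact absurd h3.1 hyz.symm
      · have h3 := (fin (A := U ++ [β]) (B := α :: V) (WA := W ++ [z]) (ZB := z :: Z) (q := y)
          (q' := y) (by simp) (by simp) hM h.mp (by simp [hW]) (by simp [hZ]) h.len t2).1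
          (chg (r3.trans h1') h2)
        exact ⟨h3.2.1, by simpa using h3.2.2⟩
    · obtain ⟨u2, c2, h1⟩ := exch (A := U) (B := α :: g' :: V) (s := g) (t := β)
        (n := W.length) h.two hM i2 (by simp) (L' := U ++ β :: g :: α :: g' :: V) (by simp) hW
        (chg r1 h1)
      rw [crN_iff] at c2
      exact absurd rfl c2.1
  · rintro ⟨hp, h3⟩
    refine ⟨_, stp (A := U ++ [g]) (B := g' :: V) (s := α) (t := β)
      (L' := U ++ g :: β :: α :: g' :: V) i1 (by simp) (by simp) (by simp [hW]) c1'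
      (stp (A := U) (B := α :: g' :: V) (s := g) (t := β)
      (L' := U ++ β :: g :: α :: g' :: V) i2 (by simp) (by simp) hW c2'
      (stp (A := U ++ [β, g]) (B := V) (s := α) (t := g')
      (L' := U ++ β :: g :: g' :: α :: V) i3 (by simp) (by simp) (by simp [hW]) c3
      ((srtN_self hM).2 (Ren.refl _)))), ?_⟩
    exact (fin (A := U ++ [β]) (B := α :: V) (WA := W ++ [z]) (ZB := z :: Z) (q := y)
          (q' := y) (by simp) (by simp) hM h.mp (by simp [hW]) (by simp [hZ]) h.len t2).2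
          ⟨rfl, hp, by simpa using h3⟩

theorem g2 {U V U2 V2 : List ι} {α β g g' : ι} {W Z W2 Z2 : List ℕ} {y z p : ℕ}
    (h : Hyp (U ++ g :: α :: g' :: β :: V) (U ++ g :: g' :: α :: β :: V) U2 V2 g g'
      (W ++ y :: y :: z :: z :: Z) W2) (hW : W.length = U.length) (hZ : Z.length = V.length) :
    Srt (U2 ++ g :: g' :: V2) (U ++ g :: α :: g' :: β :: V) (W ++ y :: y :: z :: z :: Z)
      (W2 ++ p :: p :: Z2) ↔
      (p ∉ W2 ∧ p ∉ Z2) ∧ Srt (U2 ++ V2) (U ++ α :: β :: V) (W ++ z :: z :: Z) (W2 ++ Z2) := by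
  obtain ⟨hyz, hyW, hyZ, hzW, hzZ, _, _⟩ := two_mid h.two
  have hM := h.mnd
  have i1 := idx_lt (A := U ++ [g]) (B := []) (C := β :: V) (s := g') (t := α) (by simp) hM
  have t1 := CrN.two h.two ((cr1 (W := W) (Z := Z) hyz).2 (Or.inl (Ren.refl _)))
  rw [h.thr]
  constructor
  · rintro ⟨u, h1, h2⟩
    obtain ⟨u1, c1, h1⟩ := exch (A := U ++ [g]) (B := β :: V) (s := α) (t := g')
      (n := W.length + 1) h.two hM i1 (by simp) (L' := U ++ g :: g' :: α :: β :: V) (by simp)
      (by simp [hW]) h1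
    have h1' := (srtN_self hM).1 h1
    rcases (cr1 hyz).1 c1 with r1 | r1
    · have h3 := (fin (A := U) (B := α :: β :: V) (WA := W) (ZB := y :: z :: Z) (q := y)
        (q' := z) (by simp) (by simp) hM h.mp hW (by simp [hZ]) h.len t1).1
        (chg (r1.trans h1') h2)
      exact absurd h3.1 hyz.symm
    · have h3 := (fin (A := U) (B := α :: β :: V) (WA := W) (ZB := z :: z :: Z) (q := y)
        (q' := y) (by simp) (by simp) hM h.mp hW (by simp [hZ]) h.len h.two).1
        (chg (r1.trans h1') h2)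
      exact ⟨h3.2.1, by simpa using h3.2.2⟩
  · rintro ⟨hp, h3⟩
    have c1 := (cr1 (W := W) (Z := Z) hyz).2 (Or.inr (Ren.refl _))
    refine ⟨_, stp (A := U ++ [g]) (B := β :: V) (s := α) (t := g')
      (L' := U ++ g :: g' :: α :: β :: V) i1 (by simp) (by simp) (by simp [hW]) c1
      ((srtN_self hM).2 (Ren.refl _)), ?_⟩
    exact (fin (A := U) (B := α :: β :: V) (WA := W) (ZB := z :: z :: Z) (q := y)
          (q' := y) (by simp) (by simp) hM h.mp hW (by simp [hZ]) h.len h.two).2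
          ⟨rfl, hp, by simpa using h3⟩

theorem g3 {U V U2 V2 : List ι} {α β g g' : ι} {W Z W2 Z2 : List ℕ} {y z p : ℕ}
    (h : Hyp (U ++ α :: g :: β :: g' :: V) (U ++ α :: β :: g :: g' :: V) U2 V2 g g'
      (W ++ y :: y :: z :: z :: Z) W2) (hW : W.length = U.length) (hZ : Z.length = V.length) :
    Srt (U2 ++ g :: g' :: V2) (U ++ α :: g :: β :: g' :: V) (W ++ y :: y :: z :: z :: Z)
      (W2 ++ p :: p :: Z2) ↔
      (p ∉ W2 ∧ p ∉ Z2) ∧ Srt (U2 ++ V2) (U ++ α :: β :: V) (W ++ y :: y :: Z) (W2 ++ Z2) := by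
  obtain ⟨hyz, hyW, hyZ, hzW, hzZ, _, _⟩ := two_mid h.two
  have hM := h.mnd
  have i1 := idx_lt (A := U ++ [α]) (B := []) (C := g' :: V) (s := β) (t := g) (by simp) hM
  have t1 := CrN.two h.two ((cr1 (W := W) (Z := Z) hyz).2 (Or.inl (Ren.refl _)))
  rw [h.thr]
  constructor
  · rintro ⟨u, h1, h2⟩
    obtain ⟨u1, c1, h1⟩ := exch (A := U ++ [α]) (B := g' :: V) (s := g) (t := β)
      (n := W.length + 1) h.two hM i1 (by simp) (L' := U ++ α :: β :: g :: g' :: V) (by simp)
      (by simp [hW]) h1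
    have h1' := (srtN_self hM).1 h1
    rcases (cr1 hyz).1 c1 with r1 | r1
    · have h3 := (fin (A := U ++ [α, β]) (B := V) (WA := W ++ [y, z]) (ZB := Z) (q := y)
        (q' := z) (by simp) (by simp) hM h.mp (by simp [hW]) (by simp [hZ]) h.len t1).1
        (chg (r1.trans h1') h2)
      exact absurd h3.1 hyz.symm
    · have h3 := (fin (A := U ++ [α, β]) (B := V) (WA := W ++ [y, y]) (ZB := Z) (q := z)
        (q' := z) (by simp) (by simp) hM h.mp (by simp [hW]) (by simp [hZ]) h.len h.two).1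
        (chg (r1.trans h1') h2)
      exact ⟨h3.2.1, by simpa using h3.2.2⟩
  · rintro ⟨hp, h3⟩
    have c1 := (cr1 (W := W) (Z := Z) hyz).2 (Or.inr (Ren.refl _))
    refine ⟨_, stp (A := U ++ [α]) (B := g' :: V) (s := g) (t := β)
      (L' := U ++ α :: β :: g :: g' :: V) i1 (by simp) (by simp) (by simp [hW]) c1
      ((srtN_self hM).2 (Ren.refl _)), ?_⟩
    exact (fin (A := U ++ [α, β]) (B := V) (WA := W ++ [y, y]) (ZB := Z) (q := z)
          (q' := z) (by simp) (by simp) hM h.mp (by simp [hW]) (by simp [hZ]) h.len h.two).2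
          ⟨rfl, hp, by simpa using h3⟩

theorem b1 {U V U2 V2 : List ι} {α β g g' : ι} {W Z W2 Z2 : List ℕ} {y z p : ℕ}
    (h : Hyp (U ++ α :: g :: β :: g' :: V) (U ++ β :: α :: g :: g' :: V) U2 V2 g g'
      (W ++ y :: y :: z :: z :: Z) W2) (hW : W.length = U.length) (hZ : Z.length = V.length) :
    ¬ Srt (U2 ++ g :: g' :: V2) (U ++ α :: g :: β :: g' :: V) (W ++ y :: y :: z :: z :: Z)
      (W2 ++ p :: p :: Z2) := by
  obtain ⟨hyz, hyW, hyZ, hzW, hzZ, _, _⟩ := two_mid h.two
  have hM := h.mnd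
  have i1 := idx_lt (A := U) (B := [α]) (C := g' :: V) (s := β) (t := g) (by simp) hM
  have i2 := idx_lt (A := U) (B := []) (C := g :: g' :: V) (s := β) (t := α) (by simp) hM
  have t1 := CrN.two h.two ((cr1 (W := W) (Z := Z) hyz).2 (Or.inl (Ren.refl _)))
  have t2 := CrN.two t1 ((cr2 (W := W) (Z := Z) hyz).2 (Ren.refl _))
  rw [h.thr]
  rintro ⟨u, h1, h2⟩
  obtain ⟨u1, c1, h1⟩ := exch (A := U ++ [α]) (B := g' :: V) (s := g) (t := β)
    (n := W.length + 1) h.two hM i1 (by simp) (L' := U ++ α :: β :: g :: g' :: V) (by simp)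
    (by simp [hW]) h1
  rcases (cr1 hyz).1 c1 with r1 | r1
  · obtain ⟨u2, c2, h1⟩ := exch (A := U) (B := g :: g' :: V) (s := α) (t := β)
      (n := W.length) t1 hM i2 (by simp) (L' := U ++ β :: α :: g :: g' :: V) (by simp) hW
      (chg r1 h1)
    have h1' := (srtN_self hM).1 h1
    have h3 := (fin (A := U ++ [β, α]) (B := V) (WA := W ++ [z, y]) (ZB := Z) (q := y)
      (q' := z) (by simp) (by simp) hM h.mp (by simp [hW]) (by simp [hZ]) h.len t2).1
      (chg (((cr2 hyz).1 c2).trans h1') h2)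
    exact hyz.symm h3.1
  · obtain ⟨u2, c2, h1⟩ := exch (A := U) (B := g :: g' :: V) (s := α) (t := β)
      (n := W.length) h.two hM i2 (by simp) (L' := U ++ β :: α :: g :: g' :: V) (by simp) hW
      (chg r1 h1)
    rw [crN_iff] at c2
    exact c2.1 rfl

theorem b2 {U V U2 V2 : List ι} {α β g g' : ι} {W Z W2 Z2 : List ℕ} {y z p : ℕ}
    (h : Hyp (U ++ α :: g :: g' :: β :: V) (U ++ α :: g :: g' :: β :: V) U2 V2 g g'
      (W ++ y :: y :: z :: z :: Z) W2) (hW : W.length = U.length) (hZ : Z.length = V.length) :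
    ¬ Srt (U2 ++ g :: g' :: V2) (U ++ α :: g :: g' :: β :: V) (W ++ y :: y :: z :: z :: Z)
      (W2 ++ p :: p :: Z2) := by
  obtain ⟨hyz, hyW, hyZ, hzW, hzZ, _, _⟩ := two_mid h.two
  have hM := h.mnd
  intro h2
  have h3 := (fin (A := U ++ [α]) (B := β :: V) (WA := W ++ [y]) (ZB := z :: Z) (q := y)
      (q' := z) (by simp) (by simp) hM h.mp (by simp [hW]) (by simp [hZ]) h.len h.two).1 h2
  exact hyz.symm h3.1

theorem b3 {U V U2 V2 : List ι} {α β g g' : ι} {W Z W2 Z2 : List ℕ} {y z p : ℕ}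
    (h : Hyp (U ++ g :: α :: g' :: β :: V) (U ++ g :: g' :: β :: α :: V) U2 V2 g g'
      (W ++ y :: y :: z :: z :: Z) W2) (hW : W.length = U.length) (hZ : Z.length = V.length) :
    ¬ Srt (U2 ++ g :: g' :: V2) (U ++ g :: α :: g' :: β :: V) (W ++ y :: y :: z :: z :: Z)
      (W2 ++ p :: p :: Z2) := by
  obtain ⟨hyz, hyW, hyZ, hzW, hzZ, _, _⟩ := two_mid h.two
  have hM := h.mnd
  have i1 := idx_lt (A := U ++ [g]) (B := [β]) (C := V) (s := g') (t := α) (by simp) hM
  have i2 := idx_lt (A := U ++ [g, g']) (B := []) (C := V) (s := β) (t := α) (by simp) hM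
  have t1 := CrN.two h.two ((cr1 (W := W) (Z := Z) hyz).2 (Or.inl (Ren.refl _)))
  rw [h.thr]
  rintro ⟨u, h1, h2⟩
  obtain ⟨u1, c1, h1⟩ := exch (A := U ++ [g]) (B := β :: V) (s := α) (t := g')
    (n := W.length + 1) h.two hM i1 (by simp) (L' := U ++ g :: g' :: α :: β :: V) (by simp)
    (by simp [hW]) h1
  rcases (cr1 hyz).1 c1 with r1 | r1
  · obtain ⟨u2, c2, h1⟩ := exch (A := U ++ [g, g']) (B := V) (s := α) (t := β)
      (n := W.length + 2) t1 hM i2 (by simp) (L' := U ++ g :: g' :: β :: α :: V) (by simp)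
      (by simp [hW]) (chg r1 h1)
    have h1' := (srtN_self hM).1 h1
    have t2 := CrN.two t1 c2
    have h4 := @crN_iff (W ++ [y, z]) Z u2 y z
    simp only [List.length_append, List.length_cons, List.length_nil, List.append_assoc,
      List.cons_append, List.nil_append, zero_add, Nat.reduceAdd] at h4
    rw [h4] at c2
    obtain ⟨_, c2 | ⟨c2, _⟩⟩ := c2
    · have h3 := (fin (A := U) (B := β :: α :: V) (WA := W) (ZB := z :: y :: Z) (q := y)
        (q' := z) (by simp) (by simp) hM h.mp hW (by simp [hZ]) h.len (c2.symm.two t2)).1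
        (chg (c2.trans h1') h2)
      exact hyz.symm h3.1
    · have h3 := (fin (A := U) (B := β :: α :: V) (WA := W) (ZB := y :: z :: Z) (q := y)
        (q' := z) (by simp) (by simp) hM h.mp hW (by simp [hZ]) h.len (c2.symm.two t2)).1
        (chg (c2.trans h1') h2)
      exact hyz.symm h3.1
  · obtain ⟨u2, c2, h1⟩ := exch (A := U ++ [g, g']) (B := V) (s := α) (t := β)
      (n := W.length + 2) h.two hM i2 (by simp) (L' := U ++ g :: g' :: β :: α :: V) (by simp)
      (by simp [hW]) (chg r1 h1)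
    have h4 := @crN_iff (W ++ [y, y]) Z u2 z z
    simp only [List.length_append, List.length_cons, List.length_nil, List.append_assoc,
      List.cons_append, List.nil_append, zero_add, Nat.reduceAdd] at h4
    rw [h4] at c2
    exact c2.1 rfl

end

section link

/-- `Lev` as a property of two layers. -/
def LevF (Fm F : Finset (ℚ × ℚ)) (b a : ℚ × ℚ → ℕ) : Prop :=
  (∀ s ∈ Fm, ∀ s' ∈ Fm, s ≠ s' → s.2 = s'.2 → b s = b s') ∧
  (∀ t ∈ F, ∀ t' ∈ F, t ≠ t' → t.1 = t'.1 → a t = a t') ∧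
  (∀ s ∈ Fm, ∀ s' ∈ Fm, ∀ t ∈ F, ∀ t' ∈ F, s.2 = t.1 → s'.2 = t'.1 →
    (b s = b s' ↔ a t = a t'))

theorem lev_iff {E : Lk} {k : ℤ} {b a : ℚ × ℚ → ℕ} : Lev E k b a ↔ LevF (E (k - 1)) (E k) b a :=
  Iff.rfl

theorem LevF.mono {Fm F Fm' F' : Finset (ℚ × ℚ)} {b a : ℚ × ℚ → ℕ} (h : LevF Fm F b a)
    (h1 : Fm' ⊆ Fm) (h2 : F' ⊆ F) : LevF Fm' F' b a :=
  ⟨fun s hs s' hs' => h.1 s (h1 hs) s' (h1 hs'), fun t ht t' ht' => h.2.1 t (h2 ht) t' (h2 ht'),
    fun s hs s' hs' t ht t' ht' => h.2.2 s (h1 hs) s' (h1 hs') t (h2 ht) t' (h2 ht')⟩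

theorem LevF.congr {Fm F : Finset (ℚ × ℚ)} {b a b' a' : ℚ × ℚ → ℕ} (h : LevF Fm F b a)
    (h1 : ∀ s ∈ Fm, b' s = b s) (h2 : ∀ t ∈ F, a' t = a t) : LevF Fm F b' a' := by
  refine ⟨fun s hs s' hs' e1 e2 => ?_, fun t ht t' ht' e1 e2 => ?_,
    fun s hs s' hs' t ht t' ht' e1 e2 => ?_⟩
  · rw [h1 s hs, h1 s' hs']
    exact h.1 s hs s' hs' e1 e2
  · rw [h2 t ht, h2 t' ht']
    exact h.2.1 t ht t' ht' e1 e2
  · rw [h1 s hs, h1 s' hs', h2 t ht, h2 t' ht']
    exact h.2.2 s hs s' hs' t ht t' ht' e1 e2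

/-- Adding strands that end at `v` (no strand of the next layer begins there). -/
theorem LevF.add_hi {F0 F Fp : Finset (ℚ × ℚ)} {g a : ℚ × ℚ → ℕ} {v : ℚ} (h : LevF F0 Fp g a)
    (hF : ∀ s ∈ F, s ∈ F0 ∨ s.2 = v)
    (hg : ∀ s ∈ F, ∀ s' ∈ F, s.2 = v → s'.2 = v → g s = g s') (hp : ∀ t ∈ Fp, t.1 ≠ v) :
    LevF F Fp g a := by
  refine ⟨fun s hs s' hs' e1 e2 => ?_, h.2.1, fun s hs s' hs' t ht t' ht' e1 e2 => ?_⟩
  · by_cases hv : s.2 = v
    · exact hg s hs s' hs' hv (e2 ▸ hv)
    · have hv' : s'.2 ≠ v := fun e => hv (e2.trans e)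
      exact h.1 s ((hF s hs).resolve_right hv) s' ((hF s' hs').resolve_right hv') e1 e2
  · have hv : s.2 ≠ v := fun e => hp t ht (e1 ▸ e)
    have hv' : s'.2 ≠ v := fun e => hp t' ht' (e2 ▸ e)
    exact h.2.2 s ((hF s hs).resolve_right hv) s' ((hF s' hs').resolve_right hv') t ht t' ht' e1 e2

/-- Adding strands that begin at `v` (no strand of the layer below ends there). -/
theorem LevF.add_lo {Fm F0 F : Finset (ℚ × ℚ)} {b f : ℚ × ℚ → ℕ} {v : ℚ} (h : LevF Fm F0 b f)
    (hF : ∀ s ∈ F, s ∈ F0 ∨ s.1 = v)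
    (hf : ∀ s ∈ F, ∀ s' ∈ F, s.1 = v → s'.1 = v → f s = f s') (hm : ∀ s ∈ Fm, s.2 ≠ v) :
    LevF Fm F b f := by
  refine ⟨h.1, fun t ht t' ht' e1 e2 => ?_, fun s hs s' hs' t ht t' ht' e1 e2 => ?_⟩
  · by_cases hv : t.1 = v
    · exact hf t ht t' ht' hv (e2 ▸ hv)
    · have hv' : t'.1 ≠ v := fun e => hv (e2.trans e)
      exact h.2.1 t ((hF t ht).resolve_right hv) t' ((hF t' ht').resolve_right hv') e1 e2
  · have hv : t.1 ≠ v := fun e => hm s hs (e1.trans e)
    have hv' : t'.1 ≠ v := fun e => hm s' hs' (e2.trans e)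
    exact h.2.2 s hs s' hs' t ((hF t ht).resolve_right hv) t' ((hF t' ht').resolve_right hv') e1 e2

theorem LevF.mu {F1 Fp : Finset (ℚ × ℚ)} {g g' a : ℚ × ℚ → ℕ} {μ : ℚ × ℚ → ℚ × ℚ}
    (hμ : ∀ s, (μ s).2 = s.2) (hinj : ∀ s ∈ F1, ∀ s' ∈ F1, μ s = μ s' → s = s')
    (hg : ∀ s ∈ F1, g' (μ s) = g s) : LevF (F1.image μ) Fp g' a ↔ LevF F1 Fp g a := by
  constructor
  · intro h
    refine ⟨fun s hs s' hs' e1 e2 => ?_, h.2.1, fun s hs s' hs' t ht t' ht' e1 e2 => ?_⟩
    · rw [← hg s hs, ← hg s' hs']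
      exact h.1 _ (Finset.mem_image_of_mem μ hs) _ (Finset.mem_image_of_mem μ hs')
        (fun e => e1 (hinj s hs s' hs' e)) (by rw [hμ, hμ, e2])
    · rw [← hg s hs, ← hg s' hs']
      exact h.2.2 _ (Finset.mem_image_of_mem μ hs) _ (Finset.mem_image_of_mem μ hs') t ht t' ht'
        (by rw [hμ, e1]) (by rw [hμ, e2])
  · intro h
    refine ⟨fun s hs s' hs' e1 e2 => ?_, h.2.1, fun s hs s' hs' t ht t' ht' e1 e2 => ?_⟩
    · obtain ⟨x, hx, rfl⟩ := Finset.mem_image.1 hs
      obtain ⟨x', hx', rfl⟩ := Finset.mem_image.1 hs'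
      rw [hg x hx, hg x' hx']
      exact h.1 x hx x' hx' (fun e => e1 (by rw [e])) (by rw [hμ, hμ] at e2; exact e2)
    · obtain ⟨x, hx, rfl⟩ := Finset.mem_image.1 hs
      obtain ⟨x', hx', rfl⟩ := Finset.mem_image.1 hs'
      rw [hg x hx, hg x' hx']
      exact h.2.2 x hx x' hx' t ht t' ht' (by rw [hμ] at e1; exact e1)
        (by rw [hμ] at e2; exact e2)

theorem two_drop {W Z : List ℕ} {c : ℕ} (h : Two (W ++ c :: c :: Z)) :
    c ∉ W ∧ c ∉ Z ∧ Two (W ++ Z) := by
  have hc := h c (by simp)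
  simp only [List.count_append, List.count_cons_self] at hc
  have h1 : W.count c = 0 := by omega
  have h2 : Z.count c = 0 := by omega
  rw [List.count_eq_zero] at h1 h2
  refine ⟨h1, h2, fun r hr => ?_⟩
  have hrc : r ≠ c := by
    rintro rfl
    simp only [List.mem_append] at hr
    tauto
  have := h r (by simp only [List.mem_append, List.mem_cons] at hr ⊢; tauto)
  simp only [List.count_append, List.count_cons, beq_iff_eq, hrc.symm, if_false] at this ⊢
  omega

theorem two_add {W Z : List ℕ} {c : ℕ} (h : Two (W ++ Z)) (h1 : c ∉ W) (h2 : c ∉ Z) :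
    Two (W ++ c :: c :: Z) := by
  intro r hr
  by_cases hrc : r = c
  · subst hrc
    simp only [List.count_append, List.count_cons_self, List.count_eq_zero.2 h1,
      List.count_eq_zero.2 h2]
  · have := h r (by simp only [List.mem_append, List.mem_cons] at hr ⊢; tauto)
    simp only [List.count_append, List.count_cons, beq_iff_eq, Ne.symm hrc, if_false] at this ⊢
    omega

/-- Changing one layer of a ruling. -/
theorem rul_update {E E' : Lk} {k : ℤ} (hE : ∀ j, j ≠ k → E' j = E j)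
    {A B : ℤ → ℚ × ℚ → ℕ}
    (h : ∀ k : ℤ, Two ((AL (E k)).map (A k)) ∧
      Srt (BL (E k)) (AL (E k)) ((AL (E k)).map (A k)) ((BL (E k)).map (B k)) ∧
      Lev E k (B (k - 1)) (A k)) {f g : ℚ × ℚ → ℕ}
    (h2 : Two ((AL (E' k)).map f))
    (hs : Srt (BL (E' k)) (AL (E' k)) ((AL (E' k)).map f) ((BL (E' k)).map g))
    (hl : LevF (E (k - 1)) (E' k) (B (k - 1)) f) (hl' : LevF (E' k) (E (k + 1)) g (A (k + 1))) :
    Rul E' := by
  refine ⟨Function.update A k f, Function.update B k g, fun j => ?_⟩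
  by_cases hj : j = k
  · subst hj
    rw [Function.update_self, Function.update_self, Function.update_of_ne (by omega)]
    refine ⟨h2, hs, ?_⟩
    rw [lev_iff, hE _ (by omega)]
    exact hl
  · rw [Function.update_of_ne hj, Function.update_of_ne hj]
    obtain ⟨e1, e2, e3⟩ := h j
    rw [hE j hj]
    refine ⟨e1, e2, ?_⟩
    by_cases hj' : j = k + 1
    · subst hj'
      rw [lev_iff, add_sub_cancel_right, hE (k + 1) (by omega), Function.update_self]
      exact hl'
    · rw [Function.update_of_ne (by omega), lev_iff, hE _ (by omega), hE _ hj]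
      exact e3

/-- The situation of the lemma. -/
structure Dat (E : Lk) (k : ℤ) (v1 v2 a b t : ℚ) : Prop where
  h12 : v1 < v2
  hat : a ≠ t
  hbt : b ≠ t
  ma : (v1, a) ∈ E k
  mb : (v2, b) ∈ E k
  mg : (v1, t) ∈ E k
  mg' : (v2, t) ∈ E k
  n1 : ∀ s ∈ E (k - 1), s.2 ≠ v1
  n2 : ∀ s ∈ E (k - 1), s.2 ≠ v2
  e1 : ∀ s ∈ E k, s.1 = v1 → s = (v1, a) ∨ s = (v1, t)
  e2 : ∀ s ∈ E k, s.1 = v2 → s = (v2, b) ∨ s = (v2, t)
  nt : ∀ s ∈ E (k + 1), s.1 ≠ t
  et : ∀ s ∈ E k, s.2 = t → s = (v1, t) ∨ s = (v2, t)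
  adj : ∀ s ∈ E k, ¬ (v1 < s.1 ∧ s.1 < v2)
  eab : a = b → (∀ s ∈ E (k + 1), s.1 ≠ a) ∧ ∀ s ∈ E k, s.2 = a → s = (v1, a) ∨ s = (v2, a)

theorem mkDat {E : Lk} {k : ℤ} (hE : Closed E) {v1 v2 a b t : ℚ} (h12 : v1 < v2)
    (hadj : ∀ v, v1 < v → v < v2 → deg E k v = 0)
    (hα : (v1, a) ∈ E k) (hβ : (v2, b) ∈ E k) (hγ : (v1, t) ∈ E k) (hγ' : (v2, t) ∈ E k)
    (hat : a ≠ t) (hbt : b ≠ t) : Dat E k v1 v2 a b t := by
  have u1 := uu_ends hE hα hγ hat
  have u2 := uu_ends hE hβ hγ' hbt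
  have hk : k + 1 - 1 = k := by omega
  have d1 := dd_ends (k := k + 1) hE (v := t) (x := v1) (y := v2) (by rw [hk]; exact hγ)
    (by rw [hk]; exact hγ') h12.ne
  rw [hk] at d1
  refine ⟨h12, hat, hbt, hα, hβ, hγ, hγ', u1.1, u2.1, u1.2, u2.2, d1.1, d1.2, ?_, ?_⟩
  · rintro s hs ⟨h1, h2⟩
    have h3 := up_ends hE (k := k) (v := s.1) (x := s.2) hs
    rw [hadj _ h1 h2] at h3
    omega
  · rintro rfl
    have d2 := dd_ends (k := k + 1) hE (v := a) (x := v1) (y := v2) (by rw [hk]; exact hα)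
      (by rw [hk]; exact hβ) h12.ne
    rw [hk] at d2
    exact d2

variable {E : Lk} {k : ℤ} {v1 v2 a b t : ℚ}

/-- The renaming of `β`. -/
def mu (v1 v2 : ℚ) (s : ℚ × ℚ) : ℚ × ℚ := (if s.1 = v2 then v1 else s.1, s.2)

theorem mrg_other (D : Dat E k v1 v2 a b t) {j : ℤ} (hj : j ≠ k) : mrg E k v1 v2 j = E j := by
  unfold mrg
  split_ifs with h1
  · subst h1
    have h2 : ∀ s ∈ E (k - 1), (s.1, if s.2 = v2 then v1 else s.2) = s := by
      intro s hs
      simp only [if_neg (D.n2 s hs)]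
    rw [img2_inj]
    · ext s
      rw [Finset.mem_image]
      constructor
      · rintro ⟨x, hx, e⟩
        have e' : (x.1, if x.2 = v2 then v1 else x.2) = s := e
        rw [h2 x hx] at e'
        rw [← e']
        exact hx
      · intro hs
        exact ⟨s, hs, h2 s hs⟩
    · intro s hs s' hs' e
      have e' : (s.1, if s.2 = v2 then v1 else s.2) = (s'.1, if s'.2 = v2 then v1 else s'.2) := e
      rw [h2 s hs, h2 s' hs'] at e'
      exact e'
  · rfl

theorem mrg_self : mrg E k v1 v2 k = img2 (mu v1 v2) (E k) := by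
  unfold mrg
  rw [if_neg (by omega), if_pos rfl]
  rfl

/-- The strands that do not touch `v1`, `v2`. -/
def Rst (F : Finset (ℚ × ℚ)) (v1 v2 : ℚ) : Finset (ℚ × ℚ) :=
  F.filter (fun s => s.1 ≠ v1 ∧ s.1 ≠ v2)

theorem mem_Rst {F : Finset (ℚ × ℚ)} {s : ℚ × ℚ} :
    s ∈ Rst F v1 v2 ↔ s ∈ F ∧ s.1 ≠ v1 ∧ s.1 ≠ v2 := by
  rw [Rst, Finset.mem_filter]

theorem mu_rst {s : ℚ × ℚ} (h : s.1 ≠ v2) : mu v1 v2 s = s := by
  rw [mu, if_neg h]

theorem mu_v2 {x : ℚ} : mu v1 v2 (v2, x) = (v1, x) := by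
  rw [mu, if_pos rfl]

theorem img2_pair {α β : Type*} [DecidableEq α] [DecidableEq β] {g : α → β} {x x' : α}
    (hx : x ≠ x') (h : g x = g x') : img2 g {x, x'} = ∅ := by
  ext e
  rw [mem_img2]
  simp only [Finset.notMem_empty, iff_false, Nat.not_odd_iff_even]
  by_cases he : g x = e
  · have : ({x, x'} : Finset α).filter (fun s => g s = e) = {x, x'} := by
      apply Finset.filter_true_of_mem
      intro s hs
      rw [Finset.mem_insert, Finset.mem_singleton] at hs
      rcases hs with rfl | rfl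
      · exact he
      · rw [← h]; exact he
    rw [this, Finset.card_pair hx]
    exact even_two
  · have : ({x, x'} : Finset α).filter (fun s => g s = e) = ∅ := by
      apply Finset.filter_false_of_mem
      intro s hs
      rw [Finset.mem_insert, Finset.mem_singleton] at hs
      rcases hs with rfl | rfl
      · exact he
      · rw [← h]; exact he
    rw [this]
    exact ⟨0, rfl⟩

/-- The strands that do not end at `t`. -/
def F1 (F : Finset (ℚ × ℚ)) (t : ℚ) : Finset (ℚ × ℚ) := F.filter (fun s => s.2 ≠ t)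

theorem mem_F1 {F : Finset (ℚ × ℚ)} {s : ℚ × ℚ} : s ∈ F1 F t ↔ s ∈ F ∧ s.2 ≠ t := by
  rw [F1, Finset.mem_filter]

theorem F1_iff (D : Dat E k v1 v2 a b t) {s : ℚ × ℚ} :
    s ∈ F1 (E k) t ↔ s ∈ Rst (E k) v1 v2 ∨ s = (v1, a) ∨ s = (v2, b) := by
  rw [mem_F1, mem_Rst]
  constructor
  · rintro ⟨h1, h2⟩
    by_cases h3 : s.1 = v1
    · rcases D.e1 s h1 h3 with h | h
      · exact Or.inr (Or.inl h)
      · exact absurd (by rw [h]) h2
    · by_cases h4 : s.1 = v2
      · rcases D.e2 s h1 h4 with h | h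
        · exact Or.inr (Or.inr h)
        · exact absurd (by rw [h]) h2
      · exact Or.inl ⟨h1, h3, h4⟩
  · rintro (⟨h1, h2, h3⟩ | rfl | rfl)
    · refine ⟨h1, fun h4 => ?_⟩
      rcases D.et s h1 h4 with h | h
      · exact h2 (by rw [h])
      · exact h3 (by rw [h])
    · exact ⟨D.ma, D.hat⟩
    · exact ⟨D.mb, D.hbt⟩

theorem E_symm (D : Dat E k v1 v2 a b t) :
    E k = symmDiff (F1 (E k) t) {(v1, t), (v2, t)} := by
  ext s
  rw [Finset.mem_symmDiff, mem_F1, Finset.mem_insert, Finset.mem_singleton]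
  constructor
  · intro h
    by_cases h2 : s.2 = t
    · right
      refine ⟨D.et s h h2, fun h3 => h3.2 h2⟩
    · left
      refine ⟨⟨h, h2⟩, ?_⟩
      rintro (rfl | rfl) <;> exact h2 rfl
  · rintro (⟨⟨h, _⟩, _⟩ | ⟨rfl | rfl, _⟩)
    · exact h
    · exact D.mg
    · exact D.mg'

theorem mrg_F1 (D : Dat E k v1 v2 a b t) :
    mrg E k v1 v2 k = img2 (mu v1 v2) (F1 (E k) t) := by
  rw [mrg_self]
  conv_lhs => rw [E_symm D]
  rw [img2_symmDiff, img2_pair (x := (v1, t)) (x' := (v2, t))]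
  · exact symmDiff_bot _
  · intro h
    exact D.h12.ne (Prod.mk.inj h).1
  · rw [mu_v2, mu_rst D.h12.ne]

theorem mu_inj (D : Dat E k v1 v2 a b t) (hab : a ≠ b) :
    ∀ s ∈ F1 (E k) t, ∀ s' ∈ F1 (E k) t, mu v1 v2 s = mu v1 v2 s' → s = s' := by
  have key : ∀ s ∈ F1 (E k) t, (s.1 ≠ v2 ∧ mu v1 v2 s = s ∧ (s.1 = v1 → s = (v1, a))) ∨
      (s = (v2, b) ∧ mu v1 v2 s = (v1, b)) := by
    intro s hs
    rw [F1_iff D, mem_Rst] at hs
    rcases hs with ⟨h1, h2, h3⟩ | rfl | rfl
    · exact Or.inl ⟨h3, mu_rst h3, fun h => absurd h h2⟩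
    · exact Or.inl ⟨D.h12.ne, mu_rst D.h12.ne, fun _ => rfl⟩
    · exact Or.inr ⟨rfl, mu_v2⟩
  intro s hs s' hs' h
  rcases key s hs with ⟨h1, h2, h3⟩ | ⟨h1, h2⟩ <;> rcases key s' hs' with ⟨k1, k2, k3⟩ | ⟨k1, k2⟩
  · rw [← h2, ← k2, h]
  · rw [h2, k2] at h
    have := h3 (by rw [h])
    rw [h] at this
    exact absurd (Prod.mk.inj this).2.symm hab
  · rw [h2, k2] at h
    have := k3 (by rw [← h])
    rw [← h] at this
    exact absurd (Prod.mk.inj this).2.symm hab
  · rw [h1, k1]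

theorem mrg_ne (D : Dat E k v1 v2 a b t) (hab : a ≠ b) :
    mrg E k v1 v2 k = (F1 (E k) t).image (mu v1 v2) := by
  rw [mrg_F1 D, img2_inj (mu_inj D hab)]

theorem mem_ne (D : Dat E k v1 v2 a b t) (hab : a ≠ b) {s : ℚ × ℚ} :
    s ∈ mrg E k v1 v2 k ↔ s ∈ Rst (E k) v1 v2 ∨ s = (v1, a) ∨ s = (v1, b) := by
  rw [mrg_ne D hab, Finset.mem_image]
  constructor
  · rintro ⟨x, hx, rfl⟩
    rw [F1_iff D] at hx
    rcases hx with h | rfl | rfl
    · rw [mu_rst (mem_Rst.1 h).2.2]
      exact Or.inl h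
    · rw [mu_rst D.h12.ne]
      exact Or.inr (Or.inl rfl)
    · rw [mu_v2]
      exact Or.inr (Or.inr rfl)
  · rintro (h | rfl | rfl)
    · exact ⟨s, (F1_iff D).2 (Or.inl h), mu_rst (mem_Rst.1 h).2.2⟩
    · exact ⟨_, (F1_iff D).2 (Or.inr (Or.inl rfl)), mu_rst D.h12.ne⟩
    · exact ⟨_, (F1_iff D).2 (Or.inr (Or.inr rfl)), mu_v2⟩

theorem mrg_eq (D : Dat E k v1 v2 a b t) (hab : a = b) :
    mrg E k v1 v2 k = Rst (E k) v1 v2 := by
  subst hab
  have h1 : F1 (E k) t = symmDiff (Rst (E k) v1 v2) {(v1, a), (v2, a)} := by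
    ext s
    rw [Finset.mem_symmDiff, F1_iff D, Finset.mem_insert, Finset.mem_singleton]
    constructor
    · rintro (h | h)
      · left
        refine ⟨h, ?_⟩
        rintro (rfl | rfl)
        · exact (mem_Rst.1 h).2.1 rfl
        · exact (mem_Rst.1 h).2.2 rfl
      · right
        refine ⟨h, fun h' => ?_⟩
        rcases h with rfl | rfl
        · exact (mem_Rst.1 h').2.1 rfl
        · exact (mem_Rst.1 h').2.2 rfl
    · rintro (⟨h, _⟩ | ⟨h, _⟩)
      · exact Or.inl h
      · exact Or.inr h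
  rw [mrg_F1 D, h1, img2_symmDiff, img2_pair (x := (v1, a)) (x' := (v2, a)), img2_inj]
  · ext s
    rw [Finset.mem_symmDiff, Finset.mem_image]
    simp only [Finset.notMem_empty, not_false_eq_true, and_true, false_and, or_false]
    constructor
    · rintro ⟨x, hx, rfl⟩
      rw [mu_rst (mem_Rst.1 hx).2.2]
      exact hx
    · intro h
      exact ⟨s, h, mu_rst (mem_Rst.1 h).2.2⟩
  · intro s hs s' hs' h
    rw [mu_rst (mem_Rst.1 hs).2.2, mu_rst (mem_Rst.1 hs').2.2] at h
    exact h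
  · intro h
    exact D.h12.ne (Prod.mk.inj h).1
  · rw [mu_v2, mu_rst D.h12.ne]

/-- The strands on the left. -/
def Ul (F : Finset (ℚ × ℚ)) (v1 : ℚ) : List (ℚ × ℚ) := AL (F.filter (fun s => s.1 < v1))

/-- The strands on the right. -/
def Vl (F : Finset (ℚ × ℚ)) (v2 : ℚ) : List (ℚ × ℚ) := AL (F.filter (fun s => v2 < s.1))

/-- The strands that end on the left of `t`. -/
def U2l (F : Finset (ℚ × ℚ)) (t : ℚ) : List (ℚ × ℚ) := BL (F.filter (fun s => s.2 < t))

/-- The strands that end on the right of `t`. -/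
def V2l (F : Finset (ℚ × ℚ)) (t : ℚ) : List (ℚ × ℚ) := BL (F.filter (fun s => t < s.2))

/-- The names `α`, `β` in the order of the merged link. -/
def Yl (v1 v2 a b : ℚ) : List (ℚ × ℚ) :=
  if b < a then [(v2, b), (v1, a)] else [(v1, a), (v2, b)]

theorem AL_E (D : Dat E k v1 v2 a b t) :
    AL (E k) = Ul (E k) v1 ++ (AL {(v1, a), (v1, t)} ++ AL {(v2, t), (v2, b)}) ++ Vl (E k) v2 := by
  have f1 : (E k).filter (fun s => s.1 = v1) = {(v1, a), (v1, t)} := by
    ext s
    rw [Finset.mem_filter, Finset.mem_insert, Finset.mem_singleton]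
    constructor
    · rintro ⟨h1, h2⟩
      exact D.e1 s h1 h2
    · rintro (rfl | rfl)
      · exact ⟨D.ma, rfl⟩
      · exact ⟨D.mg, rfl⟩
  have f2 : (E k).filter (fun s => s.1 = v2) = {(v2, t), (v2, b)} := by
    ext s
    rw [Finset.mem_filter, Finset.mem_insert, Finset.mem_singleton]
    constructor
    · rintro ⟨h1, h2⟩
      exact (D.e2 s h1 h2).symm
    · rintro (rfl | rfl)
      · exact ⟨D.mg', rfl⟩
      · exact ⟨D.mb, rfl⟩
  rw [AL_split2 (E k) D.h12 D.adj, f1, f2, Ul, Vl]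
  simp only [List.append_assoc]

theorem BL_E (D : Dat E k v1 v2 a b t) :
    BL (E k) = U2l (E k) t ++ (v1, t) :: (v2, t) :: V2l (E k) t := by
  have f1 : (E k).filter (fun s => s.2 = t) = {(v1, t), (v2, t)} := by
    ext s
    rw [Finset.mem_filter, Finset.mem_insert, Finset.mem_singleton]
    constructor
    · rintro ⟨h1, h2⟩
      exact D.et s h1 h2
    · rintro (rfl | rfl)
      · exact ⟨D.mg, rfl⟩
      · exact ⟨D.mg', rfl⟩
  rw [BL_split (E k) t, f1, BL_pair (s := (v1, t)) (t := (v2, t)) (Or.inr ⟨rfl, D.h12⟩), U2l, V2l]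
  simp only [List.append_assoc, List.cons_append, List.nil_append]

theorem BL_F1 : BL (F1 (E k) t) = U2l (E k) t ++ V2l (E k) t := by
  have f1 : (F1 (E k) t).filter (fun s => s.2 < t) = (E k).filter (fun s => s.2 < t) := by
    ext s
    rw [Finset.mem_filter, Finset.mem_filter, mem_F1]
    exact ⟨fun h => ⟨h.1.1, h.2⟩, fun h => ⟨⟨h.1, h.2.ne⟩, h.2⟩⟩
  have f2 : (F1 (E k) t).filter (fun s => s.2 = t) = ∅ := by
    apply Finset.filter_false_of_mem
    intro s hs
    exact (mem_F1.1 hs).2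
  have f3 : (F1 (E k) t).filter (fun s => t < s.2) = (E k).filter (fun s => t < s.2) := by
    ext s
    rw [Finset.mem_filter, Finset.mem_filter, mem_F1]
    exact ⟨fun h => ⟨h.1.1, h.2⟩, fun h => ⟨⟨h.1, h.2.ne'⟩, h.2⟩⟩
  rw [BL_split _ t, f1, f2, f3, BL_empty, List.append_nil, U2l, V2l]

theorem al_lt {v x y : ℚ} (h : x < y) : AL {(v, x), (v, y)} = [(v, x), (v, y)] :=
  AL_pair (Or.inr ⟨rfl, h⟩)

theorem al_gt {v x y : ℚ} (h : y < x) : AL {(v, x), (v, y)} = [(v, y), (v, x)] := by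
  rw [Finset.pair_comm]
  exact AL_pair (Or.inr ⟨rfl, h⟩)

theorem beq_inst : (instBEqProd : BEq (ℚ × ℚ)) = instBEqOfDecidableEq := by
  have h : ∀ x y : ℚ × ℚ, (instBEqProd : BEq (ℚ × ℚ)).beq x y =
      (instBEqOfDecidableEq : BEq (ℚ × ℚ)).beq x y := by
    intro x y
    rw [Bool.eq_iff_iff]
    constructor
    · intro h
      have h1 : x = y := (@beq_iff_eq (ℚ × ℚ) instBEqProd _ x y).1 h
      exact decide_eq_true h1
    · intro h
      have h1 : x = y := of_decide_eq_true h
      exact (@beq_iff_eq (ℚ × ℚ) instBEqProd _ x y).2 h1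
  have h' : (instBEqProd : BEq (ℚ × ℚ)).beq = (instBEqOfDecidableEq : BEq (ℚ × ℚ)).beq := by
    funext x y
    exact h x y
  cases h1 : (instBEqProd : BEq (ℚ × ℚ))
  cases h2 : (instBEqOfDecidableEq : BEq (ℚ × ℚ))
  rw [h1, h2] at h'
  exact congrArg BEq.mk h'

theorem BL_idx' {F : Finset (ℚ × ℚ)} {s t : ℚ × ℚ} (hs : s ∈ F) (ht : t ∈ F) :
    @List.idxOf _ instBEqOfDecidableEq s (BL F) < @List.idxOf _ instBEqOfDecidableEq t (BL F) ↔
      lexLt s.swap t.swap := by
  have h := BL_idx hs ht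
  rw [beq_inst] at h
  exact h

theorem btw4 {F : Finset (ℚ × ℚ)} {U V L4 L4' : List (ℚ × ℚ)} (h : AL F = U ++ L4 ++ V)
    (hp : L4.Perm L4') (hpw : L4'.Pairwise (fun s t => lexLt s.swap t.swap)) :
    Btw (U ++ L4 ++ V) (U ++ L4' ++ V) (BL F) := by
  intro s hs t ht h1 h2
  apply idx_block hp h1
  intro hs4 ht4
  have hsF : s ∈ F := by
    rw [← mem_AL, h]
    exact hs
  have htF : t ∈ F := by
    rw [← mem_AL, h]
    exact ht
  have h3 : lexLt s.swap t.swap := (BL_idx' hsF htF).1 h2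
  have h4 : L4' = BL L4'.toFinset := BL_unique hpw (by simp)
  rw [h4]
  refine (BL_idx' ?_ ?_).2 h3
  · rw [List.mem_toFinset]
    exact hp.mem_iff.1 hs4
  · rw [List.mem_toFinset]
    exact hp.mem_iff.1 ht4

theorem mkHyp (D : Dat E k v1 v2 a b t) {L4 L4' : List (ℚ × ℚ)} {w W2 : List ℕ}
    (h : AL (E k) = Ul (E k) v1 ++ L4 ++ Vl (E k) v2) (hp : L4.Perm L4')
    (hpw : L4'.Pairwise (fun s t => lexLt s.swap t.swap)) (hW2 : W2.length = (U2l (E k) t).length)
    (h2 : Two w) : Hyp (Ul (E k) v1 ++ L4 ++ Vl (E k) v2) (Ul (E k) v1 ++ L4' ++ Vl (E k) v2)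
      (U2l (E k) t) (V2l (E k) t) (v1, t) (v2, t) w W2 := by
  refine ⟨?_, ?_, ?_, ?_, hW2, h2⟩
  · rw [← h]
    exact AL_nodup _
  · exact List.Perm.append_right _ (List.Perm.append_left _ hp)
  · rw [← h, ← BL_E D]
    exact AL_perm_BL _
  · rw [← BL_E D]
    exact btw4 h hp hpw

theorem core (D : Dat E k v1 v2 a b t) {WU WV W2 Z2 : List ℕ} {y z p : ℕ}
    (hWU : WU.length = (Ul (E k) v1).length) (hWV : WV.length = (Vl (E k) v2).length)
    (hW2 : W2.length = (U2l (E k) t).length) (h2 : Two (WU ++ y :: y :: z :: z :: WV)) :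
    Srt (BL (E k)) (AL (E k)) (WU ++ y :: y :: z :: z :: WV) (W2 ++ p :: p :: Z2) ↔
      ((a ≤ b ∧ b < t) ∨ (b < t ∧ t < a) ∨ (t < a ∧ a ≤ b)) ∧
      (p ∉ W2 ∧ p ∉ Z2) ∧
      ((t < a ∧ Srt (U2l (E k) t ++ V2l (E k) t)
          (Ul (E k) v1 ++ Yl v1 v2 a b ++ Vl (E k) v2) (WU ++ z :: z :: WV) (W2 ++ Z2)) ∨
        (a < t ∧ Srt (U2l (E k) t ++ V2l (E k) t)
          (Ul (E k) v1 ++ Yl v1 v2 a b ++ Vl (E k) v2) (WU ++ y :: y :: WV) (W2 ++ Z2))) := by
  have hAL := AL_E D
  have h12 := D.h12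
  rw [BL_E D]
  rcases lt_or_gt_of_ne D.hat with hat | hat <;> rcases lt_or_gt_of_ne D.hbt with hbt | hbt
  · rw [al_lt hat, al_gt hbt] at hAL
    rcases lt_or_ge b a with hab | hab
    · have H := mkHyp D (L4' := [(v2, b), (v1, a), (v1, t), (v2, t)]) hAL
        (List.perm_iff_count.2 (fun x => by
          simp only [List.count_append, List.count_cons, List.count_nil]; omega))
        (by
          simp only [List.pairwise_cons, List.mem_cons, List.not_mem_nil, or_false,
            forall_eq_or_imp, forall_eq, lexLt, Prod.swap_prod_mk, List.Pairwise.nil, and_true,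
            IsEmpty.forall_iff, implies_true, hab, hat, hbt, h12, true_or, or_true, and_self,
            lt_self_iff_false, false_or]) hW2 h2
      rw [hAL]
      simp only [List.append_assoc, List.cons_append, List.nil_append] at H ⊢
      constructor
      · intro h
        exact absurd h (b1 H hWU hWV)
      · rintro ⟨h | h | h, _⟩
        · exact absurd h.1 (not_le.2 hab)
        · exact absurd h.2 (not_lt.2 hat.le)
        · exact absurd h.1 (not_lt.2 hat.le)
    · have H := mkHyp D (L4' := [(v1, a), (v2, b), (v1, t), (v2, t)]) hAL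
        (List.perm_iff_count.2 (fun x => by
          simp only [List.count_append, List.count_cons, List.count_nil]; omega))
        (by
          have h3 : a < b ∨ a = b := lt_or_eq_of_le hab
          simp only [List.pairwise_cons, List.mem_cons, List.not_mem_nil, or_false,
            forall_eq_or_imp, forall_eq, lexLt, Prod.swap_prod_mk, List.Pairwise.nil, and_true,
            IsEmpty.forall_iff, implies_true, hat, hbt, h12, true_or, or_true, and_self,
            lt_self_iff_false, false_or, h3]) hW2 h2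
      rw [hAL]
      simp only [List.append_assoc, List.cons_append, List.nil_append] at H ⊢
      rw [g3 H hWU hWV, Yl, if_neg (not_lt.2 hab)]
      constructor
      · rintro ⟨h3, h4⟩
        exact ⟨Or.inl ⟨hab, hbt⟩, h3, Or.inr ⟨hat, by simpa using h4⟩⟩
      · rintro ⟨_, h3, h | h⟩
        · exact absurd h.1 (not_lt.2 hat.le)
        · exact ⟨h3, by simpa using h.2⟩
  · rw [al_lt hat, al_lt hbt] at hAL
    have H := mkHyp D (L4' := [(v1, a), (v1, t), (v2, t), (v2, b)]) hAL
        (List.perm_iff_count.2 (fun x => by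
          simp only [List.count_append, List.count_cons, List.count_nil]; omega))
        (by
          have h3 : a < b := hat.trans hbt
          simp only [List.pairwise_cons, List.mem_cons, List.not_mem_nil, or_false,
            forall_eq_or_imp, forall_eq, lexLt, Prod.swap_prod_mk, List.Pairwise.nil, and_true,
            IsEmpty.forall_iff, implies_true, hat, hbt, h12, true_or, or_true, and_self,
            lt_self_iff_false, false_or, h3]) hW2 h2
    rw [hAL]
    simp only [List.append_assoc, List.cons_append, List.nil_append] at H ⊢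
    constructor
    · intro h
      exact absurd h (b2 H hWU hWV)
    · rintro ⟨h | h | h, _⟩
      · exact absurd h.2 (not_lt.2 hbt.le)
      · exact absurd h.1 (not_lt.2 hbt.le)
      · exact absurd h.1 (not_lt.2 hat.le)
  · rw [al_gt hat, al_gt hbt] at hAL
    have hab : b < a := hbt.trans hat
    have H := mkHyp D (L4' := [(v2, b), (v1, t), (v2, t), (v1, a)]) hAL
        (List.perm_iff_count.2 (fun x => by
          simp only [List.count_append, List.count_cons, List.count_nil]; omega))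
        (by
          simp only [List.pairwise_cons, List.mem_cons, List.not_mem_nil, or_false,
            forall_eq_or_imp, forall_eq, lexLt, Prod.swap_prod_mk, List.Pairwise.nil, and_true,
            IsEmpty.forall_iff, implies_true, hat, hbt, h12, true_or, or_true, and_self,
            lt_self_iff_false, false_or, hab]) hW2 h2
    rw [hAL]
    simp only [List.append_assoc, List.cons_append, List.nil_append] at H ⊢
    rw [g1 H hWU hWV, Yl, if_pos hab]
    constructor
    · rintro ⟨h3, h4⟩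
      exact ⟨Or.inr (Or.inl ⟨hbt, hat⟩), h3, Or.inl ⟨hat, by simpa using h4⟩⟩
    · rintro ⟨_, h3, h | h⟩
      · exact ⟨h3, by simpa using h.2⟩
      · exact absurd h.1 (not_lt.2 hat.le)
  · rw [al_gt hat, al_lt hbt] at hAL
    rcases lt_or_ge b a with hab | hab
    · have H := mkHyp D (L4' := [(v1, t), (v2, t), (v2, b), (v1, a)]) hAL
        (List.perm_iff_count.2 (fun x => by
          simp only [List.count_append, List.count_cons, List.count_nil]; omega))
        (by
          simp only [List.pairwise_cons, List.mem_cons, List.not_mem_nil, or_false,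
            forall_eq_or_imp, forall_eq, lexLt, Prod.swap_prod_mk, List.Pairwise.nil, and_true,
            IsEmpty.forall_iff, implies_true, hab, hat, hbt, h12, true_or, or_true, and_self,
            lt_self_iff_false, false_or]) hW2 h2
      rw [hAL]
      simp only [List.append_assoc, List.cons_append, List.nil_append] at H ⊢
      constructor
      · intro h
        exact absurd h (b3 H hWU hWV)
      · rintro ⟨h | h | h, _⟩
        · exact absurd h.1 (not_le.2 hab)
        · exact absurd h.1 (not_lt.2 hbt.le)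
        · exact absurd h.2 (not_le.2 hab)
    · have H := mkHyp D (L4' := [(v1, t), (v2, t), (v1, a), (v2, b)]) hAL
        (List.perm_iff_count.2 (fun x => by
          simp only [List.count_append, List.count_cons, List.count_nil]; omega))
        (by
          have h3 : a < b ∨ a = b := lt_or_eq_of_le hab
          simp only [List.pairwise_cons, List.mem_cons, List.not_mem_nil, or_false,
            forall_eq_or_imp, forall_eq, lexLt, Prod.swap_prod_mk, List.Pairwise.nil, and_true,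
            IsEmpty.forall_iff, implies_true, hat, hbt, h12, true_or, or_true, and_self,
            lt_self_iff_false, false_or, h3]) hW2 h2
      rw [hAL]
      simp only [List.append_assoc, List.cons_append, List.nil_append] at H ⊢
      rw [g2 H hWU hWV, Yl, if_neg (not_lt.2 hab)]
      constructor
      · rintro ⟨h3, h4⟩
        exact ⟨Or.inr (Or.inr ⟨hat, hab⟩), h3, Or.inl ⟨hat, by simpa using h4⟩⟩
      · rintro ⟨_, h3, h | h⟩
        · exact ⟨h3, by simpa using h.2⟩
        · exact absurd h.1 (not_lt.2 hat.le)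

theorem mem_Ul {F : Finset (ℚ × ℚ)} {s : ℚ × ℚ} : s ∈ Ul F v1 ↔ s ∈ F ∧ s.1 < v1 := by
  rw [Ul, mem_AL, Finset.mem_filter]

theorem mem_Vl {F : Finset (ℚ × ℚ)} {s : ℚ × ℚ} : s ∈ Vl F v2 ↔ s ∈ F ∧ v2 < s.1 := by
  rw [Vl, mem_AL, Finset.mem_filter]

theorem map_Ul (D : Dat E k v1 v2 a b t) : (Ul (E k) v1).map (mu v1 v2) = Ul (E k) v1 := by
  refine (List.map_congr_left (g := id) fun s hs => ?_).trans (List.map_id _)
  exact mu_rst ((mem_Ul.1 hs).2.trans D.h12).ne

theorem map_Vl : (Vl (E k) v2).map (mu v1 v2) = Vl (E k) v2 := by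
  refine (List.map_congr_left (g := id) fun s hs => ?_).trans (List.map_id _)
  exact mu_rst (mem_Vl.1 hs).2.ne'

theorem rst_side (D : Dat E k v1 v2 a b t) {s : ℚ × ℚ} (h : s ∈ Rst (E k) v1 v2) :
    s.1 < v1 ∨ v2 < s.1 := by
  obtain ⟨h1, h2, h3⟩ := mem_Rst.1 h
  rcases lt_or_gt_of_ne h2 with h4 | h4
  · exact Or.inl h4
  · rcases lt_or_gt_of_ne h3 with h5 | h5
    · exact absurd ⟨h4, h5⟩ (D.adj s h1)
    · exact Or.inr h5

theorem AL_ne (D : Dat E k v1 v2 a b t) (hab : a ≠ b) : AL (mrg E k v1 v2 k) =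
    (Ul (E k) v1 ++ Yl v1 v2 a b ++ Vl (E k) v2).map (mu v1 v2) := by
  have f1 : (mrg E k v1 v2 k).filter (fun s => s.1 < v1) = (E k).filter (fun s => s.1 < v1) := by
    ext s
    rw [Finset.mem_filter, Finset.mem_filter, mem_ne D hab, mem_Rst]
    constructor
    · rintro ⟨h | rfl | rfl, h2⟩
      · exact ⟨h.1, h2⟩
      · exact absurd h2 (lt_irrefl _)
      · exact absurd h2 (lt_irrefl _)
    · rintro ⟨h1, h2⟩
      exact ⟨Or.inl ⟨h1, h2.ne, (h2.trans D.h12).ne⟩, h2⟩
  have f2 : (mrg E k v1 v2 k).filter (fun s => s.1 = v1) = {(v1, a), (v1, b)} := by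
    ext s
    rw [Finset.mem_filter, mem_ne D hab, mem_Rst, Finset.mem_insert, Finset.mem_singleton]
    constructor
    · rintro ⟨h | h, h2⟩
      · exact absurd h2 h.2.1
      · exact h
    · rintro h
      refine ⟨Or.inr h, ?_⟩
      rcases h with rfl | rfl <;> rfl
  have f3 : (mrg E k v1 v2 k).filter (fun s => v1 < s.1) = (E k).filter (fun s => v2 < s.1) := by
    ext s
    rw [Finset.mem_filter, Finset.mem_filter, mem_ne D hab]
    constructor
    · rintro ⟨h | rfl | rfl, h2⟩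
      · rcases rst_side D h with h3 | h3
        · exact absurd h3 (not_lt.2 h2.le)
        · exact ⟨(mem_Rst.1 h).1, h3⟩
      · exact absurd h2 (lt_irrefl _)
      · exact absurd h2 (lt_irrefl _)
    · rintro ⟨h1, h2⟩
      exact ⟨Or.inl (mem_Rst.2 ⟨h1, (D.h12.trans h2).ne', h2.ne'⟩), D.h12.trans h2⟩
  rw [AL_split _ v1, f1, f2, f3, List.map_append, List.map_append, map_Ul D, map_Vl]
  congr 1
  congr 1
  rcases lt_or_gt_of_ne hab with h | h
  · rw [al_lt h, Yl, if_neg (not_lt.2 h.le)]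
    simp only [List.map_cons, List.map_nil, mu_v2, mu_rst (s := (v1, a)) D.h12.ne]
  · rw [al_gt h, Yl, if_pos h]
    simp only [List.map_cons, List.map_nil, mu_v2, mu_rst (s := (v1, a)) D.h12.ne]

theorem AL_eq (D : Dat E k v1 v2 a b t) (hab : a = b) : AL (mrg E k v1 v2 k) =
    Ul (E k) v1 ++ Vl (E k) v2 := by
  rw [mrg_eq D hab, AL_split _ v1]
  have f1 : (Rst (E k) v1 v2).filter (fun s => s.1 < v1) = (E k).filter (fun s => s.1 < v1) := by
    ext s
    rw [Finset.mem_filter, Finset.mem_filter, mem_Rst]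
    exact ⟨fun h => ⟨h.1.1, h.2⟩, fun h => ⟨⟨h.1, h.2.ne, (h.2.trans D.h12).ne⟩, h.2⟩⟩
  have f2 : (Rst (E k) v1 v2).filter (fun s => s.1 = v1) = ∅ := by
    apply Finset.filter_false_of_mem
    intro s hs
    exact (mem_Rst.1 hs).2.1
  have f3 : (Rst (E k) v1 v2).filter (fun s => v1 < s.1) = (E k).filter (fun s => v2 < s.1) := by
    ext s
    rw [Finset.mem_filter, Finset.mem_filter]
    constructor
    · rintro ⟨h, h2⟩
      rcases rst_side D h with h3 | h3
      · exact absurd h3 (not_lt.2 h2.le)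
      · exact ⟨(mem_Rst.1 h).1, h3⟩
    · rintro ⟨h1, h2⟩
      exact ⟨mem_Rst.2 ⟨h1, (D.h12.trans h2).ne', h2.ne'⟩, D.h12.trans h2⟩
  rw [f1, f2, f3, AL_empty, List.append_nil, Ul, Vl]

theorem BL_ne (D : Dat E k v1 v2 a b t) (hab : a ≠ b) : BL (mrg E k v1 v2 k) =
    (U2l (E k) t ++ V2l (E k) t).map (mu v1 v2) := by
  rw [mrg_ne D hab, ← BL_F1]
  apply BL_image
  intro s hs s' hs' h
  have key : ∀ s ∈ F1 (E k) t, (s ∈ Rst (E k) v1 v2 ∧ mu v1 v2 s = s) ∨
      (s = (v1, a) ∧ mu v1 v2 s = (v1, a)) ∨ (s = (v2, b) ∧ mu v1 v2 s = (v1, b)) := by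
    intro s hs
    rw [F1_iff D] at hs
    rcases hs with h | rfl | rfl
    · exact Or.inl ⟨h, mu_rst (mem_Rst.1 h).2.2⟩
    · exact Or.inr (Or.inl ⟨rfl, mu_rst D.h12.ne⟩)
    · exact Or.inr (Or.inr ⟨rfl, mu_v2⟩)
  have h12 := D.h12
  rcases h with h | ⟨h, h'⟩
  · exact Or.inl h
  · refine Or.inr ⟨h, ?_⟩
    simp only [Prod.fst_swap, Prod.snd_swap] at h h' ⊢
    rcases key s hs with ⟨k1, k2⟩ | ⟨k1, k2⟩ | ⟨k1, k2⟩ <;>
      rcases key s' hs' with ⟨l1, l2⟩ | ⟨l1, l2⟩ | ⟨l1, l2⟩ <;> rw [k2, l2]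
    · exact h'
    · rw [l1] at h'
      exact h'
    · rw [l1] at h'
      rcases rst_side D k1 with h3 | h3
      · exact h3
      · exact absurd h' (not_lt.2 h3.le)
    · rw [k1] at h'
      exact h'
    · rw [k1, l1] at h'
      exact h'
    · rw [k1, l1] at h
      exact absurd h hab
    · rw [k1] at h'
      exact h12.trans h'
    · rw [k1, l1] at h'
      exact absurd h' (not_lt.2 h12.le)
    · rw [k1, l1] at h'
      exact absurd h' (lt_irrefl _)

theorem BL_eq (D : Dat E k v1 v2 a b t) (hab : a = b) : ∃ U3 V3 : List (ℚ × ℚ),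
    U2l (E k) t ++ V2l (E k) t = U3 ++ (v1, a) :: (v2, b) :: V3 ∧
    BL (mrg E k v1 v2 k) = U3 ++ V3 := by
  subst hab
  refine ⟨BL ((Rst (E k) v1 v2).filter (fun s => s.2 < a)),
    BL ((Rst (E k) v1 v2).filter (fun s => a < s.2)), ?_, ?_⟩
  · have f1 : (F1 (E k) t).filter (fun s => s.2 < a) =
        (Rst (E k) v1 v2).filter (fun s => s.2 < a) := by
      ext s
      rw [Finset.mem_filter, Finset.mem_filter, F1_iff D]
      constructor
      · rintro ⟨h | rfl | rfl, h2⟩
        · exact ⟨h, h2⟩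
        · exact absurd h2 (lt_irrefl _)
        · exact absurd h2 (lt_irrefl _)
      · rintro ⟨h, h2⟩
        exact ⟨Or.inl h, h2⟩
    have f3 : (F1 (E k) t).filter (fun s => a < s.2) =
        (Rst (E k) v1 v2).filter (fun s => a < s.2) := by
      ext s
      rw [Finset.mem_filter, Finset.mem_filter, F1_iff D]
      constructor
      · rintro ⟨h | rfl | rfl, h2⟩
        · exact ⟨h, h2⟩
        · exact absurd h2 (lt_irrefl _)
        · exact absurd h2 (lt_irrefl _)
      · rintro ⟨h, h2⟩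
        exact ⟨Or.inl h, h2⟩
    have f2 : (F1 (E k) t).filter (fun s => s.2 = a) = {(v1, a), (v2, a)} := by
      ext s
      rw [Finset.mem_filter, mem_F1, Finset.mem_insert, Finset.mem_singleton]
      constructor
      · rintro ⟨h, h2⟩
        exact (D.eab rfl).2 s h.1 h2
      · rintro (rfl | rfl)
        · exact ⟨⟨D.ma, D.hat⟩, rfl⟩
        · exact ⟨⟨D.mb, D.hat⟩, rfl⟩
    rw [← BL_F1, BL_split _ a, f1, f2, f3,
      BL_pair (s := (v1, a)) (t := (v2, a)) (Or.inr ⟨rfl, D.h12⟩)]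
    simp only [List.append_assoc, List.cons_append, List.nil_append]
  · have f2 : (Rst (E k) v1 v2).filter (fun s => s.2 = a) = ∅ := by
      apply Finset.filter_false_of_mem
      intro s hs h
      obtain ⟨h1, h2, h3⟩ := mem_Rst.1 hs
      rcases (D.eab rfl).2 s h1 h with h4 | h4
      · exact h2 (by rw [h4])
      · exact h3 (by rw [h4])
    rw [mrg_eq D rfl, BL_split _ a, f2, BL_empty, List.append_nil]

theorem Yl_perm (D : Dat E k v1 v2 a b t) :
    (Ul (E k) v1 ++ Yl v1 v2 a b ++ Vl (E k) v2).Perm (U2l (E k) t ++ V2l (E k) t) := by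
  rw [← BL_F1]
  have h1 := AL_perm_BL (E k)
  rw [AL_E D, BL_E D] at h1
  rw [BL_F1]
  have h3 : ∀ v x y : ℚ, x ≠ y → ∀ s, (AL {(v, x), (v, y)}).count s =
      [(v, x)].count s + [(v, y)].count s := by
    intro v x y hxy s
    rcases lt_or_gt_of_ne hxy with h | h
    · rw [al_lt h]
      simp only [List.count_cons, List.count_nil]
      omega
    · rw [al_gt h]
      simp only [List.count_cons, List.count_nil]
      omega
  refine List.perm_iff_count.2 fun s => ?_
  have h4 := (List.perm_iff_count.1 h1) s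
  simp only [List.count_append, h3 v1 a t D.hat, h3 v2 t b D.hbt.symm, List.count_cons,
    List.count_nil] at h4
  unfold Yl
  split_ifs <;> simp only [List.count_append, List.count_cons, List.count_nil] <;> omega

theorem mem_Y (D : Dat E k v1 v2 a b t) {s : ℚ × ℚ} :
    s ∈ Ul (E k) v1 ++ Yl v1 v2 a b ++ Vl (E k) v2 ↔ s ∈ F1 (E k) t := by
  rw [(Yl_perm D).mem_iff, ← BL_F1, mem_BL]

/-- The reduced sorting, `a ≠ b`. -/
theorem red_ne (D : Dat E k v1 v2 a b t) (hab : a ≠ b) {w w' : List ℕ} :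
    Srt (BL (mrg E k v1 v2 k)) (AL (mrg E k v1 v2 k)) w w' ↔
      Srt (U2l (E k) t ++ V2l (E k) t) (Ul (E k) v1 ++ Yl v1 v2 a b ++ Vl (E k) v2) w w' := by
  rw [AL_ne D hab, BL_ne D hab]
  apply srtN_map _ (Yl_perm D)
  intro x hx y hy
  exact mu_inj D hab x ((mem_Y D).1 hx) y ((mem_Y D).1 hy)

/-- The labels at the beginning of the layer. -/
theorem map_AL (D : Dat E k v1 v2 a b t) {f : ℚ × ℚ → ℕ} (h1 : f (v1, a) = f (v1, t))
    (h2 : f (v2, b) = f (v2, t)) : (AL (E k)).map f = (Ul (E k) v1).map f ++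
      f (v1, t) :: f (v1, t) :: f (v2, t) :: f (v2, t) :: (Vl (E k) v2).map f := by
  rw [AL_E D]
  have e1 : (AL {(v1, a), (v1, t)}).map f = [f (v1, t), f (v1, t)] := by
    rcases lt_or_gt_of_ne D.hat with h | h
    · rw [al_lt h, List.map_cons, List.map_cons, h1, List.map_nil]
    · rw [al_gt h, List.map_cons, List.map_cons, h1, List.map_nil]
  have e2 : (AL {(v2, t), (v2, b)}).map f = [f (v2, t), f (v2, t)] := by
    rcases lt_or_gt_of_ne D.hbt with h | h
    · rw [al_gt h, List.map_cons, List.map_cons, h2, List.map_nil]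
    · rw [al_lt h, List.map_cons, List.map_cons, h2, List.map_nil]
  simp only [List.map_append, e1, e2, List.append_assoc, List.cons_append, List.nil_append]

theorem map_AL_ne (D : Dat E k v1 v2 a b t) (hab : a ≠ b) {f f' : ℚ × ℚ → ℕ} {c : ℕ}
    (h1 : f' (v1, a) = c) (h2 : f' (v1, b) = c) (h3 : ∀ s ∈ Rst (E k) v1 v2, f' s = f s) :
    (AL (mrg E k v1 v2 k)).map f' =
      (Ul (E k) v1).map f ++ c :: c :: (Vl (E k) v2).map f := by
  have e1 : (Ul (E k) v1).map f' = (Ul (E k) v1).map f := by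
    refine List.map_congr_left fun s hs => h3 s ?_
    obtain ⟨k1, k2⟩ := mem_Ul.1 hs
    exact mem_Rst.2 ⟨k1, k2.ne, (k2.trans D.h12).ne⟩
  have e2 : (Vl (E k) v2).map f' = (Vl (E k) v2).map f := by
    refine List.map_congr_left fun s hs => h3 s ?_
    obtain ⟨k1, k2⟩ := mem_Vl.1 hs
    exact mem_Rst.2 ⟨k1, (D.h12.trans k2).ne', k2.ne'⟩
  have e3 : ((Yl v1 v2 a b).map (mu v1 v2)).map f' = [c, c] := by
    unfold Yl
    split_ifs
    · simp only [List.map_cons, List.map_nil, mu_v2, mu_rst (s := (v1, a)) D.h12.ne, h1, h2]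
    · simp only [List.map_cons, List.map_nil, mu_v2, mu_rst (s := (v1, a)) D.h12.ne, h1, h2]
  rw [AL_ne D hab]
  simp only [List.map_append, map_Ul D, map_Vl, e1, e2, e3, List.append_assoc, List.cons_append,
    List.nil_append]

theorem map_BL_ne (D : Dat E k v1 v2 a b t) (hab : a ≠ b) {g g' : ℚ × ℚ → ℕ}
    (h : ∀ s ∈ F1 (E k) t, g' (mu v1 v2 s) = g s) :
    (BL (mrg E k v1 v2 k)).map g' = (U2l (E k) t).map g ++ (V2l (E k) t).map g := by
  rw [BL_ne D hab, List.map_map, ← List.map_append]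
  refine List.map_congr_left fun s hs => ?_
  rw [← BL_F1, mem_BL] at hs
  exact h s hs

theorem Y_nodup (D : Dat E k v1 v2 a b t) :
    (Ul (E k) v1 ++ Yl v1 v2 a b ++ Vl (E k) v2).Nodup := by
  rw [(Yl_perm D).nodup_iff, ← BL_F1]
  exact BL_nodup _

theorem fwd (D : Dat E k v1 v2 a b t) (h : Rul E) :
    ((a ≤ b ∧ b < t) ∨ (b < t ∧ t < a) ∨ (t < a ∧ a ≤ b)) ∧ Rul (mrg E k v1 v2) := by
  obtain ⟨A, B, h⟩ := h
  obtain ⟨ht2, hs, hl⟩ := h k
  obtain ⟨_, _, hl'⟩ := h (k + 1)
  rw [lev_iff] at hl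
  rw [lev_iff, add_sub_cancel_right] at hl'
  have ea : A k (v1, a) = A k (v1, t) :=
    hl.2.1 _ D.ma _ D.mg (fun h => D.hat (Prod.mk.inj h).2) rfl
  have eb : A k (v2, b) = A k (v2, t) :=
    hl.2.1 _ D.mb _ D.mg' (fun h => D.hbt (Prod.mk.inj h).2) rfl
  have eg : B k (v1, t) = B k (v2, t) :=
    hl'.1 _ D.mg _ D.mg' (fun h => D.h12.ne (Prod.mk.inj h).1) rfl
  rw [map_AL D ea eb] at ht2 hs
  have hB : (BL (E k)).map (B k) = (U2l (E k) t).map (B k) ++
      B k (v1, t) :: B k (v1, t) :: (V2l (E k) t).map (B k) := by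
    rw [BL_E D, List.map_append, List.map_cons, List.map_cons, ← eg]
  rw [hB] at hs
  obtain ⟨hcond, _, hc⟩ := (core D (List.length_map _) (List.length_map _) (List.length_map _)
    ht2).1 hs
  refine ⟨hcond, ?_⟩
  obtain ⟨c, h2c, hsc⟩ : ∃ c, Two ((Ul (E k) v1).map (A k) ++ c :: c :: (Vl (E k) v2).map (A k)) ∧
      Srt (U2l (E k) t ++ V2l (E k) t) (Ul (E k) v1 ++ Yl v1 v2 a b ++ Vl (E k) v2)
        ((Ul (E k) v1).map (A k) ++ c :: c :: (Vl (E k) v2).map (A k))
        ((U2l (E k) t).map (B k) ++ (V2l (E k) t).map (B k)) := by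
    obtain ⟨_, _, _, _, _, t1, t2⟩ := two_mid ht2
    rcases hc with ⟨_, h⟩ | ⟨_, h⟩
    · exact ⟨_, t2, h⟩
    · exact ⟨_, t1, h⟩
  by_cases hab : a = b
  · have hY : Yl v1 v2 a b = [(v1, a), (v2, b)] := by
      rw [Yl, if_neg (by rw [hab]; exact lt_irrefl _)]
    obtain ⟨U3, V3, e3, e4⟩ := BL_eq D hab
    have hw : (U2l (E k) t).map (B k) ++ (V2l (E k) t).map (B k) =
        U3.map (B k) ++ B k (v1, a) :: B k (v2, b) :: V3.map (B k) := by
      rw [← List.map_append, e3, List.map_append, List.map_cons, List.map_cons]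
    have hnd := Y_nodup D
    have hpm := Yl_perm D
    rw [e3, hY, hw] at hsc
    rw [hY] at hnd hpm
    rw [e3] at hpm
    simp only [List.append_assoc, List.cons_append, List.nil_append] at hsc hnd hpm
    have hP : (Ul (E k) v1 ++ Vl (E k) v2).Perm (U3 ++ V3) :=
      List.perm_iff_count.2 (fun x => by
        have := (List.perm_iff_count.1 hpm) x
        simp only [List.count_append, List.count_cons] at this ⊢
        omega)
    obtain ⟨W', Z', q, f1, f2, _, _, f3⟩ := (pair_nat hnd hP (List.length_map _)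
      (List.length_map _) h2c).1 hsc
    obtain ⟨f4, f5⟩ := List.append_inj f1 (by rw [List.length_map, f2])
    simp only [List.cons.injEq] at f5
    obtain ⟨_, _, f6⟩ := f5
    rw [← f4, ← f6] at f3
    refine rul_update (fun j hj => mrg_other D hj) h (f := A k) (g := B k) ?_ ?_ ?_ ?_
    · rw [AL_eq D hab, List.map_append]
      exact (two_drop h2c).2.2
    · rw [AL_eq D hab, e4, List.map_append, List.map_append]
      exact f3
    · rw [mrg_eq D hab]
      exact hl.mono (Finset.Subset.refl _) (Finset.filter_subset _ _)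
    · rw [mrg_eq D hab]
      exact hl'.mono (Finset.filter_subset _ _) (Finset.Subset.refl _)
  · have hg : ∀ s ∈ F1 (E k) t, (fun s => if s = (v1, b) then B k (v2, b) else B k s)
        (mu v1 v2 s) = B k s := by
      intro s hs
      show (if mu v1 v2 s = (v1, b) then B k (v2, b) else B k (mu v1 v2 s)) = B k s
      rw [F1_iff D] at hs
      rcases hs with h3 | rfl | rfl
      · obtain ⟨k1, k2, k3⟩ := mem_Rst.1 h3
        rw [mu_rst k3, if_neg]
        rintro rfl
        exact k2 rfl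
      · rw [mu_rst D.h12.ne, if_neg]
        intro h
        exact hab (Prod.mk.inj h).2
      · rw [mu_v2, if_pos rfl]
    have hf1 : ∀ s ∈ Rst (E k) v1 v2,
        (fun s => if s = (v1, a) ∨ s = (v1, b) then c else A k s) s = A k s := by
      intro s hs
      show (if s = (v1, a) ∨ s = (v1, b) then c else A k s) = A k s
      rw [if_neg]
      rintro (rfl | rfl)
      · exact (mem_Rst.1 hs).2.1 rfl
      · exact (mem_Rst.1 hs).2.1 rfl
    have hAL := map_AL_ne D hab (f := A k)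
      (f' := fun s => if s = (v1, a) ∨ s = (v1, b) then c else A k s) (c := c)
      (if_pos (Or.inl rfl)) (if_pos (Or.inr rfl)) hf1
    refine rul_update (fun j hj => mrg_other D hj) h
      (f := fun s => if s = (v1, a) ∨ s = (v1, b) then c else A k s)
      (g := fun s => if s = (v1, b) then B k (v2, b) else B k s) ?_ ?_ ?_ ?_
    · rw [hAL]
      exact h2c
    · rw [hAL, map_BL_ne D hab hg, red_ne D hab]
      exact hsc
    · refine LevF.add_lo (F0 := Rst (E k) v1 v2) (v := v1) ?_ ?_ ?_ D.n1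
      · exact (hl.mono (Finset.Subset.refl _) (Finset.filter_subset _ _)).congr
          (fun _ _ => rfl) hf1
      · intro s hs
        rcases (mem_ne D hab).1 hs with h3 | rfl | rfl
        · exact Or.inl h3
        · exact Or.inr rfl
        · exact Or.inr rfl
      · intro s hs s' hs' h4 h5
        have key : ∀ s ∈ mrg E k v1 v2 k, s.1 = v1 →
            (if s = (v1, a) ∨ s = (v1, b) then c else A k s) = c := by
          intro s hs h4
          rcases (mem_ne D hab).1 hs with h3 | h3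
          · exact absurd h4 (mem_Rst.1 h3).2.1
          · rw [if_pos h3]
        show (if s = (v1, a) ∨ s = (v1, b) then c else A k s) =
          (if s' = (v1, a) ∨ s' = (v1, b) then c else A k s')
        rw [key s hs h4, key s' hs' h5]
    · rw [mrg_ne D hab]
      exact (LevF.mu (μ := mu v1 v2) (fun _ => rfl) (mu_inj D hab) hg).2
        (hl'.mono (Finset.filter_subset _ _) (Finset.Subset.refl _))

theorem fresh (L : List ℕ) : ∃ d, d ∉ L := by
  obtain ⟨d, hd⟩ := Infinite.exists_notMem_finset L.toFinset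
  exact ⟨d, fun h => hd (List.mem_toFinset.2 h)⟩

theorem bwd (D : Dat E k v1 v2 a b t)
    (hcond : (a ≤ b ∧ b < t) ∨ (b < t ∧ t < a) ∨ (t < a ∧ a ≤ b))
    (h : Rul (mrg E k v1 v2)) : Rul E := by
  obtain ⟨A, B, h⟩ := h
  obtain ⟨ht2, hs, hl⟩ := h k
  obtain ⟨_, _, hl'⟩ := h (k + 1)
  rw [lev_iff, mrg_other D (by omega)] at hl
  rw [lev_iff, add_sub_cancel_right, mrg_other D (j := k + 1) (by omega)] at hl'
  obtain ⟨c, g0, h2c, hsc, hlk, hlk'⟩ : ∃ (c : ℕ) (g0 : ℚ × ℚ → ℕ),
      Two ((Ul (E k) v1).map (A k) ++ c :: c :: (Vl (E k) v2).map (A k)) ∧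
      Srt (U2l (E k) t ++ V2l (E k) t) (Ul (E k) v1 ++ Yl v1 v2 a b ++ Vl (E k) v2)
        ((Ul (E k) v1).map (A k) ++ c :: c :: (Vl (E k) v2).map (A k))
        ((U2l (E k) t).map g0 ++ (V2l (E k) t).map g0) ∧
      LevF (E (k - 1)) (Rst (E k) v1 v2) (B (k - 1)) (A k) ∧
      LevF (F1 (E k) t) (E (k + 1)) g0 (A (k + 1)) := by
    by_cases hab : a = b
    · have hY : Yl v1 v2 a b = [(v1, a), (v2, b)] := by
        rw [Yl, if_neg (by rw [hab]; exact lt_irrefl _)]
      obtain ⟨U3, V3, e3, e4⟩ := BL_eq D hab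
      rw [AL_eq D hab, List.map_append] at ht2 hs
      rw [e4, List.map_append] at hs
      rw [mrg_eq D hab] at hl hl'
      obtain ⟨c, hc⟩ := fresh (((Ul (E k) v1).map (A k) ++ (Vl (E k) v2).map (A k)) ++
        (U3.map (B k) ++ V3.map (B k)))
      rw [List.mem_append, List.mem_append, List.mem_append, not_or, not_or, not_or] at hc
      have h2c := two_add ht2 hc.1.1 hc.1.2
      have hg0 : ∀ s ∈ Rst (E k) v1 v2,
          (fun s => if s = (v1, a) ∨ s = (v2, b) then c else B k s) s = B k s := by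
        intro s hs
        show (if s = (v1, a) ∨ s = (v2, b) then c else B k s) = B k s
        rw [if_neg]
        rintro (rfl | rfl)
        · exact (mem_Rst.1 hs).2.1 rfl
        · exact (mem_Rst.1 hs).2.2 rfl
      refine ⟨c, fun s => if s = (v1, a) ∨ s = (v2, b) then c else B k s, h2c, ?_, hl, ?_⟩
      · have hmem : ∀ s ∈ U3 ++ V3, s ∈ Rst (E k) v1 v2 := by
          intro s hs
          rw [← e4, mem_BL, mrg_eq D hab] at hs
          exact hs
        have m1 : U3.map (fun s => if s = (v1, a) ∨ s = (v2, b) then c else B k s) =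
            U3.map (B k) :=
          List.map_congr_left fun s hs => hg0 s (hmem s (List.mem_append_left _ hs))
        have m2 : V3.map (fun s => if s = (v1, a) ∨ s = (v2, b) then c else B k s) =
            V3.map (B k) :=
          List.map_congr_left fun s hs => hg0 s (hmem s (List.mem_append_right _ hs))
        have hnd := Y_nodup D
        have hpm := Yl_perm D
        rw [← List.map_append, e3, hY, List.map_append, List.map_cons, List.map_cons, m1, m2,
          if_pos (Or.inl rfl), if_pos (Or.inr rfl)]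
        rw [hY] at hnd hpm
        rw [e3] at hpm
        simp only [List.append_assoc, List.cons_append, List.nil_append] at hnd hpm ⊢
        have hP : (Ul (E k) v1 ++ Vl (E k) v2).Perm (U3 ++ V3) :=
          List.perm_iff_count.2 (fun x => by
            have := (List.perm_iff_count.1 hpm) x
            simp only [List.count_append, List.count_cons] at this ⊢
            omega)
        exact (pair_nat hnd hP (List.length_map _) (List.length_map _) h2c).2
          ⟨U3.map (B k), V3.map (B k), c, rfl, List.length_map _, hc.2.1, hc.2.2, hs⟩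
      · refine LevF.add_hi (F0 := Rst (E k) v1 v2) (v := a) (hl'.congr hg0 (fun _ _ => rfl))
          ?_ ?_ (D.eab hab).1
        · intro s hs
          rcases (F1_iff D).1 hs with h3 | rfl | rfl
          · exact Or.inl h3
          · exact Or.inr rfl
          · exact Or.inr hab.symm
        · have key : ∀ s ∈ F1 (E k) t, s.2 = a →
              (if s = (v1, a) ∨ s = (v2, b) then c else B k s) = c := by
            intro s hs h4
            rw [if_pos]
            rcases (D.eab hab).2 s (mem_F1.1 hs).1 h4 with h5 | h5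
            · exact Or.inl h5
            · rw [hab] at h5
              exact Or.inr h5
          intro s hs s' hs' h4 h5
          show (if s = (v1, a) ∨ s = (v2, b) then c else B k s) =
            (if s' = (v1, a) ∨ s' = (v2, b) then c else B k s')
          rw [key s hs h4, key s' hs' h5]
    · have hma : (v1, a) ∈ mrg E k v1 v2 k := (mem_ne D hab).2 (Or.inr (Or.inl rfl))
      have hmb : (v1, b) ∈ mrg E k v1 v2 k := (mem_ne D hab).2 (Or.inr (Or.inr rfl))
      have hc : A k (v1, b) = A k (v1, a) :=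
        hl.2.1 _ hmb _ hma (fun h => hab (Prod.mk.inj h).2.symm) rfl
      have hAL := map_AL_ne D hab (f := A k) (f' := A k) (c := A k (v1, a)) rfl hc
        (fun _ _ => rfl)
      have hBL := map_BL_ne D hab (g := fun s => B k (mu v1 v2 s)) (g' := B k)
        (fun _ _ => rfl)
      rw [hAL] at ht2
      rw [hAL, hBL, red_ne D hab] at hs
      refine ⟨A k (v1, a), fun s => B k (mu v1 v2 s), ht2, hs, ?_, ?_⟩
      · refine hl.mono (Finset.Subset.refl _) ?_
        intro s hs
        exact (mem_ne D hab).2 (Or.inl hs)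
      · rw [mrg_ne D hab] at hl'
        exact (LevF.mu (μ := mu v1 v2) (fun _ => rfl) (mu_inj D hab) (fun _ _ => rfl)).1 hl'
  obtain ⟨d, hd⟩ := fresh (((Ul (E k) v1).map (A k) ++ c :: c :: (Vl (E k) v2).map (A k)) ++
    ((U2l (E k) t).map g0 ++ (V2l (E k) t).map g0))
  rw [List.mem_append, not_or, List.mem_append (s := (Ul (E k) v1).map (A k)),
    List.mem_append (s := (U2l (E k) t).map g0), not_or, not_or, List.mem_cons, List.mem_cons,
    not_or, not_or] at hd
  obtain ⟨⟨hd1, hdc, _, hd2⟩, hd3⟩ := hd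
  obtain ⟨hc1, hc2, _⟩ := two_drop h2c
  have two1 : Two ((Ul (E k) v1).map (A k) ++ d :: d :: c :: c :: (Vl (E k) v2).map (A k)) :=
    two_add h2c hd1 (by simp only [List.mem_cons, not_or]; exact ⟨hdc, hdc, hd2⟩)
  have two2 : Two ((Ul (E k) v1).map (A k) ++ c :: c :: d :: d :: (Vl (E k) v2).map (A k)) := by
    have h3 : Two ((Ul (E k) v1).map (A k) ++ d :: d :: (Vl (E k) v2).map (A k)) :=
      (two_mid two1).2.2.2.2.2.1
    exact two_add h3 hc1 (by simp only [List.mem_cons, not_or]; exact ⟨Ne.symm hdc, Ne.symm hdc, hc2⟩)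
  obtain ⟨y, z, h2, hcore⟩ : ∃ y z : ℕ,
      Two ((Ul (E k) v1).map (A k) ++ y :: y :: z :: z :: (Vl (E k) v2).map (A k)) ∧
      Srt (BL (E k)) (AL (E k))
        ((Ul (E k) v1).map (A k) ++ y :: y :: z :: z :: (Vl (E k) v2).map (A k))
        ((U2l (E k) t).map g0 ++ d :: d :: (V2l (E k) t).map g0) := by
    rcases lt_or_gt_of_ne D.hat with hat | hat
    · exact ⟨c, d, two2, (core D (List.length_map _) (List.length_map _) (List.length_map _)
        two2).2 ⟨hcond, hd3, Or.inr ⟨hat, hsc⟩⟩⟩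
    · exact ⟨d, c, two1, (core D (List.length_map _) (List.length_map _) (List.length_map _)
        two1).2 ⟨hcond, hd3, Or.inl ⟨hat, hsc⟩⟩⟩
  have hfR : ∀ s ∈ Rst (E k) v1 v2,
      (fun s : ℚ × ℚ => if s.1 = v1 then y else if s.1 = v2 then z else A k s) s = A k s := by
    intro s hs
    obtain ⟨_, k2, k3⟩ := mem_Rst.1 hs
    show (if s.1 = v1 then y else if s.1 = v2 then z else A k s) = A k s
    rw [if_neg k2, if_neg k3]
  have h12' : (v2 : ℚ) ≠ v1 := D.h12.ne'
  have hAL : (AL (E k)).map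
      (fun s : ℚ × ℚ => if s.1 = v1 then y else if s.1 = v2 then z else A k s) =
      (Ul (E k) v1).map (A k) ++ y :: y :: z :: z :: (Vl (E k) v2).map (A k) := by
    rw [map_AL D (by simp) (by simp)]
    have e1 : (Ul (E k) v1).map
        (fun s : ℚ × ℚ => if s.1 = v1 then y else if s.1 = v2 then z else A k s) =
        (Ul (E k) v1).map (A k) := by
      refine List.map_congr_left fun s hs => hfR s ?_
      obtain ⟨k1, k2⟩ := mem_Ul.1 hs
      exact mem_Rst.2 ⟨k1, k2.ne, (k2.trans D.h12).ne⟩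
    have e2 : (Vl (E k) v2).map
        (fun s : ℚ × ℚ => if s.1 = v1 then y else if s.1 = v2 then z else A k s) =
        (Vl (E k) v2).map (A k) := by
      refine List.map_congr_left fun s hs => hfR s ?_
      obtain ⟨k1, k2⟩ := mem_Vl.1 hs
      exact mem_Rst.2 ⟨k1, (D.h12.trans k2).ne', k2.ne'⟩
    rw [e1, e2]
    simp only [if_true, if_neg h12']
  have hgF : ∀ s ∈ F1 (E k) t, (fun s : ℚ × ℚ => if s.2 = t then d else g0 s) s = g0 s := by
    intro s hs
    show (if s.2 = t then d else g0 s) = g0 s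
    rw [if_neg (mem_F1.1 hs).2]
  have hBL : (BL (E k)).map (fun s : ℚ × ℚ => if s.2 = t then d else g0 s) =
      (U2l (E k) t).map g0 ++ d :: d :: (V2l (E k) t).map g0 := by
    have e1 : ∀ s ∈ U2l (E k) t ++ V2l (E k) t,
        (fun s : ℚ × ℚ => if s.2 = t then d else g0 s) s = g0 s := by
      intro s hs
      rw [← BL_F1, mem_BL] at hs
      exact hgF s hs
    rw [BL_E D, List.map_append, List.map_cons, List.map_cons]
    rw [List.map_congr_left (g := g0) (l := U2l (E k) t)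
        (fun s hs => e1 s (List.mem_append_left _ hs)),
      List.map_congr_left (g := g0) (l := V2l (E k) t)
        (fun s hs => e1 s (List.mem_append_right _ hs))]
    simp only [if_true]
  refine rul_update (E := mrg E k v1 v2) (fun j hj => (mrg_other D hj).symm) h
    (f := fun s : ℚ × ℚ => if s.1 = v1 then y else if s.1 = v2 then z else A k s)
    (g := fun s : ℚ × ℚ => if s.2 = t then d else g0 s) ?_ ?_ ?_ ?_
  · rw [hAL]
    exact h2
  · rw [hAL, hBL]
    exact hcore
  · rw [mrg_other D (by omega)]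
    refine LevF.add_lo (F0 := (E k).filter (fun s => s.1 ≠ v2)) (v := v2) ?_ ?_ ?_ D.n2
    · refine LevF.add_lo (F0 := Rst (E k) v1 v2) (v := v1) (hlk.congr (fun _ _ => rfl) hfR)
        ?_ ?_ D.n1
      · intro s hs
        rw [Finset.mem_filter] at hs
        by_cases h3 : s.1 = v1
        · exact Or.inr h3
        · exact Or.inl (mem_Rst.2 ⟨hs.1, h3, hs.2⟩)
      · intro s _ s' _ h4 h5
        show (if s.1 = v1 then y else if s.1 = v2 then z else A k s) =
          (if s'.1 = v1 then y else if s'.1 = v2 then z else A k s')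
        rw [if_pos h4, if_pos h5]
    · intro s hs
      by_cases h3 : s.1 = v2
      · exact Or.inr h3
      · exact Or.inl (Finset.mem_filter.2 ⟨hs, h3⟩)
    · intro s _ s' _ h4 h5
      show (if s.1 = v1 then y else if s.1 = v2 then z else A k s) =
        (if s'.1 = v1 then y else if s'.1 = v2 then z else A k s')
      rw [if_neg (by rw [h4]; exact h12'), if_pos h4, if_neg (by rw [h5]; exact h12'), if_pos h5]
  · rw [mrg_other D (j := k + 1) (by omega)]
    refine LevF.add_hi (F0 := F1 (E k) t) (v := t) (hlk'.congr hgF (fun _ _ => rfl)) ?_ ?_ D.nt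
    · intro s hs
      by_cases h3 : s.2 = t
      · exact Or.inr h3
      · exact Or.inl (mem_F1.2 ⟨hs, h3⟩)
    · intro s _ s' _ h4 h5
      show (if s.2 = t then d else g0 s) = (if s'.2 = t then d else g0 s')
      rw [if_pos h4, if_pos h5]

end link

end FUU
theorem finger_uu {E : Lk} {k : ℤ} (hE : Closed E) {v1 v2 a b t : ℚ} (h12 : v1 < v2)
    (hadj : ∀ v, v1 < v → v < v2 → deg E k v = 0)
    (hα : (v1, a) ∈ E k) (hβ : (v2, b) ∈ E k) (hγ : (v1, t) ∈ E k) (hγ' : (v2, t) ∈ E k)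
    (hat : a ≠ t) (hbt : b ≠ t) :
    Rul E ↔ ((a ≤ b ∧ b < t) ∨ (b < t ∧ t < a) ∨ (t < a ∧ a ≤ b)) ∧ Rul (mrg E k v1 v2) := by
  have D := FUU.mkDat hE h12 hadj hα hβ hγ hγ' hat hbt
  exact ⟨fun h => FUU.fwd D h, fun h => FUU.bwd D h.1 h.2⟩

end Pool.Agent.Helper24.RUL
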