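import Pool.Agent.Helper24.RUL.FingerDU
import Pool.Agent.Helper24.RUL.FingerUD
import Pool.Agent.Helper24.RUL.FingerDD
import Pool.Agent.Helper24.RUL.FingerUU

/-!
# RUL-16: the finger lemma (project RUL, MP_409f7f_co)

`κγ.1 = false` (the common neighbour is above): the four cases. `κγ.1 = true`: apply this to
`rev E` at level `-k` (`rul_rev`, `rev_closed`, `rev_mrg`, `rev_deg`, `rev_end`, `cyc_flip`).
-/

namespace Pool.Agent.Helper24.RUL

private theorem finger_up {E : Lk} {k : ℤ} (hE : Closed E) {v1 v2 : ℚ} (h12 : v1 < v2)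
    (hadj : ∀ v, v1 < v → v < v2 → deg E k v = 0) {κα κβ : Bool × ℚ} {t : ℚ}
    (hα : EndAt E k v1 κα) (hγ : EndAt E k v1 (false, t)) (hαγ : κα ≠ (false, t))
    (hβ : EndAt E k v2 κβ) (hγ' : EndAt E k v2 (false, t)) (hβγ : κβ ≠ (false, t)) :
    Rul E ↔ Cyc κα κβ (false, t) ∧ Rul (mrg E k v1 v2) := by
  obtain ⟨ca, a⟩ := κα
  obtain ⟨cb, b⟩ := κβ
  have hg : (v1, t) ∈ E k := by simpa [EndAt] using hγ
  have hg' : (v2, t) ∈ E k := by simpa [EndAt] using hγ'
  cases ca with
  | false =>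
    have ha : (v1, a) ∈ E k := by simpa [EndAt] using hα
    have hat : a ≠ t := by
      intro h
      exact hαγ (by rw [h])
    cases cb with
    | false =>
      have hb : (v2, b) ∈ E k := by simpa [EndAt] using hβ
      have hbt : b ≠ t := by
        intro h
        exact hβγ (by rw [h])
      rw [finger_uu hE h12 hadj ha hb hg hg' hat hbt]
      have hc : Cyc (false, a) (false, b) (false, t) ↔
          ((a ≤ b ∧ b < t) ∨ (b < t ∧ t < a) ∨ (t < a ∧ a ≤ b)) := by
        simp [Cyc, kle, klt, le_iff_lt_or_eq]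
      rw [hc]
    | true =>
      have hb : (b, v2) ∈ E (k - 1) := by simpa [EndAt] using hβ
      rw [finger_ud hE h12 hadj ha hb hg hg' hat]
      have hc : Cyc (false, a) (true, b) (false, t) ↔ t < a := by
        simp [Cyc, kle, klt]
      rw [hc]
  | true =>
    have ha : (a, v1) ∈ E (k - 1) := by simpa [EndAt] using hα
    cases cb with
    | false =>
      have hb : (v2, b) ∈ E k := by simpa [EndAt] using hβ
      have hbt : b ≠ t := by
        intro h
        exact hβγ (by rw [h])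
      rw [finger_du hE h12 hadj ha hb hg hg' hbt]
      have hc : Cyc (true, a) (false, b) (false, t) ↔ b < t := by
        simp [Cyc, kle, klt]
      rw [hc]
    | true =>
      have hb : (b, v2) ∈ E (k - 1) := by simpa [EndAt] using hβ
      rw [finger_dd hE h12 hadj ha hb hg hg']
      have hc : Cyc (true, a) (true, b) (false, t) ↔ a ≤ b := by
        simp [Cyc, kle, klt, le_iff_lt_or_eq]
      rw [hc]

theorem finger {E : Lk} {k : ℤ} (hE : Closed E) {v1 v2 : ℚ} (h12 : v1 < v2)
    (hadj : ∀ v, v1 < v → v < v2 → deg E k v = 0) {κα κβ κγ : Bool × ℚ}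
    (hα : EndAt E k v1 κα) (hγ : EndAt E k v1 κγ) (hαγ : κα ≠ κγ)
    (hβ : EndAt E k v2 κβ) (hγ' : EndAt E k v2 κγ) (hβγ : κβ ≠ κγ) :
    Rul E ↔ Cyc κα κβ κγ ∧ Rul (mrg E k v1 v2) := by
  obtain ⟨c, t⟩ := κγ
  cases c with
  | false => exact finger_up hE h12 hadj hα hγ hαγ hβ hγ' hβγ
  | true =>
    have hflip : ∀ κ : Bool × ℚ, κ ≠ (true, t) → ((!κ.1, κ.2) : Bool × ℚ) ≠ (false, t) := by
      rintro ⟨c, x⟩ h h'
      apply h
      cases c with
      | false => simp at h'
      | true =>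
        have h2 : x = t := by simpa using h'
        rw [h2]
    have h1 := finger_up (rev_closed hE) (k := -k) h12
      (fun v hv hv' => by rw [rev_deg]; exact hadj v hv hv')
      ((rev_end E k v1 κα).2 hα) (t := t) ((rev_end E k v1 (true, t)).2 hγ) (hflip _ hαγ)
      ((rev_end E k v2 κβ).2 hβ) ((rev_end E k v2 (true, t)).2 hγ') (hflip _ hβγ)
    rw [rul_rev, ← rev_mrg, rul_rev] at h1
    rw [h1]
    have h2 := cyc_flip κα κβ (true, t)
    rw [← h2]
    rfl

end Pool.Agent.Helper24.RUL
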