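import Pool.Agent.Helper24.RUL.Finger

/-!
# RUL-17: merging two segments with a common neighbour (project RUL, MP_409f7f_co)

`v1`, `v2` are two values of level `k` with a common key `κγ` (a finger). In `mrg E k v1 v2` the two
parallel strands cancel; the value `v1` has the two other keys `κα`, `κβ` (if they are equal these
strands cancel too).
-/

namespace Pool.Agent.Helper24.RUL

variable {E : Lk} {k : ℤ} {v1 v2 : ℚ} {κα κβ κγ : Bool × ℚ}

/-- The keys of a value. -/
def MC_keys (E : Lk) (k : ℤ) (v : ℚ) : Finset (Bool × ℚ) :=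
  ((E (k - 1)).filter (fun s => s.2 = v)).image (fun s => (true, s.1)) ∪
    ((E k).filter (fun s => s.1 = v)).image (fun s => (false, s.2))

theorem MC_mem_keys (E : Lk) (k : ℤ) (v : ℚ) (κ : Bool × ℚ) :
    κ ∈ MC_keys E k v ↔ EndAt E k v κ := by
  obtain ⟨b, x⟩ := κ
  unfold MC_keys EndAt
  rw [Finset.mem_union, Finset.mem_image, Finset.mem_image]
  cases b
  · simp only [Finset.mem_filter, Prod.mk.injEq, Bool.false_eq_true, if_false]
    constructor
    · rintro (⟨s, _, h, _⟩ | ⟨s, ⟨hs, h1⟩, _, h2⟩)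
      · exact absurd h (by simp)
      · rw [← h1, ← h2]
        exact hs
    · intro h
      exact Or.inr ⟨(v, x), ⟨h, rfl⟩, trivial, rfl⟩
  · simp only [Finset.mem_filter, Prod.mk.injEq, if_true]
    constructor
    · rintro (⟨s, ⟨hs, h1⟩, _, h2⟩ | ⟨s, _, h, _⟩)
      · rw [← h1, ← h2]
        exact hs
      · exact absurd h (by simp)
    · intro h
      exact Or.inl ⟨(x, v), ⟨h, rfl⟩, trivial, rfl⟩

theorem MC_card_keys (E : Lk) (k : ℤ) (v : ℚ) : (MC_keys E k v).card = deg E k v := by
  unfold MC_keys deg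
  rw [Finset.card_union_of_disjoint, Finset.card_image_of_injOn, Finset.card_image_of_injOn]
  · intro s hs t ht h
    have hs' := (Finset.mem_filter.1 (Finset.mem_coe.1 hs)).2
    have ht' := (Finset.mem_filter.1 (Finset.mem_coe.1 ht)).2
    have h2 := (Prod.mk.inj h).2
    exact Prod.ext (by rw [hs', ht']) h2
  · intro s hs t ht h
    have hs' := (Finset.mem_filter.1 (Finset.mem_coe.1 hs)).2
    have ht' := (Finset.mem_filter.1 (Finset.mem_coe.1 ht)).2
    have h2 := (Prod.mk.inj h).2
    exact Prod.ext h2 (by rw [hs', ht'])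
  · rw [Finset.disjoint_left]
    intro x hx hx'
    rw [Finset.mem_image] at hx hx'
    obtain ⟨s, _, hs⟩ := hx
    obtain ⟨t, _, ht⟩ := hx'
    rw [← hs] at ht
    exact absurd (Prod.mk.inj ht).1 (by simp)

theorem MC_keys_two (hE : Closed E) {v : ℚ} {κ κ' : Bool × ℚ} (h : EndAt E k v κ)
    (h' : EndAt E k v κ') (hne : κ ≠ κ') : MC_keys E k v = {κ, κ'} := by
  have hsub : ({κ, κ'} : Finset (Bool × ℚ)) ⊆ MC_keys E k v := by
    intro x hx
    rw [Finset.mem_insert, Finset.mem_singleton] at hx
    rcases hx with rfl | rfl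
    · exact (MC_mem_keys _ _ _ _).2 h
    · exact (MC_mem_keys _ _ _ _).2 h'
  have hc : ({κ, κ'} : Finset (Bool × ℚ)).card = 2 := Finset.card_pair hne
  have hle : (MC_keys E k v).card ≤ 2 := by
    rw [MC_card_keys]
    rcases hE k v with h0 | h0 <;> omega
  exact (Finset.eq_of_subset_of_card_le hsub (by rw [hc]; exact hle)).symm

/-- The keys of a value of a closed link. -/
theorem end_cases (hE : Closed E) {v : ℚ} {κ κ' κ'' : Bool × ℚ} (h : EndAt E k v κ)
    (h' : EndAt E k v κ') (hne : κ ≠ κ') (h'' : EndAt E k v κ'') : κ'' = κ ∨ κ'' = κ' := by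
  have h1 := (MC_mem_keys _ _ _ _).2 h''
  rw [MC_keys_two hE h h' hne, Finset.mem_insert, Finset.mem_singleton] at h1
  exact h1

theorem MC_odd_filter {α : Type*} [DecidableEq α] (F : Finset α) (P : α → Prop) [DecidablePred P]
    (x y : α) (hxy : x ≠ y) (hP : ∀ s, P s ↔ s = x ∨ s = y) :
    Odd ((F.filter P).card) ↔ ((x ∈ F ∧ y ∉ F) ∨ (x ∉ F ∧ y ∈ F)) := by
  by_cases hx : x ∈ F <;> by_cases hy : y ∈ F
  · have h1 : F.filter P = {x, y} := by
      ext s
      rw [Finset.mem_filter, hP, Finset.mem_insert, Finset.mem_singleton]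
      constructor
      · exact fun h => h.2
      · rintro (rfl | rfl)
        · exact ⟨hx, Or.inl rfl⟩
        · exact ⟨hy, Or.inr rfl⟩
    rw [h1, Finset.card_pair hxy]
    simp [hx, hy]
  · have h1 : F.filter P = {x} := by
      ext s
      rw [Finset.mem_filter, hP, Finset.mem_singleton]
      constructor
      · rintro ⟨hs, rfl | rfl⟩
        · rfl
        · exact absurd hs hy
      · rintro rfl
        exact ⟨hx, Or.inl rfl⟩
    rw [h1, Finset.card_singleton]
    simp [hx, hy]
  · have h1 : F.filter P = {y} := by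
      ext s
      rw [Finset.mem_filter, hP, Finset.mem_singleton]
      constructor
      · rintro ⟨hs, rfl | rfl⟩
        · exact absurd hs hx
        · rfl
      · rintro rfl
        exact ⟨hy, Or.inr rfl⟩
    rw [h1, Finset.card_singleton]
    simp [hx, hy]
  · have h1 : F.filter P = ∅ := by
      ext s
      rw [Finset.mem_filter, hP]
      constructor
      · rintro ⟨hs, rfl | rfl⟩
        · exact absurd hs hx
        · exact absurd hs hy
      · intro h
        exact absurd h (Finset.notMem_empty _)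
    rw [h1, Finset.card_empty]
    simp [hx, hy]

theorem MC_odd_one {α : Type*} [DecidableEq α] (F : Finset α) (P : α → Prop) [DecidablePred P]
    (x : α) (hP : ∀ s, P s ↔ s = x) : Odd ((F.filter P).card) ↔ x ∈ F := by
  by_cases hx : x ∈ F
  · have h1 : F.filter P = {x} := by
      ext s
      rw [Finset.mem_filter, hP, Finset.mem_singleton]
      constructor
      · exact fun h => h.2
      · rintro rfl
        exact ⟨hx, rfl⟩
    rw [h1, Finset.card_singleton]
    simp [hx]
  · have h1 : F.filter P = ∅ := by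
      ext s
      rw [Finset.mem_filter, hP]
      constructor
      · rintro ⟨hs, rfl⟩
        exact absurd hs hx
      · intro h
        exact absurd h (Finset.notMem_empty _)
    rw [h1, Finset.card_empty]
    simp [hx]

theorem MC_odd_none {α : Type*} (F : Finset α) (P : α → Prop) [DecidablePred P]
    (hP : ∀ s, ¬ P s) : ¬ Odd ((F.filter P).card) := by
  have h1 : F.filter P = ∅ := Finset.filter_eq_empty_iff.2 (fun s _ => hP s)
  rw [h1, Finset.card_empty]
  simp

theorem MC_mrg_up (E : Lk) (k : ℤ) (v1 v2 : ℚ) : mrg E k v1 v2 k =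
    img2 (fun s => (if s.1 = v2 then v1 else s.1, s.2)) (E k) := by
  unfold mrg
  rw [if_neg (by omega), if_pos rfl]

theorem MC_mrg_dn (E : Lk) (k : ℤ) (v1 v2 : ℚ) : mrg E k v1 v2 (k - 1) =
    img2 (fun s => (s.1, if s.2 = v2 then v1 else s.2)) (E (k - 1)) := by
  unfold mrg
  rw [if_pos rfl]

theorem MC_ite (a : ℚ) : (if a = v2 then v1 else a) = v1 ↔ a = v1 ∨ a = v2 := by
  by_cases h : a = v2
  · rw [if_pos h]
    exact ⟨fun _ => Or.inr h, fun _ => rfl⟩
  · rw [if_neg h]
    constructor
    · exact fun h' => Or.inl h'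
    · rintro (h' | h')
      · exact h'
      · exact absurd h' h

theorem MC_ite_other {v : ℚ} (h1 : v ≠ v1) (h2 : v ≠ v2) (a : ℚ) :
    (if a = v2 then v1 else a) = v ↔ a = v := by
  by_cases h : a = v2
  · rw [if_pos h]
    constructor
    · exact fun h' => absurd h'.symm h1
    · exact fun h' => absurd (h' ▸ h : v = v2) h2
  · rw [if_neg h]

theorem MC_ite_v2 (h12 : v1 ≠ v2) (a : ℚ) : (if a = v2 then v1 else a) ≠ v2 := by
  by_cases h : a = v2
  · rw [if_pos h]
    exact h12
  · rw [if_neg h]
    exact h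

/-- The ends of the merged value. -/
theorem MC_end_v1 (h12 : v1 ≠ v2) (κ : Bool × ℚ) : EndAt (mrg E k v1 v2) k v1 κ ↔
    ((EndAt E k v1 κ ∧ ¬ EndAt E k v2 κ) ∨ (¬ EndAt E k v1 κ ∧ EndAt E k v2 κ)) := by
  obtain ⟨b, x⟩ := κ
  unfold EndAt
  cases b
  · simp only [Bool.false_eq_true, if_false]
    rw [MC_mrg_up, mem_img2]
    apply MC_odd_filter
    · intro h
      exact h12 (Prod.mk.inj h).1
    · rintro ⟨a, b⟩
      simp only [Prod.mk.injEq]
      rw [MC_ite]
      tauto
  · simp only [if_true]
    rw [MC_mrg_dn, mem_img2]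
    apply MC_odd_filter
    · intro h
      exact h12 (Prod.mk.inj h).2
    · rintro ⟨a, b⟩
      simp only [Prod.mk.injEq]
      rw [MC_ite]
      tauto

theorem MC_end_v2 (h12 : v1 ≠ v2) (κ : Bool × ℚ) : ¬ EndAt (mrg E k v1 v2) k v2 κ := by
  obtain ⟨b, x⟩ := κ
  unfold EndAt
  cases b
  · simp only [Bool.false_eq_true, if_false]
    rw [MC_mrg_up, mem_img2]
    apply MC_odd_none
    rintro ⟨a, b⟩ h
    exact MC_ite_v2 h12 a (Prod.mk.inj h).1
  · simp only [if_true]
    rw [MC_mrg_dn, mem_img2]
    apply MC_odd_none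
    rintro ⟨a, b⟩ h
    exact MC_ite_v2 h12 b (Prod.mk.inj h).2

theorem mrg_end (hE : Closed E) (h12 : v1 ≠ v2)
    (hα : EndAt E k v1 κα) (hγ : EndAt E k v1 κγ) (hαγ : κα ≠ κγ)
    (hβ : EndAt E k v2 κβ) (hγ' : EndAt E k v2 κγ) (hβγ : κβ ≠ κγ) (hαβ : κα ≠ κβ)
    (κ : Bool × ℚ) : EndAt (mrg E k v1 v2) k v1 κ ↔ κ = κα ∨ κ = κβ := by
  rw [MC_end_v1 h12]
  have h1 : EndAt E k v1 κ ↔ κ = κα ∨ κ = κγ := by
    constructor
    · exact fun h => end_cases hE hα hγ hαγ h
    · rintro (rfl | rfl)
      · exact hα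
      · exact hγ
  have h2 : EndAt E k v2 κ ↔ κ = κβ ∨ κ = κγ := by
    constructor
    · exact fun h => end_cases hE hβ hγ' hβγ h
    · rintro (rfl | rfl)
      · exact hβ
      · exact hγ'
  rw [h1, h2]
  constructor
  · rintro (⟨h3, h4⟩ | ⟨h3, h4⟩)
    · rcases h3 with h3 | h3
      · exact Or.inl h3
      · exact absurd (Or.inr h3) h4
    · rcases h4 with h4 | h4
      · exact Or.inr h4
      · exact absurd (Or.inr h4) h3
  · rintro (h3 | h3)
    · refine Or.inl ⟨Or.inl h3, ?_⟩
      rintro (h4 | h4)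
      · exact hαβ (h3.symm.trans h4)
      · exact hαγ (h3.symm.trans h4)
    · refine Or.inr ⟨?_, Or.inl h3⟩
      rintro (h4 | h4)
      · exact hαβ (h4.symm.trans h3)
      · exact hβγ (h3.symm.trans h4)

theorem mrg_end_other {v : ℚ} (h1 : v ≠ v1) (h2 : v ≠ v2) (κ : Bool × ℚ) :
    EndAt (mrg E k v1 v2) k v κ ↔ EndAt E k v κ := by
  obtain ⟨b, x⟩ := κ
  unfold EndAt
  cases b
  · simp only [Bool.false_eq_true, if_false]
    rw [MC_mrg_up, mem_img2]
    apply MC_odd_one
    rintro ⟨a, b⟩
    simp only [Prod.mk.injEq]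
    rw [MC_ite_other h1 h2]
  · simp only [if_true]
    rw [MC_mrg_dn, mem_img2]
    apply MC_odd_one
    rintro ⟨a, b⟩
    simp only [Prod.mk.injEq]
    rw [MC_ite_other h1 h2]

theorem mrg_deg_other {v : ℚ} (h1 : v ≠ v1) (h2 : v ≠ v2) :
    deg (mrg E k v1 v2) k v = deg E k v := by
  rw [← MC_card_keys, ← MC_card_keys]
  congr 1
  ext κ
  rw [MC_mem_keys, MC_mem_keys, mrg_end_other h1 h2]

theorem mrg_deg_v2 (h12 : v1 ≠ v2) : deg (mrg E k v1 v2) k v2 = 0 := by
  rw [← MC_card_keys, Finset.card_eq_zero, Finset.eq_empty_iff_forall_notMem]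
  intro κ hκ
  rw [MC_mem_keys] at hκ
  exact MC_end_v2 h12 κ hκ

/-- The number of elements of a fibre of a map that is invariant under `g` does not grow and keeps
its parity. -/
theorem MC_img2_card {α β : Type*} [DecidableEq α] [DecidableEq β] (g : α → β) (F : Finset α)
    (P : α → Prop) (Q : β → Prop) [DecidablePred P] [DecidablePred Q] (hPQ : ∀ s, Q (g s) ↔ P s) :
    ((img2 g F).filter Q).card ≤ (F.filter P).card ∧
      ((img2 g F).filter Q).card % 2 = (F.filter P).card % 2 := by
  have h1 : (F.filter P).card = ∑ y ∈ (F.filter P).image g,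
      ((F.filter P).filter (fun s => g s = y)).card := by
    refine Finset.card_eq_sum_card_fiberwise ?_
    intro s hs
    exact Finset.mem_coe.2 (Finset.mem_image_of_mem g (Finset.mem_coe.1 hs))
  have h2 : (img2 g F).filter Q = ((F.filter P).image g).filter (fun y =>
      Odd (((F.filter P).filter (fun s => g s = y)).card)) := by
    ext y
    rw [Finset.mem_filter, Finset.mem_filter, mem_img2, Finset.mem_image]
    have h3 : Q y → (F.filter P).filter (fun s => g s = y) = F.filter (fun s => g s = y) := by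
      intro hy
      ext s
      rw [Finset.mem_filter, Finset.mem_filter, Finset.mem_filter]
      constructor
      · rintro ⟨⟨a, _⟩, c⟩
        exact ⟨a, c⟩
      · rintro ⟨a, c⟩
        refine ⟨⟨a, (hPQ s).1 ?_⟩, c⟩
        rw [c]
        exact hy
    constructor
    · rintro ⟨ho, hy⟩
      refine ⟨?_, ?_⟩
      · obtain ⟨s, hs⟩ := Finset.card_pos.1 ho.pos
        rw [Finset.mem_filter] at hs
        refine ⟨s, Finset.mem_filter.2 ⟨hs.1, (hPQ s).1 ?_⟩, hs.2⟩
        rw [hs.2]
        exact hy
      · rw [h3 hy]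
        exact ho
    · rintro ⟨⟨s, hs, hsy⟩, ho⟩
      rw [Finset.mem_filter] at hs
      have hy : Q y := by
        rw [← hsy]
        exact (hPQ s).2 hs.2
      rw [h3 hy] at ho
      exact ⟨ho, hy⟩
  constructor
  · rw [h2]
    refine (Finset.card_filter_le _ _).trans Finset.card_image_le
  · have h4 := Finset.odd_sum_iff_odd_card_odd (s := (F.filter P).image g)
      (fun y => ((F.filter P).filter (fun s => g s = y)).card)
    rw [← h1, ← h2] at h4
    rw [Nat.odd_iff, Nat.odd_iff] at h4
    omega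

theorem mrg_closed (hE : Closed E) (h12 : v1 ≠ v2)
    (hα : EndAt E k v1 κα) (hγ : EndAt E k v1 κγ) (hαγ : κα ≠ κγ)
    (hβ : EndAt E k v2 κβ) (hγ' : EndAt E k v2 κγ) (hβγ : κβ ≠ κγ) :
    Closed (mrg E k v1 v2) := by
  intro j v
  by_cases hj : j = k
  · subst hj
    by_cases hv1 : v = v1
    · subst hv1
      rw [← MC_card_keys]
      have h1 : MC_keys (mrg E j v v2) j v = symmDiff (MC_keys E j v) (MC_keys E j v2) := by
        ext κ
        rw [MC_mem_keys, MC_end_v1 h12, Finset.mem_symmDiff, MC_mem_keys, MC_mem_keys]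
        tauto
      rw [h1, MC_keys_two hE hα hγ hαγ, MC_keys_two hE hβ hγ' hβγ]
      by_cases hαβ : κα = κβ
      · left
        rw [hαβ, symmDiff_self]
        rfl
      · right
        have h2 : symmDiff ({κα, κγ} : Finset (Bool × ℚ)) {κβ, κγ} = {κα, κβ} := by
          ext κ
          rw [Finset.mem_symmDiff, Finset.mem_insert, Finset.mem_singleton, Finset.mem_insert,
            Finset.mem_singleton, Finset.mem_insert, Finset.mem_singleton]
          constructor
          · rintro (⟨h3, h4⟩ | ⟨h3, h4⟩)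
            · rcases h3 with h3 | h3
              · exact Or.inl h3
              · exact absurd (Or.inr h3) h4
            · rcases h3 with h3 | h3
              · exact Or.inr h3
              · exact absurd (Or.inr h3) h4
          · rintro (h3 | h3)
            · refine Or.inl ⟨Or.inl h3, ?_⟩
              rintro (h4 | h4)
              · exact hαβ (h3.symm.trans h4)
              · exact hαγ (h3.symm.trans h4)
            · refine Or.inr ⟨Or.inl h3, ?_⟩
              rintro (h4 | h4)
              · exact hαβ (h4.symm.trans h3)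
              · exact hβγ (h3.symm.trans h4)
        rw [h2, Finset.card_pair hαβ]
    · by_cases hv2 : v = v2
      · subst hv2
        exact Or.inl (mrg_deg_v2 h12)
      · rw [mrg_deg_other hv1 hv2]
        exact hE j v
  · by_cases hj1 : j = k - 1
    · subst hj1
      have h0 := hE (k - 1) v
      unfold deg at h0 ⊢
      rw [MC_mrg_dn]
      have h2 : mrg E k v1 v2 (k - 1 - 1) = E (k - 1 - 1) := by
        unfold mrg
        rw [if_neg (by omega), if_neg (by omega)]
      rw [h2]
      have h3 := MC_img2_card (fun s : ℚ × ℚ => (s.1, if s.2 = v2 then v1 else s.2)) (E (k - 1))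
        (fun s => s.1 = v) (fun s => s.1 = v) (fun s => Iff.rfl)
      omega
    · by_cases hj2 : j = k + 1
      · subst hj2
        have h0 := hE (k + 1) v
        unfold deg at h0 ⊢
        have e1 : k + 1 - 1 = k := by omega
        rw [e1] at h0 ⊢
        rw [MC_mrg_up]
        have h2 : mrg E k v1 v2 (k + 1) = E (k + 1) := by
          unfold mrg
          rw [if_neg (by omega), if_neg (by omega)]
        rw [h2]
        have h3 := MC_img2_card (fun s : ℚ × ℚ => (if s.1 = v2 then v1 else s.1, s.2)) (E k)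
          (fun s => s.2 = v) (fun s => s.2 = v) (fun s => Iff.rfl)
        omega
      · have h0 := hE j v
        unfold deg at h0 ⊢
        have h2 : mrg E k v1 v2 j = E j := by
          unfold mrg
          rw [if_neg (by omega), if_neg (by omega)]
        have h3 : mrg E k v1 v2 (j - 1) = E (j - 1) := by
          unfold mrg
          rw [if_neg (by omega), if_neg (by omega)]
        rw [h2, h3]
        exact h0

end Pool.Agent.Helper24.RUL
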