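import Pool.Agent.Helper24.RUL.Lists

/-!
# RUL-08: exchanging blocks, transport of the switch condition through a level
(project RUL, MP_409f7f_co)
-/

namespace Pool.Agent.Helper24.RUL

section Blocks

variable {ι : Type*} [DecidableEq ι]

private theorem two_perm {w w' : List ℕ} (h : w.Perm w') (h2 : Two w) : Two w' := by
  intro p hp
  rw [← h.count_eq]
  exact h2 p (h.mem_iff.2 hp)

private theorem idxOf_three (U Y V : List ι) (s : ι) :
    (U ++ Y ++ V).idxOf s = if s ∈ U then U.idxOf s else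
      if s ∈ Y then Y.idxOf s + U.length else V.idxOf s + Y.length + U.length := by
  rw [List.append_assoc, List.idxOf_append, List.idxOf_append]
  split_ifs <;> rfl

private theorem btw_append {L M T : List ι} (U V : List ι) (hLM : L.Perm M) (hLT : L.Perm T)
    (h : Btw L M T) : Btw (U ++ L ++ V) (U ++ M ++ V) (U ++ T ++ V) := by
  intro s hs t ht h1 h2
  rw [idxOf_three, idxOf_three] at h1 h2 ⊢
  have hMl : M.length = L.length := hLM.length_eq.symm
  have hTl : T.length = L.length := hLT.length_eq.symm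
  have hsM : s ∈ M ↔ s ∈ L := hLM.mem_iff.symm
  have hsT : s ∈ T ↔ s ∈ L := hLT.mem_iff.symm
  have htM : t ∈ M ↔ t ∈ L := hLM.mem_iff.symm
  have htT : t ∈ T ↔ t ∈ L := hLT.mem_iff.symm
  have kU : ∀ x ∈ U, U.idxOf x < U.length := fun x hx => List.idxOf_lt_length_iff.2 hx
  have kM : ∀ x ∈ M, M.idxOf x < M.length := fun x hx => List.idxOf_lt_length_iff.2 hx
  have kL : ∀ x ∈ L, L.idxOf x < L.length := fun x hx => List.idxOf_lt_length_iff.2 hx
  simp only [hsM, hsT, htM, htT, hMl, hTl] at h1 h2 ⊢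
  by_cases a1 : s ∈ U
  · by_cases b1 : t ∈ U
    · rw [if_pos a1, if_pos b1] at h1 ⊢
      exact h1
    · rw [if_pos a1, if_neg b1]
      have := kU s a1
      split_ifs <;> omega
  · by_cases b1 : t ∈ U
    · rw [if_neg a1, if_pos b1] at h1
      have := kU t b1
      split_ifs at h1 <;> omega
    · rw [if_neg a1, if_neg b1] at h1 h2 ⊢
      by_cases a2 : s ∈ L
      · by_cases b2 : t ∈ L
        · rw [if_pos a2, if_pos b2] at h1 h2 ⊢
          have := h s a2 t b2 (by omega) (by omega)
          omega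
        · rw [if_pos a2, if_neg b2]
          have := kM s (hsM.2 a2)
          omega
      · by_cases b2 : t ∈ L
        · rw [if_neg a2, if_pos b2] at h1
          have := kL t b2
          omega
        · rw [if_neg a2, if_neg b2] at h1 ⊢
          exact h1

private theorem btw_three {x a b : ι} (hxa : x ≠ a) (hxb : x ≠ b) (hab : a ≠ b) :
    Btw [x, a, b] [a, x, b] [a, b, x] := by
  intro s hs t ht h1 h2
  simp only [List.mem_cons, List.not_mem_nil, or_false] at hs ht
  rcases hs with rfl | rfl | rfl <;> rcases ht with rfl | rfl | rfl <;>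
    simp_all [List.idxOf_cons, beq_iff_eq, Ne.symm hxa, Ne.symm hxb, Ne.symm hab]

private theorem btw_three' {x a b : ι} (hxa : x ≠ a) (hxb : x ≠ b) (hab : a ≠ b) :
    Btw [a, b, x] [a, x, b] [x, a, b] := by
  intro s hs t ht h1 h2
  simp only [List.mem_cons, List.not_mem_nil, or_false] at hs ht
  rcases hs with rfl | rfl | rfl <;> rcases ht with rfl | rfl | rfl <;>
    simp_all [List.idxOf_cons, beq_iff_eq, Ne.symm hxa, Ne.symm hxb, Ne.symm hab]

private theorem btw_four {a b c d : ι} (hab : a ≠ b) (hac : a ≠ c) (had : a ≠ d) (hbc : b ≠ c)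
    (hbd : b ≠ d) (hcd : c ≠ d) : Btw [a, b, c, d] [c, a, b, d] [c, d, a, b] := by
  intro s hs t ht h1 h2
  simp only [List.mem_cons, List.not_mem_nil, or_false] at hs ht
  rcases hs with rfl | rfl | rfl | rfl <;> rcases ht with rfl | rfl | rfl | rfl <;>
    simp_all [List.idxOf_cons, beq_iff_eq, Ne.symm hab, Ne.symm hac, Ne.symm had, Ne.symm hbc,
      Ne.symm hbd, Ne.symm hcd]

private theorem perm_mid {L M : List ι} (U V : List ι) (h : L.Perm M) :
    (U ++ L ++ V).Perm (U ++ M ++ V) :=
  (h.append_left U).append_right V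

/-- One name passes a pair to the right. -/
private theorem srt_pass_right {U V : List ι} {x a b : ι} {W Z w' : List ℕ} {y p : ℕ}
    (hnd : (U ++ [x, a, b] ++ V).Nodup) (hW : W.length = U.length)
    (hT : Two (W ++ [y, p, p] ++ Z)) :
    Srt (U ++ [a, b, x] ++ V) (U ++ [x, a, b] ++ V) (W ++ [y, p, p] ++ Z) w' ↔
      Ren (W ++ [p, p, y] ++ Z) w' := by
  have hnd' : ([x, a, b] : List ι).Nodup := by
    have h0 := hnd
    rw [List.append_assoc, List.nodup_append'] at h0
    exact (List.nodup_append'.1 h0.2.1).1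
  simp only [List.nodup_cons, List.mem_cons, List.not_mem_nil, or_false, not_or, not_false_eq_true,
    List.nodup_nil, and_true] at hnd'
  have p1 : ([x, a, b] : List ι).Perm [a, x, b] := List.Perm.swap a x [b]
  have p2 : ([x, a, b] : List ι).Perm [a, b, x] := p1.trans ((List.Perm.swap b x []).cons a)
  have hB := btw_append U V p1 p2 (btw_three hnd'.1.1 hnd'.1.2 hnd'.2)
  have hb := srtN_through (w' := w') hT hnd (perm_mid U V p1) (perm_mid U V p2) hB
  have hM : (U ++ [a, x, b] ++ V).Nodup := (perm_mid U V p1).nodup_iff.1 hnd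
  rw [hb]
  have e1 : U ++ [x, a, b] ++ V = U ++ x :: a :: (b :: V) := by simp
  have e2 : U ++ [a, x, b] ++ V = U ++ a :: x :: (b :: V) := by simp
  have e3 : U ++ [a, x, b] ++ V = (U ++ [a]) ++ x :: b :: V := by simp
  have e4 : U ++ [a, b, x] ++ V = (U ++ [a]) ++ b :: x :: V := by simp
  have s1 : ∀ u, Srt (U ++ [a, x, b] ++ V) (U ++ [x, a, b] ++ V) (W ++ [y, p, p] ++ Z) u ↔
      CrN W.length (W ++ [y, p, p] ++ Z) u := by
    intro u
    rw [e1, e2, hW]
    rw [e1] at hnd
    exact srtN_one hnd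
  have s2 : ∀ u, Srt (U ++ [a, b, x] ++ V) (U ++ [a, x, b] ++ V) u w' ↔
      CrN (W.length + 1) u w' := by
    intro u
    rw [e4, e3, hW]
    rw [e3] at hM
    have := srtN_one (w := u) (w' := w') hM
    rw [List.length_append, List.length_singleton] at this
    exact this
  simp only [s1, s2]
  have e5 : W ++ [y, p, p] ++ Z = W ++ y :: p :: p :: Z := by simp
  rw [e5] at hT ⊢
  rw [cr_pass_right hT]
  simp only [List.append_assoc, List.cons_append, List.nil_append]

/-- One name passes a pair to the left. -/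
private theorem srt_pass_left {U V : List ι} {x a b : ι} {W Z w' : List ℕ} {y p : ℕ}
    (hnd : (U ++ [a, b, x] ++ V).Nodup) (hW : W.length = U.length)
    (hT : Two (W ++ [p, p, y] ++ Z)) :
    Srt (U ++ [x, a, b] ++ V) (U ++ [a, b, x] ++ V) (W ++ [p, p, y] ++ Z) w' ↔
      Ren (W ++ [y, p, p] ++ Z) w' := by
  have hnd' : ([a, b, x] : List ι).Nodup := by
    have h0 := hnd
    rw [List.append_assoc, List.nodup_append'] at h0
    exact (List.nodup_append'.1 h0.2.1).1
  simp only [List.nodup_cons, List.mem_cons, List.not_mem_nil, or_false, not_or, not_false_eq_true,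
    List.nodup_nil, and_true] at hnd'
  have p1 : ([a, b, x] : List ι).Perm [a, x, b] := (List.Perm.swap x b []).cons a
  have p2 : ([a, b, x] : List ι).Perm [x, a, b] := p1.trans (List.Perm.swap x a [b])
  have hB := btw_append U V p1 p2 (btw_three' (Ne.symm hnd'.1.2) (Ne.symm hnd'.2) hnd'.1.1)
  have hb := srtN_through (w' := w') hT hnd (perm_mid U V p1) (perm_mid U V p2) hB
  have hM : (U ++ [a, x, b] ++ V).Nodup := (perm_mid U V p1).nodup_iff.1 hnd
  rw [hb]
  have e1 : U ++ [a, b, x] ++ V = (U ++ [a]) ++ b :: x :: V := by simp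
  have e2 : U ++ [a, x, b] ++ V = (U ++ [a]) ++ x :: b :: V := by simp
  have e3 : U ++ [a, x, b] ++ V = U ++ a :: x :: (b :: V) := by simp
  have e4 : U ++ [x, a, b] ++ V = U ++ x :: a :: (b :: V) := by simp
  have s1 : ∀ u, Srt (U ++ [a, x, b] ++ V) (U ++ [a, b, x] ++ V) (W ++ [p, p, y] ++ Z) u ↔
      CrN (W.length + 1) (W ++ [p, p, y] ++ Z) u := by
    intro u
    rw [e1, e2, hW]
    rw [e1] at hnd
    have := srtN_one (w := W ++ [p, p, y] ++ Z) (w' := u) hnd
    rw [List.length_append, List.length_singleton] at this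
    exact this
  have s2 : ∀ u, Srt (U ++ [x, a, b] ++ V) (U ++ [a, x, b] ++ V) u w' ↔
      CrN W.length u w' := by
    intro u
    rw [e4, e3, hW]
    rw [e3] at hM
    exact srtN_one hM
  simp only [s1, s2]
  have e5 : W ++ [p, p, y] ++ Z = W ++ p :: p :: y :: Z := by simp
  rw [e5] at hT ⊢
  rw [cr_pass_left hT]
  simp only [List.append_assoc, List.cons_append, List.nil_append]

/-- Two pairs are exchanged. -/
private theorem srt_pass_two {U V : List ι} {a b c d : ι} {W Z w' : List ℕ} {p q : ℕ}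
    (hnd : (U ++ [a, b, c, d] ++ V).Nodup) (hW : W.length = U.length)
    (hT : Two (W ++ [p, p, q, q] ++ Z)) :
    Srt (U ++ [c, d, a, b] ++ V) (U ++ [a, b, c, d] ++ V) (W ++ [p, p, q, q] ++ Z) w' ↔
      Ren (W ++ [q, q, p, p] ++ Z) w' := by
  have hnd' : ([a, b, c, d] : List ι).Nodup := by
    have h0 := hnd
    rw [List.append_assoc, List.nodup_append'] at h0
    exact (List.nodup_append'.1 h0.2.1).1
  simp only [List.nodup_cons, List.mem_cons, List.not_mem_nil, or_false, not_or, not_false_eq_true,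
    List.nodup_nil, and_true] at hnd'
  have p1 : ([a, b, c, d] : List ι).Perm [c, a, b, d] := by
    have h1 : ([a, b, c] : List ι).Perm [c, a, b] :=
      ((List.Perm.swap c b []).cons a).trans (List.Perm.swap c a [b])
    exact h1.append_right [d]
  have p3 : ([c, a, b, d] : List ι).Perm [c, d, a, b] := by
    have h1 : ([a, b, d] : List ι).Perm [d, a, b] :=
      ((List.Perm.swap d b []).cons a).trans (List.Perm.swap d a [b])
    exact h1.cons c
  have p2 : ([a, b, c, d] : List ι).Perm [c, d, a, b] := p1.trans p3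
  have hB := btw_append U V p1 p2 (btw_four hnd'.1.1 hnd'.1.2.1 hnd'.1.2.2 hnd'.2.1.1
    hnd'.2.1.2 hnd'.2.2)
  have hb := srtN_through (w' := w') hT hnd (perm_mid U V p1) (perm_mid U V p2) hB
  have hM : (U ++ [c, a, b, d] ++ V).Nodup := (perm_mid U V p1).nodup_iff.1 hnd
  rw [hb]
  have e1 : U ++ [a, b, c, d] ++ V = U ++ [a, b, c] ++ (d :: V) := by simp
  have e2 : U ++ [c, a, b, d] ++ V = U ++ [c, a, b] ++ (d :: V) := by simp
  have e3 : U ++ [c, a, b, d] ++ V = (U ++ [c]) ++ [a, b, d] ++ V := by simp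
  have e4 : U ++ [c, d, a, b] ++ V = (U ++ [c]) ++ [d, a, b] ++ V := by simp
  have f1 : W ++ [p, p, q, q] ++ Z = W ++ [p, p, q] ++ (q :: Z) := by simp
  have f2 : W ++ [q, p, p] ++ (q :: Z) = (W ++ [q]) ++ [p, p, q] ++ Z := by simp
  have f3 : W ++ [q, q, p, p] ++ Z = (W ++ [q]) ++ [q, p, p] ++ Z := by simp
  have s1 : ∀ u, Srt (U ++ [c, a, b, d] ++ V) (U ++ [a, b, c, d] ++ V)
      (W ++ [p, p, q, q] ++ Z) u ↔ Ren (W ++ [q, p, p] ++ (q :: Z)) u := by
    intro u
    rw [e1, e2, f1]
    rw [e1] at hnd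
    rw [f1] at hT
    exact srt_pass_left hnd hW hT
  have hT2 : Two (W ++ [q, p, p] ++ (q :: Z)) := by
    refine two_perm ?_ hT
    rw [f1]
    refine List.Perm.append_right _ (List.Perm.append_left _ ?_)
    exact ((List.Perm.swap q p []).cons p).trans (List.Perm.swap q p [p])
  have s2 : Srt (U ++ [c, d, a, b] ++ V) (U ++ [c, a, b, d] ++ V)
      (W ++ [q, p, p] ++ (q :: Z)) w' ↔ Ren (W ++ [q, q, p, p] ++ Z) w' := by
    rw [e4, e3, f2, f3]
    rw [e3] at hM
    rw [f2] at hT2
    exact srt_pass_left hM (by simp [hW]) hT2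
  simp only [s1]
  constructor
  · rintro ⟨u, hr, hu⟩
    exact s2.1 (hu.ren hr.symm (Ren.refl _))
  · intro h
    exact ⟨_, Ren.refl _, s2.2 h⟩

end Blocks

/-- Two adjacent blocks of at most two names are exchanged, a block of two names has equal labels,
and not both blocks have one name: the labels are simply exchanged. (One block empty: `srt_self`;
lengths 1,2 or 2,1: `cr_pass_right`, `cr_pass_left`; lengths 2,2: twice, through the intermediate
list, `srt_through`.) -/
theorem srt_block {ι : Type*} [DecidableEq ι] {U V X1 X2 : List ι} {W P1 P2 Z w' : List ℕ}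
    (hnd : (U ++ X1 ++ X2 ++ V).Nodup) (hW : W.length = U.length) (hZ : Z.length = V.length)
    (h1 : P1.length = X1.length) (h2 : P2.length = X2.length)
    (hX1 : X1.length ≤ 2) (hX2 : X2.length ≤ 2)
    (he1 : X1.length = 2 → ∃ p, P1 = [p, p]) (he2 : X2.length = 2 → ∃ p, P2 = [p, p])
    (hne : ¬ (X1.length = 1 ∧ X2.length = 1)) (hT : Two (W ++ P1 ++ P2 ++ Z)) :
    Srt (U ++ X2 ++ X1 ++ V) (U ++ X1 ++ X2 ++ V) (W ++ P1 ++ P2 ++ Z) w' ↔
      Ren (W ++ P2 ++ P1 ++ Z) w' := by
  have hself : ∀ {T : List ι} {w u : List ℕ}, T.Nodup → (Srt T T w u ↔ Ren w u) := by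
    intro T w u hn
    exact srtN_self hn
  match X1, X2, P1, P2, h1, h2, hX1, hX2, he1, he2, hne, hnd, hT with
  | [], X2, [], P2, _, _, _, _, _, _, _, hnd, hT =>
    simp only [List.append_nil] at hnd hT ⊢
    exact hself hnd
  | X1, [], P1, [], _, _, _, _, _, _, _, hnd, hT =>
    simp only [List.append_nil] at hnd hT ⊢
    exact hself hnd
  | [x], [y], _, _, _, _, _, _, _, _, hne, _, _ => exact absurd ⟨rfl, rfl⟩ hne
  | [x], [a, b], [y], P2, _, _, _, _, _, he2, _, hnd, hT =>
    obtain ⟨p, rfl⟩ := he2 rfl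
    have e1 : U ++ [x] ++ [a, b] ++ V = U ++ [x, a, b] ++ V := by simp
    have e2 : U ++ [a, b] ++ [x] ++ V = U ++ [a, b, x] ++ V := by simp
    have e3 : W ++ [y] ++ [p, p] ++ Z = W ++ [y, p, p] ++ Z := by simp
    have e4 : W ++ [p, p] ++ [y] ++ Z = W ++ [p, p, y] ++ Z := by simp
    rw [e1] at hnd
    rw [e3] at hT
    rw [e1, e2, e3, e4]
    exact srt_pass_right hnd hW hT
  | [a, b], [x], P1, [y], _, _, _, _, he1, _, _, hnd, hT =>
    obtain ⟨p, rfl⟩ := he1 rfl
    have e1 : U ++ [x] ++ [a, b] ++ V = U ++ [x, a, b] ++ V := by simp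
    have e2 : U ++ [a, b] ++ [x] ++ V = U ++ [a, b, x] ++ V := by simp
    have e3 : W ++ [y] ++ [p, p] ++ Z = W ++ [y, p, p] ++ Z := by simp
    have e4 : W ++ [p, p] ++ [y] ++ Z = W ++ [p, p, y] ++ Z := by simp
    rw [e2] at hnd
    rw [e4] at hT
    rw [e1, e2, e3, e4]
    exact srt_pass_left hnd hW hT
  | [a, b], [c, d], P1, P2, _, _, _, _, he1, he2, _, hnd, hT =>
    obtain ⟨p, rfl⟩ := he1 rfl
    obtain ⟨q, rfl⟩ := he2 rfl
    have e1 : U ++ [a, b] ++ [c, d] ++ V = U ++ [a, b, c, d] ++ V := by simp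
    have e2 : U ++ [c, d] ++ [a, b] ++ V = U ++ [c, d, a, b] ++ V := by simp
    have e3 : W ++ [p, p] ++ [q, q] ++ Z = W ++ [p, p, q, q] ++ Z := by simp
    have e4 : W ++ [q, q] ++ [p, p] ++ Z = W ++ [q, q, p, p] ++ Z := by simp
    rw [e1] at hnd
    rw [e3] at hT
    rw [e1, e2, e3, e4]
    exact srt_pass_two hnd hW hT

private theorem uniq_pass {E : Lk} {k : ℤ} (hE : Closed E) {d u : ℚ × ℚ} (hd : d ∈ E (k - 1))
    (hu : u ∈ E k) (h : d.2 = u.1) :
    (∀ x ∈ E (k - 1), x.2 = d.2 → x = d) ∧ (∀ y ∈ E k, y.1 = d.2 → y = u) := by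
  have h1 := hE k d.2
  unfold deg at h1
  have h2 : d ∈ (E (k - 1)).filter (fun s => s.2 = d.2) := by simp [hd]
  have h3 : u ∈ (E k).filter (fun s => s.1 = d.2) := by simp [hu, h]
  have h4 := Finset.card_pos.2 ⟨d, h2⟩
  have h5 := Finset.card_pos.2 ⟨u, h3⟩
  have h6 : ((E (k - 1)).filter (fun s => s.2 = d.2)).card ≤ 1 := by omega
  have h7 : ((E k).filter (fun s => s.1 = d.2)).card ≤ 1 := by omega
  rw [Finset.card_le_one] at h6 h7
  refine ⟨fun x hx hx2 => h6 x (by simp [hx, hx2]) d h2, fun y hy hy2 => h7 y (by simp [hy, hy2]) u h3⟩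

private theorem exists_next {E : Lk} {k : ℤ} (hE : Closed E) {e : ℚ × ℚ} (he : e ∈ E (k - 1))
    (hu : ∀ x ∈ E (k - 1), x.2 = e.2 → x = e) : ∃ t ∈ E k, e.2 = t.1 := by
  have h1 := hE k e.2
  unfold deg at h1
  have h2 : (E (k - 1)).filter (fun s => s.2 = e.2) = {e} := by
    ext x
    simp only [Finset.mem_filter, Finset.mem_singleton]
    constructor
    · rintro ⟨hx, hx2⟩
      exact hu x hx hx2
    · rintro rfl
      exact ⟨he, rfl⟩
  rw [h2, Finset.card_singleton] at h1
  have h3 : 0 < ((E k).filter (fun s => s.1 = e.2)).card := by omega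
  obtain ⟨t, ht⟩ := Finset.card_pos.1 h3
  rw [Finset.mem_filter] at ht
  exact ⟨t, ht.1, ht.2.symm⟩

private theorem uniq_label {α : Type*} {L : List α} {f : α → ℕ} {y : ℕ}
    (h : (L.map f).count y = 1) : ∃ e ∈ L, f e = y ∧ ∀ x ∈ L, f x = y → x = e := by
  rw [List.count, List.countP_map, List.countP_eq_length_filter] at h
  obtain ⟨e, he⟩ := List.length_eq_one_iff.1 h
  have h1 : ∀ x, x ∈ L ∧ f x = y ↔ x = e := by
    intro x
    have h2 : x ∈ List.filter ((fun z => z == y) ∘ f) L ↔ x ∈ [e] := by rw [he]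
    rw [List.mem_filter, List.mem_singleton] at h2
    simpa using h2
  have h3 := (h1 e).2 rfl
  exact ⟨e, h3.1, h3.2, fun x hx hx2 => (h1 x).1 ⟨hx, hx2⟩⟩

private theorem idxOf_map_uniq {α : Type*} [BEq α] [LawfulBEq α] {f : α → ℕ} {e : α} : ∀ {L : List α},
    e ∈ L → (∀ x ∈ L, f x = f e → x = e) → (L.map f).idxOf (f e) = L.idxOf e := by
  intro L
  induction L with
  | nil => intro h; simp at h
  | cons x L ih =>
    intro he hu
    by_cases hx : x = e
    · subst hx
      simp
    · have h1 : f x ≠ f e := fun h => hx (hu x (by simp) h)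
      rw [List.map_cons, List.idxOf_cons_ne _ h1, List.idxOf_cons_ne _ hx]
      rw [ih]
      · rcases List.mem_cons.1 he with h | h
        · exact absurd h.symm hx
        · exact h
      · intro z hz hz2
        exact hu z (List.mem_cons_of_mem _ hz) hz2

private theorem partner {E : Lk} {k : ℤ} (hE : Closed E) {b a : ℚ × ℚ → ℕ} (hl : Lev E k b a)
    (hb : Two ((BL (E (k - 1))).map b)) (ha : Two ((AL (E k)).map a))
    {d d' u u' : ℚ × ℚ} {R R' : List (ℚ × ℚ)}
    (hB : (d :: d' :: R).Perm (BL (E (k - 1)))) (hA : (u :: u' :: R').Perm (AL (E k)))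
    (h1 : d.2 = u.1) (h2 : d'.2 = u'.1) (hne : b d ≠ b d') :
    ∃ e ∈ R, ∃ t ∈ R', e.2 = t.1 ∧ b e = b d ∧ (∀ x ∈ E (k - 1), x.2 = e.2 → x = e) ∧
      (R.map b).idxOf (b d) = R.idxOf e ∧ (R'.map a).idxOf (a u) = R'.idxOf t := by
  obtain ⟨l1, l2, l3⟩ := hl
  have mB : ∀ x, x ∈ E (k - 1) ↔ x = d ∨ x = d' ∨ x ∈ R := by
    intro x
    rw [← mem_BL, ← hB.mem_iff]
    simp
  have mA : ∀ x, x ∈ E k ↔ x = u ∨ x = u' ∨ x ∈ R' := by
    intro x
    rw [← mem_AL, ← hA.mem_iff]
    simp
  have hd : d ∈ E (k - 1) := (mB d).2 (Or.inl rfl)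
  have hd' : d' ∈ E (k - 1) := (mB d').2 (Or.inr (Or.inl rfl))
  have hu : u ∈ E k := (mA u).2 (Or.inl rfl)
  have hu' : u' ∈ E k := (mA u').2 (Or.inr (Or.inl rfl))
  have hne' : a u ≠ a u' := fun h => hne ((l3 d hd d' hd' u hu u' hu' h1 h2).2 h)
  have nB : (d :: d' :: R).Nodup := hB.nodup_iff.2 (BL_nodup _)
  have nA : (u :: u' :: R').Nodup := hA.nodup_iff.2 (AL_nodup _)
  have cB : (R.map b).count (b d) = 1 := by
    have h3 : ((d :: d' :: R).map b).count (b d) = 2 := by
      rw [(hB.map b).count_eq]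
      exact hb _ ((hB.map b).mem_iff.1 (by simp))
    rw [List.map_cons, List.map_cons, List.count_cons_self, List.count_cons_of_ne (Ne.symm hne)] at h3
    omega
  have cA : (R'.map a).count (a u) = 1 := by
    have h3 : ((u :: u' :: R').map a).count (a u) = 2 := by
      rw [(hA.map a).count_eq]
      exact ha _ ((hA.map a).mem_iff.1 (by simp))
    rw [List.map_cons, List.map_cons, List.count_cons_self, List.count_cons_of_ne (Ne.symm hne')] at h3
    omega
  obtain ⟨e, he, hbe, hue⟩ := uniq_label cB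
  obtain ⟨t, ht, hat, hut⟩ := uniq_label cA
  have heE : e ∈ E (k - 1) := (mB e).2 (Or.inr (Or.inr he))
  have hed : e ≠ d := by
    rintro rfl
    rw [List.nodup_cons] at nB
    exact nB.1 (List.mem_cons_of_mem _ he)
  obtain ⟨q1, q2⟩ := uniq_pass hE hd hu h1
  have hed2 : e.2 ≠ d.2 := fun h => hed (q1 e heE h)
  have hux : ∀ x ∈ E (k - 1), x.2 = e.2 → x = e := by
    intro x hx hx2
    by_contra hxe
    have h3 : b x = b e := l1 x hx e heE hxe hx2
    rcases (mB x).1 hx with rfl | rfl | hxR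
    · exact hed2 hx2.symm
    · exact hne (hbe.symm.trans h3.symm)
    · exact hxe (hue x hxR (h3.trans hbe))
  obtain ⟨t', ht', het'⟩ := exists_next hE heE hux
  have h4 : a u = a t' := (l3 d hd e heE u hu t' ht' h1 het').1 hbe.symm
  have h5 : t' = t := by
    rcases (mA t').1 ht' with rfl | rfl | hR
    · exact absurd (het'.trans h1.symm) hed2
    · exact absurd h4 hne'
    · exact hut t' hR h4.symm
  subst h5
  refine ⟨e, he, t', ht, het', hbe, hux, ?_, ?_⟩
  · rw [← hbe]
    exact idxOf_map_uniq he (fun x hx hx2 => hue x hx (hx2.trans hbe))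
  · rw [← hat]
    exact idxOf_map_uniq ht (fun x hx hx2 => hut x hx (hx2.trans hat))

/-- The order of two elements in the rotated list depends on the keys only. -/
private theorem cyc_idx {α : Type*} [BEq α] [LawfulBEq α] (key : α → ℚ) {U V : List α} {d d' e e' : α}
    (hs : (U ++ d :: d' :: V).Pairwise (fun s t => key s ≤ key t))
    (nd : (U ++ d :: d' :: V).Nodup)
    (he : e ∈ V ++ U) (he' : e' ∈ V ++ U) (h1 : key e ≠ key d) (h2 : key e' ≠ key d)
    (h3 : key e ≠ key e') :
    (V ++ U).idxOf e' < (V ++ U).idxOf e ↔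
      ((key d < key e' ∧ key e < key d) ∨ (key d < key e' ∧ key d < key e ∧ key e' < key e) ∨
        (key e' < key d ∧ key e < key d ∧ key e' < key e)) := by
  have hV : ∀ x ∈ V, key d ≤ key x := by
    intro x hx
    have h := (List.pairwise_append.1 hs).2.1
    exact (List.pairwise_cons.1 h).1 x (List.mem_cons_of_mem _ hx)
  have hU : ∀ x ∈ U, key x ≤ key d := by
    intro x hx
    exact (List.pairwise_append.1 hs).2.2 x hx d (by simp)
  have hsV : V.Pairwise (fun s t => key s ≤ key t) := by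
    have h := (List.pairwise_append.1 hs).2.1
    exact (List.pairwise_cons.1 (List.pairwise_cons.1 h).2).2
  have hsU : U.Pairwise (fun s t => key s ≤ key t) := (List.pairwise_append.1 hs).1
  -- in a sorted list the order of the indices is the order of the keys
  have key_lt : ∀ {L : List α}, L.Pairwise (fun s t => key s ≤ key t) → ∀ {x y : α}, x ∈ L →
      y ∈ L → key x ≠ key y → L.idxOf x < L.idxOf y → key x < key y := by
    intro L hL x y hx hy hxy hlt
    refine lt_of_le_of_ne ?_ hxy
    have k1 : L.idxOf x < L.length := List.idxOf_lt_length_iff.2 hx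
    have k2 : L.idxOf y < L.length := List.idxOf_lt_length_iff.2 hy
    have h := (List.pairwise_iff_getElem.1 hL) _ _ k1 k2 hlt
    rw [List.getElem_idxOf, List.getElem_idxOf] at h
    exact h
  have key_iff : ∀ {L : List α}, L.Pairwise (fun s t => key s ≤ key t) → ∀ {x y : α}, x ∈ L →
      y ∈ L → key x ≠ key y → (L.idxOf x < L.idxOf y ↔ key x < key y) := by
    intro L hL x y hx hy hxy
    refine ⟨key_lt hL hx hy hxy, fun h => ?_⟩
    by_contra hc
    rcases Nat.lt_or_ge (L.idxOf y) (L.idxOf x) with h4 | h4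
    · exact absurd (key_lt hL hy hx (Ne.symm hxy) h4) (not_lt.2 h.le)
    · have h5 : L.idxOf x = L.idxOf y := by omega
      have h6 : x = y := by
        have k1 : L.idxOf x < L.length := List.idxOf_lt_length_iff.2 hx
        have k2 : L.idxOf y < L.length := List.idxOf_lt_length_iff.2 hy
        have g1 : L[L.idxOf x] = x := List.getElem_idxOf k1
        have g2 : L[L.idxOf y] = y := List.getElem_idxOf k2
        rw [← g1, ← g2]
        simp only [h5]
      exact hxy (by rw [h6])
  have hdisj : ∀ x ∈ U, x ∉ V := by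
    intro x hx hxV
    have h := List.nodup_append'.1 nd
    exact h.2.2 hx (List.mem_cons_of_mem _ (List.mem_cons_of_mem _ hxV))
  rw [List.mem_append] at he he'
  have kV : ∀ x ∈ V, V.idxOf x < V.length := fun x hx => List.idxOf_lt_length_iff.2 hx
  rcases he with he | he <;> rcases he' with he' | he'
  · -- both in V
    rw [List.idxOf_append_of_mem he, List.idxOf_append_of_mem he',
      key_iff hsV he' he (Ne.symm h3)]
    have a1 : key d < key e := lt_of_le_of_ne (hV e he) (Ne.symm h1)
    have a2 : key d < key e' := lt_of_le_of_ne (hV e' he') (Ne.symm h2)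
    constructor
    · intro h
      exact Or.inr (Or.inl ⟨a2, a1, h⟩)
    · rintro (h | h | h)
      · exact absurd h.2 (not_lt.2 a1.le)
      · exact h.2.2
      · exact h.2.2
  · -- e in V, e' in U
    rw [List.idxOf_append_of_mem he, List.idxOf_append_of_notMem (hdisj e' he')]
    have a1 : key d < key e := lt_of_le_of_ne (hV e he) (Ne.symm h1)
    have a2 : key e' < key d := lt_of_le_of_ne (hU e' he') h2
    have a3 := kV e he
    constructor
    · intro h
      omega
    · rintro (h | h | h)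
      · exact absurd h.1 (not_lt.2 a2.le)
      · exact absurd h.1 (not_lt.2 a2.le)
      · exact absurd h.2.1 (not_lt.2 a1.le)
  · -- e in U, e' in V
    rw [List.idxOf_append_of_mem he', List.idxOf_append_of_notMem (hdisj e he)]
    have a1 : key d < key e' := lt_of_le_of_ne (hV e' he') (Ne.symm h2)
    have a2 : key e < key d := lt_of_le_of_ne (hU e he) h1
    have a3 := kV e' he'
    constructor
    · intro _
      exact Or.inl ⟨a1, a2⟩
    · intro _
      omega
  · -- both in U
    rw [List.idxOf_append_of_notMem (hdisj e he), List.idxOf_append_of_notMem (hdisj e' he')]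
    have a1 : key e < key d := lt_of_le_of_ne (hU e he) h1
    have a2 : key e' < key d := lt_of_le_of_ne (hU e' he') h2
    have a3 := key_iff hsU he' he (Ne.symm h3)
    constructor
    · intro h
      exact Or.inr (Or.inr ⟨a2, a1, a3.1 (by omega)⟩)
    · rintro (h | h | h)
      · exact absurd h.1 (not_lt.2 a2.le)
      · exact absurd h.1 (not_lt.2 a2.le)
      · have := a3.2 h.2.2
        omega

/-- Transport of a crossing of two passing strands through a level. `d, d'` are neighbours in the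
end order of layer `k - 1` and continue as `u, u'`. If the labels `b` change by the crossing of
`d, d'` (pass: `b` stays, names exchange; switch: the labels of `d`, `d'` are exchanged), then the
labels `a` change in the same way by the crossing of `u, u'`. The point is the switch condition:
the other strand with the label of `d` is a passing strand (otherwise three strands would have
this label, as `b` is `Two` on the layer), its continuation is the other strand with the label of
`u`, and the values `s.2 = t.1` are in the same order. -/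
theorem lev_switch {E : Lk} {k : ℤ} (hE : Closed E) {b a : ℚ × ℚ → ℕ} (hl : Lev E k b a)
    (hb : Two ((BL (E (k - 1))).map b)) (ha : Two ((AL (E k)).map a))
    {d d' u u' : ℚ × ℚ} {U V U' V' : List (ℚ × ℚ)}
    (hB : BL (E (k - 1)) = U ++ d :: d' :: V) (hA : AL (E k) = U' ++ u :: u' :: V')
    (h1 : d.2 = u.1) (h2 : d'.2 = u'.1) (hd : d.2 ≠ d'.2) (hne : b d ≠ b d') :
    (((V ++ U).map b).idxOf (b d') < ((V ++ U).map b).idxOf (b d)) ↔
      (((V' ++ U').map a).idxOf (a u') < ((V' ++ U').map a).idxOf (a u)) := by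
  have pB : (d :: d' :: (V ++ U)).Perm (BL (E (k - 1))) := by
    rw [hB]
    exact (List.perm_append_comm (l₁ := d :: d' :: V) (l₂ := U))
  have pB' : (d' :: d :: (V ++ U)).Perm (BL (E (k - 1))) := (List.Perm.swap d d' _).trans pB
  have pA : (u :: u' :: (V' ++ U')).Perm (AL (E k)) := by
    rw [hA]
    exact (List.perm_append_comm (l₁ := u :: u' :: V') (l₂ := U'))
  have pA' : (u' :: u :: (V' ++ U')).Perm (AL (E k)) := (List.Perm.swap u u' _).trans pA
  obtain ⟨e, he, t, ht, het, hbe, hue, i1, i2⟩ := partner hE hl hb ha pB pA h1 h2 hne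
  obtain ⟨e', he', t', ht', het', hbe', hue', i1', i2'⟩ :=
    partner hE hl hb ha pB' pA' h2 h1 (Ne.symm hne)
  rw [i1, i2, i1', i2']
  have nB : (U ++ d :: d' :: V).Nodup := by
    rw [← hB]
    exact BL_nodup _
  have nA : (U' ++ u :: u' :: V').Nodup := by
    rw [← hA]
    exact AL_nodup _
  have mB : ∀ x, x ∈ d :: d' :: (V ++ U) → x ∈ E (k - 1) := fun x hx =>
    mem_BL.1 (pB.mem_iff.1 hx)
  have mA : ∀ x, x ∈ u :: u' :: (V' ++ U') → x ∈ E k := fun x hx => mem_AL.1 (pA.mem_iff.1 hx)
  have hdE : d ∈ E (k - 1) := mB d (by simp)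
  have huE : u ∈ E k := mA u (by simp)
  have heE : e ∈ E (k - 1) := mB e (List.mem_cons_of_mem _ (List.mem_cons_of_mem _ he))
  have heE' : e' ∈ E (k - 1) := mB e' (List.mem_cons_of_mem _ (List.mem_cons_of_mem _ he'))
  obtain ⟨q1, q2⟩ := uniq_pass hE hdE huE h1
  have nB2 : (d :: d' :: (V ++ U)).Nodup := pB.nodup_iff.2 (BL_nodup _)
  have hed : e ≠ d := by
    rintro rfl
    exact (List.nodup_cons.1 nB2).1 (List.mem_cons_of_mem _ he)
  have hed' : e' ≠ d := by
    rintro rfl
    exact (List.nodup_cons.1 nB2).1 (List.mem_cons_of_mem _ he')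
  have k1 : e.2 ≠ d.2 := fun h => hed (q1 e heE h)
  have k2 : e'.2 ≠ d.2 := fun h => hed' (q1 e' heE' h)
  have k3 : e.2 ≠ e'.2 := by
    intro h
    have h3 := hue e' heE' h.symm
    rw [h3] at hbe'
    exact hne (hbe.symm.trans hbe')
  have sB : (U ++ d :: d' :: V).Pairwise (fun s t => s.2 ≤ t.2) := by
    rw [← hB]
    refine (BL_pairwise (E (k - 1))).imp ?_
    intro s t hst
    rcases hst with h | h
    · exact h.le
    · exact h.1.le
  have sA : (U' ++ u :: u' :: V').Pairwise (fun s t => s.1 ≤ t.1) := by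
    rw [← hA]
    refine (AL_pairwise (E k)).imp ?_
    intro s t hst
    rcases hst with h | h
    · exact h.le
    · exact h.1.le
  rw [cyc_idx (fun s : ℚ × ℚ => s.2) sB nB he he' k1 k2 k3]
  have g1 : t.1 ≠ u.1 := by rw [← het, ← h1]; exact k1
  have g2 : t'.1 ≠ u.1 := by rw [← het', ← h1]; exact k2
  have g3 : t.1 ≠ t'.1 := by rw [← het, ← het']; exact k3
  rw [cyc_idx (fun s : ℚ × ℚ => s.1) sA nA ht ht' g1 g2 g3]
  simp only [het, het', h1]

end Pool.Agent.Helper24.RUL
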