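import Pool.Agent.Helper24.RUL.Core

/-!
# RUL-02: the braid relation (project RUL, MP_409f7f_co)
See the hints in `Core.lean`. Suggestion: prove first a lemma that computes all results of
`Cr n`, `Cr (n+1)` on `W ++ p :: q :: r :: Z` in terms of the order of the indices of the labels in
`Z ++ W`, then do the finite case distinction (3 distinct labels: 6 orders; two equal labels: 3
patterns). It is enough to prove one implication for all `n` if you also use `Cr.symm` or the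
mirror image; do as you like.
-/

namespace Pool.Agent.Helper24.RUL

theorem braid_iff0 {n : ℕ} {W Z : List ℕ} {a b c : ℕ} {w' : List ℕ} (hW : W.length = n) :
    Cr n (W ++ a :: b :: c :: Z) w' ↔ a ≠ b ∧ (w' = W ++ b :: a :: c :: Z ∨
      (w' = W ++ a :: b :: c :: Z ∧
        (c :: (Z ++ W)).idxOf b < (c :: (Z ++ W)).idxOf a)) := by
  constructor
  · rintro ⟨W', Z', p, q, h1, h2, h3, h4⟩
    obtain ⟨rfl, h5⟩ := List.append_inj h1 (by rw [hW, h2])
    simp only [List.cons.injEq] at h5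
    obtain ⟨rfl, rfl, rfl⟩ := h5
    exact ⟨h3, h4⟩
  · rintro ⟨h1, h2⟩
    exact ⟨W, c :: Z, a, b, rfl, hW, h1, h2⟩

theorem braid_iff1 {n : ℕ} {W Z : List ℕ} {a b c : ℕ} {w' : List ℕ} (hW : W.length = n) :
    Cr (n + 1) (W ++ a :: b :: c :: Z) w' ↔ b ≠ c ∧ (w' = W ++ a :: c :: b :: Z ∨
      (w' = W ++ a :: b :: c :: Z ∧
        (Z ++ W ++ [a]).idxOf c < (Z ++ W ++ [a]).idxOf b)) := by
  have e : ∀ x y, W ++ a :: x :: y :: Z = (W ++ [a]) ++ x :: y :: Z := by simp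
  constructor
  · rintro ⟨W', Z', p, q, h1, h2, h3, h4⟩
    rw [e] at h1
    obtain ⟨rfl, h5⟩ := List.append_inj h1 (by simp [hW, h2])
    simp only [List.cons.injEq] at h5
    obtain ⟨rfl, rfl, rfl⟩ := h5
    refine ⟨h3, ?_⟩
    rw [← List.append_assoc] at h4
    simpa using h4
  · rintro ⟨h1, h2⟩
    refine ⟨W ++ [a], Z, b, c, by simp, by simp [hW], h1, ?_⟩
    rw [← List.append_assoc]
    simpa using h2

theorem braid_A {n : ℕ} {W Z : List ℕ} {x y z : ℕ} {w' : List ℕ} (hW : W.length = n)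
    (hxy : x ≠ y) (hyz : y ≠ z) (hxz : x ≠ z) :
    Cr n (W ++ x :: y :: z :: Z) w' ↔ (w' = W ++ y :: x :: z :: Z ∨
      (w' = W ++ x :: y :: z :: Z ∧ (Z ++ W).idxOf y < (Z ++ W).idxOf x)) := by
  rw [braid_iff0 hW, List.idxOf_cons_ne _ hyz.symm, List.idxOf_cons_ne _ hxz.symm]
  simp [hxy]

theorem braid_B {n : ℕ} {W Z : List ℕ} {x y z : ℕ} {w' : List ℕ} (hW : W.length = n)
    (hyz : y ≠ z) (hy : y ∈ Z ++ W) (hz : z ∈ Z ++ W) :
    Cr (n + 1) (W ++ x :: y :: z :: Z) w' ↔ (w' = W ++ x :: z :: y :: Z ∨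
      (w' = W ++ x :: y :: z :: Z ∧ (Z ++ W).idxOf z < (Z ++ W).idxOf y)) := by
  rw [braid_iff1 hW, List.idxOf_append_of_mem hz, List.idxOf_append_of_mem hy]
  simp [hyz]

/-- A label which is used up is found only at the end. -/
theorem braid_last {R : List ℕ} {a b : ℕ} (ha : a ∉ R) (hb : b ∈ R) :
    ¬ (R ++ [a]).idxOf a < (R ++ [a]).idxOf b := by
  rw [List.idxOf_append_of_notMem ha, List.idxOf_append_of_mem hb]
  have := List.idxOf_lt_length_of_mem hb
  omega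

theorem braid_mem {W Z : List ℕ} {p q r x : ℕ} (h2 : Two (W ++ p :: q :: r :: Z))
    (hx : x = p ∨ x = q ∨ x = r) (h1 : [p, q, r].count x ≤ 1) : x ∈ Z ++ W := by
  have hm : x ∈ W ++ p :: q :: r :: Z := by
    rcases hx with rfl | rfl | rfl <;> simp
  have h3 := h2 x hm
  rw [← List.count_pos_iff]
  have e : W ++ p :: q :: r :: Z = W ++ ([p, q, r] ++ Z) := rfl
  rw [e, List.count_append, List.count_append] at h3
  rw [List.count_append]
  omega

theorem braid_notMem {W Z : List ℕ} {p q r x : ℕ} (h2 : Two (W ++ p :: q :: r :: Z))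
    (hx : x = p ∨ x = q ∨ x = r) (h1 : 2 ≤ [p, q, r].count x) : x ∉ Z ++ W := by
  have hm : x ∈ W ++ p :: q :: r :: Z := by
    rcases hx with rfl | rfl | rfl <;> simp
  have h3 := h2 x hm
  rw [← List.count_eq_zero]
  have e : W ++ p :: q :: r :: Z = W ++ ([p, q, r] ++ Z) := rfl
  rw [e, List.count_append, List.count_append] at h3
  rw [List.count_append]
  omega

theorem braid_main {n : ℕ} {W Z : List ℕ} {p q r : ℕ} {w' : List ℕ} (hW : W.length = n)
    (h2 : Two (W ++ p :: q :: r :: Z)) :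
    (∃ u v, Cr n (W ++ p :: q :: r :: Z) u ∧ Cr (n + 1) u v ∧ Cr n v w') ↔
    (∃ u v, Cr (n + 1) (W ++ p :: q :: r :: Z) u ∧ Cr n u v ∧ Cr (n + 1) v w') := by
  by_cases hpq : p = q
  · subst hpq
    constructor
    · rintro ⟨u, v, h, -, -⟩
      exact absurd rfl ((braid_iff0 hW).1 h).1
    · rintro ⟨u, v, h1, h3, h4⟩
      exfalso
      rcases ((braid_iff1 hW).1 h1).2 with rfl | ⟨rfl, -⟩
      · rcases ((braid_iff0 hW).1 h3).2 with rfl | ⟨rfl, h5⟩
        · exact ((braid_iff1 hW).1 h4).1 rfl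
        · rw [List.idxOf_cons_self] at h5
          omega
      · exact ((braid_iff0 hW).1 h3).1 rfl
  by_cases hqr : q = r
  · subst hqr
    have hq : q ∉ Z ++ W := braid_notMem h2 (by simp) (by simp [List.count_cons])
    have hp : p ∈ Z ++ W := braid_mem h2 (by simp) (by
      simp [List.count_cons, Ne.symm hpq])
    constructor
    · rintro ⟨u, v, h1, h3, h4⟩
      exfalso
      rcases ((braid_iff0 hW).1 h1).2 with rfl | ⟨rfl, -⟩
      · rcases ((braid_iff1 hW).1 h3).2 with rfl | ⟨rfl, h5⟩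
        · exact ((braid_iff0 hW).1 h4).1 rfl
        · exact braid_last hq hp h5
      · exact ((braid_iff1 hW).1 h3).1 rfl
    · rintro ⟨u, v, h, -, -⟩
      exact absurd rfl ((braid_iff1 hW).1 h).1
  by_cases hpr : p = r
  · subst hpr
    have hp : p ∉ Z ++ W := braid_notMem h2 (by simp) (by simp [List.count_cons])
    have hq : q ∈ Z ++ W := braid_mem h2 (by simp) (by
      simp [List.count_cons, hpq])
    constructor
    · rintro ⟨u, v, h1, h3, h4⟩
      exfalso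
      rcases ((braid_iff0 hW).1 h1).2 with rfl | ⟨rfl, h5⟩
      · exact ((braid_iff1 hW).1 h3).1 rfl
      · rw [List.idxOf_cons_self] at h5
        omega
    · rintro ⟨u, v, h1, h3, h4⟩
      exfalso
      rcases ((braid_iff1 hW).1 h1).2 with rfl | ⟨rfl, h5⟩
      · exact ((braid_iff0 hW).1 h3).1 rfl
      · exact braid_last hp hq h5
  -- distinct labels
  have hp : p ∈ Z ++ W := braid_mem h2 (by simp) (by
    simp [List.count_cons, Ne.symm hpq, Ne.symm hpr])
  have hq : q ∈ Z ++ W := braid_mem h2 (by simp) (by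
    simp [List.count_cons, hpq, Ne.symm hqr])
  have hr : r ∈ Z ++ W := braid_mem h2 (by simp) (by
    simp [List.count_cons, hpr, hqr])
  have hqp := Ne.symm hpq
  have hrq := Ne.symm hqr
  have hrp := Ne.symm hpr
  have ipq : (Z ++ W).idxOf p ≠ (Z ++ W).idxOf q := fun h => hpq ((List.idxOf_inj hp).1 h)
  have iqr : (Z ++ W).idxOf q ≠ (Z ++ W).idxOf r := fun h => hqr ((List.idxOf_inj hq).1 h)
  constructor
  · rintro ⟨u, v, h1, h3, h4⟩
    rcases (braid_A hW hpq hqr hpr).1 h1 with rfl | ⟨rfl, l1⟩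
    · rcases (braid_B hW hpr hp hr).1 h3 with rfl | ⟨rfl, l2⟩
      · rcases (braid_A hW hqr hrp hqp).1 h4 with rfl | ⟨rfl, l3⟩
        · exact ⟨W ++ p :: r :: q :: Z, W ++ r :: p :: q :: Z,
            (braid_B hW hqr hq hr).2 (Or.inl rfl), (braid_A hW hpr hrq hpq).2 (Or.inl rfl),
            (braid_B hW hpq hp hq).2 (Or.inl rfl)⟩
        · exact ⟨W ++ p :: q :: r :: Z, W ++ q :: p :: r :: Z,
            (braid_B hW hqr hq hr).2 (Or.inr ⟨rfl, l3⟩), (braid_A hW hpq hqr hpr).2 (Or.inl rfl),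
            (braid_B hW hpr hp hr).2 (Or.inl rfl)⟩
      · rcases (braid_A hW hqp hpr hqr).1 h4 with rfl | ⟨rfl, l3⟩
        · exact ⟨W ++ p :: r :: q :: Z, W ++ p :: r :: q :: Z,
            (braid_B hW hqr hq hr).2 (Or.inl rfl), (braid_A hW hpr hrq hpq).2 (Or.inr ⟨rfl, l2⟩),
            (braid_B hW hrq hr hq).2 (Or.inl rfl)⟩
        · exact ⟨W ++ p :: q :: r :: Z, W ++ q :: p :: r :: Z,
            (braid_B hW hqr hq hr).2 (Or.inr ⟨rfl, by omega⟩),
            (braid_A hW hpq hqr hpr).2 (Or.inl rfl),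
            (braid_B hW hpr hp hr).2 (Or.inr ⟨rfl, l2⟩)⟩
    · rcases (braid_B hW hqr hq hr).1 h3 with rfl | ⟨rfl, l2⟩
      · rcases (braid_A hW hpr hrq hpq).1 h4 with rfl | ⟨rfl, l3⟩
        · exact ⟨W ++ p :: r :: q :: Z, W ++ r :: p :: q :: Z,
            (braid_B hW hqr hq hr).2 (Or.inl rfl), (braid_A hW hpr hrq hpq).2 (Or.inl rfl),
            (braid_B hW hpq hp hq).2 (Or.inr ⟨rfl, l1⟩)⟩
        · rcases lt_or_gt_of_ne iqr with l4 | l4
          · exact ⟨W ++ p :: r :: q :: Z, W ++ p :: r :: q :: Z,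
              (braid_B hW hqr hq hr).2 (Or.inl rfl), (braid_A hW hpr hrq hpq).2 (Or.inr ⟨rfl, l3⟩),
              (braid_B hW hrq hr hq).2 (Or.inr ⟨rfl, l4⟩)⟩
          · exact ⟨W ++ p :: q :: r :: Z, W ++ p :: q :: r :: Z,
              (braid_B hW hqr hq hr).2 (Or.inr ⟨rfl, l4⟩),
              (braid_A hW hpq hqr hpr).2 (Or.inr ⟨rfl, l1⟩),
              (braid_B hW hqr hq hr).2 (Or.inl rfl)⟩
      · rcases (braid_A hW hpq hqr hpr).1 h4 with rfl | ⟨rfl, l3⟩
        · exact ⟨W ++ p :: q :: r :: Z, W ++ q :: p :: r :: Z,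
            (braid_B hW hqr hq hr).2 (Or.inr ⟨rfl, l2⟩), (braid_A hW hpq hqr hpr).2 (Or.inl rfl),
            (braid_B hW hpr hp hr).2 (Or.inr ⟨rfl, by omega⟩)⟩
        · exact ⟨W ++ p :: q :: r :: Z, W ++ p :: q :: r :: Z,
            (braid_B hW hqr hq hr).2 (Or.inr ⟨rfl, l2⟩),
            (braid_A hW hpq hqr hpr).2 (Or.inr ⟨rfl, l3⟩),
            (braid_B hW hqr hq hr).2 (Or.inr ⟨rfl, l2⟩)⟩
  · rintro ⟨u, v, h1, h3, h4⟩
    rcases (braid_B hW hqr hq hr).1 h1 with rfl | ⟨rfl, l1⟩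
    · rcases (braid_A hW hpr hrq hpq).1 h3 with rfl | ⟨rfl, l2⟩
      · rcases (braid_B hW hpq hp hq).1 h4 with rfl | ⟨rfl, l3⟩
        · exact ⟨W ++ q :: p :: r :: Z, W ++ q :: r :: p :: Z,
            (braid_A hW hpq hqr hpr).2 (Or.inl rfl), (braid_B hW hpr hp hr).2 (Or.inl rfl),
            (braid_A hW hqr hrp hqp).2 (Or.inl rfl)⟩
        · exact ⟨W ++ p :: q :: r :: Z, W ++ p :: r :: q :: Z,
            (braid_A hW hpq hqr hpr).2 (Or.inr ⟨rfl, l3⟩), (braid_B hW hqr hq hr).2 (Or.inl rfl),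
            (braid_A hW hpr hrq hpq).2 (Or.inl rfl)⟩
      · rcases (braid_B hW hrq hr hq).1 h4 with rfl | ⟨rfl, l3⟩
        · exact ⟨W ++ q :: p :: r :: Z, W ++ q :: p :: r :: Z,
            (braid_A hW hpq hqr hpr).2 (Or.inl rfl), (braid_B hW hpr hp hr).2 (Or.inr ⟨rfl, l2⟩),
            (braid_A hW hqp hpr hqr).2 (Or.inl rfl)⟩
        · exact ⟨W ++ p :: q :: r :: Z, W ++ p :: r :: q :: Z,
            (braid_A hW hpq hqr hpr).2 (Or.inr ⟨rfl, by omega⟩),
            (braid_B hW hqr hq hr).2 (Or.inl rfl),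
            (braid_A hW hpr hrq hpq).2 (Or.inr ⟨rfl, l2⟩)⟩
    · rcases (braid_A hW hpq hqr hpr).1 h3 with rfl | ⟨rfl, l2⟩
      · rcases (braid_B hW hpr hp hr).1 h4 with rfl | ⟨rfl, l3⟩
        · exact ⟨W ++ q :: p :: r :: Z, W ++ q :: r :: p :: Z,
            (braid_A hW hpq hqr hpr).2 (Or.inl rfl), (braid_B hW hpr hp hr).2 (Or.inl rfl),
            (braid_A hW hqr hrp hqp).2 (Or.inr ⟨rfl, l1⟩)⟩
        · rcases lt_or_gt_of_ne ipq with l4 | l4
          · exact ⟨W ++ q :: p :: r :: Z, W ++ q :: p :: r :: Z,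
              (braid_A hW hpq hqr hpr).2 (Or.inl rfl), (braid_B hW hpr hp hr).2 (Or.inr ⟨rfl, l3⟩),
              (braid_A hW hqp hpr hqr).2 (Or.inr ⟨rfl, l4⟩)⟩
          · exact ⟨W ++ p :: q :: r :: Z, W ++ p :: q :: r :: Z,
              (braid_A hW hpq hqr hpr).2 (Or.inr ⟨rfl, l4⟩),
              (braid_B hW hqr hq hr).2 (Or.inr ⟨rfl, l1⟩),
              (braid_A hW hpq hqr hpr).2 (Or.inl rfl)⟩
      · rcases (braid_B hW hqr hq hr).1 h4 with rfl | ⟨rfl, l3⟩
        · exact ⟨W ++ p :: q :: r :: Z, W ++ p :: r :: q :: Z,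
            (braid_A hW hpq hqr hpr).2 (Or.inr ⟨rfl, l2⟩), (braid_B hW hqr hq hr).2 (Or.inl rfl),
            (braid_A hW hpr hrq hpq).2 (Or.inr ⟨rfl, by omega⟩)⟩
        · exact ⟨W ++ p :: q :: r :: Z, W ++ p :: q :: r :: Z,
            (braid_A hW hpq hqr hpr).2 (Or.inr ⟨rfl, l2⟩),
            (braid_B hW hqr hq hr).2 (Or.inr ⟨rfl, l1⟩),
            (braid_A hW hpq hqr hpr).2 (Or.inr ⟨rfl, l2⟩)⟩

theorem braid_split {n : ℕ} {w : List ℕ} (h : n + 2 < w.length) :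
    ∃ (W Z : List ℕ) (p q r : ℕ), W.length = n ∧ w = W ++ p :: q :: r :: Z := by
  refine ⟨w.take n, w.drop (n + 3), w[n], w[n + 1], w[n + 2], by simp; omega, ?_⟩
  conv_lhs => rw [← List.take_append_drop n w]
  congr 1
  rw [List.drop_eq_getElem_cons (by omega : n < w.length),
    List.drop_eq_getElem_cons (by omega : n + 1 < w.length),
    List.drop_eq_getElem_cons (by omega : n + 1 + 1 < w.length)]

theorem cr_braid {n : ℕ} {w w' : List ℕ} (h2 : Two w) :
    (∃ u v, Cr n w u ∧ Cr (n + 1) u v ∧ Cr n v w') ↔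
    (∃ u v, Cr (n + 1) w u ∧ Cr n u v ∧ Cr (n + 1) v w') := by
  by_cases h : n + 2 < w.length
  · obtain ⟨W, Z, p, q, r, hW, rfl⟩ := braid_split h
    exact braid_main hW h2
  · constructor
    · rintro ⟨u, v, h1, h3, -⟩
      have e1 := h1.len
      have e2 := h3.lt
      omega
    · rintro ⟨u, v, h1, -, -⟩
      have e1 := h1.lt
      omega

end Pool.Agent.Helper24.RUL
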