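import Pool.Agent.Helper24.RUL.Defs

/-!
# RUL-01: crossings (project RUL, MP_409f7f_co)

STATE: `w` is a list of labels with `Two w`. `Cr n` is symmetric, preserves `Two`, satisfies the
far commutation up to a renaming of the labels (`cr_comm_right`, `cr_comm_left`; it is false for the
labelled lists, for example for `[0,1,0,1]` and the positions 0, 2) and the braid relation (checked
by computer on all matchings of up to 8 points).

HINTS. Write `w = W ++ p :: q :: r :: Z`. The other occurrences of the labels among `p, q, r` are in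
`Z ++ W` (cyclic order), except if two of them are equal. Distinct case: only the order of the
three indices in `Z ++ W` matters (6 cases); the switch condition of `Cr n` for the first two
positions compares in the list `r :: Z ++ W`, of `Cr (n+1)` in `Z ++ (W ++ [p])`. Equal cases:
`(p,p,r)`, `(p,q,p)`, `(p,q,q)`; all switch conditions are then constants.
Useful: `List.append_inj`, `List.idxOf_append_of_mem`, `List.idxOf_append_of_notMem`,
`List.idxOf_cons_ne`, `List.count_append`.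
-/

namespace Pool.Agent.Helper24.RUL

theorem Cr.len {n : ℕ} {w w' : List ℕ} (h : Cr n w w') : w'.length = w.length := by
  obtain ⟨W, Z, p, q, rfl, -, -, rfl | ⟨rfl, -⟩⟩ := h
  · simp
  · rfl

theorem Cr.lt {n : ℕ} {w w' : List ℕ} (h : Cr n w w') : n + 1 < w.length := by
  obtain ⟨W, Z, p, q, rfl, rfl, -, -⟩ := h
  simp

theorem Cr.perm {n : ℕ} {w w' : List ℕ} (h : Cr n w w') : w'.Perm w := by
  obtain ⟨W, Z, p, q, rfl, -, -, rfl | ⟨rfl, -⟩⟩ := h
  · exact List.Perm.append_left W (List.Perm.swap p q Z)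
  · exact List.Perm.refl _

theorem Two.perm {w w' : List ℕ} (h2 : Two w) (h : w'.Perm w) : Two w' := fun p hp => by
  rw [h.count_eq p]
  exact h2 p (h.mem_iff.1 hp)

theorem Cr.two {n : ℕ} {w w' : List ℕ} (h2 : Two w) (h : Cr n w w') : Two w' :=
  h2.perm h.perm

theorem Cr.symm {n : ℕ} {w w' : List ℕ} (_h2 : Two w) (h : Cr n w w') : Cr n w' w := by
  obtain ⟨W, Z, p, q, rfl, hn, hpq, rfl | ⟨rfl, hi⟩⟩ := h
  · exact ⟨W, Z, q, p, rfl, hn, hpq.symm, Or.inl rfl⟩
  · exact ⟨W, Z, p, q, rfl, hn, hpq, Or.inr ⟨rfl, hi⟩⟩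

namespace CoreAux

/-- The crossing at the position `W.length`. -/
theorem cr_iff {W Z w' : List ℕ} {p q : ℕ} :
    Cr W.length (W ++ p :: q :: Z) w' ↔ p ≠ q ∧ (w' = W ++ q :: p :: Z ∨
      (w' = W ++ p :: q :: Z ∧ (Z ++ W).idxOf q < (Z ++ W).idxOf p)) := by
  constructor
  · rintro ⟨W1, Z1, p1, q1, he, hl, hne, h⟩
    obtain ⟨rfl, he2⟩ := List.append_inj he hl.symm
    obtain ⟨rfl, he3⟩ := List.cons.inj he2
    obtain ⟨rfl, rfl⟩ := List.cons.inj he3
    exact ⟨hne, h⟩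
  · rintro ⟨hne, h⟩
    exact ⟨W, Z, p, q, rfl, rfl, hne, h⟩

/-- Indices in a list with two marked neighbours. -/
theorem idx_mid {A B : List ℕ} {c d x : ℕ} :
    (A ++ c :: d :: B).idxOf x = if x ∈ A then A.idxOf x else
      A.length + (if x = c then 0 else if x = d then 1 else B.idxOf x + 2) := by
  by_cases hA : x ∈ A
  · rw [if_pos hA, List.idxOf_append_of_mem hA]
  · rw [if_neg hA, List.idxOf_append_of_notMem hA]
    congr 1
    by_cases hc : x = c
    · subst hc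
      simp
    · rw [if_neg hc, List.idxOf_cons_ne _ (Ne.symm hc)]
      by_cases hd : x = d
      · subst hd
        simp
      · rw [if_neg hd, List.idxOf_cons_ne _ (Ne.symm hd)]

/-- The order of two labels does not change if two neighbours are exchanged, unless these are the
two labels. -/
theorem idx_swap {A B : List ℕ} {a b c d : ℕ} (hab : a ≠ b) (hcd : c ≠ d)
    (h1 : ¬ (a = c ∧ b = d)) (h2 : ¬ (a = d ∧ b = c)) :
    (A ++ c :: d :: B).idxOf b < (A ++ c :: d :: B).idxOf a ↔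
      (A ++ d :: c :: B).idxOf b < (A ++ d :: c :: B).idxOf a := by
  have ha : a ∈ A → A.idxOf a < A.length := List.idxOf_lt_length_of_mem
  have hb : b ∈ A → A.idxOf b < A.length := List.idxOf_lt_length_of_mem
  simp only [idx_mid]
  by_cases hA : a ∈ A <;> by_cases hB : b ∈ A <;> by_cases e1 : a = c <;> by_cases e2 : a = d <;>
    by_cases e3 : b = c <;> by_cases e4 : b = d <;> simp_all <;> omega


end CoreAux

theorem Two.map {w : List ℕ} (h2 : Two w) (σ : Equiv.Perm ℕ) : Two (w.map σ) := fun p hp => by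
  obtain ⟨x, hx, rfl⟩ := List.mem_map.1 hp
  rw [List.count_map_of_injective _ _ σ.injective]
  exact h2 x hx

private theorem idxOf_map_perm (σ : Equiv.Perm ℕ) (l : List ℕ) (x : ℕ) :
    (l.map σ).idxOf (σ x) = l.idxOf x := by
  induction l with
  | nil => rfl
  | cons a l ih =>
    by_cases h : a = x
    · subst h
      simp
    · rw [List.map_cons, List.idxOf_cons_ne _ (fun h' => h (σ.injective h')),
        List.idxOf_cons_ne _ h, ih]

theorem Cr.map {n : ℕ} {w w' : List ℕ} (h : Cr n w w') (σ : Equiv.Perm ℕ) :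
    Cr n (w.map σ) (w'.map σ) := by
  obtain ⟨W, Z, p, q, rfl, hn, hpq, rfl | ⟨rfl, hi⟩⟩ := h
  · exact ⟨W.map σ, Z.map σ, σ p, σ q, by simp, by simpa using hn, fun h' => hpq (σ.injective h'),
      Or.inl (by simp)⟩
  · refine ⟨W.map σ, Z.map σ, σ p, σ q, by simp, by simpa using hn,
      fun h' => hpq (σ.injective h'), Or.inr ⟨rfl, ?_⟩⟩
    rw [← List.map_append, idxOf_map_perm, idxOf_map_perm]
    exact hi

open CoreAux

/-- A list with two marked pairs of neighbours. -/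
private abbrev FF (W M Z : List ℕ) (a b c d : ℕ) : List ℕ := W ++ a :: b :: (M ++ c :: d :: Z)

private lemma crn_iff {W M Z w' : List ℕ} {a b c d : ℕ} :
    Cr W.length (FF W M Z a b c d) w' ↔ a ≠ b ∧ (w' = FF W M Z b a c d ∨
      (w' = FF W M Z a b c d ∧
        ((M ++ c :: d :: Z) ++ W).idxOf b < ((M ++ c :: d :: Z) ++ W).idxOf a)) := cr_iff

private lemma crm_iff {W M Z w' : List ℕ} {a b c d : ℕ} :
    Cr (W.length + 2 + M.length) (FF W M Z a b c d) w' ↔ c ≠ d ∧ (w' = FF W M Z a b d c ∨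
      (w' = FF W M Z a b c d ∧
        (Z ++ (W ++ a :: b :: M)).idxOf d < (Z ++ (W ++ a :: b :: M)).idxOf c)) := by
  have h := @cr_iff (W ++ a :: b :: M) Z w' c d
  have hl : (W ++ a :: b :: M).length = W.length + 2 + M.length := by
    simp only [List.length_append, List.length_cons]
    omega
  rw [hl] at h
  have e : ∀ x y, (W ++ a :: b :: M) ++ x :: y :: Z = FF W M Z a b x y := fun x y => by
    simp [FF]
  rw [e, e] at h
  exact h

/-- Two marked pairs of neighbours. -/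
private lemma exists_FF {n m : ℕ} (hnm : n + 2 ≤ m) {w : List ℕ} (hm : m + 1 < w.length) :
    ∃ (W M Z : List ℕ) (a b c d : ℕ), w = FF W M Z a b c d ∧ W.length = n ∧
      W.length + 2 + M.length = m := by
  have split : ∀ (k : ℕ) (l : List ℕ), k + 1 < l.length →
      ∃ (A B : List ℕ) (x y : ℕ), l = A ++ x :: y :: B ∧ A.length = k := by
    intro k
    induction k with
    | zero =>
      intro l hl
      match l, hl with
      | x :: y :: B, _ => exact ⟨[], B, x, y, rfl, rfl⟩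
    | succ k ih =>
      intro l hl
      match l, hl with
      | z :: l, hl =>
        obtain ⟨A, B, x, y, rfl, hA⟩ := ih l (by simpa using hl)
        exact ⟨z :: A, B, x, y, rfl, by simp [hA]⟩
  obtain ⟨W, B, a, b, rfl, hW⟩ := split n w (by omega)
  have hB : (m - n - 2) + 1 < B.length := by
    simp only [List.length_append, List.length_cons] at hm
    omega
  obtain ⟨M, Z, c, d, rfl, hM⟩ := split (m - n - 2) B hB
  exact ⟨W, M, Z, a, b, c, d, rfl, hW, by omega⟩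

private lemma cn_assoc {W M Z : List ℕ} {c d x : ℕ} :
    ((M ++ c :: d :: Z) ++ W).idxOf x = (M ++ c :: d :: (Z ++ W)).idxOf x := by
  congr 1
  simp

private lemma cm_assoc {W M Z : List ℕ} {a b x : ℕ} :
    (Z ++ (W ++ a :: b :: M)).idxOf x = ((Z ++ W) ++ a :: b :: M).idxOf x := by
  congr 1
  simp

private lemma map_eq_self {l : List ℕ} {σ : Equiv.Perm ℕ} (h : ∀ x ∈ l, σ x = x) :
    l.map σ = l := by
  conv_rhs => rw [← List.map_id l]
  exact List.map_congr_left fun x hx => h x hx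

private lemma FF_map {W M Z : List ℕ} {a b : ℕ} (hW : a ∉ W ∧ b ∉ W) (hM : a ∉ M ∧ b ∉ M)
    (hZ : a ∉ Z ∧ b ∉ Z) (x y z t : ℕ) :
    (FF W M Z x y z t).map (Equiv.swap a b) =
      FF W M Z (Equiv.swap a b x) (Equiv.swap a b y) (Equiv.swap a b z) (Equiv.swap a b t) := by
  have hs : ∀ l : List ℕ, a ∉ l → b ∉ l → l.map (Equiv.swap a b) = l := fun l h1 h2 =>
    map_eq_self fun x hx => Equiv.swap_apply_of_ne_of_ne (fun h => h1 (h ▸ hx))
      (fun h => h2 (h ▸ hx))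
  simp only [FF, List.map_append, List.map_cons, hs W hW.1 hW.2, hs M hM.1 hM.2, hs Z hZ.1 hZ.2]

/-- Far crossings commute, up to a renaming of the labels. -/
theorem cr_comm_right {n m : ℕ} {w w' : List ℕ} (h2 : Two w) (hnm : n + 2 ≤ m)
    (h : ∃ u, Cr n w u ∧ Cr m u w') :
    ∃ σ : Equiv.Perm ℕ, ∃ u, Cr m w u ∧ Cr n u (w'.map σ) := by
  obtain ⟨u, h1, h3⟩ := h
  obtain ⟨W, M, Z, a, b, c, d, rfl, rfl, rfl⟩ :=
    exists_FF hnm (by have := h3.lt; rwa [h1.len] at this)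
  obtain ⟨hab, h1⟩ := crn_iff.1 h1
  have hcd : c ≠ d := by
    rcases h1 with rfl | ⟨rfl, -⟩
    · exact (crm_iff.1 h3).1
    · exact (crm_iff.1 h3).1
  by_cases e1 : a = c ∧ b = d
  · obtain ⟨rfl, rfl⟩ := e1
    have ha := h2 a (by simp)
    have hb := h2 b (by simp)
    simp only [FF, List.count_append, List.count_cons, beq_iff_eq, hab, hab.symm, if_true,
      if_false] at ha hb
    have hW : a ∉ W ∧ b ∉ W :=
      ⟨List.count_eq_zero.1 (by omega), List.count_eq_zero.1 (by omega)⟩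
    have hM : a ∉ M ∧ b ∉ M :=
      ⟨List.count_eq_zero.1 (by omega), List.count_eq_zero.1 (by omega)⟩
    have hZ : a ∉ Z ∧ b ∉ Z :=
      ⟨List.count_eq_zero.1 (by omega), List.count_eq_zero.1 (by omega)⟩
    rcases h1 with rfl | ⟨-, hi⟩
    · rcases (crm_iff.1 h3).2 with rfl | ⟨rfl, -⟩
      · exact ⟨1, _, crm_iff.2 ⟨hab, Or.inl rfl⟩, crn_iff.2 ⟨hab, Or.inl (by simp)⟩⟩
      · refine ⟨Equiv.swap a b, _, crm_iff.2 ⟨hab, Or.inl rfl⟩, crn_iff.2 ⟨hab, Or.inr ⟨?_, ?_⟩⟩⟩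
        · rw [FF_map hW hM hZ, Equiv.swap_apply_left, Equiv.swap_apply_right]
        · rw [cn_assoc, cn_assoc, idx_mid, idx_mid, if_neg hM.1, if_neg hM.2, if_pos rfl,
            if_neg hab, if_pos rfl]
          omega
    · rw [cn_assoc, cn_assoc, idx_mid, idx_mid, if_neg hM.1, if_neg hM.2, if_pos rfl,
        if_neg hab.symm, if_pos rfl] at hi
      omega
  by_cases e2 : a = d ∧ b = c
  · obtain ⟨rfl, rfl⟩ := e2
    have ha := h2 a (by simp)
    have hb := h2 b (by simp)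
    simp only [FF, List.count_append, List.count_cons, beq_iff_eq, hab, hab.symm, if_true,
      if_false] at ha hb
    have hW : a ∉ W ∧ b ∉ W :=
      ⟨List.count_eq_zero.1 (by omega), List.count_eq_zero.1 (by omega)⟩
    have hM : a ∉ M ∧ b ∉ M :=
      ⟨List.count_eq_zero.1 (by omega), List.count_eq_zero.1 (by omega)⟩
    have hZ : a ∉ Z ∧ b ∉ Z :=
      ⟨List.count_eq_zero.1 (by omega), List.count_eq_zero.1 (by omega)⟩
    have hZW : a ∉ Z ++ W ∧ b ∉ Z ++ W := by simp [hW, hZ]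
    have hcn : ((M ++ b :: a :: Z) ++ W).idxOf b < ((M ++ b :: a :: Z) ++ W).idxOf a := by
      rw [cn_assoc, cn_assoc, idx_mid, idx_mid, if_neg hM.1, if_neg hM.2, if_pos rfl,
        if_neg hab, if_pos rfl]
      omega
    have hcm : (Z ++ (W ++ a :: b :: M)).idxOf a < (Z ++ (W ++ a :: b :: M)).idxOf b := by
      rw [cm_assoc, cm_assoc, idx_mid, idx_mid, if_neg hZW.1, if_neg hZW.2, if_pos rfl,
        if_neg hab.symm, if_pos rfl]
      omega
    rcases h1 with rfl | ⟨rfl, -⟩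
    · rcases (crm_iff.1 h3).2 with rfl | ⟨rfl, hi⟩
      · exact ⟨1, _, crm_iff.2 ⟨hcd, Or.inl rfl⟩, crn_iff.2 ⟨hab, Or.inl (by simp)⟩⟩
      · rw [cm_assoc, cm_assoc, idx_mid, idx_mid, if_neg hZW.1, if_neg hZW.2, if_pos rfl,
          if_neg hab, if_pos rfl] at hi
        omega
    · rcases (crm_iff.1 h3).2 with rfl | ⟨rfl, -⟩
      · refine ⟨Equiv.swap a b, _, crm_iff.2 ⟨hcd, Or.inr ⟨rfl, hcm⟩⟩,
          crn_iff.2 ⟨hab, Or.inl ?_⟩⟩
        rw [FF_map hW hM hZ, Equiv.swap_apply_left, Equiv.swap_apply_right]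
      · exact ⟨1, _, crm_iff.2 ⟨hcd, Or.inr ⟨rfl, hcm⟩⟩,
          crn_iff.2 ⟨hab, Or.inr ⟨by simp, hcn⟩⟩⟩
  have hn : ((M ++ c :: d :: Z) ++ W).idxOf b < ((M ++ c :: d :: Z) ++ W).idxOf a ↔
      ((M ++ d :: c :: Z) ++ W).idxOf b < ((M ++ d :: c :: Z) ++ W).idxOf a := by
    rw [cn_assoc, cn_assoc, cn_assoc, cn_assoc]
    exact idx_swap hab hcd e1 e2
  have hm : (Z ++ (W ++ a :: b :: M)).idxOf d < (Z ++ (W ++ a :: b :: M)).idxOf c ↔
      (Z ++ (W ++ b :: a :: M)).idxOf d < (Z ++ (W ++ b :: a :: M)).idxOf c := by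
    rw [cm_assoc, cm_assoc, cm_assoc, cm_assoc]
    exact idx_swap hcd hab (fun h => e1 ⟨h.1.symm, h.2.symm⟩) (fun h => e2 ⟨h.2.symm, h.1.symm⟩)
  refine ⟨1, ?_⟩
  rw [show w'.map (1 : Equiv.Perm ℕ) = w' from map_eq_self fun x _ => rfl]
  rcases h1 with rfl | ⟨rfl, hi⟩
  · rcases (crm_iff.1 h3).2 with rfl | ⟨rfl, hj⟩
    · exact ⟨_, crm_iff.2 ⟨hcd, Or.inl rfl⟩, crn_iff.2 ⟨hab, Or.inl rfl⟩⟩
    · exact ⟨_, crm_iff.2 ⟨hcd, Or.inr ⟨rfl, hm.2 hj⟩⟩, crn_iff.2 ⟨hab, Or.inl rfl⟩⟩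
  · rcases (crm_iff.1 h3).2 with rfl | ⟨rfl, hj⟩
    · exact ⟨_, crm_iff.2 ⟨hcd, Or.inl rfl⟩, crn_iff.2 ⟨hab, Or.inr ⟨rfl, hn.1 hi⟩⟩⟩
    · exact ⟨_, crm_iff.2 ⟨hcd, Or.inr ⟨rfl, hj⟩⟩, crn_iff.2 ⟨hab, Or.inr ⟨rfl, hi⟩⟩⟩

/-- Far crossings commute, up to a renaming of the labels. -/
theorem cr_comm_left {n m : ℕ} {w w' : List ℕ} (h2 : Two w) (hnm : n + 2 ≤ m)
    (h : ∃ u, Cr m w u ∧ Cr n u w') :
    ∃ σ : Equiv.Perm ℕ, ∃ u, Cr n w u ∧ Cr m u (w'.map σ) := by
  obtain ⟨u, h1, h3⟩ := h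
  have hu : Two u := h1.two h2
  have hw' : Two w' := h3.two hu
  obtain ⟨σ, v, h4, h5⟩ := cr_comm_right hw' hnm ⟨u, h3.symm hu, h1.symm h2⟩
  have hv : Two v := h4.two hw'
  have h6 := (h5.symm hv).map σ⁻¹
  have h7 := (h4.symm hw').map σ⁻¹
  rw [List.map_map] at h6
  have h8 : w.map (⇑σ⁻¹ ∘ ⇑σ) = w := by
    conv_rhs => rw [← List.map_id w]
    exact List.map_congr_left fun x _ => by simp
  rw [h8] at h6
  exact ⟨σ⁻¹, _, h6, h7⟩

end Pool.Agent.Helper24.RUL
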