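import Pool.Agent.Helper24.RUL.FingerDef

/-!
# RUL-12: finger lemma, case down/up (project RUL, MP_409f7f_co)

Names in layer `k`: `γ = (v1, t)`, `γ' = (v2, t)`, `β = (v2, b)`; in layer `k - 1`: `α = (a, v1)`.
By `uu_ends`, `ud_ends`: `v1` has exactly the ends `α, γ`, `v2` exactly `β, γ'` and at level `k + 1` the value
`t` has exactly `γ, γ'`. So `mrg E k v1 v2` is `E` with `γ, γ'` removed and `β` renamed `(v1, b)`.
`AL (E k) = U ++ γ :: X ++ V`, `X` = `β, γ'` sorted; `BL (E k) = U2 ++ γ :: γ' :: V2`.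
* `b < t`: `AL = U ++ γ :: β :: γ' :: V`, put `M = U ++ β :: γ :: γ' :: V`; `Btw AL M BL`, `srtN_through`; the
  step `AL -> M` is one crossing of `γ, β` (`srtN_one`); `β`, `γ'` have equal labels `y` (birth), `γ` has
  the label `x` of `α`. At the end `γ, γ'` have equal labels (death at level `k + 1`), so by `pair_nat'`
  they have equal labels at `M`, so the crossing is a switch (allowed: the other `y` is the next name
  in the cyclic order). Then `pair_nat` removes `γ, γ'`: this is exactly layer `k` of the merged link,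
  with `β` having the label `x`. Conversely choose a new label `y`.
* `t < b`: `AL = U ++ γ :: γ' :: β :: V`; `pair_nat'` gives equal labels of `γ`, `γ'`, and `β`: three times.
(The value tables are checked by computer on 10^4 random links.)
-/

namespace Pool.Agent.Helper24.RUL

/-! ### General helpers -/

/-- The compatibility of labels in terms of the two layers. -/
def LevL (P Q : Finset (ℚ × ℚ)) (b a : ℚ × ℚ → ℕ) : Prop :=
  (∀ s ∈ P, ∀ s' ∈ P, s ≠ s' → s.2 = s'.2 → b s = b s') ∧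
  (∀ t ∈ Q, ∀ t' ∈ Q, t ≠ t' → t.1 = t'.1 → a t = a t') ∧
  (∀ s ∈ P, ∀ s' ∈ P, ∀ t ∈ Q, ∀ t' ∈ Q, s.2 = t.1 → s'.2 = t'.1 →
    (b s = b s' ↔ a t = a t'))

theorem lev_iff (E : Lk) (k : ℤ) (b a : ℚ × ℚ → ℕ) :
    Lev E k b a ↔ LevL (E (k - 1)) (E k) b a := Iff.rfl

/-- A ruling is changed in one layer only. -/
theorem rul_replace {E G : Lk} {k : ℤ} (hG : ∀ j, j ≠ k → G j = E j)
    {A B : ℤ → ℚ × ℚ → ℕ} (hAB : ∀ j : ℤ, Two ((AL (E j)).map (A j)) ∧
      Srt (BL (E j)) (AL (E j)) ((AL (E j)).map (A j)) ((BL (E j)).map (B j)) ∧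
      Lev E j (B (j - 1)) (A j))
    (Ak Bk : ℚ × ℚ → ℕ) (h1 : Two ((AL (G k)).map Ak))
    (h2 : Srt (BL (G k)) (AL (G k)) ((AL (G k)).map Ak) ((BL (G k)).map Bk))
    (h3 : LevL (E (k - 1)) (G k) (B (k - 1)) Ak)
    (h4 : LevL (G k) (E (k + 1)) Bk (A (k + 1))) : Rul G := by
  refine ⟨Function.update A k Ak, Function.update B k Bk, fun j => ?_⟩
  by_cases hj : j = k
  · subst hj
    rw [Function.update_self, Function.update_self,
      Function.update_of_ne (show j - 1 ≠ j by omega)]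
    refine ⟨h1, h2, ?_⟩
    rw [lev_iff, hG (j - 1) (by omega)]
    exact h3
  · rw [Function.update_of_ne hj, Function.update_of_ne hj, hG j hj]
    refine ⟨(hAB j).1, (hAB j).2.1, ?_⟩
    by_cases hj1 : j = k + 1
    · subst hj1
      rw [lev_iff]
      have hk : k + 1 - 1 = k := by omega
      rw [hk, Function.update_self, hG (k + 1) hj]
      exact h4
    · rw [Function.update_of_ne (show j - 1 ≠ k by omega), lev_iff, hG j hj,
        hG (j - 1) (by omega)]
      exact (hAB j).2.2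

/-- Positions in a list and after exchanging two neighbours. -/
private theorem du_idx {ι : Type*} [DecidableEq ι] {U V : List ι} {p q s : ι}
    (hnd : (U ++ p :: q :: V).Nodup) (hs : s ∈ U ++ p :: q :: V) :
    (s = p ∧ (U ++ p :: q :: V).idxOf s = U.length ∧
      (U ++ q :: p :: V).idxOf s = U.length + 1) ∨
    (s = q ∧ (U ++ p :: q :: V).idxOf s = U.length + 1 ∧
      (U ++ q :: p :: V).idxOf s = U.length) ∨
    ((U ++ p :: q :: V).idxOf s = (U ++ q :: p :: V).idxOf s ∧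
      ((U ++ p :: q :: V).idxOf s < U.length ∨ U.length + 1 < (U ++ p :: q :: V).idxOf s)) := by
  rw [List.nodup_append] at hnd
  obtain ⟨-, hnd2, hdis⟩ := hnd
  rw [List.nodup_cons, List.nodup_cons] at hnd2
  have hpU : p ∉ U := fun h => hdis p h p (by simp) rfl
  have hqU : q ∉ U := fun h => hdis q h q (by simp) rfl
  have hpq : p ≠ q := by
    intro h
    exact hnd2.1 (by simp [h])
  by_cases hsU : s ∈ U
  · right; right
    rw [List.idxOf_append_of_mem hsU, List.idxOf_append_of_mem hsU]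
    exact ⟨rfl, Or.inl (List.idxOf_lt_length_of_mem hsU)⟩
  · rw [List.idxOf_append_of_notMem hsU, List.idxOf_append_of_notMem hsU]
    by_cases hsp : s = p
    · left
      subst hsp
      refine ⟨rfl, ?_, ?_⟩
      · rw [List.idxOf_cons_self]; rfl
      · rw [List.idxOf_cons_ne _ (Ne.symm hpq), List.idxOf_cons_self]
    · by_cases hsq : s = q
      · right; left
        subst hsq
        refine ⟨rfl, ?_, ?_⟩
        · rw [List.idxOf_cons_ne _ hpq, List.idxOf_cons_self]
        · rw [List.idxOf_cons_self]; rfl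
      · right; right
        rw [List.idxOf_cons_ne _ (Ne.symm hsp), List.idxOf_cons_ne _ (Ne.symm hsq),
          List.idxOf_cons_ne _ (Ne.symm hsq), List.idxOf_cons_ne _ (Ne.symm hsp)]
        exact ⟨rfl, Or.inr (by omega)⟩

/-- Exchanging two neighbours which are in the wrong order is a betweenness. -/
theorem btw_swap {ι : Type*} [DecidableEq ι] {U V T : List ι} {p q : ι}
    (hnd : (U ++ p :: q :: V).Nodup) (hpq : T.idxOf q < T.idxOf p) :
    Btw (U ++ p :: q :: V) (U ++ q :: p :: V) T := by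
  intro s hs t ht h1 h2
  rcases du_idx hnd hs with ⟨rfl, hs1, hs2⟩ | ⟨rfl, hs1, hs2⟩ | ⟨hs1, hs2⟩ <;>
    rcases du_idx hnd ht with ⟨rfl, ht1, ht2⟩ | ⟨rfl, ht1, ht2⟩ | ⟨ht1, ht2⟩ <;> omega

/-! ### The situation down/up -/

/-- The relabelling of the strands of layer `k`. -/
private def mu (v1 v2 : ℚ) (s : ℚ × ℚ) : ℚ × ℚ := (if s.1 = v2 then v1 else s.1, s.2)

private theorem mu_snd (v1 v2 : ℚ) (s : ℚ × ℚ) : (mu v1 v2 s).2 = s.2 := rfl

private theorem mu_of_eq {v1 v2 : ℚ} {s : ℚ × ℚ} (h : s.1 = v2) : mu v1 v2 s = (v1, s.2) := by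
  unfold mu; rw [if_pos h]

private theorem mu_of_ne {v1 v2 : ℚ} {s : ℚ × ℚ} (h : s.1 ≠ v2) : mu v1 v2 s = s := by
  unfold mu; rw [if_neg h]

private structure Sit (E : Lk) (k : ℤ) (v1 v2 b t : ℚ) : Prop where
  h12 : v1 < v2
  hbt : b ≠ t
  mβ : (v2, b) ∈ E k
  mγ : (v1, t) ∈ E k
  mγ' : (v2, t) ∈ E k
  hP : ∀ s ∈ E (k - 1), s.2 ≠ v2
  hQ1 : ∀ s ∈ E k, s.1 = v1 → s = (v1, t)
  hQ2 : ∀ s ∈ E k, s.1 = v2 → s = (v2, b) ∨ s = (v2, t)
  hQt : ∀ s ∈ E k, s.2 = t → s = (v1, t) ∨ s = (v2, t)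
  hR : ∀ r ∈ E (k + 1), r.1 ≠ t
  hmid : ∀ s ∈ E k, ¬ (v1 < s.1 ∧ s.1 < v2)

private theorem sit_of {E : Lk} {k : ℤ} (hE : Closed E) {v1 v2 a b t : ℚ} (h12 : v1 < v2)
    (hadj : ∀ v, v1 < v → v < v2 → deg E k v = 0)
    (hα : (a, v1) ∈ E (k - 1)) (hβ : (v2, b) ∈ E k) (hγ : (v1, t) ∈ E k) (hγ' : (v2, t) ∈ E k)
    (hbt : b ≠ t) : Sit E k v1 v2 b t := by
  have hk : k + 1 - 1 = k := by omega
  have h1 := uu_ends hE hβ hγ' hbt
  have h2 := ud_ends hE hγ hα
  have h3 := dd_ends (k := k + 1) (v := t) (x := v1) (y := v2) hE (by rw [hk]; exact hγ)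
    (by rw [hk]; exact hγ') h12.ne
  rw [hk] at h3
  refine ⟨h12, hbt, hβ, hγ, hγ', h1.1, h2.1, h1.2, h3.2, h3.1, ?_⟩
  intro s hs hv
  have h4 := hadj s.1 hv.1 hv.2
  have h5 := up_ends (k := k) (v := s.1) (x := s.2) hE hs
  omega

section
variable {E : Lk} {k : ℤ} {v1 v2 b t : ℚ}

/-- The strands of layer `k` that survive. -/
private def FF (E : Lk) (k : ℤ) (v1 v2 t : ℚ) : Finset (ℚ × ℚ) :=
  (E k).filter (fun s => s ≠ (v1, t) ∧ s ≠ (v2, t))

private theorem mem_FF {s : ℚ × ℚ} : s ∈ FF E k v1 v2 t ↔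
    s ∈ E k ∧ s ≠ (v1, t) ∧ s ≠ (v2, t) := by
  unfold FF
  rw [Finset.mem_filter]

private theorem ff_ne (h : Sit E k v1 v2 b t) {s : ℚ × ℚ} (hs : s ∈ FF E k v1 v2 t) :
    s.1 ≠ v1 ∧ s.2 ≠ t := by
  rw [mem_FF] at hs
  refine ⟨fun h1 => hs.2.1 (h.hQ1 s hs.1 h1), fun h2 => ?_⟩
  rcases h.hQt s hs.1 h2 with h3 | h3
  · exact hs.2.1 h3
  · exact hs.2.2 h3

private theorem ff_v2 (h : Sit E k v1 v2 b t) {s : ℚ × ℚ} (hs : s ∈ FF E k v1 v2 t)
    (h2 : s.1 = v2) : s = (v2, b) := by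
  rw [mem_FF] at hs
  rcases h.hQ2 s hs.1 h2 with h3 | h3
  · exact h3
  · exact absurd h3 hs.2.2

private theorem beta_FF (h : Sit E k v1 v2 b t) : (v2, b) ∈ FF E k v1 v2 t := by
  rw [mem_FF]
  refine ⟨h.mβ, ?_, ?_⟩
  · intro h1
    have := congrArg Prod.fst h1
    exact h.h12.ne' this
  · intro h1
    exact h.hbt (congrArg Prod.snd h1)

private theorem mu_lt (h : Sit E k v1 v2 b t) {s s' : ℚ × ℚ} (hs : s ∈ FF E k v1 v2 t)
    (_hs' : s' ∈ FF E k v1 v2 t) (hlt : s.1 < s'.1) : (mu v1 v2 s).1 < (mu v1 v2 s').1 := by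
  by_cases h1 : s.1 = v2 <;> by_cases h2 : s'.1 = v2
  · rw [h1, h2] at hlt
    exact absurd hlt (lt_irrefl _)
  · rw [mu_of_eq h1, mu_of_ne h2]
    exact h.h12.trans (h1 ▸ hlt)
  · rw [mu_of_ne h1, mu_of_eq h2]
    rw [h2] at hlt
    rcases lt_trichotomy s.1 v1 with h3 | h3 | h3
    · exact h3
    · exact absurd h3 (ff_ne h hs).1
    · exact absurd ⟨h3, hlt⟩ (h.hmid s (mem_FF.mp hs).1)
  · rw [mu_of_ne h1, mu_of_ne h2]
    exact hlt

private theorem mu_inj (h : Sit E k v1 v2 b t) {s s' : ℚ × ℚ} (hs : s ∈ FF E k v1 v2 t)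
    (hs' : s' ∈ FF E k v1 v2 t) (he : mu v1 v2 s = mu v1 v2 s') : s = s' := by
  have h2 : s.2 = s'.2 := by
    have := congrArg Prod.snd he
    simpa [mu_snd] using this
  have h1 : s.1 = s'.1 := by
    rcases lt_trichotomy s.1 s'.1 with h3 | h3 | h3
    · have := mu_lt h hs hs' h3
      rw [he] at this
      exact absurd this (lt_irrefl _)
    · exact h3
    · have := mu_lt h hs' hs h3
      rw [he] at this
      exact absurd this (lt_irrefl _)
  exact Prod.ext h1 h2

private theorem mu_congr {s s' : ℚ × ℚ} (he : s.1 = s'.1) :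
    (mu v1 v2 s).1 = (mu v1 v2 s').1 := by
  unfold mu
  simp only [he]

private theorem AL_mu (h : Sit E k v1 v2 b t) :
    AL ((FF E k v1 v2 t).image (mu v1 v2)) = (AL (FF E k v1 v2 t)).map (mu v1 v2) := by
  refine AL_image _ fun s hs s' hs' hlt => ?_
  rcases hlt with h1 | ⟨h1, h2⟩
  · exact Or.inl (mu_lt h hs hs' h1)
  · exact Or.inr ⟨mu_congr h1, h2⟩

private theorem BL_mu (h : Sit E k v1 v2 b t) :
    BL ((FF E k v1 v2 t).image (mu v1 v2)) = (BL (FF E k v1 v2 t)).map (mu v1 v2) := by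
  refine BL_image _ fun s hs s' hs' hlt => ?_
  rcases hlt with h1 | ⟨h1, h2⟩
  · exact Or.inl h1
  · exact Or.inr ⟨h1, mu_lt h hs hs' h2⟩

private theorem mrg_k (h : Sit E k v1 v2 b t) :
    mrg E k v1 v2 k = (FF E k v1 v2 t).image (mu v1 v2) := by
  have hk : ¬ (k = k - 1) := by omega
  have h0 : mrg E k v1 v2 k = img2 (mu v1 v2) (E k) := by
    unfold mrg
    rw [if_neg hk, if_pos rfl]
    rfl
  have hγγ : ((v1, t) : ℚ × ℚ) ≠ (v2, t) := fun h1 => h.h12.ne (congrArg Prod.fst h1)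
  have h1 : E k = symmDiff ({(v1, t), (v2, t)} : Finset (ℚ × ℚ)) (FF E k v1 v2 t) := by
    ext s
    rw [Finset.mem_symmDiff, mem_FF, Finset.mem_insert, Finset.mem_singleton]
    constructor
    · intro hs
      by_cases h1 : s = (v1, t)
      · exact Or.inl ⟨Or.inl h1, fun h2 => h2.2.1 h1⟩
      · by_cases h2 : s = (v2, t)
        · exact Or.inl ⟨Or.inr h2, fun h3 => h3.2.2 h2⟩
        · exact Or.inr ⟨⟨hs, h1, h2⟩, fun h3 => h3.elim h1 h2⟩
    · rintro (⟨h1, -⟩ | ⟨h1, -⟩)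
      · rcases h1 with rfl | rfl
        · exact h.mγ
        · exact h.mγ'
      · exact h1.1
  have h2 : img2 (mu v1 v2) ({(v1, t), (v2, t)} : Finset (ℚ × ℚ)) = ∅ := by
    rw [Finset.eq_empty_iff_forall_notMem]
    intro e he
    rw [mem_img2] at he
    have hm1 : mu v1 v2 (v1, t) = (v1, t) := mu_of_ne h.h12.ne
    have hm2 : mu v1 v2 (v2, t) = (v1, t) := mu_of_eq rfl
    by_cases h3 : e = (v1, t)
    · have h4 : (({(v1, t), (v2, t)} : Finset (ℚ × ℚ)).filter (fun s => mu v1 v2 s = e)) =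
          {(v1, t), (v2, t)} := by
        rw [Finset.filter_eq_self]
        intro s hs
        rw [Finset.mem_insert, Finset.mem_singleton] at hs
        rcases hs with rfl | rfl
        · rw [hm1, h3]
        · rw [hm2, h3]
      rw [h4, Finset.card_pair hγγ] at he
      exact absurd he (by decide)
    · have h4 : (({(v1, t), (v2, t)} : Finset (ℚ × ℚ)).filter (fun s => mu v1 v2 s = e)) = ∅ := by
        rw [Finset.filter_eq_empty_iff]
        intro s hs
        rw [Finset.mem_insert, Finset.mem_singleton] at hs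
        rcases hs with rfl | rfl
        · rw [hm1]
          exact fun h5 => h3 h5.symm
        · rw [hm2]
          exact fun h5 => h3 h5.symm
      rw [h4, Finset.card_empty] at he
      exact absurd he (by decide)
  have h3 : img2 (mu v1 v2) (FF E k v1 v2 t) = (FF E k v1 v2 t).image (mu v1 v2) :=
    img2_inj fun s hs s' hs' he => mu_inj h hs hs' he
  rw [h0]
  conv_lhs => rw [h1]
  rw [img2_symmDiff, h2, h3]
  simp

private theorem mrg_ne (h : Sit E k v1 v2 b t) {j : ℤ} (hj : j ≠ k) :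
    mrg E k v1 v2 j = E j := by
  unfold mrg
  by_cases hj1 : j = k - 1
  · rw [if_pos hj1]
    subst hj1
    have hid : ∀ s ∈ E (k - 1), (s.1, if s.2 = v2 then v1 else s.2) = s := by
      intro s hs
      rw [if_neg (h.hP s hs)]
    rw [img2_inj]
    · ext s
      rw [Finset.mem_image]
      constructor
      · rintro ⟨s', hs', rfl⟩
        rw [hid s' hs']
        exact hs'
      · intro hs
        exact ⟨s, hs, hid s hs⟩
    · intro s hs s' hs' he
      rwa [hid s hs, hid s' hs'] at he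
  · rw [if_neg hj1, if_neg hj]

/-! ### The lists -/

private theorem al_E (h : Sit E k v1 v2 b t) (hlt : b < t) :
    AL (E k) = AL ((E k).filter (fun s => s.1 < v1)) ++
      (v1, t) :: (v2, b) :: (v2, t) :: AL ((E k).filter (fun s => v2 < s.1)) := by
  rw [AL_split2 (E k) h.h12 h.hmid]
  have h1 : (E k).filter (fun s => s.1 = v1) = {(v1, t)} := by
    ext s
    rw [Finset.mem_filter, Finset.mem_singleton]
    exact ⟨fun hs => h.hQ1 s hs.1 hs.2, fun hs => by rw [hs]; exact ⟨h.mγ, rfl⟩⟩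
  have h2 : (E k).filter (fun s => s.1 = v2) = {(v2, b), (v2, t)} := by
    ext s
    rw [Finset.mem_filter, Finset.mem_insert, Finset.mem_singleton]
    refine ⟨fun hs => h.hQ2 s hs.1 hs.2, ?_⟩
    rintro (rfl | rfl)
    · exact ⟨h.mβ, rfl⟩
    · exact ⟨h.mγ', rfl⟩
  rw [h1, h2, AL_singleton, AL_pair (s := (v2, b)) (t := (v2, t)) (Or.inr ⟨rfl, hlt⟩)]
  simp

private theorem al_E' (h : Sit E k v1 v2 b t) (hlt : t < b) :
    AL (E k) = AL ((E k).filter (fun s => s.1 < v1)) ++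
      (v1, t) :: (v2, t) :: (v2, b) :: AL ((E k).filter (fun s => v2 < s.1)) := by
  rw [AL_split2 (E k) h.h12 h.hmid]
  have h1 : (E k).filter (fun s => s.1 = v1) = {(v1, t)} := by
    ext s
    rw [Finset.mem_filter, Finset.mem_singleton]
    exact ⟨fun hs => h.hQ1 s hs.1 hs.2, fun hs => by rw [hs]; exact ⟨h.mγ, rfl⟩⟩
  have h2 : (E k).filter (fun s => s.1 = v2) = {(v2, t), (v2, b)} := by
    ext s
    rw [Finset.mem_filter, Finset.mem_insert, Finset.mem_singleton]
    refine ⟨fun hs => (h.hQ2 s hs.1 hs.2).symm, ?_⟩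
    rintro (rfl | rfl)
    · exact ⟨h.mγ', rfl⟩
    · exact ⟨h.mβ, rfl⟩
  rw [h1, h2, AL_singleton, AL_pair (s := (v2, t)) (t := (v2, b)) (Or.inr ⟨rfl, hlt⟩)]
  simp

private theorem al_F (h : Sit E k v1 v2 b t) :
    AL (FF E k v1 v2 t) = AL ((E k).filter (fun s => s.1 < v1)) ++
      (v2, b) :: AL ((E k).filter (fun s => v2 < s.1)) := by
  rw [AL_split2 (FF E k v1 v2 t) h.h12 fun s hs => h.hmid s (mem_FF.mp hs).1]
  have h1 : (FF E k v1 v2 t).filter (fun s => s.1 = v1) = ∅ := by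
    rw [Finset.filter_eq_empty_iff]
    exact fun s hs => (ff_ne h hs).1
  have h2 : (FF E k v1 v2 t).filter (fun s => s.1 = v2) = {(v2, b)} := by
    ext s
    rw [Finset.mem_filter, Finset.mem_singleton]
    exact ⟨fun hs => ff_v2 h hs.1 hs.2, fun hs => by rw [hs]; exact ⟨beta_FF h, rfl⟩⟩
  have h3 : (FF E k v1 v2 t).filter (fun s => s.1 < v1) = (E k).filter (fun s => s.1 < v1) := by
    ext s
    rw [Finset.mem_filter, Finset.mem_filter, mem_FF]
    refine ⟨fun hs => ⟨hs.1.1, hs.2⟩, fun hs => ⟨⟨hs.1, ?_, ?_⟩, hs.2⟩⟩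
    · rintro rfl
      exact lt_irrefl _ hs.2
    · rintro rfl
      exact lt_asymm hs.2 h.h12
  have h4 : (FF E k v1 v2 t).filter (fun s => v2 < s.1) = (E k).filter (fun s => v2 < s.1) := by
    ext s
    rw [Finset.mem_filter, Finset.mem_filter, mem_FF]
    refine ⟨fun hs => ⟨hs.1.1, hs.2⟩, fun hs => ⟨⟨hs.1, ?_, ?_⟩, hs.2⟩⟩
    · rintro rfl
      exact lt_asymm hs.2 h.h12
    · rintro rfl
      exact lt_irrefl _ hs.2
  rw [h1, h2, h3, h4, AL_empty, AL_singleton]
  simp

private theorem bl_E (h : Sit E k v1 v2 b t) :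
    BL (E k) = BL ((E k).filter (fun s => s.2 < t)) ++
      (v1, t) :: (v2, t) :: BL ((E k).filter (fun s => t < s.2)) := by
  rw [BL_split (E k) t]
  have h1 : (E k).filter (fun s => s.2 = t) = {(v1, t), (v2, t)} := by
    ext s
    rw [Finset.mem_filter, Finset.mem_insert, Finset.mem_singleton]
    refine ⟨fun hs => h.hQt s hs.1 hs.2, ?_⟩
    rintro (rfl | rfl)
    · exact ⟨h.mγ, rfl⟩
    · exact ⟨h.mγ', rfl⟩
  rw [h1, BL_pair (s := (v1, t)) (t := (v2, t)) (Or.inr ⟨rfl, h.h12⟩)]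
  simp

private theorem bl_F (h : Sit E k v1 v2 b t) :
    BL (FF E k v1 v2 t) = BL ((E k).filter (fun s => s.2 < t)) ++
      BL ((E k).filter (fun s => t < s.2)) := by
  rw [BL_split (FF E k v1 v2 t) t]
  have h1 : (FF E k v1 v2 t).filter (fun s => s.2 = t) = ∅ := by
    rw [Finset.filter_eq_empty_iff]
    exact fun s hs => (ff_ne h hs).2
  have h3 : (FF E k v1 v2 t).filter (fun s => s.2 < t) = (E k).filter (fun s => s.2 < t) := by
    ext s
    rw [Finset.mem_filter, Finset.mem_filter, mem_FF]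
    refine ⟨fun hs => ⟨hs.1.1, hs.2⟩, fun hs => ⟨⟨hs.1, ?_, ?_⟩, hs.2⟩⟩ <;>
    · rintro rfl
      exact lt_irrefl _ hs.2
  have h4 : (FF E k v1 v2 t).filter (fun s => t < s.2) = (E k).filter (fun s => t < s.2) := by
    ext s
    rw [Finset.mem_filter, Finset.mem_filter, mem_FF]
    refine ⟨fun hs => ⟨hs.1.1, hs.2⟩, fun hs => ⟨⟨hs.1, ?_, ?_⟩, hs.2⟩⟩ <;>
    · rintro rfl
      exact lt_irrefl _ hs.2
  rw [h1, h3, h4, BL_empty]
  simp

/-! ### Members of the merged layer -/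

private theorem mem_G (h : Sit E k v1 v2 b t) {s : ℚ × ℚ} :
    s ∈ mrg E k v1 v2 k ↔ s = (v1, b) ∨ (s ∈ E k ∧ s.1 ≠ v1 ∧ s.1 ≠ v2) := by
  rw [mrg_k h, Finset.mem_image]
  constructor
  · rintro ⟨r, hr, rfl⟩
    by_cases h1 : r.1 = v2
    · left
      have h2 := ff_v2 h hr h1
      rw [h2]
      exact mu_of_eq rfl
    · right
      rw [mu_of_ne h1]
      exact ⟨(mem_FF.mp hr).1, (ff_ne h hr).1, h1⟩
  · rintro (rfl | ⟨h1, h2, h3⟩)
    · exact ⟨(v2, b), beta_FF h, mu_of_eq rfl⟩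
    · refine ⟨s, mem_FF.mpr ⟨h1, ?_, ?_⟩, mu_of_ne h3⟩
      · rintro rfl
        exact h2 rfl
      · rintro rfl
        exact h3 rfl

private theorem perm_UV (h : Sit E k v1 v2 b t) :
    (AL ((E k).filter (fun s => s.1 < v1)) ++
      (v2, b) :: AL ((E k).filter (fun s => v2 < s.1))).Perm
    (BL ((E k).filter (fun s => s.2 < t)) ++ BL ((E k).filter (fun s => t < s.2))) := by
  rw [← al_F h, ← bl_F h]
  exact AL_perm_BL _

/-- The first step of the path. -/
private theorem path_iff (h : Sit E k v1 v2 b t) (hlt : b < t) {w w' : List ℕ} (h2 : Two w) :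
    Srt (BL (E k)) (AL (E k)) w w' ↔
      ∃ u, CrN (AL ((E k).filter (fun s => s.1 < v1))).length w u ∧
        Srt (BL ((E k).filter (fun s => s.2 < t)) ++
          (v1, t) :: (v2, t) :: BL ((E k).filter (fun s => t < s.2)))
          ((AL ((E k).filter (fun s => s.1 < v1)) ++ [(v2, b)]) ++
          (v1, t) :: (v2, t) :: AL ((E k).filter (fun s => v2 < s.1))) u w' := by
  have hnd := AL_nodup (E k)
  have hpm := AL_perm_BL (E k)
  have hidx := (BL_idx' h.mβ h.mγ).mpr (Or.inl hlt)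
  rw [al_E h hlt] at hnd hpm ⊢
  refine (srtN_through h2 hnd (M := AL ((E k).filter (fun s => s.1 < v1)) ++
      (v2, b) :: (v1, t) :: (v2, t) :: AL ((E k).filter (fun s => v2 < s.1)))
      ((List.perm_append_left_iff _).mpr (List.Perm.swap _ _ _)) hpm
      (btw_swap hnd hidx)).trans ?_
  rw [← bl_E h]
  have hM : (AL ((E k).filter (fun s => s.1 < v1)) ++ [(v2, b)]) ++
          (v1, t) :: (v2, t) :: AL ((E k).filter (fun s => v2 < s.1)) =
      AL ((E k).filter (fun s => s.1 < v1)) ++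
      (v2, b) :: (v1, t) :: (v2, t) :: AL ((E k).filter (fun s => v2 < s.1)) := by simp
  rw [hM]
  constructor
  · rintro ⟨u, hu1, hu2⟩
    exact ⟨u, (srtN_one hnd).mp hu1, hu2⟩
  · rintro ⟨u, hu1, hu2⟩
    exact ⟨u, (srtN_one hnd).mpr hu1, hu2⟩

/-- The layer of the merged link in terms of the old names. -/
private theorem srt_G (h : Sit E k v1 v2 b t) (Ak Bk : ℚ × ℚ → ℕ) :
    Srt (BL (mrg E k v1 v2 k)) (AL (mrg E k v1 v2 k)) ((AL (mrg E k v1 v2 k)).map Ak)
      ((BL (mrg E k v1 v2 k)).map Bk) ↔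
    Srt (BL ((E k).filter (fun s => s.2 < t)) ++ BL ((E k).filter (fun s => t < s.2)))
      ((AL ((E k).filter (fun s => s.1 < v1)) ++ [(v2, b)]) ++
        AL ((E k).filter (fun s => v2 < s.1)))
      ((AL ((E k).filter (fun s => s.1 < v1)) ++ [(v2, b)] ++
        AL ((E k).filter (fun s => v2 < s.1))).map (fun s => Ak (mu v1 v2 s)))
      ((BL ((E k).filter (fun s => s.2 < t)) ++
        BL ((E k).filter (fun s => t < s.2))).map (fun s => Bk (mu v1 v2 s))) := by
  have hA : AL (FF E k v1 v2 t) = AL ((E k).filter (fun s => s.1 < v1)) ++ [(v2, b)] ++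
      AL ((E k).filter (fun s => v2 < s.1)) := by
    rw [al_F h]; simp
  rw [mrg_k h, AL_mu h, BL_mu h, List.map_map, List.map_map]
  refine (srtN_map (mu v1 v2) (AL_perm_BL _) (fun x hx y hy he =>
      mu_inj h (mem_AL.mp hx) (mem_AL.mp hy) he)).trans ?_
  rw [hA, bl_F h]
  rfl

/-- Values of a labelling of the merged layer on the old names. -/
private theorem map_A (h : Sit E k v1 v2 b t) (Ak A : ℚ × ℚ → ℕ)
    (hA : ∀ s ∈ E k, s.1 ≠ v1 → s.1 ≠ v2 → Ak s = A s) :
    (AL ((E k).filter (fun s => s.1 < v1)) ++ [(v2, b)] ++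
        AL ((E k).filter (fun s => v2 < s.1))).map (fun s => Ak (mu v1 v2 s)) =
    ((AL ((E k).filter (fun s => s.1 < v1))).map A ++ [Ak (v1, b)]) ++
        (AL ((E k).filter (fun s => v2 < s.1))).map A := by
  rw [List.map_append, List.map_append]
  have h1 : (AL ((E k).filter (fun s => s.1 < v1))).map (fun s => Ak (mu v1 v2 s)) =
      (AL ((E k).filter (fun s => s.1 < v1))).map A := by
    refine List.map_congr_left fun s hs => ?_
    rw [mem_AL, Finset.mem_filter] at hs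
    have hs1 : s.1 ≠ v1 := hs.2.ne
    have hs2 : s.1 ≠ v2 := (hs.2.trans h.h12).ne
    rw [mu_of_ne hs2]
    exact hA s hs.1 hs1 hs2
  have h2 : (AL ((E k).filter (fun s => v2 < s.1))).map (fun s => Ak (mu v1 v2 s)) =
      (AL ((E k).filter (fun s => v2 < s.1))).map A := by
    refine List.map_congr_left fun s hs => ?_
    rw [mem_AL, Finset.mem_filter] at hs
    have hs1 : s.1 ≠ v1 := (h.h12.trans hs.2).ne'
    have hs2 : s.1 ≠ v2 := hs.2.ne'
    rw [mu_of_ne hs2]
    exact hA s hs.1 hs1 hs2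
  have h3 : [(v2, b)].map (fun s => Ak (mu v1 v2 s)) = [Ak (v1, b)] := by
    rw [List.map_singleton, mu_of_eq (s := (v2, b)) rfl]
  rw [h1, h2, h3]

private theorem map_B (h : Sit E k v1 v2 b t) (Bk B : ℚ × ℚ → ℕ)
    (hB : ∀ s ∈ E k, s.1 ≠ v1 → s.1 ≠ v2 → Bk s = B s) (hB1 : Bk (v1, b) = B (v2, b)) :
    (BL ((E k).filter (fun s => s.2 < t)) ++
        BL ((E k).filter (fun s => t < s.2))).map (fun s => Bk (mu v1 v2 s)) =
    (BL ((E k).filter (fun s => s.2 < t))).map B ++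
        (BL ((E k).filter (fun s => t < s.2))).map B := by
  rw [← List.map_append]
  refine List.map_congr_left fun s hs => ?_
  have hs' : s ∈ E k ∧ s.2 ≠ t := by
    rw [List.mem_append, mem_BL, mem_BL, Finset.mem_filter, Finset.mem_filter] at hs
    rcases hs with hs | hs
    · exact ⟨hs.1, hs.2.ne⟩
    · exact ⟨hs.1, hs.2.ne'⟩
  have hF : s ∈ FF E k v1 v2 t := by
    refine mem_FF.mpr ⟨hs'.1, ?_, ?_⟩ <;>
    · rintro rfl
      exact hs'.2 rfl
  by_cases h1 : s.1 = v2
  · rw [ff_v2 h hF h1, mu_of_eq (s := (v2, b)) rfl]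
    exact hB1
  · rw [mu_of_ne h1]
    exact hB s hs'.1 (ff_ne h hF).1 h1

private theorem map_AE (h : Sit E k v1 v2 b t) (hlt : b < t) (A : ℚ × ℚ → ℕ) :
    (AL (E k)).map A = (AL ((E k).filter (fun s => s.1 < v1))).map A ++
      A (v1, t) :: A (v2, b) :: A (v2, t) :: (AL ((E k).filter (fun s => v2 < s.1))).map A := by
  rw [al_E h hlt]
  simp

private theorem map_BE (h : Sit E k v1 v2 b t) (B : ℚ × ℚ → ℕ) :
    (BL (E k)).map B = (BL ((E k).filter (fun s => s.2 < t))).map B ++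
      B (v1, t) :: B (v2, t) :: (BL ((E k).filter (fun s => t < s.2))).map B := by
  rw [bl_E h]
  simp

/-- The case `t < b`: no ruling. -/
private theorem no_rul (h : Sit E k v1 v2 b t) (hlt : t < b) : ¬ Rul E := by
  rintro ⟨A, B, hAB⟩
  have hk : k + 1 - 1 = k := by omega
  obtain ⟨h2, hs, hl⟩ := hAB k
  have hl' := (hAB (k + 1)).2.2
  rw [lev_iff, hk] at hl'
  have e1 : A k (v2, t) = A k (v2, b) :=
    hl.2.1 _ h.mγ' _ h.mβ (fun e => h.hbt (congrArg Prod.snd e).symm) rfl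
  have e2 : B k (v1, t) = B k (v2, t) :=
    hl'.1 _ h.mγ _ h.mγ' (fun e => h.h12.ne (congrArg Prod.fst e)) rfl
  have hnd := AL_nodup (E k)
  have hpm : (AL ((E k).filter (fun s => s.1 < v1)) ++
      (v2, b) :: AL ((E k).filter (fun s => v2 < s.1))).Perm
    (BL ((E k).filter (fun s => s.2 < t)) ++ BL ((E k).filter (fun s => t < s.2))) := perm_UV h
  rw [map_BE h, e2] at hs
  have hlen : ((AL (E k)).map (A k)).length = (AL (E k)).length := List.length_map _
  rw [bl_E h] at hs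
  have hA := al_E' h hlt
  have hmA : (AL (E k)).map (A k) = (AL ((E k).filter (fun s => s.1 < v1))).map (A k) ++
      A k (v1, t) :: A k (v2, t) :: A k (v2, b) ::
        (AL ((E k).filter (fun s => v2 < s.1))).map (A k) := by
    rw [hA]
    simp
  rw [hA] at hnd hlen
  have hs2 : Srt (BL ((E k).filter (fun s => s.2 < t)) ++
      (v1, t) :: (v2, t) :: BL ((E k).filter (fun s => t < s.2)))
      (AL ((E k).filter (fun s => s.1 < v1)) ++
      (v1, t) :: (v2, t) :: (v2, b) :: AL ((E k).filter (fun s => v2 < s.1)))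
      ((AL (E k)).map (A k)) ((BL ((E k).filter (fun s => s.2 < t))).map (B k) ++
      B k (v2, t) :: B k (v2, t) :: (BL ((E k).filter (fun s => t < s.2))).map (B k)) := by
    rw [← hA]
    exact hs
  rw [← hA] at hlen
  obtain ⟨W, Z, q0, hW, hW1, -⟩ :=
    pair_nat' hnd hpm (List.length_map _) (by rw [hlen, hA]) h2 hs2
  rw [hmA] at hW
  have hinj := (List.append_inj hW (by rw [List.length_map, hW1])).2
  rw [List.cons.injEq, List.cons.injEq] at hinj
  obtain ⟨i1, i2, -⟩ := hinj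
  have h5 := h2 (A k (v2, b)) (by rw [hmA]; simp)
  rw [hmA, i1, i2, ← e1, i2, List.count_append, List.count_cons_self, List.count_cons_self,
    List.count_cons_self] at h5
  omega

/-- Counting for two words. -/
private theorem two_ins {W Z : List ℕ} {x y : ℕ} (h2 : Two (W ++ [x] ++ Z))
    (hy : y ∉ W ++ [x] ++ Z) : Two (W ++ x :: y :: y :: Z) := by
  intro p hp
  by_cases hpy : p = y
  · subst hpy
    have hc := List.count_eq_zero_of_not_mem hy
    rw [List.count_append, List.count_append, List.count_singleton] at hc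
    rw [List.count_append, List.count_cons, List.count_cons_self, List.count_cons_self]
    omega
  · have hp2 : p ∈ W ++ [x] ++ Z := by
      simp only [List.mem_append, List.mem_cons, List.not_mem_nil, or_false] at hp ⊢
      tauto
    have hc := h2 p hp2
    rw [List.count_append, List.count_append, List.count_singleton] at hc
    rw [List.count_append, List.count_cons, List.count_cons_of_ne (Ne.symm hpy),
      List.count_cons_of_ne (Ne.symm hpy)]
    omega

private theorem two_del {W Z : List ℕ} {x y : ℕ} (h2 : Two (W ++ x :: y :: y :: Z))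
    (hxy : x ≠ y) : Two (W ++ [x] ++ Z) := by
  intro p hp
  have hp2 : p ∈ W ++ x :: y :: y :: Z := by
    simp only [List.mem_append, List.mem_cons, List.not_mem_nil, or_false] at hp ⊢
    tauto
  have hc := h2 p hp2
  rw [List.count_append, List.count_append, List.count_singleton]
  by_cases hpy : p = y
  · subst hpy
    exfalso
    rw [List.count_append, List.count_cons, List.count_cons_self, List.count_cons_self] at hc
    have h0 : W.count p = 0 := by omega
    have h1 : Z.count p = 0 := by omega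
    rw [List.count_eq_zero] at h0 h1
    simp only [List.mem_append, List.mem_cons, List.not_mem_nil, or_false] at hp
    rcases hp with (hp | hp) | hp
    · exact h0 hp
    · exact hxy hp.symm
    · exact h1 hp
  · rw [List.count_append, List.count_cons, List.count_cons_of_ne (Ne.symm hpy),
      List.count_cons_of_ne (Ne.symm hpy)] at hc
    omega

private theorem al_G (h : Sit E k v1 v2 b t) :
    AL (mrg E k v1 v2 k) = (AL ((E k).filter (fun s => s.1 < v1)) ++ [(v2, b)] ++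
        AL ((E k).filter (fun s => v2 < s.1))).map (mu v1 v2) := by
  rw [mrg_k h, AL_mu h, al_F h]
  simp

private theorem g_ne (h : Sit E k v1 v2 b t) {s : ℚ × ℚ} (hs : s ∈ mrg E k v1 v2 k) :
    s.1 ≠ v2 ∧ s.2 ≠ t := by
  rcases (mem_G h).mp hs with rfl | ⟨h1, h2, h3⟩
  · exact ⟨h.h12.ne, h.hbt⟩
  · refine ⟨h3, fun h4 => ?_⟩
    rcases h.hQt s h1 h4 with h5 | h5
    · exact h2 (by rw [h5])
    · exact h3 (by rw [h5])

private theorem levL_up {P Q Q' : Finset (ℚ × ℚ)} {b a a' : ℚ × ℚ → ℕ} (v : ℚ)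
    (hv : ∀ s ∈ P, s.2 ≠ v)
    (hy : ∀ r ∈ Q', ∀ r' ∈ Q', r.1 = v → r'.1 = v → a' r = a' r') (nu : ℚ × ℚ → ℚ × ℚ)
    (hm : ∀ r ∈ Q', r.1 ≠ v → nu r ∈ Q ∧ (nu r).1 = r.1 ∧ a' r = a (nu r))
    (hi : ∀ r ∈ Q', ∀ r' ∈ Q', r.1 ≠ v → r'.1 ≠ v → nu r = nu r' → r = r')
    (hl : LevL P Q b a) : LevL P Q' b a' := by
  refine ⟨hl.1, ?_, ?_⟩
  · intro r hr r' hr' hne h1
    by_cases h2 : r.1 = v
    · exact hy r hr r' hr' h2 (h1 ▸ h2)
    · have h2' : r'.1 ≠ v := h1 ▸ h2
      obtain ⟨m1, m2, m3⟩ := hm r hr h2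
      obtain ⟨m1', m2', m3'⟩ := hm r' hr' h2'
      rw [m3, m3']
      exact hl.2.1 _ m1 _ m1' (fun he => hne (hi r hr r' hr' h2 h2' he)) (by rw [m2, m2', h1])
  · intro s hs s' hs' r hr r' hr' h1 h1'
    have h2 : r.1 ≠ v := h1 ▸ hv s hs
    have h2' : r'.1 ≠ v := h1' ▸ hv s' hs'
    obtain ⟨m1, m2, m3⟩ := hm r hr h2
    obtain ⟨m1', m2', m3'⟩ := hm r' hr' h2'
    rw [m3, m3']
    exact hl.2.2 s hs s' hs' _ m1 _ m1' (by rw [m2, h1]) (by rw [m2', h1'])

private theorem levL_dn {P P' Q : Finset (ℚ × ℚ)} {b b' a : ℚ × ℚ → ℕ} (v : ℚ)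
    (hv : ∀ s ∈ Q, s.1 ≠ v)
    (hy : ∀ r ∈ P', ∀ r' ∈ P', r.2 = v → r'.2 = v → b' r = b' r') (nu : ℚ × ℚ → ℚ × ℚ)
    (hm : ∀ r ∈ P', r.2 ≠ v → nu r ∈ P ∧ (nu r).2 = r.2 ∧ b' r = b (nu r))
    (hi : ∀ r ∈ P', ∀ r' ∈ P', r.2 ≠ v → r'.2 ≠ v → nu r = nu r' → r = r')
    (hl : LevL P Q b a) : LevL P' Q b' a := by
  refine ⟨?_, hl.2.1, ?_⟩
  · intro r hr r' hr' hne h1
    by_cases h2 : r.2 = v
    · exact hy r hr r' hr' h2 (h1 ▸ h2)
    · have h2' : r'.2 ≠ v := h1 ▸ h2
      obtain ⟨m1, m2, m3⟩ := hm r hr h2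
      obtain ⟨m1', m2', m3'⟩ := hm r' hr' h2'
      rw [m3, m3']
      exact hl.1 _ m1 _ m1' (fun he => hne (hi r hr r' hr' h2 h2' he)) (by rw [m2, m2', h1])
  · intro r hr r' hr' s hs s' hs' h1 h1'
    have h2 : r.2 ≠ v := by rw [h1]; exact hv s hs
    have h2' : r'.2 ≠ v := by rw [h1']; exact hv s' hs'
    obtain ⟨m1, m2, m3⟩ := hm r hr h2
    obtain ⟨m1', m2', m3'⟩ := hm r' hr' h2'
    rw [m3, m3']
    exact hl.2.2 _ m1 _ m1' s hs s' hs' (by rw [m2, h1]) (by rw [m2', h1'])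

/-- From a ruling of `E` to a ruling of the merged link. -/
private theorem fwd (h : Sit E k v1 v2 b t) (hlt : b < t) (hR : Rul E) :
    Rul (mrg E k v1 v2) := by
  obtain ⟨A, B, hAB⟩ := hR
  have hk : k + 1 - 1 = k := by omega
  obtain ⟨h2, hs, hl⟩ := hAB k
  have hl' := (hAB (k + 1)).2.2
  rw [lev_iff, hk] at hl'
  rw [lev_iff] at hl
  have e1 : A k (v2, b) = A k (v2, t) :=
    hl.2.1 _ h.mβ _ h.mγ' (fun e => h.hbt (congrArg Prod.snd e)) rfl
  have e2 : B k (v1, t) = B k (v2, t) :=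
    hl'.1 _ h.mγ _ h.mγ' (fun e => h.h12.ne (congrArg Prod.fst e)) rfl
  have hnd := AL_nodup (E k)
  rw [al_E h hlt] at hnd
  have hnd2 : ((AL ((E k).filter (fun s => s.1 < v1)) ++ [(v2, b)]) ++
          (v1, t) :: (v2, t) :: AL ((E k).filter (fun s => v2 < s.1))).Nodup := by
    refine (List.Perm.nodup_iff ?_).mp hnd
    rw [List.append_assoc]
    exact (List.perm_append_left_iff _).mpr (List.Perm.swap _ _ _)
  have hpm : ((AL ((E k).filter (fun s => s.1 < v1)) ++ [(v2, b)]) ++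
      AL ((E k).filter (fun s => v2 < s.1))).Perm
    (BL ((E k).filter (fun s => s.2 < t)) ++ BL ((E k).filter (fun s => t < s.2))) := by
    rw [List.append_assoc]
    exact perm_UV h
  rw [path_iff h hlt h2] at hs
  obtain ⟨u', ⟨u, hu1, hur⟩, hu2'⟩ := hs
  have hu2 := hu2'.ren hur.symm (Ren.refl _)
  rw [map_BE h, e2] at hu2
  have h2u : Two u := Cr.two h2 hu1
  have hlen : u.length = ((AL ((E k).filter (fun s => s.1 < v1)) ++ [(v2, b)]) ++
          (v1, t) :: (v2, t) :: AL ((E k).filter (fun s => v2 < s.1))).length := by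
    rw [Cr.len hu1, List.length_map, al_E h hlt]
    simp
  obtain ⟨W, Z, q0, hW, hW1, hZ1⟩ := pair_nat' hnd2 hpm (List.length_map _) hlen h2u hu2
  obtain ⟨W0, Z0, p, q, hw, hw1, hpq, hcr⟩ := hu1
  have hmA := map_AE h hlt (A k)
  rw [hmA] at hw
  have hinj := List.append_inj hw (by rw [List.length_map, hw1])
  rw [List.cons.injEq, List.cons.injEq] at hinj
  obtain ⟨i0, i1, i2, i3⟩ := hinj
  have hswitch : u = (AL (E k)).map (A k) := by
    rcases hcr with hcr | hcr
    · exfalso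
      rw [← i0, ← i1, ← i2, ← i3] at hcr
      have h3 : ((AL ((E k).filter (fun s => s.1 < v1))).map (A k) ++ [A k (v2, b)]) ++
          A k (v1, t) :: A k (v2, t) ::
          (AL ((E k).filter (fun s => v2 < s.1))).map (A k) =
          W ++ q0 :: q0 :: Z := by
        rw [← hW, hcr]
        simp
      have h4 := (List.append_inj h3 (by rw [hW1]; simp)).2
      rw [List.cons.injEq, List.cons.injEq] at h4
      apply hpq
      rw [← i1, ← i2, e1, h4.1, h4.2.1]
    · exact hcr.1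
  have hu : u = ((AL ((E k).filter (fun s => s.1 < v1))).map (A k) ++ [A k (v1, t)]) ++
      A k (v2, t) :: A k (v2, t) ::
      (AL ((E k).filter (fun s => v2 < s.1))).map (A k) := by
    rw [hswitch, hmA, e1]
    simp
  rw [hu] at hu2 h2u
  have hne : A k (v1, t) ≠ A k (v2, t) := by
    rw [i1, ← e1, i2]
    exact hpq
  rw [pair_nat hnd2 hpm (by simp) (by simp) h2u] at hu2
  obtain ⟨W', Z', q1, hW', hW'1, -, -, hfin⟩ := hu2
  have hinj2 := List.append_inj hW' (by rw [List.length_map, hW'1])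
  rw [List.cons.injEq, List.cons.injEq] at hinj2
  obtain ⟨j0, -, -, j3⟩ := hinj2
  rw [← j0, ← j3] at hfin
  -- the new labels
  obtain ⟨Ak, hAk1, hAk⟩ : ∃ Ak : ℚ × ℚ → ℕ, Ak (v1, b) = A k (v1, t) ∧
      ∀ s, s ≠ (v1, b) → Ak s = A k s :=
    ⟨fun s => if s = (v1, b) then A k (v1, t) else A k s, if_pos rfl, fun s hs => if_neg hs⟩
  obtain ⟨Bk, hBk1, hBk⟩ : ∃ Bk : ℚ × ℚ → ℕ, Bk (v1, b) = B k (v2, b) ∧
      ∀ s, s ≠ (v1, b) → Bk s = B k s :=
    ⟨fun s => if s = (v1, b) then B k (v2, b) else B k s, if_pos rfl, fun s hs => if_neg hs⟩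
  have hmapA := map_A h Ak (A k) (fun s _ h1 _ => hAk s (by rintro rfl; exact h1 rfl))
  have hmapB := map_B h Bk (B k) (fun s _ h1 _ => hBk s (by rintro rfl; exact h1 rfl)) hBk1
  rw [hAk1] at hmapA
  refine rul_replace (E := E) (G := mrg E k v1 v2) (k := k) (fun j hj => mrg_ne h hj) hAB
    Ak Bk ?_ ?_ ?_ ?_
  · have h5 := two_del (W := (AL ((E k).filter (fun s => s.1 < v1))).map (A k))
      (Z := (AL ((E k).filter (fun s => v2 < s.1))).map (A k)) (x := A k (v1, t))
      (y := A k (v2, t)) (by simpa using h2u) hne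
    rw [← hmapA] at h5
    rw [al_G h, List.map_map]
    exact h5
  · rw [srt_G h, hmapA, hmapB]
    exact hfin
  · refine levL_up v2 h.hP ?_ (fun s => if s = (v1, b) then (v1, t) else s) ?_ ?_ hl
    · intro r hr _ _ h1 _
      exact absurd h1 (g_ne h hr).1
    · intro r hr _
      rcases (mem_G h).mp hr with rfl | ⟨h1, h2, h3⟩
      · exact ⟨by rw [if_pos rfl]; exact h.mγ, by rw [if_pos rfl], by rw [if_pos rfl]; exact hAk1⟩
      · have h4 : r ≠ (v1, b) := by
          rintro rfl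
          exact h2 rfl
        simp only [if_neg h4]
        exact ⟨h1, trivial, hAk r h4⟩
    · intro r hr r' hr' _ _ he
      rcases (mem_G h).mp hr with rfl | ⟨h1, h2, h3⟩ <;>
        rcases (mem_G h).mp hr' with rfl | ⟨h1', h2', h3'⟩
      · rfl
      · rw [if_pos rfl, if_neg (by rintro rfl; exact h2' rfl)] at he
        rw [← he] at h2'
        exact absurd rfl h2'
      · rw [if_pos rfl, if_neg (by rintro rfl; exact h2 rfl)] at he
        rw [he] at h2
        exact absurd rfl h2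
      · rwa [if_neg (by rintro rfl; exact h2 rfl), if_neg (by rintro rfl; exact h2' rfl)] at he
  · refine levL_dn t h.hR ?_ (fun s => if s = (v1, b) then (v2, b) else s) ?_ ?_ hl'
    · intro r hr _ _ h1 _
      exact absurd h1 (g_ne h hr).2
    · intro r hr _
      rcases (mem_G h).mp hr with rfl | ⟨h1, h2, h3⟩
      · exact ⟨by rw [if_pos rfl]; exact h.mβ, by rw [if_pos rfl], by rw [if_pos rfl]; exact hBk1⟩
      · have h4 : r ≠ (v1, b) := by
          rintro rfl
          exact h2 rfl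
        simp only [if_neg h4]
        exact ⟨h1, trivial, hBk r h4⟩
    · intro r hr r' hr' _ _ he
      rcases (mem_G h).mp hr with rfl | ⟨h1, h2, h3⟩ <;>
        rcases (mem_G h).mp hr' with rfl | ⟨h1', h2', h3'⟩
      · rfl
      · rw [if_pos rfl, if_neg (by rintro rfl; exact h2' rfl)] at he
        rw [← he] at h3'
        exact absurd rfl h3'
      · rw [if_pos rfl, if_neg (by rintro rfl; exact h2 rfl)] at he
        rw [he] at h3
        exact absurd rfl h3
      · rwa [if_neg (by rintro rfl; exact h2 rfl), if_neg (by rintro rfl; exact h2' rfl)] at he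

/-- From a ruling of the merged link to a ruling of `E`. -/
private theorem bwd (h : Sit E k v1 v2 b t) (hlt : b < t) (hR : Rul (mrg E k v1 v2)) :
    Rul E := by
  obtain ⟨A, B, hAB⟩ := hR
  have hk : k + 1 - 1 = k := by omega
  obtain ⟨h2, hs, hl⟩ := hAB k
  have hl' := (hAB (k + 1)).2.2
  rw [lev_iff, hk, mrg_ne h (show k + 1 ≠ k by omega)] at hl'
  rw [lev_iff, mrg_ne h (show k - 1 ≠ k by omega)] at hl
  obtain ⟨y, hy, hyB⟩ : ∃ y, y ∉ (AL (mrg E k v1 v2 k)).map (A k) ∧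
      y ∉ (BL ((E k).filter (fun s => s.2 < t)) ++
        BL ((E k).filter (fun s => t < s.2))).map (fun s => B k (mu v1 v2 s)) := by
    obtain ⟨y, hy⟩ := Infinite.exists_notMem_finset (((AL (mrg E k v1 v2 k)).map (A k)).toFinset ∪
      ((BL ((E k).filter (fun s => s.2 < t)) ++
        BL ((E k).filter (fun s => t < s.2))).map (fun s => B k (mu v1 v2 s))).toFinset)
    rw [Finset.mem_union, not_or, List.mem_toFinset, List.mem_toFinset] at hy
    exact ⟨y, hy⟩
  obtain ⟨Ak, a1, a2, a3, a4⟩ : ∃ Ak : ℚ × ℚ → ℕ, Ak (v1, t) = A k (v1, b) ∧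
      Ak (v2, b) = y ∧ Ak (v2, t) = y ∧ ∀ s, s.1 ≠ v1 → s.1 ≠ v2 → Ak s = A k s := by
    refine ⟨fun s => if s.1 = v1 then A k (v1, b) else if s.1 = v2 then y else A k s,
      if_pos rfl, ?_, ?_, ?_⟩
    · exact (if_neg h.h12.ne').trans (if_pos rfl)
    · exact (if_neg h.h12.ne').trans (if_pos rfl)
    · intro s h1 h2
      exact (if_neg h1).trans (if_neg h2)
  obtain ⟨Bk, b1, b2, b3, b4⟩ : ∃ Bk : ℚ × ℚ → ℕ, Bk (v1, t) = y ∧ Bk (v2, t) = y ∧
      Bk (v2, b) = B k (v1, b) ∧ ∀ s, s.1 ≠ v1 → s.1 ≠ v2 → Bk s = B k s := by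
    refine ⟨fun s => if s.1 = v1 then y else if s = (v2, t) then y else
      if s.1 = v2 then B k (v1, b) else B k s, if_pos rfl, ?_, ?_, ?_⟩
    · exact (if_neg h.h12.ne').trans (if_pos rfl)
    · exact (if_neg h.h12.ne').trans ((if_neg fun he => h.hbt (congrArg Prod.snd he)).trans
        (if_pos rfl))
    · intro s h1 h2
      exact (if_neg h1).trans ((if_neg (by rintro rfl; exact h2 rfl)).trans (if_neg h2))
  have hnd := AL_nodup (E k)
  rw [al_E h hlt] at hnd
  have hnd2 : ((AL ((E k).filter (fun s => s.1 < v1)) ++ [(v2, b)]) ++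
          (v1, t) :: (v2, t) :: AL ((E k).filter (fun s => v2 < s.1))).Nodup := by
    refine (List.Perm.nodup_iff ?_).mp hnd
    rw [List.append_assoc]
    exact (List.perm_append_left_iff _).mpr (List.Perm.swap _ _ _)
  have hpm : ((AL ((E k).filter (fun s => s.1 < v1)) ++ [(v2, b)]) ++
      AL ((E k).filter (fun s => v2 < s.1))).Perm
    (BL ((E k).filter (fun s => s.2 < t)) ++ BL ((E k).filter (fun s => t < s.2))) := by
    rw [List.append_assoc]
    exact perm_UV h
  have hmapA := map_A h (A k) Ak (fun s _ h1 h2 => (a4 s h1 h2).symm)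
  have hmapB := map_B h (B k) Bk (fun s _ h1 h2 => (b4 s h1 h2).symm) b3.symm
  rw [srt_G h, hmapA, hmapB] at hs
  have hword : (AL (mrg E k v1 v2 k)).map (A k) =
      ((AL ((E k).filter (fun s => s.1 < v1))).map Ak ++ [A k (v1, b)]) ++
        (AL ((E k).filter (fun s => v2 < s.1))).map Ak := by
    rw [← hmapA, al_G h, List.map_map]
    rfl
  rw [hword] at h2 hy
  have hne : A k (v1, b) ≠ y := by
    rintro he
    apply hy
    rw [he]
    simp
  have h2E : Two ((AL (E k)).map Ak) := by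
    rw [map_AE h hlt, a1, a2, a3]
    exact two_ins h2 hy
  refine rul_replace (E := mrg E k v1 v2) (G := E) (k := k) (fun j hj => (mrg_ne h hj).symm) hAB
    Ak Bk h2E ?_ ?_ ?_
  · rw [path_iff h hlt h2E]
    rw [hmapB, List.mem_append, not_or] at hyB
    refine ⟨(AL (E k)).map Ak, Cr.crN ⟨(AL ((E k).filter (fun s => s.1 < v1))).map Ak,
      y :: (AL ((E k).filter (fun s => v2 < s.1))).map Ak, A k (v1, b), y, ?_, ?_, hne,
      Or.inr ⟨rfl, ?_⟩⟩, ?_⟩
    · rw [map_AE h hlt, a1, a2, a3]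
    · rw [List.length_map]
    · rw [List.cons_append, List.idxOf_cons_self, List.idxOf_cons_ne _ (Ne.symm hne)]
      exact Nat.succ_pos _
    · have hu : (AL (E k)).map Ak = ((AL ((E k).filter (fun s => s.1 < v1))).map Ak ++
          [A k (v1, b)]) ++ y :: y :: (AL ((E k).filter (fun s => v2 < s.1))).map Ak := by
        rw [map_AE h hlt, a1, a2, a3]
        simp
      rw [hu, pair_nat hnd2 hpm (by simp) (by simp) (by rw [← hu]; exact h2E)]
      exact ⟨(BL ((E k).filter (fun s => s.2 < t))).map Bk,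
        (BL ((E k).filter (fun s => t < s.2))).map Bk, y, by rw [map_BE h, b1, b2],
        List.length_map _, hyB.1, hyB.2, hs⟩
  · rw [mrg_ne h (show k - 1 ≠ k by omega)]
    refine levL_up v2 h.hP ?_ (fun s => if s = (v1, t) then (v1, b) else s) ?_ ?_ hl
    · intro r hr r' hr' h1 h1'
      rcases h.hQ2 r hr h1 with rfl | rfl <;> rcases h.hQ2 r' hr' h1' with rfl | rfl <;>
        simp only [a2, a3]
    · intro r hr h1
      by_cases h3 : r = (v1, t)
      · subst h3
        exact ⟨by rw [if_pos rfl]; exact (mem_G h).mpr (Or.inl rfl), by rw [if_pos rfl],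
          by rw [if_pos rfl]; exact a1⟩
      · have h4 : r.1 ≠ v1 := fun h5 => h3 (h.hQ1 r hr h5)
        simp only [if_neg h3]
        exact ⟨(mem_G h).mpr (Or.inr ⟨hr, h4, h1⟩), trivial, a4 r h4 h1⟩
    · intro r hr r' hr' h1 h1' he
      by_cases h3 : r = (v1, t) <;> by_cases h3' : r' = (v1, t)
      · rw [h3, h3']
      · rw [if_pos h3, if_neg h3'] at he
        exact absurd (h.hQ1 r' hr' (by rw [← he])) h3'
      · rw [if_neg h3, if_pos h3'] at he
        exact absurd (h.hQ1 r hr (by rw [he])) h3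
      · rwa [if_neg h3, if_neg h3'] at he
  · rw [mrg_ne h (show k + 1 ≠ k by omega)]
    refine levL_dn t h.hR ?_ (fun s => if s = (v2, b) then (v1, b) else s) ?_ ?_ hl'
    · intro r hr r' hr' h1 h1'
      rcases h.hQt r hr h1 with rfl | rfl <;> rcases h.hQt r' hr' h1' with rfl | rfl <;>
        simp only [b1, b2]
    · intro r hr h1
      by_cases h3 : r = (v2, b)
      · subst h3
        exact ⟨by rw [if_pos rfl]; exact (mem_G h).mpr (Or.inl rfl), by rw [if_pos rfl],
          by rw [if_pos rfl]; exact b3⟩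
      · have h4 : r.1 ≠ v1 := by
          intro h5
          rw [h.hQ1 r hr h5] at h1
          exact h1 rfl
        have h5 : r.1 ≠ v2 := by
          intro h5
          rcases h.hQ2 r hr h5 with h6 | h6
          · exact h3 h6
          · rw [h6] at h1
            exact h1 rfl
        simp only [if_neg h3]
        exact ⟨(mem_G h).mpr (Or.inr ⟨hr, h4, h5⟩), trivial, b4 r h4 h5⟩
    · intro r hr r' hr' h1 h1' he
      by_cases h3 : r = (v2, b) <;> by_cases h3' : r' = (v2, b)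
      · rw [h3, h3']
      · rw [if_pos h3, if_neg h3'] at he
        have h6 := h.hQ1 r' hr' (by rw [← he])
        rw [h6] at h1'
        exact absurd rfl h1'
      · rw [if_neg h3, if_pos h3'] at he
        have h6 := h.hQ1 r hr (by rw [he])
        rw [h6] at h1
        exact absurd rfl h1
      · rwa [if_neg h3, if_neg h3'] at he

end

/-- Finger lemma, case down/up. -/
theorem finger_du {E : Lk} {k : ℤ} (hE : Closed E) {v1 v2 a b t : ℚ} (h12 : v1 < v2)
    (hadj : ∀ v, v1 < v → v < v2 → deg E k v = 0)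
    (hα : (a, v1) ∈ E (k - 1)) (hβ : (v2, b) ∈ E k) (hγ : (v1, t) ∈ E k) (hγ' : (v2, t) ∈ E k)
    (hbt : b ≠ t) : Rul E ↔ b < t ∧ Rul (mrg E k v1 v2) := by
  have h := sit_of hE h12 hadj hα hβ hγ hγ' hbt
  constructor
  · intro hR
    rcases lt_or_gt_of_ne hbt with h1 | h1
    · exact ⟨h1, fwd h h1 hR⟩
    · exact absurd hR (no_rul h h1)
  · rintro ⟨h1, hR⟩
    exact bwd h h1 hR

end Pool.Agent.Helper24.RUL
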