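import Pool.Agent.Helper24.RUL.Pair

/-!
# RUL-05: basic facts on links (project RUL, MP_409f7f_co)
-/

namespace Pool.Agent.Helper24.RUL

theorem lexLt_trans {s t u : ℚ × ℚ} (h : lexLt s t) (h' : lexLt t u) : lexLt s u := by
  rcases h with h | ⟨h1, h2⟩
  · rcases h' with h' | ⟨h1', h2'⟩
    · exact Or.inl (h.trans h')
    · exact Or.inl (h1' ▸ h)
  · rcases h' with h' | ⟨h1', h2'⟩
    · exact Or.inl (h1 ▸ h')
    · exact Or.inr ⟨h1.trans h1', h2.trans h2'⟩

theorem lexLt_irrefl (s : ℚ × ℚ) : ¬ lexLt s s := by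
  rintro (h | ⟨_, h⟩) <;> exact lt_irrefl _ h

theorem lexLt_total (s t : ℚ × ℚ) : lexLt s t ∨ s = t ∨ lexLt t s := by
  rcases lt_trichotomy s.1 t.1 with h | h | h
  · exact Or.inl (Or.inl h)
  · rcases lt_trichotomy s.2 t.2 with h' | h' | h'
    · exact Or.inl (Or.inr ⟨h, h'⟩)
    · exact Or.inr (Or.inl (Prod.ext h h'))
    · exact Or.inr (Or.inr (Or.inr ⟨h.symm, h'⟩))
  · exact Or.inr (Or.inr (Or.inl h))

theorem mem_AL {F : Finset (ℚ × ℚ)} {s : ℚ × ℚ} : s ∈ AL F ↔ s ∈ F := by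
  unfold AL
  simp only [List.mem_map, Finset.mem_sort, Finset.mem_map, Equiv.coe_toEmbedding]
  constructor
  · rintro ⟨a, ⟨b, hb, rfl⟩, rfl⟩
    simpa using hb
  · intro h
    exact ⟨toLex s, ⟨s, h, rfl⟩, rfl⟩

theorem AL_pairwise (F : Finset (ℚ × ℚ)) : (AL F).Pairwise lexLt := by
  unfold AL
  rw [List.pairwise_map]
  have h := (Finset.sortedLT_sort (F.map toLex.toEmbedding)).pairwise
  refine h.imp ?_
  intro a b hab
  exact Prod.Lex.lt_iff.mp hab

theorem AL_nodup (F : Finset (ℚ × ℚ)) : (AL F).Nodup := by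
  refine (AL_pairwise F).imp ?_
  rintro a b hab rfl
  exact lexLt_irrefl _ hab

theorem AL_unique {F : Finset (ℚ × ℚ)} {L : List (ℚ × ℚ)} (h : L.Pairwise lexLt)
    (hm : ∀ s, s ∈ L ↔ s ∈ F) : L = AL F := by
  have hn : L.Nodup := by
    refine h.imp ?_
    rintro a b hab rfl
    exact lexLt_irrefl _ hab
  have hp : L.Perm (AL F) := by
    rw [List.perm_ext_iff_of_nodup hn (AL_nodup F)]
    intro a
    rw [hm, mem_AL]
  exact hp.eq_of_pairwise (fun a b _ _ hab hba => absurd (lexLt_trans hab hba) (lexLt_irrefl _)) h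
    (AL_pairwise F)

theorem mem_BL {F : Finset (ℚ × ℚ)} {s : ℚ × ℚ} : s ∈ BL F ↔ s ∈ F := by
  unfold BL
  simp only [List.mem_map, mem_AL, Finset.mem_image]
  constructor
  · rintro ⟨a, ⟨b, hb, rfl⟩, rfl⟩
    simpa using hb
  · intro h
    exact ⟨s.swap, ⟨s, h, rfl⟩, Prod.swap_swap s⟩

theorem BL_pairwise (F : Finset (ℚ × ℚ)) :
    (BL F).Pairwise (fun s t => lexLt s.swap t.swap) := by
  unfold BL
  rw [List.pairwise_map]
  refine (AL_pairwise _).imp ?_
  intro a b hab
  simpa using hab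

theorem BL_nodup (F : Finset (ℚ × ℚ)) : (BL F).Nodup := by
  refine (BL_pairwise F).imp ?_
  rintro a b hab rfl
  exact lexLt_irrefl _ hab

theorem BL_unique {F : Finset (ℚ × ℚ)} {L : List (ℚ × ℚ)}
    (h : L.Pairwise (fun s t => lexLt s.swap t.swap)) (hm : ∀ s, s ∈ L ↔ s ∈ F) : L = BL F := by
  have hn : L.Nodup := by
    refine h.imp ?_
    rintro a b hab rfl
    exact lexLt_irrefl _ hab
  have hp : L.Perm (BL F) := by
    rw [List.perm_ext_iff_of_nodup hn (BL_nodup F)]
    intro a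
    rw [hm, mem_BL]
  exact hp.eq_of_pairwise (fun a b _ _ hab hba => absurd (lexLt_trans hab hba) (lexLt_irrefl _)) h
    (BL_pairwise F)

theorem AL_perm_BL (F : Finset (ℚ × ℚ)) : (AL F).Perm (BL F) := by
  rw [List.perm_ext_iff_of_nodup (AL_nodup F) (BL_nodup F)]
  intro a
  rw [mem_AL, mem_BL]

/-- The positions in a list sorted by a strict linear order. -/
private lemma idx_lt_iff {α : Type*} [BEq α] [LawfulBEq α] {R : α → α → Prop} {L : List α}
    (hL : L.Pairwise R) (htr : ∀ a b c, R a b → R b c → R a c) (hir : ∀ a, ¬ R a a)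
    {s t : α} (hs : s ∈ L) (ht : t ∈ L) : L.idxOf s < L.idxOf t ↔ R s t := by
  have hs' : L.idxOf s < L.length := List.idxOf_lt_length_iff.mpr hs
  have ht' : L.idxOf t < L.length := List.idxOf_lt_length_iff.mpr ht
  have es : L[L.idxOf s] = s := List.getElem_idxOf hs'
  have et : L[L.idxOf t] = t := List.getElem_idxOf ht'
  have hg := List.pairwise_iff_getElem.mp hL
  constructor
  · intro h
    have := hg _ _ hs' ht' h
    rwa [es, et] at this
  · intro h
    rcases lt_trichotomy (L.idxOf s) (L.idxOf t) with h1 | h1 | h1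
    · exact h1
    · exfalso
      have e : s = t := by
        rw [← es, ← et]
        congr 1
      exact hir _ (e ▸ h)
    · exfalso
      have := hg _ _ ht' hs' h1
      rw [es, et] at this
      exact hir _ (htr _ _ _ h this)

theorem AL_idx {F : Finset (ℚ × ℚ)} {s t : ℚ × ℚ} (hs : s ∈ F) (ht : t ∈ F) :
    (AL F).idxOf s < (AL F).idxOf t ↔ lexLt s t :=
  idx_lt_iff (AL_pairwise F) (fun _ _ _ h h' => lexLt_trans h h') lexLt_irrefl
    (mem_AL.mpr hs) (mem_AL.mpr ht)

theorem BL_idx {F : Finset (ℚ × ℚ)} {s t : ℚ × ℚ} (hs : s ∈ F) (ht : t ∈ F) :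
    (BL F).idxOf s < (BL F).idxOf t ↔ lexLt s.swap t.swap :=
  idx_lt_iff (R := fun s t : ℚ × ℚ => lexLt s.swap t.swap) (BL_pairwise F)
    (fun _ _ _ h h' => lexLt_trans h h') (fun a => lexLt_irrefl a.swap)
    (mem_BL.mpr hs) (mem_BL.mpr ht)

/-- `AL_idx` for the instance that occurs in `Srt` and `Btw`. -/
theorem AL_idx' {F : Finset (ℚ × ℚ)} {s t : ℚ × ℚ} (hs : s ∈ F) (ht : t ∈ F) :
    @List.idxOf (ℚ × ℚ) instBEqOfDecidableEq s (AL F) <
      @List.idxOf (ℚ × ℚ) instBEqOfDecidableEq t (AL F) ↔ lexLt s t :=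
  @idx_lt_iff (ℚ × ℚ) instBEqOfDecidableEq inferInstance lexLt (AL F) (AL_pairwise F)
    (fun _ _ _ h h' => lexLt_trans h h') lexLt_irrefl s t (mem_AL.mpr hs) (mem_AL.mpr ht)

/-- `BL_idx` for the instance that occurs in `Srt` and `Btw`. -/
theorem BL_idx' {F : Finset (ℚ × ℚ)} {s t : ℚ × ℚ} (hs : s ∈ F) (ht : t ∈ F) :
    @List.idxOf (ℚ × ℚ) instBEqOfDecidableEq s (BL F) <
      @List.idxOf (ℚ × ℚ) instBEqOfDecidableEq t (BL F) ↔ lexLt s.swap t.swap :=
  @idx_lt_iff (ℚ × ℚ) instBEqOfDecidableEq inferInstance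
    (fun s t : ℚ × ℚ => lexLt s.swap t.swap) (BL F) (BL_pairwise F)
    (fun _ _ _ h h' => lexLt_trans h h') (fun a => lexLt_irrefl a.swap) s t
    (mem_BL.mpr hs) (mem_BL.mpr ht)

private lemma AL_emp : AL ∅ = [] := by
  refine (AL_unique List.Pairwise.nil ?_).symm
  simp

private lemma BL_emp : BL ∅ = [] := by
  refine (BL_unique List.Pairwise.nil ?_).symm
  simp

theorem rul_empty : Rul (fun _ => ∅) := by
  refine ⟨fun _ _ => 0, fun _ _ => 0, fun k => ⟨?_, ?_, ?_⟩⟩
  · rw [AL_emp]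
    intro p hp
    simp at hp
  · rw [AL_emp, BL_emp]
    exact (srtN_self List.nodup_nil).2 (Ren.refl _)
  · refine ⟨?_, ?_, ?_⟩
    · intro s hs
      simp at hs
    · intro s hs
      simp at hs
    · intro s hs
      simp at hs

/-- Time reversal. -/
def rev (E : Lk) : Lk := fun k => (E (-1 - k)).image Prod.swap

theorem rev_rev (E : Lk) : rev (rev E) = E := by
  funext k
  unfold rev
  rw [Finset.image_image, Prod.swap_swap_eq, Finset.image_id]
  congr 1
  ring

private lemma card_swap (F : Finset (ℚ × ℚ)) (P : ℚ × ℚ → Prop) [DecidablePred P]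
    [DecidablePred fun s : ℚ × ℚ => P s.swap] :
    ((F.image Prod.swap).filter P).card = (F.filter (fun s => P s.swap)).card := by
  rw [Finset.filter_image, Finset.card_image_of_injective _ Prod.swap_injective]
  congr!

theorem rev_closed {E : Lk} (h : Closed E) : Closed (rev E) := by
  intro k v
  have e : deg (rev E) k v = deg E (-k) v := by
    unfold deg rev
    rw [card_swap, card_swap]
    have e1 : -1 - (k - 1) = -k := by ring
    have e2 : -1 - k = -k - 1 := by ring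
    rw [e1, e2, add_comm]
    rfl
  rw [e]
  exact h (-k) v

private lemma AL_rev (E : Lk) (k : ℤ) : AL (rev E k) = (BL (E (-1 - k))).map Prod.swap := by
  unfold rev BL
  rw [List.map_map, Prod.swap_swap_eq, List.map_id]

private lemma BL_rev (E : Lk) (k : ℤ) : BL (rev E k) = (AL (E (-1 - k))).map Prod.swap := by
  unfold rev BL
  rw [Finset.image_image, Prod.swap_swap_eq, Finset.image_id]

private lemma mem_rev {E : Lk} {k : ℤ} {s : ℚ × ℚ} : s ∈ rev E k ↔ s.swap ∈ E (-1 - k) := by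
  unfold rev
  rw [Finset.mem_image]
  constructor
  · rintro ⟨a, ha, rfl⟩
    simpa using ha
  · intro h
    exact ⟨s.swap, h, Prod.swap_swap s⟩

private lemma rul_rev_of (E : Lk) (h : Rul E) : Rul (rev E) := by
  obtain ⟨a, b, h⟩ := h
  refine ⟨fun k s => b (-1 - k) s.swap, fun k s => a (-1 - k) s.swap, fun k => ?_⟩
  have hk := h (-1 - k)
  have hsw : ∀ f : ℚ × ℚ → ℕ, (fun s => f (Prod.swap s)) ∘ Prod.swap = f := by
    intro f
    funext s
    simp
  refine ⟨?_, ?_, ?_⟩
  · rw [AL_rev, List.map_map, hsw]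
    exact srtN_two hk.1 hk.2.1
  · rw [AL_rev, BL_rev, List.map_map, List.map_map, hsw, hsw]
    have h1 := srtN_symm hk.1 (AL_nodup _) hk.2.1
    exact (srtN_map Prod.swap (AL_perm_BL (E (-1 - k))).symm
      (fun x _ y _ hxy => Prod.swap_injective hxy)).mpr h1
  · obtain ⟨h1, h2, h3⟩ := (h (-k)).2.2
    have e1 : -1 - (k - 1) = -k := by ring
    have e2 : -1 - k = -k - 1 := by ring
    refine ⟨?_, ?_, ?_⟩
    · intro s hs s' hs' hne heq
      rw [mem_rev, e1] at hs hs'
      simp only [e1]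
      exact h2 _ hs _ hs' (fun h => hne (Prod.swap_injective h)) heq
    · intro s hs s' hs' hne heq
      rw [mem_rev, e2] at hs hs'
      simp only [e2]
      exact h1 _ hs _ hs' (fun h => hne (Prod.swap_injective h)) heq
    · intro s hs s' hs' t ht t' ht' h4 h5
      rw [mem_rev, e1] at hs hs'
      rw [mem_rev, e2] at ht ht'
      simp only [e1, e2]
      exact (h3 _ ht _ ht' _ hs _ hs' h4.symm h5.symm).symm

/-- Put `a' k = b (-1 - k) ∘ swap`, `b' k = a (-1 - k) ∘ swap`; use `srt_symm`, `srt_map` for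
`Prod.swap`, and `srt_inv` (all lists of labels satisfy `Two`). -/
theorem rul_rev (E : Lk) : Rul (rev E) ↔ Rul E := by
  refine ⟨fun h => ?_, rul_rev_of E⟩
  have := rul_rev_of (rev E) h
  rwa [rev_rev] at this

end Pool.Agent.Helper24.RUL
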