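import Pool.Agent.Helper24.RUL.Link

/-!
# RUL-06: more list facts (project RUL, MP_409f7f_co)
All are consequences of `AL_unique`, `BL_unique`, `AL_pairwise`, ...
-/

namespace Pool.Agent.Helper24.RUL

theorem AL_union {F G : Finset (ℚ × ℚ)} (h : ∀ s ∈ F, ∀ t ∈ G, lexLt s t) :
    AL (F ∪ G) = AL F ++ AL G := by
  refine (AL_unique ?_ ?_).symm
  · rw [List.pairwise_append]
    exact ⟨AL_pairwise F, AL_pairwise G, fun a ha b hb => h a (mem_AL.mp ha) b (mem_AL.mp hb)⟩
  · intro s
    rw [List.mem_append, mem_AL, mem_AL, Finset.mem_union]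

theorem BL_union {F G : Finset (ℚ × ℚ)} (h : ∀ s ∈ F, ∀ t ∈ G, lexLt s.swap t.swap) :
    BL (F ∪ G) = BL F ++ BL G := by
  refine (BL_unique ?_ ?_).symm
  · rw [List.pairwise_append]
    exact ⟨BL_pairwise F, BL_pairwise G, fun a ha b hb => h a (mem_BL.mp ha) b (mem_BL.mp hb)⟩
  · intro s
    rw [List.mem_append, mem_BL, mem_BL, Finset.mem_union]

theorem AL_image {F : Finset (ℚ × ℚ)} (μ : ℚ × ℚ → ℚ × ℚ)
    (h : ∀ s ∈ F, ∀ t ∈ F, lexLt s t → lexLt (μ s) (μ t)) : AL (F.image μ) = (AL F).map μ := by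
  refine (AL_unique ?_ ?_).symm
  · rw [List.pairwise_map]
    exact (AL_pairwise F).imp_of_mem fun ha hb hab => h _ (mem_AL.mp ha) _ (mem_AL.mp hb) hab
  · intro s
    rw [List.mem_map, Finset.mem_image]
    simp only [mem_AL]

theorem BL_image {F : Finset (ℚ × ℚ)} (μ : ℚ × ℚ → ℚ × ℚ)
    (h : ∀ s ∈ F, ∀ t ∈ F, lexLt s.swap t.swap → lexLt (μ s).swap (μ t).swap) :
    BL (F.image μ) = (BL F).map μ := by
  refine (BL_unique ?_ ?_).symm
  · rw [List.pairwise_map]
    exact (BL_pairwise F).imp_of_mem fun ha hb hab => h _ (mem_BL.mp ha) _ (mem_BL.mp hb) hab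
  · intro s
    rw [List.mem_map, Finset.mem_image]
    simp only [mem_BL]

theorem AL_empty : AL ∅ = [] := by
  refine (AL_unique List.Pairwise.nil ?_).symm
  intro s
  simp

theorem BL_empty : BL ∅ = [] := by
  refine (BL_unique List.Pairwise.nil ?_).symm
  intro s
  simp

theorem AL_singleton (s : ℚ × ℚ) : AL {s} = [s] := by
  refine (AL_unique (List.pairwise_singleton _ _) ?_).symm
  intro t
  simp

theorem BL_singleton (s : ℚ × ℚ) : BL {s} = [s] := by
  refine (BL_unique (List.pairwise_singleton _ _) ?_).symm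
  intro t
  simp

theorem AL_pair {s t : ℚ × ℚ} (h : lexLt s t) : AL {s, t} = [s, t] := by
  refine (AL_unique ?_ ?_).symm
  · rw [List.pairwise_pair]
    exact h
  · intro u
    simp

theorem BL_pair {s t : ℚ × ℚ} (h : lexLt s.swap t.swap) : BL {s, t} = [s, t] := by
  refine (BL_unique ?_ ?_).symm
  · rw [List.pairwise_pair]
    exact h
  · intro u
    simp

/-- Decomposition by the first coordinate. -/
theorem AL_split (F : Finset (ℚ × ℚ)) (v : ℚ) :
    AL F = AL (F.filter (fun s => s.1 < v)) ++ AL (F.filter (fun s => s.1 = v)) ++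
      AL (F.filter (fun s => v < s.1)) := by
  have e : F.filter (fun s => s.1 < v) ∪ F.filter (fun s => s.1 = v) ∪
      F.filter (fun s => v < s.1) = F := by
    ext s
    simp only [Finset.mem_union, Finset.mem_filter]
    constructor
    · rintro ((h | h) | h) <;> exact h.1
    · intro h
      rcases lt_trichotomy s.1 v with h1 | h1 | h1
      · exact Or.inl (Or.inl ⟨h, h1⟩)
      · exact Or.inl (Or.inr ⟨h, h1⟩)
      · exact Or.inr ⟨h, h1⟩
  rw [← AL_union, ← AL_union, e]
  · intro s hs t ht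
    simp only [Finset.mem_union, Finset.mem_filter] at hs ht
    rcases hs with hs | hs
    · exact Or.inl (hs.2.trans ht.2)
    · exact Or.inl (hs.2.trans_lt ht.2)
  · intro s hs t ht
    simp only [Finset.mem_filter] at hs ht
    exact Or.inl (hs.2.trans_eq ht.2.symm)

/-- Decomposition by the second coordinate. -/
theorem BL_split (F : Finset (ℚ × ℚ)) (v : ℚ) :
    BL F = BL (F.filter (fun s => s.2 < v)) ++ BL (F.filter (fun s => s.2 = v)) ++
      BL (F.filter (fun s => v < s.2)) := by
  have e : F.filter (fun s => s.2 < v) ∪ F.filter (fun s => s.2 = v) ∪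
      F.filter (fun s => v < s.2) = F := by
    ext s
    simp only [Finset.mem_union, Finset.mem_filter]
    constructor
    · rintro ((h | h) | h) <;> exact h.1
    · intro h
      rcases lt_trichotomy s.2 v with h1 | h1 | h1
      · exact Or.inl (Or.inl ⟨h, h1⟩)
      · exact Or.inl (Or.inr ⟨h, h1⟩)
      · exact Or.inr ⟨h, h1⟩
  rw [← BL_union, ← BL_union, e]
  · intro s hs t ht
    simp only [Finset.mem_union, Finset.mem_filter] at hs ht
    rcases hs with hs | hs
    · exact Or.inl (hs.2.trans ht.2)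
    · exact Or.inl (hs.2.trans_lt ht.2)
  · intro s hs t ht
    simp only [Finset.mem_filter] at hs ht
    exact Or.inl (hs.2.trans_eq ht.2.symm)

/-- Decomposition at two adjacent values. -/
theorem AL_split2 (F : Finset (ℚ × ℚ)) {v w : ℚ} (hvw : v < w)
    (h : ∀ s ∈ F, ¬ (v < s.1 ∧ s.1 < w)) :
    AL F = AL (F.filter (fun s => s.1 < v)) ++ AL (F.filter (fun s => s.1 = v)) ++
      AL (F.filter (fun s => s.1 = w)) ++ AL (F.filter (fun s => w < s.1)) := by
  have h1 := AL_split F v
  have h2 := AL_split (F.filter (fun s => v < s.1)) w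
  have e1 : (F.filter (fun s => v < s.1)).filter (fun s => s.1 < w) = ∅ := by
    ext s
    simp only [Finset.mem_filter]
    constructor
    · intro hs
      exact absurd ⟨hs.1.2, hs.2⟩ (h s hs.1.1)
    · intro hs
      exact absurd hs (Finset.notMem_empty s)
  have e2 : (F.filter (fun s => v < s.1)).filter (fun s => s.1 = w) =
      F.filter (fun s => s.1 = w) := by
    ext s
    simp only [Finset.mem_filter]
    constructor
    · intro hs
      exact ⟨hs.1.1, hs.2⟩
    · intro hs
      exact ⟨⟨hs.1, hs.2 ▸ hvw⟩, hs.2⟩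
  have e3 : (F.filter (fun s => v < s.1)).filter (fun s => w < s.1) =
      F.filter (fun s => w < s.1) := by
    ext s
    simp only [Finset.mem_filter]
    constructor
    · intro hs
      exact ⟨hs.1.1, hs.2⟩
    · intro hs
      exact ⟨⟨hs.1, hvw.trans hs.2⟩, hs.2⟩
  rw [e1, e2, e3, AL_empty, List.nil_append] at h2
  rw [h2, ← List.append_assoc] at h1
  exact h1

theorem BL_split2 (F : Finset (ℚ × ℚ)) {v w : ℚ} (hvw : v < w)
    (h : ∀ s ∈ F, ¬ (v < s.2 ∧ s.2 < w)) :
    BL F = BL (F.filter (fun s => s.2 < v)) ++ BL (F.filter (fun s => s.2 = v)) ++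
      BL (F.filter (fun s => s.2 = w)) ++ BL (F.filter (fun s => w < s.2)) := by
  have h1 := BL_split F v
  have h2 := BL_split (F.filter (fun s => v < s.2)) w
  have e1 : (F.filter (fun s => v < s.2)).filter (fun s => s.2 < w) = ∅ := by
    ext s
    simp only [Finset.mem_filter]
    constructor
    · intro hs
      exact absurd ⟨hs.1.2, hs.2⟩ (h s hs.1.1)
    · intro hs
      exact absurd hs (Finset.notMem_empty s)
  have e2 : (F.filter (fun s => v < s.2)).filter (fun s => s.2 = w) =
      F.filter (fun s => s.2 = w) := by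
    ext s
    simp only [Finset.mem_filter]
    constructor
    · intro hs
      exact ⟨hs.1.1, hs.2⟩
    · intro hs
      exact ⟨⟨hs.1, hs.2 ▸ hvw⟩, hs.2⟩
  have e3 : (F.filter (fun s => v < s.2)).filter (fun s => w < s.2) =
      F.filter (fun s => w < s.2) := by
    ext s
    simp only [Finset.mem_filter]
    constructor
    · intro hs
      exact ⟨hs.1.1, hs.2⟩
    · intro hs
      exact ⟨⟨hs.1, hvw.trans hs.2⟩, hs.2⟩
  rw [e1, e2, e3, BL_empty, List.nil_append] at h2
  rw [h2, ← List.append_assoc] at h1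
  exact h1

end Pool.Agent.Helper24.RUL
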