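import Pool.Agent.Helper24.RUL.Lists

/-!
# RUL-07: monotone relabelling and bookkeeping for `rel` (project RUL, MP_409f7f_co)
-/

namespace Pool.Agent.Helper24.RUL

variable {E : Lk} {k : ℤ}

theorem deg_pos_hi {v x : ℚ} (h : (x, v) ∈ E (k - 1)) : deg E k v ≠ 0 := by
  unfold deg
  have h1 : 0 < ((E (k - 1)).filter (fun s => s.2 = v)).card := by
    rw [Finset.card_pos]
    exact ⟨(x, v), Finset.mem_filter.2 ⟨h, rfl⟩⟩
  omega

theorem deg_pos_lo {v x : ℚ} (h : (v, x) ∈ E k) : deg E k v ≠ 0 := by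
  unfold deg
  have h1 : 0 < ((E k).filter (fun s => s.1 = v)).card := by
    rw [Finset.card_pos]
    exact ⟨(v, x), Finset.mem_filter.2 ⟨h, rfl⟩⟩
  omega

/-- Injectivity of `φ` on the values of level `k` that are used. -/
def InjU (E : Lk) (k : ℤ) (φ : ℚ → ℚ) : Prop :=
  ∀ v w, deg E k v ≠ 0 → deg E k w ≠ 0 → φ v = φ w → v = w

/-- The relabelling of the strands of layer `j`. -/
private def mu (k : ℤ) (φ : ℚ → ℚ) (j : ℤ) (s : ℚ × ℚ) : ℚ × ℚ :=
  if j = k - 1 then (s.1, φ s.2) else if j = k then (φ s.1, s.2) else s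

private theorem mu_hi (φ : ℚ → ℚ) (s : ℚ × ℚ) : mu k φ (k - 1) s = (s.1, φ s.2) := by
  unfold mu
  rw [if_pos rfl]

private theorem mu_lo (φ : ℚ → ℚ) (s : ℚ × ℚ) : mu k φ k s = (φ s.1, s.2) := by
  unfold mu
  rw [if_neg (by omega), if_pos rfl]

private theorem mu_other (φ : ℚ → ℚ) {j : ℤ} (h1 : j ≠ k - 1) (h2 : j ≠ k) (s : ℚ × ℚ) :
    mu k φ j s = s := by
  unfold mu
  rw [if_neg h1, if_neg h2]

private theorem rel_eq (φ : ℚ → ℚ) (j : ℤ) : rel E k φ j = (E j).image (mu k φ j) := by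
  unfold rel
  by_cases h1 : j = k - 1
  · subst h1
    rw [if_pos rfl]
    exact Finset.image_congr fun s _ => (mu_hi φ s).symm
  · rw [if_neg h1]
    by_cases h2 : j = k
    · subst h2
      rw [if_pos rfl]
      exact Finset.image_congr fun s _ => (mu_lo φ s).symm
    · rw [if_neg h2]
      have : (E j).image (mu k φ j) = (E j).image id :=
        Finset.image_congr fun s _ => mu_other φ h1 h2 s
      rw [this, Finset.image_id]

private theorem rel_hi (φ : ℚ → ℚ) :
    rel E k φ (k - 1) = (E (k - 1)).image (fun s => (s.1, φ s.2)) := by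
  unfold rel
  rw [if_pos rfl]

private theorem rel_lo (φ : ℚ → ℚ) : rel E k φ k = (E k).image (fun s => (φ s.1, s.2)) := by
  unfold rel
  rw [if_neg (by omega), if_pos rfl]

private theorem rel_oth (φ : ℚ → ℚ) {j : ℤ} (h1 : j ≠ k - 1) (h2 : j ≠ k) :
    rel E k φ j = E j := by
  unfold rel
  rw [if_neg h1, if_neg h2]

private theorem mem_rel_hi {φ : ℚ → ℚ} (hφ : InjU E k φ) {v : ℚ} (hv : deg E k v ≠ 0) (x : ℚ) :
    (x, φ v) ∈ rel E k φ (k - 1) ↔ (x, v) ∈ E (k - 1) := by
  rw [rel_hi, Finset.mem_image]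
  constructor
  · rintro ⟨s, hs, h⟩
    rw [Prod.mk.injEq] at h
    have h2 : s.2 = v := hφ _ _ (deg_pos_hi (x := s.1) hs) hv h.2
    rw [← h.1, ← h2]
    exact hs
  · intro h
    exact ⟨(x, v), h, rfl⟩

private theorem mem_rel_lo {φ : ℚ → ℚ} (hφ : InjU E k φ) {v : ℚ} (hv : deg E k v ≠ 0) (x : ℚ) :
    (φ v, x) ∈ rel E k φ k ↔ (v, x) ∈ E k := by
  rw [rel_lo, Finset.mem_image]
  constructor
  · rintro ⟨s, hs, h⟩
    rw [Prod.mk.injEq] at h
    have h2 : s.1 = v := hφ _ _ (deg_pos_lo (x := s.2) hs) hv h.1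
    rw [← h.2, ← h2]
    exact hs
  · intro h
    exact ⟨(v, x), h, rfl⟩

theorem rel_deg_self {φ : ℚ → ℚ} (hφ : InjU E k φ) {v : ℚ} (hv : deg E k v ≠ 0) :
    deg (rel E k φ) k (φ v) = deg E k v := by
  unfold deg
  congr 1
  · symm
    apply Finset.card_bij (fun s _ => ((s.1, φ v) : ℚ × ℚ))
    · intro s hs
      rw [Finset.mem_filter] at hs ⊢
      refine ⟨(mem_rel_hi hφ hv _).2 ?_, rfl⟩
      rw [← hs.2]
      exact hs.1
    · intro s hs t ht h
      rw [Finset.mem_filter] at hs ht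
      rw [Prod.mk.injEq] at h
      exact Prod.ext h.1 (hs.2.trans ht.2.symm)
    · intro s hs
      rw [Finset.mem_filter] at hs
      have h1 : (s.1, φ v) ∈ rel E k φ (k - 1) := by
        rw [← hs.2]
        exact hs.1
      refine ⟨(s.1, v), ?_, ?_⟩
      · rw [Finset.mem_filter]
        exact ⟨(mem_rel_hi hφ hv _).1 h1, rfl⟩
      · exact Prod.ext rfl hs.2.symm
  · symm
    apply Finset.card_bij (fun s _ => ((φ v, s.2) : ℚ × ℚ))
    · intro s hs
      rw [Finset.mem_filter] at hs ⊢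
      refine ⟨(mem_rel_lo hφ hv _).2 ?_, rfl⟩
      rw [← hs.2]
      exact hs.1
    · intro s hs t ht h
      rw [Finset.mem_filter] at hs ht
      rw [Prod.mk.injEq] at h
      exact Prod.ext (hs.2.trans ht.2.symm) h.2
    · intro s hs
      rw [Finset.mem_filter] at hs
      have h1 : (φ v, s.2) ∈ rel E k φ k := by
        rw [← hs.2]
        exact hs.1
      refine ⟨(v, s.2), ?_, ?_⟩
      · rw [Finset.mem_filter]
        exact ⟨(mem_rel_lo hφ hv _).1 h1, rfl⟩
      · exact Prod.ext hs.2.symm rfl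

theorem rel_deg_zero {φ : ℚ → ℚ} {u : ℚ} (hu : ∀ v, deg E k v ≠ 0 → φ v ≠ u) :
    deg (rel E k φ) k u = 0 := by
  unfold deg
  have h1 : (rel E k φ (k - 1)).filter (fun s => s.2 = u) = ∅ := by
    rw [Finset.filter_eq_empty_iff]
    intro s hs h
    rw [rel_hi, Finset.mem_image] at hs
    obtain ⟨t, ht, rfl⟩ := hs
    exact hu t.2 (deg_pos_hi (x := t.1) ht) h
  have h2 : (rel E k φ k).filter (fun s => s.1 = u) = ∅ := by
    rw [Finset.filter_eq_empty_iff]
    intro s hs h
    rw [rel_lo, Finset.mem_image] at hs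
    obtain ⟨t, ht, rfl⟩ := hs
    exact hu t.1 (deg_pos_lo (x := t.2) ht) h
  rw [h1, h2]
  rfl

theorem rel_deg_other {φ : ℚ → ℚ} (hφ : InjU E k φ) {j : ℤ} (hj : j ≠ k) (v : ℚ) :
    deg (rel E k φ) j v = deg E j v := by
  unfold deg
  congr 1
  · by_cases h : j - 1 = k
    · rw [h, rel_lo, Finset.filter_image, Finset.card_image_of_injOn]
      intro s hs t ht hst
      rw [Finset.mem_coe, Finset.mem_filter] at hs ht
      rw [Prod.mk.injEq] at hst
      exact Prod.ext (hφ _ _ (deg_pos_lo (x := s.2) hs.1) (deg_pos_lo (x := t.2) ht.1) hst.1) hst.2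
    · rw [rel_oth φ (by omega) h]
  · by_cases h : j = k - 1
    · rw [h, rel_hi, Finset.filter_image, Finset.card_image_of_injOn]
      intro s hs t ht hst
      rw [Finset.mem_coe, Finset.mem_filter] at hs ht
      rw [Prod.mk.injEq] at hst
      exact Prod.ext hst.1 (hφ _ _ (deg_pos_hi (x := s.1) hs.1) (deg_pos_hi (x := t.1) ht.1) hst.2)
    · rw [rel_oth φ h hj]

theorem rel_closed {φ : ℚ → ℚ} (hφ : InjU E k φ) (hE : Closed E) : Closed (rel E k φ) := by
  intro j v
  by_cases hj : j = k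
  · subst hj
    by_cases h : ∃ w, deg E j w ≠ 0 ∧ φ w = v
    · obtain ⟨w, hw, rfl⟩ := h
      rw [rel_deg_self hφ hw]
      exact hE j w
    · left
      apply rel_deg_zero
      intro w hw hwv
      exact h ⟨w, hw, hwv⟩
  · rw [rel_deg_other hφ hj]
    exact hE j v

theorem rel_sep {φ : ℚ → ℚ} (hφ : InjU E k φ) {v w : ℚ} (hv : deg E k v ≠ 0)
    (hw : deg E k w ≠ 0) : Sep (rel E k φ) k (φ v) (φ w) ↔ Sep E k v w := by
  unfold Sep
  simp only [mem_rel_hi hφ hv, mem_rel_hi hφ hw, mem_rel_lo hφ hv, mem_rel_lo hφ hw]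

theorem rel_rel (φ ψ : ℚ → ℚ) : rel (rel E k φ) k ψ = rel E k (ψ ∘ φ) := by
  funext j
  by_cases h1 : j = k - 1
  · subst h1
    rw [rel_hi, rel_hi, rel_hi, Finset.image_image]
    rfl
  · by_cases h2 : j = k
    · subst h2
      rw [rel_lo, rel_lo, rel_lo, Finset.image_image]
      rfl
    · rw [rel_oth _ h1 h2, rel_oth _ h1 h2, rel_oth _ h1 h2]

theorem rel_congr {φ ψ : ℚ → ℚ} (h : ∀ v, deg E k v ≠ 0 → φ v = ψ v) :
    rel E k φ = rel E k ψ := by
  funext j
  by_cases h1 : j = k - 1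
  · subst h1
    rw [rel_hi, rel_hi]
    refine Finset.image_congr fun s hs => ?_
    show (s.1, φ s.2) = (s.1, ψ s.2)
    rw [h s.2 (deg_pos_hi (x := s.1) (Finset.mem_coe.1 hs))]
  · by_cases h2 : j = k
    · subst h2
      rw [rel_lo, rel_lo]
      refine Finset.image_congr fun s hs => ?_
      show (φ s.1, s.2) = (ψ s.1, s.2)
      rw [h s.1 (deg_pos_lo (x := s.2) (Finset.mem_coe.1 hs))]
    · rw [rel_oth _ h1 h2, rel_oth _ h1 h2]

theorem rel_id : rel E k id = E := by
  funext j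
  by_cases h1 : j = k - 1
  · subst h1
    rw [rel_hi]
    exact Finset.image_id
  · by_cases h2 : j = k
    · subst h2
      rw [rel_lo]
      exact Finset.image_id
    · rw [rel_oth _ h1 h2]

/-- the hypotheses on a relabelling of the strands under which nothing changes -/
private structure Good (E F : Lk) (μ : ℤ → ℚ × ℚ → ℚ × ℚ) : Prop where
  img : ∀ j, F j = (E j).image (μ j)
  A : ∀ j, ∀ s ∈ E j, ∀ t ∈ E j, lexLt s t → lexLt (μ j s) (μ j t)
  B : ∀ j, ∀ s ∈ E j, ∀ t ∈ E j, lexLt s.swap t.swap → lexLt (μ j s).swap (μ j t).swap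
  hh : ∀ j, ∀ s ∈ E (j - 1), ∀ t ∈ E (j - 1), (μ (j - 1) s).2 = (μ (j - 1) t).2 ↔ s.2 = t.2
  ll : ∀ j, ∀ s ∈ E j, ∀ t ∈ E j, (μ j s).1 = (μ j t).1 ↔ s.1 = t.1
  hl : ∀ j, ∀ s ∈ E (j - 1), ∀ t ∈ E j, (μ (j - 1) s).2 = (μ j t).1 ↔ s.2 = t.1

private theorem Good.inj {E F : Lk} {μ : ℤ → ℚ × ℚ → ℚ × ℚ} (h : Good E F μ) (j : ℤ) {s t : ℚ × ℚ}
    (hs : s ∈ E j) (ht : t ∈ E j) (e : μ j s = μ j t) : s = t := by
  rcases lexLt_total s t with h1 | h1 | h1
  · have := h.A j s hs t ht h1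
    rw [e] at this
    exact absurd this (lexLt_irrefl _)
  · exact h1
  · have := h.A j t ht s hs h1
    rw [e] at this
    exact absurd this (lexLt_irrefl _)

private theorem Good.iff {E F : Lk} {μ : ℤ → ℚ × ℚ → ℚ × ℚ} (h : Good E F μ)
    {a b a' b' : ℤ → ℚ × ℚ → ℕ} (ha : ∀ j, ∀ s ∈ E j, a' j (μ j s) = a j s)
    (hb : ∀ j, ∀ s ∈ E j, b' j (μ j s) = b j s) (j : ℤ) :
    (Two ((AL (F j)).map (a' j)) ∧
      Srt (BL (F j)) (AL (F j)) ((AL (F j)).map (a' j)) ((BL (F j)).map (b' j)) ∧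
      Lev F j (b' (j - 1)) (a' j)) ↔
    (Two ((AL (E j)).map (a j)) ∧
      Srt (BL (E j)) (AL (E j)) ((AL (E j)).map (a j)) ((BL (E j)).map (b j)) ∧
      Lev E j (b (j - 1)) (a j)) := by
  have eA : AL (F j) = (AL (E j)).map (μ j) := by
    rw [h.img j]
    exact AL_image (μ j) (h.A j)
  have eB : BL (F j) = (BL (E j)).map (μ j) := by
    rw [h.img j]
    exact BL_image (μ j) (h.B j)
  have ea : (AL (F j)).map (a' j) = (AL (E j)).map (a j) := by
    rw [eA, List.map_map]
    exact List.map_congr_left fun s hs => ha j s (mem_AL.1 hs)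
  have eb : (BL (F j)).map (b' j) = (BL (E j)).map (b j) := by
    rw [eB, List.map_map]
    exact List.map_congr_left fun s hs => hb j s (mem_BL.1 hs)
  have eS : Srt (BL (F j)) (AL (F j)) ((AL (F j)).map (a' j)) ((BL (F j)).map (b' j)) ↔
      Srt (BL (E j)) (AL (E j)) ((AL (E j)).map (a j)) ((BL (E j)).map (b j)) := by
    rw [ea, eb, eA, eB]
    exact srtN_map (μ j) (AL_perm_BL (E j))
      (fun x hx y hy => h.inj j (mem_AL.1 hx) (mem_AL.1 hy))
  have eL : Lev F j (b' (j - 1)) (a' j) ↔ Lev E j (b (j - 1)) (a j) := by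
    have hne1 : ∀ s ∈ E (j - 1), ∀ t ∈ E (j - 1), μ (j - 1) s ≠ μ (j - 1) t ↔ s ≠ t := by
      intro s hs t ht
      constructor
      · intro h1 h2
        exact h1 (by rw [h2])
      · intro h1 h2
        exact h1 (h.inj _ hs ht h2)
    have hne2 : ∀ s ∈ E j, ∀ t ∈ E j, μ j s ≠ μ j t ↔ s ≠ t := by
      intro s hs t ht
      constructor
      · intro h1 h2
        exact h1 (by rw [h2])
      · intro h1 h2
        exact h1 (h.inj _ hs ht h2)
    unfold Lev
    rw [h.img (j - 1), h.img j]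
    simp only [Finset.forall_mem_image]
    refine and_congr ?_ (and_congr ?_ ?_)
    · refine forall_congr' fun s => forall_congr' fun hs => forall_congr' fun t =>
        forall_congr' fun ht => ?_
      rw [hne1 s hs t ht, h.hh j s hs t ht, hb _ s hs, hb _ t ht]
    · refine forall_congr' fun s => forall_congr' fun hs => forall_congr' fun t =>
        forall_congr' fun ht => ?_
      rw [hne2 s hs t ht, h.ll j s hs t ht, ha _ s hs, ha _ t ht]
    · refine forall_congr' fun s => forall_congr' fun hs => forall_congr' fun s' =>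
        forall_congr' fun hs' => forall_congr' fun t => forall_congr' fun ht =>
        forall_congr' fun t' => forall_congr' fun ht' => ?_
      rw [h.hl j s hs t ht, h.hl j s' hs' t' ht', hb _ s hs, hb _ s' hs', ha _ t ht, ha _ t' ht']
  rw [eS, eL, ea]

private theorem Good.rul {E F : Lk} {μ : ℤ → ℚ × ℚ → ℚ × ℚ} (h : Good E F μ) : Rul F ↔ Rul E := by
  classical
  constructor
  · rintro ⟨a', b', hr⟩
    refine ⟨fun j s => a' j (μ j s), fun j s => b' j (μ j s), fun j => ?_⟩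
    exact (h.iff (a' := a') (b' := b') (fun j s _ => rfl) (fun j s _ => rfl) j).1 (hr j)
  · rintro ⟨a, b, hr⟩
    have key : ∀ (c : ℤ → ℚ × ℚ → ℕ), ∃ c' : ℤ → ℚ × ℚ → ℕ,
        ∀ j, ∀ s ∈ E j, c' j (μ j s) = c j s := by
      intro c
      refine ⟨fun j s' => if hs : ∃ s ∈ E j, μ j s = s' then c j hs.choose else 0, ?_⟩
      intro j s hs
      have hex : ∃ t ∈ E j, μ j t = μ j s := ⟨s, hs, rfl⟩
      have e1 : hex.choose = s := h.inj j hex.choose_spec.1 hs hex.choose_spec.2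
      show (if hs : ∃ t ∈ E j, μ j t = μ j s then c j hs.choose else 0) = c j s
      rw [dif_pos hex, e1]
    obtain ⟨a', ha⟩ := key a
    obtain ⟨b', hb⟩ := key b
    exact ⟨a', b', fun j => (h.iff ha hb j).2 (hr j)⟩

/-- A strictly monotone relabelling does not change anything. Put
`a' (k) (φ x, y) = a k (x, y)`, `a' (k-1) (x, φ y) = a (k-1) (x, y)`, the same for `b`; all lists are
the images of the old lists (`AL_image`, `BL_image`), use `srtN_map`. -/
theorem rel_mono {φ : ℚ → ℚ} (hφ : ∀ v w, deg E k v ≠ 0 → deg E k w ≠ 0 → v < w → φ v < φ w) :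
    Rul (rel E k φ) ↔ Rul E := by
  have hinj : InjU E k φ := by
    intro v w hv hw e
    rcases lt_trichotomy v w with h | h | h
    · have := hφ v w hv hw h
      rw [e] at this
      exact absurd this (lt_irrefl _)
    · exact h
    · have := hφ w v hw hv h
      rw [e] at this
      exact absurd this (lt_irrefl _)
  have uh : ∀ s ∈ E (k - 1), deg E k s.2 ≠ 0 := fun s hs => deg_pos_hi (x := s.1) hs
  have ul : ∀ s ∈ E k, deg E k s.1 ≠ 0 := fun s hs => deg_pos_lo (x := s.2) hs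
  have fst_eq : ∀ j, j ≠ k → ∀ s, (mu k φ j s).1 = s.1 := by
    intro j hj s
    by_cases h1 : j = k - 1
    · subst h1
      rw [mu_hi]
    · rw [mu_other φ h1 hj]
  have snd_eq : ∀ j, j ≠ k - 1 → ∀ s, (mu k φ j s).2 = s.2 := by
    intro j hj s
    by_cases h1 : j = k
    · subst h1
      rw [mu_lo]
    · rw [mu_other φ hj h1]
  have hA : ∀ j, ∀ s ∈ E j, ∀ t ∈ E j, (s.1 < t.1 → (mu k φ j s).1 < (mu k φ j t).1) ∧
      (s.1 = t.1 → (mu k φ j s).1 = (mu k φ j t).1) ∧
      (s.2 < t.2 → (mu k φ j s).2 < (mu k φ j t).2) ∧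
      (s.2 = t.2 → (mu k φ j s).2 = (mu k φ j t).2) := by
    intro j s hs t ht
    by_cases h1 : j = k - 1
    · subst h1
      rw [mu_hi, mu_hi]
      refine ⟨fun h => h, fun h => h, fun h => hφ _ _ (uh s hs) (uh t ht) h, fun h => ?_⟩
      show φ s.2 = φ t.2
      rw [h]
    · by_cases h2 : j = k
      · subst h2
        rw [mu_lo, mu_lo]
        refine ⟨fun h => hφ _ _ (ul s hs) (ul t ht) h, fun h => ?_, fun h => h, fun h => h⟩
        show φ s.1 = φ t.1
        rw [h]
      · rw [mu_other φ h1 h2, mu_other φ h1 h2]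
        exact ⟨fun h => h, fun h => h, fun h => h, fun h => h⟩
  have G : Good E (rel E k φ) (mu k φ) := by
    refine ⟨rel_eq φ, ?_, ?_, ?_, ?_, ?_⟩
    · intro j s hs t ht h
      obtain ⟨h1, h2, h3, h4⟩ := hA j s hs t ht
      rcases h with h | ⟨h, h'⟩
      · exact Or.inl (h1 h)
      · exact Or.inr ⟨h2 h, h3 h'⟩
    · intro j s hs t ht h
      obtain ⟨h1, h2, h3, h4⟩ := hA j s hs t ht
      rcases h with h | ⟨h, h'⟩
      · exact Or.inl (h3 h)
      · exact Or.inr ⟨h4 h, h1 h'⟩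
    · intro j s hs t ht
      constructor
      · intro h
        by_cases h1 : j - 1 = k - 1
        · rw [h1] at h hs ht
          rw [mu_hi, mu_hi] at h
          exact hinj _ _ (uh s hs) (uh t ht) h
        · rw [snd_eq _ h1, snd_eq _ h1] at h
          exact h
      · exact (hA (j - 1) s hs t ht).2.2.2
    · intro j s hs t ht
      constructor
      · intro h
        by_cases h1 : j = k
        · subst h1
          rw [mu_lo, mu_lo] at h
          exact hinj _ _ (ul s hs) (ul t ht) h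
        · rw [fst_eq _ h1, fst_eq _ h1] at h
          exact h
      · exact (hA j s hs t ht).2.1
    · intro j s hs t ht
      by_cases h1 : j = k
      · subst h1
        rw [mu_hi, mu_lo]
        show φ s.2 = φ t.1 ↔ s.2 = t.1
        constructor
        · intro h
          exact hinj _ _ (uh s hs) (ul t ht) h
        · intro h
          rw [h]
      · rw [snd_eq (j - 1) (by omega), fst_eq j h1]
  exact G.rul

end Pool.Agent.Helper24.RUL
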