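import Pool.Agent.Helper24.RUL.SrtN

/-!
# RUL-04: a parallel pair of equal labels (project RUL, MP_409f7f_co)

`cr_pass_right`, `cr_pass_left`: a strand passes over both strands of a pair with equal labels
(cusp slide). `cr_strip_right`, `cr_strip_left`: crossings away from the pair do not see it.
`pair_nat`: the pair `a, b` (adjacent in both lists) can be removed.

PROOF of `pair_nat`: induction on the number of inversions of `U ++ a :: b :: V` with respect to
`T' = U' ++ a :: b :: V'`. If there is an adjacent inversion inside `U` or inside `V`: `srt_exch` for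
the big and the small list and `cr_strip_*`. If the last name `s` of `U` has to come after `a, b` (in
`T'` the names `a`, `b` are adjacent, so `a` before `s` iff `b` before `s`): two steps `(s,a)`, `(s,b)`
by `srt_exch`, `cr_pass_right`; the small list does not change. The same for the first name of `V`.
If nothing of this is possible the two lists are equal.
`pair_nat'` follows from `pair_nat` for the reversed path (`srt_symm`).
-/

namespace Pool.Agent.Helper24.RUL

private theorem pcr_iff {n : ℕ} {W Z w' : List ℕ} {p q : ℕ} (hn : W.length = n) :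
    Cr n (W ++ p :: q :: Z) w' ↔ p ≠ q ∧ (w' = W ++ q :: p :: Z ∨
      (w' = W ++ p :: q :: Z ∧ (Z ++ W).idxOf q < (Z ++ W).idxOf p)) := by
  subst hn
  constructor
  · rintro ⟨W1, Z1, p1, q1, he, hl, hne, h⟩
    obtain ⟨rfl, he2⟩ := List.append_inj he hl.symm
    obtain ⟨rfl, he3⟩ := List.cons.inj he2
    obtain ⟨rfl, rfl⟩ := List.cons.inj he3
    exact ⟨hne, h⟩
  · rintro ⟨hne, h⟩
    exact ⟨W, Z, p, q, rfl, rfl, hne, h⟩

/-- In a list with every label twice, the two labels of a pair occur nowhere else. -/
theorem two_pair {W Z : List ℕ} {p : ℕ} (h2 : Two (W ++ p :: p :: Z)) : p ∉ W ∧ p ∉ Z := by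
  have h := h2 p (by simp)
  simp only [List.count_append, List.count_cons_self] at h
  exact ⟨List.count_eq_zero.1 (by omega), List.count_eq_zero.1 (by omega)⟩

theorem two_strip {W Z : List ℕ} {p : ℕ} (h2 : Two (W ++ p :: p :: Z)) : Two (W ++ Z) := by
  intro x hx
  obtain ⟨h3, h4⟩ := two_pair h2
  have hxp : x ≠ p := by
    rintro rfl
    rcases List.mem_append.1 hx with h | h
    · exact h3 h
    · exact h4 h
  have h := h2 x (by
    rcases List.mem_append.1 hx with h | h
    · simp [h]
    · simp [h])
  rw [List.count_append, List.count_cons_of_ne hxp.symm, List.count_cons_of_ne hxp.symm] at h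
  rw [List.count_append]
  exact h

theorem two_unstrip {W Z : List ℕ} {p : ℕ} (h2 : Two (W ++ Z)) (hp : p ∉ W ++ Z) :
    Two (W ++ p :: p :: Z) := by
  intro x hx
  by_cases hxp : x = p
  · subst hxp
    have h3 : x ∉ W := fun h => hp (List.mem_append_left _ h)
    have h4 : x ∉ Z := fun h => hp (List.mem_append_right _ h)
    simp [List.count_append, List.count_eq_zero.2 h3, List.count_eq_zero.2 h4]
  · have h := h2 x (by
      simp only [List.mem_append, List.mem_cons] at hx ⊢
      tauto)
    rw [List.count_append, List.count_cons_of_ne (Ne.symm hxp),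
      List.count_cons_of_ne (Ne.symm hxp), ← List.count_append]
    exact h

theorem cr_pass_right_exact {W Z w' : List ℕ} {x p : ℕ} (h2 : Two (W ++ x :: p :: p :: Z)) :
    (∃ u, Cr W.length (W ++ x :: p :: p :: Z) u ∧ Cr (W.length + 1) u w') ↔
      w' = W ++ p :: p :: x :: Z := by
  have e : ∀ a b c : ℕ, W ++ a :: b :: c :: Z = (W ++ [a]) ++ b :: c :: Z := by simp
  have hp := two_pair (W := W ++ [x]) (Z := Z) (p := p) (by simpa using h2)
  have hxp : x ≠ p := by
    rintro rfl
    simp at hp
  have hx : x ∈ Z ++ W := by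
    have h := h2 x (by simp)
    simp only [List.count_append, List.count_cons_self, List.count_cons_of_ne hxp.symm] at h
    rw [← List.count_pos_iff, List.count_append]
    omega
  have hpp : p ∉ Z ++ W := by
    intro h
    rcases List.mem_append.1 h with h | h
    · exact hp.2 h
    · exact hp.1 (by simp [h])
  constructor
  · rintro ⟨u, h1, h3⟩
    rcases ((pcr_iff rfl).1 h1).2 with rfl | ⟨rfl, -⟩
    · rw [e, pcr_iff (by simp)] at h3
      rcases h3.2 with rfl | ⟨-, h4⟩
      · simp
      · exfalso
        rw [show Z ++ (W ++ [p]) = (Z ++ W) ++ [p] by simp, List.idxOf_append_of_notMem hpp,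
          List.idxOf_append_of_mem hx] at h4
        have := List.idxOf_lt_length_of_mem hx
        omega
    · exfalso
      rw [e, pcr_iff (by simp)] at h3
      exact h3.1 rfl
  · rintro rfl
    refine ⟨W ++ p :: x :: p :: Z, (pcr_iff rfl).2 ⟨hxp, Or.inl rfl⟩, ?_⟩
    rw [e, pcr_iff (by simp)]
    exact ⟨hxp, Or.inl (by simp)⟩

theorem cr_pass_left_exact {W Z w' : List ℕ} {x p : ℕ} (h2 : Two (W ++ p :: p :: x :: Z)) :
    (∃ u, Cr (W.length + 1) (W ++ p :: p :: x :: Z) u ∧ Cr W.length u w') ↔
      w' = W ++ x :: p :: p :: Z := by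
  have e : ∀ a b c : ℕ, W ++ a :: b :: c :: Z = (W ++ [a]) ++ b :: c :: Z := by simp
  have hp := two_pair (W := W) (Z := x :: Z) (p := p) h2
  have hxp : x ≠ p := by
    rintro rfl
    simp at hp
  have hx : x ∈ Z ++ W := by
    have h := h2 x (by simp)
    simp only [List.count_append, List.count_cons_self, List.count_cons_of_ne hxp.symm] at h
    rw [← List.count_pos_iff, List.count_append]
    omega
  have hpp : p ∉ Z ++ W := by
    intro h
    rcases List.mem_append.1 h with h | h
    · exact hp.2 (by simp [h])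
    · exact hp.1 h
  constructor
  · rintro ⟨u, h1, h3⟩
    rw [e, pcr_iff (by simp)] at h1
    rcases h1.2 with h | ⟨h, -⟩
    · rw [← e] at h
      subst h
      rcases ((pcr_iff rfl).1 h3).2 with h | ⟨-, h4⟩
      · exact h
      · exfalso
        rw [show (p :: Z) ++ W = p :: (Z ++ W) by simp] at h4
        rw [List.idxOf_cons_self] at h4
        omega
    · rw [← e] at h
      subst h
      exact absurd rfl ((pcr_iff rfl).1 h3).1
  · rintro rfl
    refine ⟨W ++ p :: x :: p :: Z, ?_, (pcr_iff rfl).2 ⟨hxp.symm, Or.inl rfl⟩⟩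
    rw [e, e, pcr_iff (by simp)]
    exact ⟨hxp.symm, Or.inl rfl⟩

/-- A pair of other labels does not change the order of two labels. -/
private theorem idx_skip {A B : List ℕ} {p a b : ℕ} (ha : a ≠ p) (hb : b ≠ p) :
    (A ++ p :: p :: B).idxOf a < (A ++ p :: p :: B).idxOf b ↔
      (A ++ B).idxOf a < (A ++ B).idxOf b := by
  have key : ∀ x, x ≠ p → (A ++ p :: p :: B).idxOf x =
      if x ∈ A then A.idxOf x else A.length + (B.idxOf x + 2) := by
    intro x hx
    by_cases h : x ∈ A
    · rw [if_pos h, List.idxOf_append_of_mem h]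
    · rw [if_neg h, List.idxOf_append_of_notMem h, List.idxOf_cons_ne _ hx.symm,
        List.idxOf_cons_ne _ hx.symm]
  have key' : ∀ x, (A ++ B).idxOf x = if x ∈ A then A.idxOf x else A.length + B.idxOf x := by
    intro x
    by_cases h : x ∈ A
    · rw [if_pos h, List.idxOf_append_of_mem h]
    · rw [if_neg h, List.idxOf_append_of_notMem h]
  rw [key a ha, key b hb, key' a, key' b]
  have h1 : a ∈ A → A.idxOf a < A.length := List.idxOf_lt_length_of_mem
  have h2 : b ∈ A → A.idxOf b < A.length := List.idxOf_lt_length_of_mem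
  by_cases hA : a ∈ A
  · have h1' := h1 hA
    by_cases hB : b ∈ A
    · simp only [hA, hB, if_true]
    · simp only [hA, hB, if_true, if_false]
      omega
  · by_cases hB : b ∈ A
    · have h2' := h2 hB
      simp only [hA, hB, if_true, if_false]
      omega
    · simp only [hA, hB, if_false]
      omega

/-- Two adjacent elements at a given position. -/
private theorem split_two {n : ℕ} {l : List ℕ} (h : n + 1 < l.length) :
    ∃ (A B : List ℕ) (x y : ℕ), l = A ++ x :: y :: B ∧ A.length = n := by
  induction n generalizing l with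
  | zero =>
    match l, h with
    | x :: y :: B, _ => exact ⟨[], B, x, y, rfl, rfl⟩
  | succ k ih =>
    match l, h with
    | z :: l, h =>
      obtain ⟨A, B, x, y, rfl, hA⟩ := ih (l := l) (by simpa using h)
      exact ⟨z :: A, B, x, y, rfl, by simp [hA]⟩

theorem cr_strip_right {n : ℕ} {W Z u : List ℕ} {p : ℕ} (h2 : Two (W ++ p :: p :: Z))
    (hn : n + 1 < W.length) : Cr n (W ++ p :: p :: Z) u ↔
      ∃ W', u = W' ++ p :: p :: Z ∧ W'.length = W.length ∧ Cr n (W ++ Z) (W' ++ Z) := by
  obtain ⟨A, B, a, b, rfl, rfl⟩ := split_two hn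
  obtain ⟨h3, h4⟩ := two_pair h2
  have ha : a ≠ p := by rintro rfl; simp at h3
  have hb : b ≠ p := by rintro rfl; simp at h3
  have e1 : (A ++ a :: b :: B) ++ p :: p :: Z = A ++ a :: b :: (B ++ p :: p :: Z) := by simp
  have e2 : (A ++ a :: b :: B) ++ Z = A ++ a :: b :: (B ++ Z) := by simp
  have hi : ((B ++ p :: p :: Z) ++ A).idxOf b < ((B ++ p :: p :: Z) ++ A).idxOf a ↔
      ((B ++ Z) ++ A).idxOf b < ((B ++ Z) ++ A).idxOf a := by
    have := idx_skip (A := B) (B := Z ++ A) hb ha
    simpa using this
  rw [e1, e2, pcr_iff rfl]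
  constructor
  · rintro ⟨hab, rfl | ⟨rfl, h5⟩⟩
    · exact ⟨A ++ b :: a :: B, by simp, by simp, (pcr_iff rfl).2 ⟨hab, Or.inl (by simp)⟩⟩
    · exact ⟨A ++ a :: b :: B, by simp, by simp,
        (pcr_iff rfl).2 ⟨hab, Or.inr ⟨by simp, hi.1 h5⟩⟩⟩
  · rintro ⟨W', rfl, h5, h6⟩
    obtain ⟨hab, h7⟩ := (pcr_iff rfl).1 h6
    refine ⟨hab, ?_⟩
    rcases h7 with h7 | ⟨h7, h8⟩
    · left
      have : W' = A ++ b :: a :: B := by
        have : W' ++ Z = (A ++ b :: a :: B) ++ Z := by rw [h7]; simp
        exact List.append_cancel_right this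
      rw [this]; simp
    · right
      have : W' = A ++ a :: b :: B := by
        have : W' ++ Z = (A ++ a :: b :: B) ++ Z := by rw [h7]; simp
        exact List.append_cancel_right this
      rw [this]
      exact ⟨by simp, hi.2 h8⟩

theorem cr_strip_left {n : ℕ} {W Z u : List ℕ} {p : ℕ} (h2 : Two (W ++ p :: p :: Z)) :
    Cr (W.length + 2 + n) (W ++ p :: p :: Z) u ↔
      ∃ Z', u = W ++ p :: p :: Z' ∧ Cr (W.length + n) (W ++ Z) (W ++ Z') := by
  obtain ⟨h3, h4⟩ := two_pair h2
  by_cases hn : n + 1 < Z.length
  · obtain ⟨A, B, a, b, rfl, rfl⟩ := split_two hn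
    have ha : a ≠ p := by rintro rfl; simp at h4
    have hb : b ≠ p := by rintro rfl; simp at h4
    have e1 : W ++ p :: p :: (A ++ a :: b :: B) = (W ++ p :: p :: A) ++ a :: b :: B := by simp
    have e2 : W ++ (A ++ a :: b :: B) = (W ++ A) ++ a :: b :: B := by simp
    have l1 : (W ++ p :: p :: A).length = W.length + 2 + A.length := by
      simp; omega
    have l2 : (W ++ A).length = W.length + A.length := by simp
    have hi : (B ++ (W ++ p :: p :: A)).idxOf b < (B ++ (W ++ p :: p :: A)).idxOf a ↔
        (B ++ (W ++ A)).idxOf b < (B ++ (W ++ A)).idxOf a := by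
      have := idx_skip (A := B ++ W) (B := A) hb ha
      simpa using this
    rw [e1, e2, pcr_iff l1]
    constructor
    · rintro ⟨hab, rfl | ⟨rfl, h5⟩⟩
      · exact ⟨A ++ b :: a :: B, by simp, (pcr_iff l2).2 ⟨hab, Or.inl (by simp)⟩⟩
      · exact ⟨A ++ a :: b :: B, by simp, (pcr_iff l2).2 ⟨hab, Or.inr ⟨by simp, hi.1 h5⟩⟩⟩
    · rintro ⟨Z', rfl, h6⟩
      obtain ⟨hab, h7⟩ := (pcr_iff l2).1 h6
      refine ⟨hab, ?_⟩
      rcases h7 with h7 | ⟨h7, h8⟩
      · left
        have : Z' = A ++ b :: a :: B := by
          have : W ++ Z' = W ++ (A ++ b :: a :: B) := by rw [h7]; simp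
          exact List.append_cancel_left this
        rw [this]; simp
      · right
        have : Z' = A ++ a :: b :: B := by
          have : W ++ Z' = W ++ (A ++ a :: b :: B) := by rw [h7]; simp
          exact List.append_cancel_left this
        rw [this]
        exact ⟨by simp, hi.2 h8⟩
  · have lt : ∀ {m : ℕ} {w w' : List ℕ}, Cr m w w' → m + 1 < w.length := by
      rintro m w w' ⟨W, Z, p, q, rfl, rfl, -, -⟩
      simp
    constructor
    · intro h
      have := lt h
      simp at this
      omega
    · rintro ⟨Z', -, h⟩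
      have := lt h
      simp at this
      omega


theorem cr_pass_right {W Z w' : List ℕ} {x p : ℕ} (h2 : Two (W ++ x :: p :: p :: Z)) :
    (∃ u, CrN W.length (W ++ x :: p :: p :: Z) u ∧ CrN (W.length + 1) u w') ↔
      Ren (W ++ p :: p :: x :: Z) w' := by
  constructor
  · rintro ⟨u, ⟨u0, h3, h4⟩, h5⟩
    obtain ⟨w0, h6, h7⟩ := h5.ren h4.symm (Ren.refl _)
    have h8 := (cr_pass_right_exact h2).1 ⟨u0, h3, h6⟩
    rwa [h8] at h7
  · intro h
    obtain ⟨u, h3, h4⟩ := (cr_pass_right_exact h2).2 rfl
    exact ⟨u, ⟨u, h3, Ren.refl _⟩, ⟨_, h4, h⟩⟩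

theorem cr_pass_left {W Z w' : List ℕ} {x p : ℕ} (h2 : Two (W ++ p :: p :: x :: Z)) :
    (∃ u, CrN (W.length + 1) (W ++ p :: p :: x :: Z) u ∧ CrN W.length u w') ↔
      Ren (W ++ x :: p :: p :: Z) w' := by
  constructor
  · rintro ⟨u, ⟨u0, h3, h4⟩, h5⟩
    obtain ⟨w0, h6, h7⟩ := h5.ren h4.symm (Ren.refl _)
    have h8 := (cr_pass_left_exact h2).1 ⟨u0, h3, h6⟩
    rwa [h8] at h7
  · intro h
    obtain ⟨u, h3, h4⟩ := (cr_pass_left_exact h2).2 rfl
    exact ⟨u, ⟨u, h3, Ren.refl _⟩, ⟨_, h4, h⟩⟩

/-- A pair with a new label can be inserted on both sides. -/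
theorem ren_ins {W Z W' Z' : List ℕ} {p q : ℕ} (h : Ren (W ++ Z) (W' ++ Z'))
    (hl : W'.length = W.length) (hp : p ∉ W ++ Z) (hq : q ∉ W' ++ Z') :
    Ren (W ++ p :: p :: Z) (W' ++ q :: q :: Z') := by
  obtain ⟨s, hs⟩ := h
  rw [List.map_append] at hs
  obtain ⟨rfl, rfl⟩ := List.append_inj hs (by simpa using hl)
  have key : ∀ x ∈ W ++ Z, ((Equiv.swap p (s.symm q)).trans s) x = s x := by
    intro x hx
    have h1 : x ≠ p := by rintro rfl; exact hp hx
    have h3 : x ≠ s.symm q := by
      rintro rfl
      apply hq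
      rw [← List.map_append]
      have := List.mem_map_of_mem (f := s) hx
      simpa using this
    simp [Equiv.trans_apply, Equiv.swap_apply_of_ne_of_ne h1 h3]
  refine ⟨(Equiv.swap p (s.symm q)).trans s, ?_⟩
  have e1 : W.map ((Equiv.swap p (s.symm q)).trans s) = W.map s :=
    List.map_congr_left fun x hx => key x (List.mem_append_left _ hx)
  have e2 : Z.map ((Equiv.swap p (s.symm q)).trans s) = Z.map s :=
    List.map_congr_left fun x hx => key x (List.mem_append_right _ hx)
  rw [List.map_append, List.map_cons, List.map_cons, e1, e2]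
  simp

/-- A pair can be removed on both sides. -/
theorem ren_del {W Z w' : List ℕ} {p : ℕ} (h : Ren (W ++ p :: p :: Z) w') (hp : p ∉ W ++ Z) :
    ∃ W' Z' q, w' = W' ++ q :: q :: Z' ∧ W'.length = W.length ∧ q ∉ W' ∧ q ∉ Z' ∧
      Ren (W ++ Z) (W' ++ Z') := by
  obtain ⟨s, rfl⟩ := h
  have key : ∀ l : List ℕ, p ∉ l → s p ∉ l.map s := by
    intro l hl h
    obtain ⟨y, hy, h3⟩ := List.mem_map.1 h
    rw [s.injective h3] at hy
    exact hl hy
  exact ⟨W.map s, Z.map s, s p, by simp, by simp,
    key W (fun h => hp (List.mem_append_left _ h)), key Z (fun h => hp (List.mem_append_right _ h)),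
    ⟨s, by simp⟩⟩

/-- Position `n` of the list with the pair removed. -/
private def away (l n m : ℕ) : Prop := (n + 1 < l ∧ m = n) ∨ (∃ k, n = l + 2 + k ∧ m = l + k)

/-- Strip in the exact form, both sides. -/
private theorem strip_exact {n m : ℕ} {W Z u : List ℕ} {p : ℕ} (h2 : Two (W ++ p :: p :: Z))
    (hn : away W.length n m) : Cr n (W ++ p :: p :: Z) u ↔
      ∃ W' Z', u = W' ++ p :: p :: Z' ∧ W'.length = W.length ∧ p ∉ W' ++ Z' ∧
        Cr m (W ++ Z) (W' ++ Z') := by
  obtain ⟨h3, h4⟩ := two_pair h2
  have pm : ∀ {m : ℕ} {w w' : List ℕ}, Cr m w w' → w'.Perm w := by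
    rintro m w w' ⟨W, Z, p, q, rfl, -, -, rfl | ⟨rfl, -⟩⟩
    · exact List.Perm.append_left W (List.Perm.swap p q Z)
    · exact List.Perm.refl _
  rcases hn with ⟨hn, rfl⟩ | ⟨k, rfl, rfl⟩
  · rw [cr_strip_right h2 hn]
    constructor
    · rintro ⟨W', rfl, h5, h6⟩
      refine ⟨W', Z, rfl, h5, ?_, h6⟩
      rw [(pm h6).mem_iff, List.mem_append]
      tauto
    · rintro ⟨W', Z', rfl, h5, h6, h7⟩
      obtain ⟨A, B, a, b, rfl, rfl⟩ := split_two hn
      have h8 := h7
      rw [List.append_assoc, List.cons_append, List.cons_append, pcr_iff rfl] at h8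
      have hZ : Z' = Z := by
        rcases h8.2 with h9 | ⟨h9, -⟩
        · have : W' ++ Z' = (A ++ b :: a :: B) ++ Z := by rw [h9]; simp
          exact (List.append_inj this (by simpa using h5)).2
        · have : W' ++ Z' = (A ++ a :: b :: B) ++ Z := by rw [h9]; simp
          exact (List.append_inj this (by simpa using h5)).2
      subst hZ
      exact ⟨W', rfl, h5, h7⟩
  · rw [cr_strip_left h2]
    constructor
    · rintro ⟨Z', rfl, h6⟩
      refine ⟨W, Z', rfl, rfl, ?_, h6⟩
      rw [(pm h6).mem_iff, List.mem_append]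
      tauto
    · rintro ⟨W', Z', rfl, h5, h6, h7⟩
      have hlt : k + 1 < Z.length := by
        obtain ⟨A, B, a, b, e, e', -, -⟩ := h7
        have := congrArg List.length e
        simp at this
        omega
      obtain ⟨A, B, a, b, rfl, rfl⟩ := split_two hlt
      have h8 := h7
      rw [← List.append_assoc, pcr_iff (by simp)] at h8
      have hW : W' = W := by
        rcases h8.2 with h9 | ⟨h9, -⟩
        · rw [List.append_assoc] at h9
          exact (List.append_inj h9 h5).1
        · rw [List.append_assoc] at h9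
          exact (List.append_inj h9 h5).1
      subst hW
      exact ⟨Z', rfl, h7⟩

/-- Strip up to the names of the labels. -/
private theorem strip_n {n m : ℕ} {W Z u : List ℕ} {p : ℕ} (h2 : Two (W ++ p :: p :: Z))
    (hn : away W.length n m) : CrN n (W ++ p :: p :: Z) u ↔
      ∃ W' Z' q, u = W' ++ q :: q :: Z' ∧ W'.length = W.length ∧ q ∉ W' ∧ q ∉ Z' ∧
        CrN m (W ++ Z) (W' ++ Z') := by
  constructor
  · rintro ⟨u0, h3, h4⟩
    obtain ⟨W0, Z0, rfl, h5, h6, h7⟩ := (strip_exact h2 hn).1 h3
    obtain ⟨W', Z', q, rfl, h8, h9, h10, h11⟩ := ren_del h4 h6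
    exact ⟨W', Z', q, rfl, h8.trans h5, h9, h10, ⟨_, h7, h11⟩⟩
  · rintro ⟨W', Z', q, rfl, h5, h6, h7, ⟨v, h8, h9⟩⟩
    have hl : v.length = W.length + Z.length := by
      obtain ⟨A, B, a, b, e, -, -, rfl | ⟨rfl, -⟩⟩ := h8
      · have := congrArg List.length e
        simp at this ⊢
        omega
      · simp
    have hv : v = v.take W.length ++ v.drop W.length := (List.take_append_drop _ _).symm
    have hl' : (v.take W.length).length = W.length := by simp [hl]
    rw [hv] at h8 h9
    have h10 : p ∉ v.take W.length ++ v.drop W.length := by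
      obtain ⟨h3, h4⟩ := two_pair h2
      have pm : ∀ {m : ℕ} {w w' : List ℕ}, Cr m w w' → w'.Perm w := by
        rintro m w w' ⟨W, Z, p, q, rfl, -, -, rfl | ⟨rfl, -⟩⟩
        · exact List.Perm.append_left W (List.Perm.swap p q Z)
        · exact List.Perm.refl _
      rw [(pm h8).mem_iff, List.mem_append]
      tauto
    exact ⟨_, (strip_exact h2 hn).2 ⟨_, _, rfl, hl', h10, h8⟩,
      ren_ins h9 (h5.trans hl'.symm) h10 (by rw [List.mem_append]; tauto)⟩

section

variable {ι : Type*} [DecidableEq ι]

/-- The number of inversions. -/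
private def ivs (T : List ι) : List ι → ℕ
  | [] => 0
  | x :: L => L.countP (fun y => decide (T.idxOf y < T.idxOf x)) + ivs T L

private theorem ivs_swap {T : List ι} {s t : ι} (h : T.idxOf t < T.idxOf s) (U V : List ι) :
    ivs T (U ++ t :: s :: V) < ivs T (U ++ s :: t :: V) := by
  induction U with
  | nil =>
    simp only [List.nil_append, ivs]
    rw [List.countP_cons_of_neg (by simp; omega), List.countP_cons_of_pos (by simpa using h)]
    omega
  | cons x U ih =>
    simp only [List.cons_append, ivs]
    have hp : (U ++ t :: s :: V).Perm (U ++ s :: t :: V) :=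
      List.Perm.append_left U (List.Perm.swap s t V)
    rw [hp.countP_eq]
    omega

omit [DecidableEq ι] in
/-- A list which is not a chain has two bad neighbours. -/
private theorem bad_pair (R : ι → ι → Prop) (L : List ι) :
    L.IsChain R ∨ ∃ A B s t, L = A ++ s :: t :: B ∧ ¬ R s t := by
  induction L with
  | nil => exact Or.inl List.IsChain.nil
  | cons x L ih =>
    rcases ih with ih | ⟨A, B, s, t, rfl, h⟩
    · match L, ih with
      | [], _ => exact Or.inl (List.isChain_singleton _)
      | y :: L, ih =>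
        by_cases hR : R x y
        · exact Or.inl (List.isChain_cons_cons.2 ⟨hR, ih⟩)
        · exact Or.inr ⟨[], L, x, y, rfl, hR⟩
    · exact Or.inr ⟨x :: A, B, s, t, rfl, h⟩

/-- A list which is increasing with respect to `T` is `T`. -/
private theorem chain_eq {T L : List ι} (hT : T.Nodup) (hP : L.Perm T)
    (h : L.IsChain (fun s t => T.idxOf s < T.idxOf t)) : L = T := by
  have h1 : L.Pairwise (fun s t => T.idxOf s < T.idxOf t) := by
    have : IsTrans ι (fun s t => T.idxOf s < T.idxOf t) := ⟨fun a b c h1 h2 => h1.trans h2⟩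
    exact List.isChain_iff_pairwise.1 h
  have h2 : T.Pairwise (fun s t => T.idxOf s < T.idxOf t) := by
    rw [List.pairwise_iff_getElem]
    intro i j hi hj hij
    rw [List.Nodup.idxOf_getElem hT, List.Nodup.idxOf_getElem hT]
    exact hij
  exact List.Perm.eq_of_pairwise (fun a b _ _ h3 h4 => absurd (h3.trans h4) (lt_irrefl _)) h1 h2 hP

private theorem srt_iff_step {T U V : List ι} {s t : ι} {w w' : List ℕ} (h2 : Two w)
    (hT : T.Nodup) (hst : T.idxOf t < T.idxOf s) : Srt T (U ++ s :: t :: V) w w' ↔
      ∃ u, CrN U.length w u ∧ Srt T (U ++ t :: s :: V) u w' :=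
  ⟨srtN_exch h2 hT hst, fun ⟨_, h3, h4⟩ => srtN_step hst h3 h4⟩

/-- The statement of `pair_nat` for lists `L` (big) and `L0` (small), the pair at position `k`. -/
private def PN (T T0 L L0 : List ι) (k l m : ℕ) : Prop :=
  ∀ (W Z w' : List ℕ) (p : ℕ), W.length = k → Z.length = l → Two (W ++ p :: p :: Z) →
    (Srt T L (W ++ p :: p :: Z) w' ↔
      ∃ W' Z' q, w' = W' ++ q :: q :: Z' ∧ W'.length = m ∧ q ∉ W' ∧ q ∉ Z' ∧
        Srt T0 L0 (W ++ Z) (W' ++ Z'))

private theorem PN.step {T T0 P Q P0 Q0 : List ι} {s t : ι} {k l m : ℕ} (hT : T.Nodup)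
    (hT0 : T0.Nodup) (h1 : T.idxOf t < T.idxOf s) (h1' : T0.idxOf t < T0.idxOf s)
    (hn : away k P.length P0.length)
    (ih : PN T T0 (P ++ t :: s :: Q) (P0 ++ t :: s :: Q0) k l m) :
    PN T T0 (P ++ s :: t :: Q) (P0 ++ s :: t :: Q0) k l m := by
  intro W Z w' p hW hZ h2
  subst hW
  rw [srt_iff_step h2 hT h1]
  constructor
  · rintro ⟨u, h3, h4⟩
    have hu : Two u := braid_crN.inv _ _ _ h2 h3
    obtain ⟨Wu, Zu, q, rfl, h5, h6, h7, h8⟩ := (strip_n h2 hn).1 h3
    have hZu : Zu.length = l := by
      obtain ⟨u0, h9, h10⟩ := h8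
      have e1 := h10.length
      have e2 : u0.length = (W ++ Z).length := by
        obtain ⟨A, B, a, b, e, -, -, rfl | ⟨rfl, -⟩⟩ := h9
        · rw [e]; simp
        · rfl
      rw [e2] at e1
      simp at e1
      omega
    obtain ⟨W', Z', q', rfl, h9, h10, h11, h12⟩ := (ih Wu Zu w' q h5 hZu hu).1 h4
    exact ⟨W', Z', q', rfl, h9, h10, h11, srtN_step h1' h8 h12⟩
  · rintro ⟨W', Z', q', rfl, h9, h10, h11, h12⟩
    obtain ⟨v, h13, h14⟩ := srtN_exch (two_strip h2) hT0 h1' h12
    have e2 : v.length = W.length + Z.length := by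
      obtain ⟨u0, h9, h10⟩ := h13
      have e1 := h10.length
      have e2 : u0.length = (W ++ Z).length := by
        obtain ⟨A, B, a, b, e, -, -, rfl | ⟨rfl, -⟩⟩ := h9
        · rw [e]; simp
        · rfl
      rw [e1, e2]; simp
    obtain ⟨q, hq⟩ := Infinite.exists_notMem_finset v.toFinset
    rw [List.mem_toFinset] at hq
    have hv : v = v.take W.length ++ v.drop W.length := (List.take_append_drop _ _).symm
    have hl1 : (v.take W.length).length = W.length := by simp [e2]
    have hl2 : (v.drop W.length).length = l := by simp [e2, hZ]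
    rw [hv] at h13 h14 hq
    rw [List.mem_append, not_or] at hq
    have h15 := (strip_n h2 hn).2 ⟨_, _, q, rfl, hl1, hq.1, hq.2, h13⟩
    exact ⟨_, h15, (ih _ _ _ q hl1 hl2 (braid_crN.inv _ _ _ h2 h15)).2
      ⟨W', Z', q', rfl, h9, h10, h11, h14⟩⟩

private theorem PN.right {T T0 A V L0 : List ι} {a b s : ι} {k l m : ℕ} (hT : T.Nodup)
    (hA : A.length = k)
    (h1 : T.idxOf a < T.idxOf s) (h1' : T.idxOf b < T.idxOf s)
    (ih : PN T T0 (A ++ a :: b :: s :: V) L0 k (l + 1) m) :
    PN T T0 (A ++ s :: a :: b :: V) L0 (k + 1) l m := by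
  intro W Z w' p hW hZ h2
  subst hA
  obtain ⟨W1, x, rfl⟩ : ∃ W1 x, W = W1 ++ [x] := by
    rcases List.eq_nil_or_concat W with rfl | ⟨W1, x, rfl⟩
    · simp at hW
    · exact ⟨W1, x, by simp⟩
  have hW1 : W1.length = A.length := by simpa using hW
  rw [List.append_assoc, List.singleton_append] at h2
  rw [List.append_assoc, List.singleton_append, List.append_assoc, List.singleton_append]
  have h2' : Two (W1 ++ p :: p :: x :: Z) := by
    intro y hy
    have hp : (W1 ++ p :: p :: x :: Z).Perm (W1 ++ x :: p :: p :: Z) :=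
      List.Perm.append_left W1 (((List.Perm.swap x p Z).cons p).trans (List.Perm.swap x p _))
    rw [hp.count_eq]
    exact h2 y (hp.mem_iff.1 hy)
  rw [← ih W1 (x :: Z) w' p hW1 (by simp [hZ]) h2', srt_iff_step h2 hT h1]
  constructor
  · rintro ⟨u, h3, h4⟩
    have hu : Two u := braid_crN.inv _ _ _ h2 h3
    rw [show A ++ a :: s :: b :: V = (A ++ [a]) ++ s :: b :: V by simp,
      srt_iff_step hu hT h1'] at h4
    obtain ⟨v, h5, h6⟩ := h4
    rw [← hW1] at h3
    rw [List.length_append, List.length_singleton, ← hW1] at h5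
    have h7 := (cr_pass_right h2).1 ⟨u, h3, h5⟩
    rw [List.append_assoc, List.singleton_append] at h6
    exact h6.ren h7.symm (Ren.refl _)
  · intro h
    obtain ⟨u, h3, h4⟩ := (cr_pass_right h2).2 (Ren.refl _)
    rw [hW1] at h3 h4
    have hu : Two u := braid_crN.inv _ _ _ h2 h3
    refine ⟨u, h3, ?_⟩
    rw [show A ++ a :: s :: b :: V = (A ++ [a]) ++ s :: b :: V by simp,
      srt_iff_step hu hT h1']
    refine ⟨_, by simpa using h4, ?_⟩
    rw [List.append_assoc, List.singleton_append]
    exact h

private theorem PN.left {T T0 U V L0 : List ι} {a b t : ι} {k l m : ℕ} (hT : T.Nodup)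
    (hU : U.length = k)
    (h1 : T.idxOf t < T.idxOf b) (h1' : T.idxOf t < T.idxOf a)
    (ih : PN T T0 (U ++ t :: a :: b :: V) L0 (k + 1) l m) :
    PN T T0 (U ++ a :: b :: t :: V) L0 k (l + 1) m := by
  intro W Z w' p hW hZ h2
  subst hU
  match Z, hZ, h2 with
  | x :: Z, hZ, h2 =>
  have hZ1 : Z.length = l := by simpa using hZ
  have h2' : Two ((W ++ [x]) ++ p :: p :: Z) := by
    rw [List.append_assoc, List.singleton_append]
    intro y hy
    have hp : (W ++ x :: p :: p :: Z).Perm (W ++ p :: p :: x :: Z) :=
      List.Perm.append_left W ((List.Perm.swap p x _).trans ((List.Perm.swap p x _).cons p))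
    rw [hp.count_eq]
    exact h2 y (hp.mem_iff.1 hy)
  have h8 := ih (W ++ [x]) Z w' p (by simp [hW]) hZ1 h2'
  rw [List.append_assoc, List.singleton_append, List.append_assoc, List.singleton_append] at h8
  rw [← h8, show U ++ a :: b :: t :: V = (U ++ [a]) ++ b :: t :: V by simp,
    srt_iff_step h2 hT h1]
  constructor
  · rintro ⟨u, h3, h4⟩
    have hu : Two u := braid_crN.inv _ _ _ h2 h3
    rw [List.append_assoc, List.singleton_append, srt_iff_step hu hT h1'] at h4
    obtain ⟨v, h5, h6⟩ := h4
    rw [List.length_append, List.length_singleton, ← hW] at h3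
    rw [← hW] at h5
    have h7 := (cr_pass_left h2).1 ⟨u, h3, h5⟩
    exact h6.ren h7.symm (Ren.refl _)
  · intro h
    obtain ⟨u, h3, h4⟩ := (cr_pass_left h2).2 (Ren.refl _)
    rw [hW] at h3 h4
    have hu : Two u := braid_crN.inv _ _ _ h2 h3
    refine ⟨u, by simpa using h3, ?_⟩
    rw [List.append_assoc, List.singleton_append, srt_iff_step hu hT h1']
    exact ⟨_, h4, h⟩

/-- The indices around a pair of neighbours. -/
private theorem idx_pair {U V : List ι} {a b : ι} (h : (U ++ a :: b :: V).Nodup) :
    (U ++ a :: b :: V).idxOf a = U.length ∧ (U ++ a :: b :: V).idxOf b = U.length + 1 ∧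
    ∀ x, x ≠ a → x ≠ b → (U ++ a :: b :: V).idxOf x =
      if x ∈ U then U.idxOf x else U.length + (V.idxOf x + 2) := by
  have hd := List.nodup_append.1 h
  have ha : a ∉ U := fun h' => hd.2.2 a h' a (by simp) rfl
  have hb : b ∉ U := fun h' => hd.2.2 b h' b (by simp) rfl
  have hab : a ≠ b := by
    have := hd.2.1
    simp at this
    tauto
  refine ⟨?_, ?_, fun x hx hx' => ?_⟩
  · rw [List.idxOf_append_of_notMem ha, List.idxOf_cons_self, Nat.add_zero]
  · rw [List.idxOf_append_of_notMem hb, List.idxOf_cons_ne _ hab, List.idxOf_cons_self]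
  · by_cases h' : x ∈ U
    · rw [if_pos h', List.idxOf_append_of_mem h']
    · rw [if_neg h', List.idxOf_append_of_notMem h', List.idxOf_cons_ne _ (Ne.symm hx),
        List.idxOf_cons_ne _ (Ne.symm hx')]

private theorem idx_small {U V : List ι} {a b x y : ι} (h : (U ++ a :: b :: V).Nodup)
    (hx : x ≠ a) (hx' : x ≠ b) (hy : y ≠ a) (hy' : y ≠ b)
    (hlt : (U ++ a :: b :: V).idxOf x < (U ++ a :: b :: V).idxOf y) :
    (U ++ V).idxOf x < (U ++ V).idxOf y := by
  obtain ⟨-, -, h3⟩ := idx_pair h
  rw [h3 x hx hx', h3 y hy hy'] at hlt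
  have key' : ∀ x, (U ++ V).idxOf x = if x ∈ U then U.idxOf x else U.length + V.idxOf x := by
    intro x
    by_cases h : x ∈ U
    · rw [if_pos h, List.idxOf_append_of_mem h]
    · rw [if_neg h, List.idxOf_append_of_notMem h]
  rw [key', key']
  have h1 : x ∈ U → U.idxOf x < U.length := List.idxOf_lt_length_of_mem
  have h2 : y ∈ U → U.idxOf y < U.length := List.idxOf_lt_length_of_mem
  by_cases hA : x ∈ U
  · have h1' := h1 hA
    by_cases hB : y ∈ U
    · simp only [hA, hB, if_true] at hlt ⊢
      exact hlt
    · simp only [hA, hB, if_true, if_false] at hlt ⊢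
      omega
  · by_cases hB : y ∈ U
    · have h2' := h2 hB
      simp only [hA, hB, if_true, if_false] at hlt ⊢
      omega
    · simp only [hA, hB, if_false] at hlt ⊢
      omega

private theorem pn_main {U' V' : List ι} {a b : ι} (n : ℕ) : ∀ (U V : List ι),
    ivs (U' ++ a :: b :: V') (U ++ a :: b :: V) = n → (U ++ a :: b :: V).Nodup →
    (U ++ V).Perm (U' ++ V') →
    PN (U' ++ a :: b :: V') (U' ++ V') (U ++ a :: b :: V) (U ++ V) U.length V.length
      U'.length := by
  induction n using Nat.strong_induction_on with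
  | _ n ih =>
  intro U V hn hL hP
  have hPL : (U ++ a :: b :: V).Perm (U' ++ a :: b :: V') := by
    have e1 : (U ++ a :: b :: V).Perm (a :: b :: (U ++ V)) := by
      refine (List.perm_middle).trans (List.Perm.cons a ?_)
      exact List.perm_middle
    have e2 : (U' ++ a :: b :: V').Perm (a :: b :: (U' ++ V')) := by
      refine (List.perm_middle).trans (List.Perm.cons a ?_)
      exact List.perm_middle
    exact e1.trans (((hP.cons b).cons a).trans e2.symm)
  have hT : (U' ++ a :: b :: V').Nodup := hPL.nodup_iff.1 hL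
  have hS : (U ++ V).Nodup := by
    refine List.Nodup.sublist ?_ hL
    exact List.Sublist.append_left ((List.sublist_cons_self b V).trans
      (List.sublist_cons_self a _)) U
  have hT0 : (U' ++ V').Nodup := hP.nodup_iff.1 hS
  obtain ⟨ia, ib, ix⟩ := idx_pair hT
  rcases bad_pair (fun s t => (U' ++ a :: b :: V').idxOf s < (U' ++ a :: b :: V').idxOf t)
    (U ++ a :: b :: V) with hc | ⟨A, B, s, t, hE, hbad⟩
  · -- the list is sorted
    have hE := chain_eq hT hPL hc
    have hlen : U.length = U'.length := by
      have h1 := (idx_pair hL).1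
      have h2 := ia
      rw [hE] at h1
      omega
    obtain ⟨rfl, h3⟩ := List.append_inj hE hlen
    simp only [List.cons.injEq, true_and] at h3
    subst h3
    intro W Z w' p hW hZ h2
    obtain ⟨h4, h5⟩ := two_pair h2
    have h6 : p ∉ W ++ Z := by rw [List.mem_append]; tauto
    rw [srtN_self hT]
    constructor
    · intro h
      obtain ⟨W', Z', q, rfl, h7, h8, h9, h10⟩ := ren_del h h6
      exact ⟨W', Z', q, rfl, h7.trans hW, h8, h9, (srtN_self hT0).2 h10⟩
    · rintro ⟨W', Z', q, rfl, h7, h8, h9, h10⟩
      exact ren_ins ((srtN_self hT0).1 h10) (h7.trans hW.symm) h6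
        (by rw [List.mem_append]; tauto)
  · -- there is an inversion
    have hst : (U' ++ a :: b :: V').idxOf t < (U' ++ a :: b :: V').idxOf s := by
      rcases lt_or_eq_of_le (not_lt.1 hbad) with h | h
      · exact h
      · exfalso
        have hs : s ∈ U' ++ a :: b :: V' := by
          rw [← hPL.mem_iff, hE]; simp
        have e : t = s := by
          have ht : t ∈ U' ++ a :: b :: V' := by
            rw [← hPL.mem_iff, hE]; simp
          exact (List.idxOf_inj ht).1 h
        subst e
        rw [hE] at hL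
        have := (List.nodup_append.1 hL).2.1
        simp at this
    have hlt := ivs_swap hst A B
    rw [← hE, hn] at hlt
    have pm : ∀ {X Y : List ι} (x y : ι), (X ++ x :: y :: Y).Perm (X ++ y :: x :: Y) :=
      fun x y => List.Perm.append_left _ (List.Perm.swap y x _)
    rcases List.append_eq_append_iff.1 hE with ⟨C, h3, h4⟩ | ⟨C, h3, h4⟩
    · -- `A = U ++ C`
      subst h3
      match C, h4, hlt with
      | [], h4, hlt =>
        -- `s = a`, `t = b`
        simp only [List.nil_append, List.cons.injEq] at h4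
        obtain ⟨rfl, rfl, rfl⟩ := h4
        omega
      | [c], h4, hlt =>
        -- `s = b`
        simp only [List.singleton_append, List.cons.injEq] at h4
        obtain ⟨rfl, rfl, rfl⟩ := h4
        have hta : t ≠ a := by
          rintro rfl
          have := (List.nodup_append.1 hL).2.1
          simp at this
        have htb : t ≠ b := by
          rintro rfl
          have := (List.nodup_append.1 hL).2.1
          simp at this
        have h5 : (U' ++ a :: b :: V').idxOf t < (U' ++ a :: b :: V').idxOf a := by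
          have h6 := ix t hta htb
          rw [h6, ib] at hst
          rw [h6, ia]
          have h7 : t ∈ U' → U'.idxOf t < U'.length := List.idxOf_lt_length_of_mem
          by_cases hA : t ∈ U'
          · simp only [hA, if_true] at hst ⊢
            exact h7 hA
          · simp only [hA, if_false] at hst
            omega
        have h6 := ivs_swap h5 U (b :: B)
        have e1 : (U ++ [a]) ++ t :: b :: B = U ++ a :: t :: b :: B := by simp
        have e2 : (U ++ [t]) ++ a :: b :: B = U ++ t :: a :: b :: B := by simp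
        rw [e1] at hlt
        have h7 := ih (ivs (U' ++ a :: b :: V') ((U ++ [t]) ++ a :: b :: B))
          (by rw [e2]; omega) (U ++ [t]) B rfl
          (by
            rw [e2]
            refine List.Perm.nodup_iff ?_ |>.1 hL
            have := pm (X := U ++ [a]) (Y := B) b t
            rw [List.append_assoc, List.append_assoc, List.singleton_append,
              List.singleton_append] at this
            exact this.trans (pm a t))
          (by simpa using hP)
        rw [e2, List.append_assoc, List.singleton_append, List.length_append,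
          List.length_singleton] at h7
        exact PN.left hT rfl hst h5 h7
      | c :: d :: C, h4, hlt =>
        simp only [List.cons_append, List.cons.injEq] at h4
        obtain ⟨rfl, rfl, rfl⟩ := h4
        have h5 := (List.nodup_append.1 hL).2.1
        simp only [List.nodup_cons, List.mem_cons, List.mem_append, not_or] at h5
        have hsa : s ≠ a := fun h => h5.1.2.2.1 h.symm
        have hta : t ≠ a := fun h => h5.1.2.2.2.1 h.symm
        have hsb : s ≠ b := fun h => h5.2.1.2.1 h.symm
        have htb : t ≠ b := fun h => h5.2.1.2.2.1 h.symm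
        have e1 : U ++ a :: b :: (C ++ s :: t :: B) = (U ++ a :: b :: C) ++ s :: t :: B := by simp
        have e2 : U ++ (C ++ s :: t :: B) = (U ++ C) ++ s :: t :: B := by simp
        have e3 : (U ++ a :: b :: C) ++ t :: s :: B = U ++ a :: b :: (C ++ t :: s :: B) := by simp
        have e4 : (U ++ C) ++ t :: s :: B = U ++ (C ++ t :: s :: B) := by simp
        have h7 := ih (ivs (U' ++ a :: b :: V') (U ++ a :: b :: (C ++ t :: s :: B)))
          (by rw [← e3]; exact hlt) U (C ++ t :: s :: B) rfl
          (by
            rw [← e3]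
            rw [e1] at hL
            exact (pm s t).nodup_iff.1 hL)
          (by
            rw [← e4]
            rw [e2] at hP
            exact (pm t s).trans hP)
        rw [e1, e2]
        rw [← e3, ← e4] at h7
        have e5 : (C ++ s :: t :: B).length = (C ++ t :: s :: B).length := by simp
        rw [e5]
        exact PN.step hT hT0 hst (idx_small hT hta htb hsa hsb hst)
          (Or.inr ⟨C.length, by simp; omega, by simp⟩) h7
    · -- `U = A ++ C`
      subst h3
      match C, h4, hlt with
      | [], h4, hlt =>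
        simp only [List.nil_append, List.cons.injEq] at h4
        obtain ⟨rfl, rfl, rfl⟩ := h4
        omega
      | [c], h4, hlt =>
        simp only [List.singleton_append, List.cons.injEq] at h4
        obtain ⟨rfl, rfl, rfl⟩ := h4
        have h8 : (A ++ [s] ++ t :: b :: V) = A ++ s :: t :: b :: V := by simp
        have hsa : s ≠ t := by
          rintro rfl
          rw [h8] at hL
          have := (List.nodup_append.1 hL).2.1
          simp at this
        have hsb : s ≠ b := by
          rintro rfl
          rw [h8] at hL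
          have := (List.nodup_append.1 hL).2.1
          simp at this
        have h5 : (U' ++ t :: b :: V').idxOf b < (U' ++ t :: b :: V').idxOf s := by
          have h6 := ix s hsa hsb
          rw [h6, ia] at hst
          rw [h6, ib]
          have h7 : s ∈ U' → U'.idxOf s < U'.length := List.idxOf_lt_length_of_mem
          by_cases hA : s ∈ U'
          · have h7' := h7 hA
            simp only [hA, if_true] at hst ⊢
            omega
          · simp only [hA, if_false] at hst ⊢
            omega
        have h6 := ivs_swap h5 (A ++ [t]) V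
        have e1 : (A ++ [t]) ++ b :: s :: V = A ++ t :: b :: s :: V := by simp
        have e2 : (A ++ [t]) ++ s :: b :: V = A ++ t :: s :: b :: V := by simp
        rw [e1, e2] at h6
        have h7 := ih (ivs (U' ++ t :: b :: V') (A ++ t :: b :: s :: V))
          (by omega) A (s :: V) rfl
          (by
            rw [h8] at hL
            refine List.Perm.nodup_iff ?_ |>.1 hL
            have := pm (X := A ++ [t]) (Y := V) s b
            rw [e1, e2] at this
            exact (pm s t).trans this)
          (by simpa using hP)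
        rw [h8, List.append_assoc, List.singleton_append, List.length_append,
          List.length_singleton]
        exact PN.right hT rfl hst h5 h7
      | c :: d :: C, h4, hlt =>
        simp only [List.cons_append, List.cons.injEq] at h4
        obtain ⟨rfl, rfl, rfl⟩ := h4
        have e1 : (A ++ s :: t :: C) ++ a :: b :: V = A ++ s :: t :: (C ++ a :: b :: V) := by simp
        have e2 : (A ++ s :: t :: C) ++ V = A ++ s :: t :: (C ++ V) := by simp
        have e3 : (A ++ t :: s :: C) ++ a :: b :: V = A ++ t :: s :: (C ++ a :: b :: V) := by simp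
        have e4 : (A ++ t :: s :: C) ++ V = A ++ t :: s :: (C ++ V) := by simp
        have h5 := (List.nodup_append.1 hL).2.2
        have hsa : s ≠ a := h5 s (by simp) a (by simp)
        have hta : t ≠ a := h5 t (by simp) a (by simp)
        have hsb : s ≠ b := h5 s (by simp) b (by simp)
        have htb : t ≠ b := h5 t (by simp) b (by simp)
        have h7 := ih (ivs (U' ++ a :: b :: V') ((A ++ t :: s :: C) ++ a :: b :: V))
          (by rw [e3]; exact hlt) (A ++ t :: s :: C) V rfl
          (by
            rw [e3]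
            rw [e1] at hL
            exact (pm s t).nodup_iff.1 hL)
          (by
            rw [e4]
            rw [e2] at hP
            exact (pm t s).trans hP)
        rw [e1, e2]
        rw [e3, e4] at h7
        have e5 : (A ++ s :: t :: C).length = (A ++ t :: s :: C).length := by simp
        rw [e5]
        exact PN.step hT hT0 hst (idx_small hT hta htb hsa hsb hst)
          (Or.inl ⟨by simp, rfl⟩) h7

/-- A parallel pair with the same label can be removed. -/
theorem pair_nat {U V U' V' : List ι} {a b : ι} {W Z w' : List ℕ}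
    {p : ℕ} (hL : (U ++ a :: b :: V).Nodup) (hP : (U ++ V).Perm (U' ++ V'))
    (hW : W.length = U.length) (hZ : Z.length = V.length) (h2 : Two (W ++ p :: p :: Z)) :
    Srt (U' ++ a :: b :: V') (U ++ a :: b :: V) (W ++ p :: p :: Z) w' ↔
      ∃ W' Z' q, w' = W' ++ q :: q :: Z' ∧ W'.length = U'.length ∧ q ∉ W' ∧ q ∉ Z' ∧
        Srt (U' ++ V') (U ++ V) (W ++ Z) (W' ++ Z') :=
  pn_main _ U V rfl hL hP W Z w' p hW hZ h2

theorem pair_nat' {U V U' V' : List ι} {a b : ι} {W' Z' w : List ℕ}
    {p : ℕ} (hL : (U ++ a :: b :: V).Nodup) (hP : (U ++ V).Perm (U' ++ V'))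
    (hW : W'.length = U'.length) (hlen : w.length = (U ++ a :: b :: V).length) (h2 : Two w)
    (h : Srt (U' ++ a :: b :: V') (U ++ a :: b :: V) w (W' ++ p :: p :: Z')) :
    ∃ W Z q, w = W ++ q :: q :: Z ∧ W.length = U.length ∧ Z.length = V.length := by
  have h3 := srtN_symm h2 hL h
  have hl := srtN_len h
  have hl' := hP.length_eq
  have hT : (U' ++ a :: b :: V').Nodup := (srtN_perm h).nodup_iff.1 hL
  have hZ' : Z'.length = V'.length := by
    simp only [List.length_append, List.length_cons] at hl hlen hl'
    omega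
  obtain ⟨W, Z, q, rfl, h5, -, -, -⟩ := (pair_nat hT hP.symm hW hZ' (srtN_two h2 h)).1 h3
  refine ⟨W, Z, q, rfl, h5, ?_⟩
  simp only [List.length_append, List.length_cons] at hlen
  omega

end

end Pool.Agent.Helper24.RUL
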