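import Pool.Agent.Helper24.RUL.Defs

/-!
# RUL-03: sorting does not depend on the word (project RUL, MP_409f7f_co)

Abstract module, nothing about labels. `C n` are relations with an invariant `I`, far commutation
and braid relation (`Braid C I`).

PROOF of `srt_exch` (strong induction on the number of inversions of the list with respect to `T`):
let the first step of the given path be at position `i` (names `a, b`), we want the first step at
`j` (names `s, t`). `i = j`: the same pair of names, done. `|i - j| >= 2`: apply the induction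
hypothesis after the first step to the pair `s, t`, then `comm`. `|i - j| = 1`, say the list is
`U ++ a :: s :: t :: V` and `b = s`: then `T` has `t < s < a`; after the first step the list is
`U ++ s :: a :: t :: V`; by induction the next step can be taken at `(a, t)`, and then at `(s, t)`,
so the path starts with `C i, C (i+1), C i`; use `braid` and go `C (i+1), C i, C (i+1)`, whose first
step is `(s, t)`. The other neighbour case is symmetric.
PROOF of `srt_through`: (<-) every step of the path from `L` to `M` is an inversion for `T` by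
`Btw`, and `Btw L' M T` holds for the new list `L'`; (->) induction on the number of inversions
between `L` and `M`: if `L ≠ M` there are adjacent names in the wrong order with respect to `M`,
they are in the wrong order with respect to `T`, use `srt_exch`.
-/

namespace Pool.Agent.Helper24.RUL

variable {ι Ω : Type*} [DecidableEq ι]

/-- Far commutation, braid relation, symmetry on an invariant set. -/
structure Braid (C : ℕ → Ω → Ω → Prop) (I : Ω → Prop) : Prop where
  inv : ∀ n w w', I w → C n w w' → I w'
  symm : ∀ n w w', I w → C n w w' → C n w' w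
  comm : ∀ n m w w', I w → n + 2 ≤ m →
    ((∃ u, C n w u ∧ C m u w') ↔ (∃ u, C m w u ∧ C n u w'))
  braid : ∀ n w w', I w → ((∃ u v, C n w u ∧ C (n + 1) u v ∧ C n v w') ↔
    (∃ u v, C (n + 1) w u ∧ C n u v ∧ C (n + 1) v w'))

variable {C : ℕ → Ω → Ω → Prop} {I : Ω → Prop}

private theorem idx_app (U V : List ι) (s t x : ι) :
    (U ++ s :: t :: V).idxOf x = if x ∈ U then U.idxOf x else if x = s then U.length
      else if x = t then U.length + 1 else U.length + 2 + V.idxOf x := by
  by_cases hU : x ∈ U
  · rw [if_pos hU, List.idxOf_append_of_mem hU]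
  · rw [if_neg hU, List.idxOf_append_of_notMem hU]
    by_cases hs : x = s
    · rw [if_pos hs, hs, List.idxOf_cons_self]
      rfl
    · rw [if_neg hs, List.idxOf_cons_ne _ (fun h => hs h.symm)]
      by_cases ht : x = t
      · rw [if_pos ht, ht, List.idxOf_cons_self]
      · rw [if_neg ht, List.idxOf_cons_ne _ (fun h => ht h.symm)]
        omega

private theorem idx_swap {U V : List ι} {s t x y : ι} (hst : s ≠ t)
    (h : (U ++ t :: s :: V).idxOf x < (U ++ t :: s :: V).idxOf y) :
    (x = t ∧ y = s) ∨ (U ++ s :: t :: V).idxOf x < (U ++ s :: t :: V).idxOf y := by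
  rw [idx_app, idx_app] at h
  rw [idx_app, idx_app]
  have hxU : x ∈ U → U.idxOf x < U.length := List.idxOf_lt_length_iff.2
  have hyU : y ∈ U → U.idxOf y < U.length := List.idxOf_lt_length_iff.2
  by_cases h1 : x ∈ U
  · have h1' := hxU h1
    by_cases h2 : y ∈ U
    · right; simpa [h1, h2] using h
    · right
      rw [if_pos h1, if_neg h2]
      split_ifs <;> omega
  · by_cases h2 : y ∈ U
    · have h2' := hyU h2
      rw [if_neg h1, if_pos h2] at h
      split_ifs at h <;> omega
    · rw [if_neg h1, if_neg h2] at h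
      rw [if_neg h1, if_neg h2]
      by_cases hxs : x = s
      · have hxt : ¬ x = t := by rw [hxs]; exact hst
        rw [if_neg hxt, if_pos hxs] at h
        rw [if_pos hxs]
        right
        by_cases hyt : y = t
        · rw [if_pos hyt] at h; omega
        · by_cases hys : y = s
          · rw [if_neg hyt, if_pos hys] at h; omega
          · rw [if_neg hyt, if_neg hys] at h
            rw [if_neg hys, if_neg hyt]; omega
      · by_cases hxt : x = t
        · rw [if_pos hxt] at h
          by_cases hys : y = s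
          · left; exact ⟨hxt, hys⟩
          · right
            rw [if_neg hxs, if_pos hxt, if_neg hys]
            by_cases hyt : y = t
            · rw [if_pos hyt] at h; omega
            · rw [if_neg hyt]; omega
        · rw [if_neg hxt, if_neg hxs] at h
          rw [if_neg hxs, if_neg hxt]
          right
          split_ifs at h ⊢ <;> omega

private theorem idx_st {U V : List ι} {s t : ι} (h : (U ++ s :: t :: V).Nodup) :
    (U ++ s :: t :: V).idxOf s < (U ++ s :: t :: V).idxOf t := by
  rw [idx_app, idx_app]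
  rw [List.nodup_append] at h
  have hs : s ∉ U := fun hs => h.2.2 s hs s (by simp) rfl
  have ht : t ∉ U := fun ht => h.2.2 t ht t (by simp) rfl
  have hst : t ≠ s := by
    have := h.2.1
    simp only [List.nodup_cons, List.mem_cons, not_or] at this
    exact fun h => this.1.1 h.symm
  rw [if_neg hs, if_neg ht, if_pos rfl, if_neg hst, if_pos rfl]
  omega

omit [DecidableEq ι] in
private theorem swap_perm (U V : List ι) (s t : ι) :
    (U ++ s :: t :: V).Perm (U ++ t :: s :: V) :=
  List.Perm.append_left U (List.Perm.swap t s V)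

private theorem ne_of_nd {U V : List ι} {s t : ι} (h : (U ++ s :: t :: V).Nodup) : s ≠ t := by
  intro hst
  have := idx_st h
  rw [hst] at this
  omega

omit [DecidableEq ι] in
private theorem split2 {U U' V V' : List ι} {s t a b : ι}
    (h : U' ++ a :: b :: V' = U ++ s :: t :: V) :
    (U' = U ∧ a = s ∧ b = t ∧ V' = V) ∨
    (∃ W, U = U' ++ a :: b :: W ∧ V' = W ++ s :: t :: V) ∨
    (∃ W, U' = U ++ s :: t :: W ∧ V = W ++ a :: b :: V') ∨
    (a = t ∧ U' = U ++ [s] ∧ V = b :: V') ∨
    (U = U' ++ [a] ∧ b = s ∧ V' = t :: V) := by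
  rcases List.append_eq_append_iff.1 h with ⟨X, h1, h2⟩ | ⟨X, h1, h2⟩
  · match X, h1, h2 with
    | [], h1, h2 =>
      simp only [List.append_nil] at h1
      simp only [List.nil_append, List.cons.injEq] at h2
      exact Or.inl ⟨h1.symm, h2.1, h2.2.1, h2.2.2⟩
    | [x], h1, h2 =>
      simp only [List.cons_append, List.nil_append, List.cons.injEq] at h2
      obtain ⟨h3, h4, h5⟩ := h2
      subst h3
      exact Or.inr (Or.inr (Or.inr (Or.inr ⟨h1, h4, h5⟩)))
    | x :: y :: W, h1, h2 =>
      simp only [List.cons_append, List.cons.injEq] at h2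
      obtain ⟨h3, h4, h5⟩ := h2
      subst h3 h4
      exact Or.inr (Or.inl ⟨W, h1, h5⟩)
  · match X, h1, h2 with
    | [], h1, h2 =>
      simp only [List.append_nil] at h1
      simp only [List.nil_append, List.cons.injEq] at h2
      exact Or.inl ⟨h1, h2.1.symm, h2.2.1.symm, h2.2.2.symm⟩
    | [x], h1, h2 =>
      simp only [List.cons_append, List.nil_append, List.cons.injEq] at h2
      obtain ⟨h3, h4, h5⟩ := h2
      subst h3
      exact Or.inr (Or.inr (Or.inr (Or.inl ⟨h4.symm, h1, h5⟩)))
    | x :: y :: W, h1, h2 =>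
      simp only [List.cons_append, List.cons.injEq] at h2
      obtain ⟨h3, h4, h5⟩ := h2
      subst h3 h4
      exact Or.inr (Or.inr (Or.inl ⟨W, h1, h5⟩))

private theorem srt_cases {T L : List ι} {w w' : Ω} (h : SrtG C T L w w') :
    (L = T ∧ w = w') ∨ ∃ (U V : List ι) (s t : ι) (u : Ω), L = U ++ s :: t :: V ∧
      T.idxOf t < T.idxOf s ∧ C U.length w u ∧ SrtG C T (U ++ t :: s :: V) u w' := by
  cases h with
  | refl => exact Or.inl ⟨rfl, rfl⟩
  | step U V s t _ u _ h1 h2 h3 => exact Or.inr ⟨U, V, s, t, u, rfl, h1, h2, h3⟩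

theorem srt_inv (hB : Braid C I) {T L : List ι} {w w' : Ω} (hw : I w) (h : SrtG C T L w w') :
    I w' := by
  induction h with
  | refl => exact hw
  | step U V s t w u w' h1 h2 _ ih => exact ih (hB.inv _ _ _ hw h2)

theorem srt_perm {T L : List ι} {w w' : Ω} (h : SrtG C T L w w') : L.Perm T := by
  induction h with
  | refl => exact List.Perm.refl _
  | step U V s t w u w' h1 h2 _ ih => exact (swap_perm U V s t).trans ih

/-- Paths with `n` steps. -/
private inductive SrtN (C : ℕ → Ω → Ω → Prop) (T : List ι) : ℕ → List ι → Ω → Ω → Prop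
  | refl (w : Ω) : SrtN C T 0 T w w
  | step (n : ℕ) (U V : List ι) (s t : ι) (w u w' : Ω) (h : T.idxOf t < T.idxOf s)
      (hc : C U.length w u) (hr : SrtN C T n (U ++ t :: s :: V) u w') :
      SrtN C T (n + 1) (U ++ s :: t :: V) w w'

private theorem toN {T L : List ι} {w w' : Ω} (h : SrtG C T L w w') : ∃ n, SrtN C T n L w w' := by
  induction h with
  | refl w => exact ⟨0, SrtN.refl w⟩
  | step U V s t w u w' h1 h2 _ ih =>
    obtain ⟨n, hn⟩ := ih
    exact ⟨n + 1, SrtN.step n U V s t w u w' h1 h2 hn⟩

private theorem ofN {T L : List ι} {w w' : Ω} {n : ℕ} (h : SrtN C T n L w w') :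
    SrtG C T L w w' := by
  induction h with
  | refl w => exact SrtG.refl w
  | step n U V s t w u w' h1 h2 _ ih => exact SrtG.step U V s t w u w' h1 h2 ih

private theorem srtN_cases {T L : List ι} {w w' : Ω} {n : ℕ} (h : SrtN C T n L w w') :
    (L = T ∧ w = w' ∧ n = 0) ∨ ∃ (m : ℕ) (U V : List ι) (s t : ι) (u : Ω), n = m + 1 ∧
      L = U ++ s :: t :: V ∧
      T.idxOf t < T.idxOf s ∧ C U.length w u ∧ SrtN C T m (U ++ t :: s :: V) u w' := by
  cases h with
  | refl => exact Or.inl ⟨rfl, rfl, rfl⟩
  | step m U V s t _ u _ h1 h2 h3 => exact Or.inr ⟨m, U, V, s, t, u, rfl, rfl, h1, h2, h3⟩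

private theorem exchN (hB : Braid C I) {T : List ι} (hT : T.Nodup) (n : ℕ) :
    ∀ (U V : List ι) (s t : ι) (w w' : Ω), I w → T.idxOf t < T.idxOf s →
      SrtN C T n (U ++ s :: t :: V) w w' →
      ∃ (m : ℕ) (u : Ω), n = m + 1 ∧ C U.length w u ∧ SrtN C T m (U ++ t :: s :: V) u w' := by
  induction n using Nat.strong_induction_on with
  | _ n IH =>
    intro U V s t w w' hw hst h
    rcases srtN_cases h with ⟨h1, -, -⟩ | ⟨m, U', V', a, b, u1, hn, hL, hab, hc, hr⟩
    · exfalso
      rw [← h1] at hT hst
      have := idx_st hT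
      omega
    · subst hn
      have hu1 : I u1 := hB.inv _ _ _ hw hc
      rcases split2 hL.symm with ⟨h1, h2, h3, h4⟩ | ⟨W, h1, h2⟩ | ⟨W, h1, h2⟩ | ⟨h1, h2, h3⟩ |
        ⟨h1, h2, h3⟩
      · subst h1 h2 h3 h4
        exact ⟨m, u1, rfl, hc, hr⟩
      · -- the first step is on the left
        subst h1 h2
        have hr' : SrtN C T m ((U' ++ b :: a :: W) ++ s :: t :: V) u1 w' := by
          simpa using hr
        obtain ⟨k, u2, hk, hc2, hr2⟩ := IH m (Nat.lt_succ_self m) _ _ _ _ _ _ hu1 hst hr'
        have hlen : (U' ++ b :: a :: W).length = (U' ++ a :: b :: W).length := by simp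
        rw [hlen] at hc2
        obtain ⟨v, hv1, hv2⟩ := (hB.comm U'.length (U' ++ a :: b :: W).length w u2 hw
          (by simp)).1 ⟨u1, hc, hc2⟩
        refine ⟨m, v, rfl, hv1, ?_⟩
        have hr3 : SrtN C T k (U' ++ b :: a :: (W ++ t :: s :: V)) u2 w' := by
          simpa using hr2
        have := SrtN.step k U' (W ++ t :: s :: V) a b v u2 w' hab hv2 hr3
        rw [hk]
        simpa using this
      · -- the first step is on the right
        subst h1 h2
        have hr' : SrtN C T m (U ++ s :: t :: (W ++ b :: a :: V')) u1 w' := by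
          simpa using hr
        obtain ⟨k, u2, hk, hc2, hr2⟩ := IH m (Nat.lt_succ_self m) _ _ _ _ _ _ hu1 hst hr'
        obtain ⟨v, hv1, hv2⟩ := (hB.comm U.length (U ++ s :: t :: W).length w u2 hw
          (by simp)).2 ⟨u1, hc, hc2⟩
        refine ⟨m, v, rfl, hv1, ?_⟩
        have hlen : (U ++ t :: s :: W).length = (U ++ s :: t :: W).length := by simp
        rw [← hlen] at hv2
        have hr3 : SrtN C T k ((U ++ t :: s :: W) ++ b :: a :: V') u2 w' := by
          simpa using hr2
        have := SrtN.step k (U ++ t :: s :: W) V' a b v u2 w' hab hv2 hr3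
        rw [hk]
        simpa using this
      · -- a = t, first step at position U.length + 1
        subst h1 h2 h3
        have hlen : (U ++ [s]).length = U.length + 1 := by simp
        rw [hlen] at hc
        have hr' : SrtN C T m (U ++ s :: b :: (a :: V')) u1 w' := by
          simpa using hr
        obtain ⟨k, u2, hk, hc2, hr2⟩ := IH m (Nat.lt_succ_self m) _ _ _ _ _ _ hu1
          (hab.trans hst) hr'
        have hu2 : I u2 := hB.inv _ _ _ hu1 hc2
        have hr2' : SrtN C T k ((U ++ [b]) ++ s :: a :: V') u2 w' := by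
          simpa using hr2
        obtain ⟨l, u3, hl, hc3, hr3⟩ := IH k (by omega) _ _ _ _ _ _ hu2 hst hr2'
        have hlen2 : (U ++ [b]).length = U.length + 1 := by simp
        rw [hlen2] at hc3
        obtain ⟨v1, v2, hv1, hv2, hv3⟩ := (hB.braid U.length w u3 hw).2 ⟨u1, u2, hc, hc2, hc3⟩
        refine ⟨m, v1, rfl, hv1, ?_⟩
        have hr4 : SrtN C T l (U ++ b :: a :: (s :: V')) u3 w' := by
          simpa using hr3
        have s1 := SrtN.step l U (s :: V') a b v2 u3 w' hab hv3 hr4
        have hlen3 : (U ++ [a]).length = U.length + 1 := by simp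
        rw [← hlen3] at hv2
        have s1' : SrtN C T (l + 1) ((U ++ [a]) ++ b :: s :: V') v2 w' := by
          simpa using s1
        have s2 := SrtN.step (l + 1) (U ++ [a]) V' s b v1 v2 w' (hab.trans hst) hv2 s1'
        rw [hk, hl]
        simpa using s2
      · -- b = s, first step at position U.length - 1
        subst h1 h2 h3
        have hr' : SrtN C T m ((U' ++ [b]) ++ a :: t :: V) u1 w' := by
          simpa using hr
        obtain ⟨k, u2, hk, hc2, hr2⟩ := IH m (Nat.lt_succ_self m) _ _ _ _ _ _ hu1
          (hst.trans hab) hr'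
        have hu2 : I u2 := hB.inv _ _ _ hu1 hc2
        have hlen : (U' ++ [b]).length = U'.length + 1 := by simp
        rw [hlen] at hc2
        have hr2' : SrtN C T k (U' ++ b :: t :: (a :: V)) u2 w' := by
          simpa using hr2
        obtain ⟨l, u3, hl, hc3, hr3⟩ := IH k (by omega) _ _ _ _ _ _ hu2 hst hr2'
        obtain ⟨v1, v2, hv1, hv2, hv3⟩ := (hB.braid U'.length w u3 hw).1 ⟨u1, u2, hc, hc2, hc3⟩
        have hlen2 : (U' ++ [a]).length = U'.length + 1 := by simp
        refine ⟨m, v1, rfl, by rw [hlen2]; exact hv1, ?_⟩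
        have hr4 : SrtN C T l ((U' ++ [t]) ++ b :: a :: V) u3 w' := by
          simpa using hr3
        have hlen3 : (U' ++ [t]).length = U'.length + 1 := by simp
        rw [← hlen3] at hv3
        have s1 := SrtN.step l (U' ++ [t]) V a b v2 u3 w' hab hv3 hr4
        have s1' : SrtN C T (l + 1) (U' ++ t :: a :: (b :: V)) v2 w' := by
          simpa using s1
        have s2 := SrtN.step (l + 1) U' (b :: V) a t v1 v2 w' (hst.trans hab) hv2 s1'
        rw [hk, hl]
        simpa using s2

theorem srt_exch (hB : Braid C I) {T U V : List ι} {s t : ι} {w w' : Ω} (hw : I w)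
    (hT : T.Nodup) (hst : T.idxOf t < T.idxOf s) (h : SrtG C T (U ++ s :: t :: V) w w') :
    ∃ u, C U.length w u ∧ SrtG C T (U ++ t :: s :: V) u w' := by
  obtain ⟨n, hn⟩ := toN h
  obtain ⟨m, u, -, h1, h2⟩ := exchN hB hT n U V s t w w' hw hst hn
  exact ⟨u, h1, ofN h2⟩

/-- Paths of names only. -/
private inductive NP (M : List ι) : List ι → Prop
  | refl : NP M M
  | step (U V : List ι) (s t : ι) (h : M.idxOf t < M.idxOf s) (hr : NP M (U ++ t :: s :: V)) :
      NP M (U ++ s :: t :: V)

private theorem np_front {M : List ι} {m : ι} (A : List ι) :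
    ∀ B : List ι, (∀ a ∈ A, M.idxOf m < M.idxOf a) → NP M (m :: (A ++ B)) →
      NP M (A ++ m :: B) := by
  induction A using List.reverseRecOn with
  | nil => intro B _ h; simpa using h
  | append_singleton A a ih =>
    intro B hA h
    have h1 : NP M (A ++ m :: (a :: B)) :=
      ih (a :: B) (fun x hx => hA x (by simp [hx])) (by simpa using h)
    have h2 := NP.step A B a m (hA a (by simp)) h1
    simpa using h2

private theorem np_cons {M L : List ι} {m : ι} (h : NP M L) (hm : m ∉ L) :
    NP (m :: M) (m :: L) := by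
  induction h with
  | refl => exact NP.refl
  | step U V s t h1 _ ih =>
    have hms : m ≠ s := fun h => hm (by rw [h]; simp)
    have hmt : m ≠ t := fun h => hm (by rw [h]; simp)
    have h2 : m ∉ U ++ t :: s :: V := fun h => hm ((swap_perm U V s t).symm.mem_iff.1 h)
    have h3 := ih h2
    have h4 : (m :: M).idxOf t < (m :: M).idxOf s := by
      rw [List.idxOf_cons_ne _ hms, List.idxOf_cons_ne _ hmt]
      omega
    exact NP.step (m :: U) V s t h4 h3

private theorem np_exists (M : List ι) : ∀ L : List ι, L.Nodup → L.Perm M → NP M L := by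
  induction M with
  | nil =>
    intro L _ h
    rw [List.perm_nil.1 h]
    exact NP.refl
  | cons m M ih =>
    intro L hL h
    have hm : m ∈ L := h.symm.mem_iff.1 (by simp)
    obtain ⟨A, B, rfl⟩ := List.append_of_mem hm
    have h1 : (A ++ B).Perm M := by
      have := (List.perm_middle.symm.trans h)
      exact this.cons_inv
    have h2 := List.nodup_middle.1 hL
    rw [List.nodup_cons] at h2
    have h3 : NP M (A ++ B) := ih _ h2.2 h1
    have h4 : NP (m :: M) (m :: (A ++ B)) := np_cons h3 h2.1
    refine np_front A B ?_ h4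
    intro a ha
    have : m ≠ a := fun h => h2.1 (by rw [h]; simp [ha])
    rw [List.idxOf_cons_self, List.idxOf_cons_ne _ this]
    omega

private theorem btw_step {U V M T : List ι} {s t : ι} (hst : s ≠ t)
    (h : M.idxOf t < M.idxOf s) (hb : Btw (U ++ s :: t :: V) M T) :
    Btw (U ++ t :: s :: V) M T := by
  intro x hx y hy hxy hT
  rcases idx_swap hst hxy with ⟨rfl, rfl⟩ | h1
  · exact h
  · exact hb x ((swap_perm U V s t).symm.mem_iff.1 hx) y ((swap_perm U V s t).symm.mem_iff.1 hy)
      h1 hT

private theorem btw_inv {U V M T : List ι} {s t : ι} (hL : (U ++ s :: t :: V).Nodup)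
    (hLT : (U ++ s :: t :: V).Perm T)
    (h : M.idxOf t < M.idxOf s) (hb : Btw (U ++ s :: t :: V) M T) : T.idxOf t < T.idxOf s := by
  by_contra hcon
  have hs : s ∈ U ++ s :: t :: V := by simp
  have ht : t ∈ U ++ s :: t :: V := by simp
  have hne : T.idxOf s ≠ T.idxOf t := by
    intro h1
    exact ne_of_nd hL ((List.idxOf_inj (hLT.mem_iff.1 hs)).1 h1)
  have := hb s hs t ht (idx_st hL) (by omega)
  omega

theorem srt_through (hB : Braid C I) {L M T : List ι} {w w' : Ω} (hw : I w) (hL : L.Nodup)
    (hLM : L.Perm M) (hLT : L.Perm T) (hb : Btw L M T) :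
    SrtG C T L w w' ↔ ∃ u, SrtG C M L w u ∧ SrtG C T M u w' := by
  constructor
  · have hNP := np_exists M L hL hLM
    clear hLM
    induction hNP generalizing w with
    | refl => intro h; exact ⟨w, SrtG.refl w, h⟩
    | step U V s t h1 _ ih =>
      intro h
      have h2 := btw_inv hL hLT h1 hb
      obtain ⟨u1, hu1, hr1⟩ := srt_exch hB hw (hLT.nodup_iff.1 hL) h2 h
      obtain ⟨u, hu, hr⟩ := ih (hB.inv _ _ _ hw hu1) ((swap_perm U V s t).nodup_iff.1 hL)
        ((swap_perm U V s t).symm.trans hLT) (btw_step (ne_of_nd hL) h1 hb) hr1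
      exact ⟨u, SrtG.step U V s t w u1 u h1 hu1 hu, hr⟩
  · rintro ⟨u, h1, h2⟩
    induction h1 with
    | refl => exact h2
    | step U V s t w u1 u h3 h4 _ ih =>
      have h5 := btw_inv hL hLT h3 hb
      exact SrtG.step U V s t w u1 w' h5 h4 (ih (hB.inv _ _ _ hw h4)
        ((swap_perm U V s t).nodup_iff.1 hL) ((swap_perm U V s t).symm.trans hLM)
        ((swap_perm U V s t).symm.trans hLT) (btw_step (ne_of_nd hL) h3 hb) h2)

theorem srt_self {T : List ι} {w w' : Ω} (hT : T.Nodup) : SrtG C T T w w' ↔ w = w' := by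
  constructor
  · intro h
    rcases srt_cases h with ⟨-, h1⟩ | ⟨U, V, s, t, u, h1, h2, -, -⟩
    · exact h1
    · exfalso
      rw [h1] at hT h2
      have := idx_st hT
      omega
  · rintro rfl
    exact SrtG.refl w

theorem srt_one {U V : List ι} {s t : ι} {w w' : Ω} (hT : (U ++ s :: t :: V).Nodup) :
    SrtG C (U ++ t :: s :: V) (U ++ s :: t :: V) w w' ↔ C U.length w w' := by
  have hT' : (U ++ t :: s :: V).Nodup := (swap_perm U V s t).nodup_iff.1 hT
  constructor
  · intro h
    rcases srt_cases h with ⟨h1, -⟩ | ⟨U', V', a, b, u, h1, h2, h3, h4⟩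
    · exfalso
      have e1 := idx_st hT
      have e2 := idx_st hT'
      rw [h1] at e1
      omega
    · have h5 : (U ++ s :: t :: V).idxOf a < (U ++ s :: t :: V).idxOf b := by
        rw [h1]
        rw [h1] at hT
        exact idx_st hT
      rcases idx_swap (ne_of_nd hT') h5 with ⟨h6, h7⟩ | h6
      · subst h6 h7
        have h8 : U' = U ∧ V' = V := by
          rcases split2 h1.symm with ⟨e1, -, -, e4⟩ | ⟨W, e1, e2⟩ | ⟨W, e1, e2⟩ | ⟨e1, e2, e3⟩ |
            ⟨e1, e2, e3⟩
          · exact ⟨e1, e4⟩
          · exfalso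
            rw [e1] at hT
            rw [List.nodup_append] at hT
            exact hT.2.2 a (by simp) a (by simp) rfl
          · exfalso
            rw [e2] at hT
            rw [List.nodup_append] at hT
            have := hT.2.1
            simp at this
          · exact absurd e1 (ne_of_nd hT)
          · exact absurd e2.symm (ne_of_nd hT)
        obtain ⟨rfl, rfl⟩ := h8
        rw [srt_self hT'] at h4
        rw [← h4]
        exact h3
      · omega
  · intro h
    exact SrtG.step U V s t w w' w' (idx_st hT') h (SrtG.refl w')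

theorem srt_symm (hB : Braid C I) {T L : List ι} {w w' : Ω} (hw : I w) (hL : L.Nodup)
    (h : SrtG C T L w w') : SrtG C L T w' w := by
  induction h with
  | refl w => exact SrtG.refl w
  | step U V s t w u w' h1 h2 h3 ih =>
    have hu : I u := hB.inv _ _ _ hw h2
    have hL' : (U ++ t :: s :: V).Nodup := (swap_perm U V s t).nodup_iff.1 hL
    have hst : s ≠ t := ne_of_nd hL
    have h4 := ih hu hL'
    have hp : (U ++ t :: s :: V).Perm T := srt_perm h3
    have hT : T.Nodup := hp.nodup_iff.1 hL'
    have h5 : SrtG C (U ++ s :: t :: V) (U ++ t :: s :: V) u w :=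
      (srt_one hL').2 (hB.symm _ _ _ hw h2)
    have hw' : I w' := srt_inv hB hu h3
    refine (srt_through hB hw' hT hp.symm
      (hp.symm.trans (swap_perm U V s t).symm) ?_).2 ⟨u, h4, h5⟩
    intro x hx y hy hxy hL2
    rcases idx_swap hst.symm hL2 with ⟨rfl, rfl⟩ | h6
    · omega
    · exact h6

private theorem idx_map {κ : Type*} [DecidableEq κ] (g : ι → κ) (x : ι) (T : List ι)
    (hg : ∀ y ∈ T, g y = g x → y = x) : (T.map g).idxOf (g x) = T.idxOf x := by
  induction T with
  | nil => rfl
  | cons a T ih =>
    have ih' := ih fun y hy => hg y (by simp [hy])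
    rw [List.map_cons]
    by_cases h : a = x
    · rw [h, List.idxOf_cons_self, List.idxOf_cons_self]
    · have h' : g a ≠ g x := fun h1 => h (hg a (by simp) h1)
      rw [List.idxOf_cons_ne _ h', List.idxOf_cons_ne _ h, ih']

omit [DecidableEq ι] in
private theorem map_inj' {κ : Type*} (g : ι → κ) : ∀ (L T : List ι),
    (∀ x ∈ L, ∀ y ∈ T, g x = g y → x = y) → L.map g = T.map g → L = T
  | [], [], _, _ => rfl
  | [], _ :: _, _, h => by simp at h
  | _ :: _, [], _, h => by simp at h
  | a :: L, b :: T, hg, h => by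
    simp only [List.map_cons, List.cons.injEq] at h
    rw [hg a (by simp) b (by simp) h.1,
      map_inj' g L T (fun x hx y hy => hg x (by simp [hx]) y (by simp [hy])) h.2]

theorem srt_map {κ : Type*} [DecidableEq κ] (g : ι → κ) {T L : List ι} {w w' : Ω}
    (hP : L.Perm T) (hg : ∀ x ∈ L, ∀ y ∈ L, g x = g y → x = y) :
    SrtG C (T.map g) (L.map g) w w' ↔ SrtG C T L w w' := by
  have hidx : ∀ x ∈ L, (T.map g).idxOf (g x) = T.idxOf x := fun x hx =>
    idx_map g x T fun y hy h => hg y (hP.mem_iff.2 hy) x hx h
  constructor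
  · intro h
    generalize hL' : L.map g = L' at h
    generalize hT' : T.map g = T' at h
    induction h generalizing L with
    | refl w =>
      have : L = T := map_inj' g L T (fun x hx y hy => hg x hx y (hP.mem_iff.2 hy))
        (hL'.trans hT'.symm)
      rw [this]
      exact SrtG.refl w
    | step U V s t w u w' h1 h2 _ ih =>
      obtain ⟨U0, L1, rfl, rfl, h3⟩ := List.map_eq_append_iff.1 hL'
      obtain ⟨s0, L2, rfl, rfl, h4⟩ := List.map_eq_cons_iff.1 h3
      obtain ⟨t0, V0, rfl, rfl, rfl⟩ := List.map_eq_cons_iff.1 h4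
      have h5 : ∀ x, x ∈ U0 ++ t0 :: s0 :: V0 ↔ x ∈ U0 ++ s0 :: t0 :: V0 :=
        fun x => (swap_perm U0 V0 t0 s0).mem_iff
      have h6 := ih ((swap_perm U0 V0 t0 s0).trans hP)
        (fun x hx y hy => hg x ((h5 x).1 hx) y ((h5 y).1 hy))
        (fun x hx => hidx x ((h5 x).1 hx)) (by simp)
      rw [← hT', hidx t0 (by simp), hidx s0 (by simp)] at h1
      rw [List.length_map] at h2
      exact SrtG.step U0 V0 s0 t0 w u w' h1 h2 h6
  · intro h
    induction h with
    | refl w => exact SrtG.refl w
    | step U V s t w u w' h1 h2 h3 ih =>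
      have hp' : (U ++ t :: s :: V).Perm T := srt_perm h3
      have hg' : ∀ x ∈ U ++ t :: s :: V, ∀ y ∈ U ++ t :: s :: V, g x = g y → x = y :=
        fun x hx y hy => hg x ((swap_perm U V s t).symm.mem_iff.1 hx) y
          ((swap_perm U V s t).symm.mem_iff.1 hy)
      have hidx' : ∀ x ∈ U ++ t :: s :: V, (T.map g).idxOf (g x) = T.idxOf x :=
        fun x hx => hidx x ((swap_perm U V s t).symm.mem_iff.1 hx)
      have h4 := ih hp' hg' hidx'
      rw [List.map_append, List.map_cons, List.map_cons] at h4 ⊢
      refine SrtG.step (U.map g) (V.map g) (g s) (g t) w u w' ?_ ?_ h4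
      · rw [hidx s (by simp), hidx t (by simp)]
        exact h1
      · rw [List.length_map]
        exact h2

end Pool.Agent.Helper24.RUL
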