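import Pool.Agent.Helper24.RUL.Braid
import Pool.Agent.Helper24.RUL.Sort

/-!
# Sorting with rulings up to the names of the labels (project RUL, MP_409f7f_co)

`cr_comm` is false for the lists (`[0,1,0,1]`, positions 0 and 2), it holds up to `Ren`.
-/

namespace Pool.Agent.Helper24.RUL

private theorem map_perm_one (w : List ℕ) : w.map ⇑(1 : Equiv.Perm ℕ) = w := by
  conv_rhs => rw [← List.map_id w]
  rfl

private theorem map_perm_mul (w : List ℕ) (σ τ : Equiv.Perm ℕ) :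
    (w.map τ).map σ = w.map ⇑(σ * τ) := by
  rw [List.map_map]
  rfl

private theorem map_perm_inv (w : List ℕ) (σ : Equiv.Perm ℕ) : (w.map σ).map ⇑σ⁻¹ = w := by
  rw [map_perm_mul, inv_mul_cancel, map_perm_one]

theorem Ren.refl (w : List ℕ) : Ren w w := ⟨1, (map_perm_one w).symm⟩

theorem Ren.symm {w w' : List ℕ} (h : Ren w w') : Ren w' w := by
  obtain ⟨σ, rfl⟩ := h
  exact ⟨σ⁻¹, (map_perm_inv w σ).symm⟩

theorem Ren.trans {w u w' : List ℕ} (h : Ren w u) (h' : Ren u w') : Ren w w' := by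
  obtain ⟨σ, rfl⟩ := h
  obtain ⟨τ, rfl⟩ := h'
  exact ⟨τ * σ, map_perm_mul w τ σ⟩

theorem Ren.two {w w' : List ℕ} (h : Ren w w') (h2 : Two w) : Two w' := by
  obtain ⟨σ, rfl⟩ := h
  exact h2.map σ

theorem Ren.length {w w' : List ℕ} (h : Ren w w') : w'.length = w.length := by
  obtain ⟨σ, rfl⟩ := h
  exact List.length_map _

/-- `Ren` = same pattern of equalities, for labellings of a list of names. -/
theorem ren_iff {ι : Type*} {L : List ι} {a b : ι → ℕ} :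
    Ren (L.map a) (L.map b) ↔ ∀ s ∈ L, ∀ t ∈ L, (a s = a t ↔ b s = b t) := by
  classical
  constructor
  · rintro ⟨σ, h⟩ s hs t ht
    rw [List.map_map] at h
    have h1 := List.map_inj_left.1 h
    rw [h1 s hs, h1 t ht]
    exact (σ.injective.eq_iff).symm
  · intro h
    let A : Finset ℕ := (L.map a).toFinset
    let B : Finset ℕ := (L.map b).toFinset
    let f : ℕ → ℕ := fun x => if hx : ∃ s ∈ L, a s = x then b hx.choose else 0
    have hf : ∀ s ∈ L, f (a s) = b s := fun s hs => by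
      have hx : ∃ t ∈ L, a t = a s := ⟨s, hs, rfl⟩
      have h1 : f (a s) = b hx.choose := dif_pos hx
      rw [h1]
      exact (h _ hx.choose_spec.1 s hs).1 hx.choose_spec.2
    have hmemA : ∀ x, x ∈ A ↔ ∃ s ∈ L, a s = x := fun x => by simp [A]
    have hmemB : ∀ x, x ∈ B ↔ ∃ s ∈ L, b s = x := fun x => by simp [B]
    obtain ⟨g, hg⟩ := Finset.exists_equiv_extend_of_card_eq (α := ↥(A ∪ B)) (t := A ∪ B)
      (s := Finset.univ.filter fun x : ↥(A ∪ B) => (x : ℕ) ∈ A) (f := fun x => f x)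
      (Fintype.card_coe _) (by
        intro y hy
        obtain ⟨x, hx, rfl⟩ := Finset.mem_image.1 hy
        obtain ⟨s, hs, hsx⟩ := (hmemA _).1 (Finset.mem_filter.1 hx).2
        change f x ∈ _
        rw [← hsx, hf s hs]
        exact Finset.mem_union_right _ ((hmemB _).2 ⟨s, hs, rfl⟩)) (by
        intro x hx y hy hxy
        obtain ⟨s, hs, hsx⟩ := (hmemA _).1 (Finset.mem_filter.1 (Finset.mem_coe.1 hx)).2
        obtain ⟨t, ht, hty⟩ := (hmemA _).1 (Finset.mem_filter.1 (Finset.mem_coe.1 hy)).2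
        apply Subtype.ext
        change f x = f y at hxy
        rw [← hsx, ← hty, hf s hs, hf t ht] at hxy
        rw [← hsx, ← hty]
        exact (h s hs t ht).2 hxy)
    refine ⟨Equiv.Perm.ofSubtype g, ?_⟩
    rw [List.map_map]
    refine List.map_congr_left fun s hs => ?_
    have hA : a s ∈ A := (hmemA _).2 ⟨s, hs, rfl⟩
    have hAB : a s ∈ A ∪ B := Finset.mem_union_left _ hA
    rw [Function.comp_apply, Equiv.Perm.ofSubtype_apply_of_mem g hAB]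
    have h1 := hg ⟨a s, hAB⟩ (Finset.mem_filter.2 ⟨Finset.mem_univ _, hA⟩)
    rw [h1]
    exact (hf s hs).symm

theorem Cr.ren {n : ℕ} {w u w' : List ℕ} (h : Cr n w w') (hr : Ren w u) :
    ∃ u', Cr n u u' ∧ Ren w' u' := by
  obtain ⟨σ, rfl⟩ := hr
  exact ⟨_, h.map σ, ⟨σ, rfl⟩⟩

theorem CrN.ren {n : ℕ} {w u w' u' : List ℕ} (h : CrN n w w') (hr : Ren w u) (hr' : Ren w' u') :
    CrN n u u' := by
  obtain ⟨v, h1, h2⟩ := h
  obtain ⟨v', h3, h4⟩ := h1.ren hr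
  exact ⟨v', h3, h4.symm.trans (h2.trans hr')⟩

theorem Cr.crN {n : ℕ} {w w' : List ℕ} (h : Cr n w w') : CrN n w w' := ⟨w', h, Ren.refl w'⟩

theorem CrN.two {n : ℕ} {w w' : List ℕ} (h2 : Two w) (h : CrN n w w') : Two w' := by
  obtain ⟨v, h1, h3⟩ := h
  exact h3.two (h1.two h2)

theorem CrN.symm {n : ℕ} {w w' : List ℕ} (h2 : Two w) (h : CrN n w w') : CrN n w' w := by
  obtain ⟨v, h1, h3⟩ := h
  exact (h1.symm h2).crN.ren h3 (Ren.refl w)

theorem CrN.len {n : ℕ} {w w' : List ℕ} (h : CrN n w w') : w'.length = w.length := by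
  obtain ⟨v, h1, h3⟩ := h
  rw [h3.length, h1.len]

theorem CrN.lt {n : ℕ} {w w' : List ℕ} (h : CrN n w w') : n + 1 < w.length := by
  obtain ⟨v, h1, -⟩ := h
  exact h1.lt

theorem crN_iff {W Z w' : List ℕ} {p q : ℕ} : CrN W.length (W ++ p :: q :: Z) w' ↔
    p ≠ q ∧ (Ren (W ++ q :: p :: Z) w' ∨
      (Ren (W ++ p :: q :: Z) w' ∧ (Z ++ W).idxOf q < (Z ++ W).idxOf p)) := by
  constructor
  · rintro ⟨u, h1, h2⟩
    obtain ⟨hpq, rfl | ⟨rfl, hi⟩⟩ := CoreAux.cr_iff.1 h1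
    · exact ⟨hpq, Or.inl h2⟩
    · exact ⟨hpq, Or.inr ⟨h2, hi⟩⟩
  · rintro ⟨hpq, h2 | ⟨h2, hi⟩⟩
    · exact ⟨_, CoreAux.cr_iff.2 ⟨hpq, Or.inl rfl⟩, h2⟩
    · exact ⟨_, CoreAux.cr_iff.2 ⟨hpq, Or.inr ⟨rfl, hi⟩⟩, h2⟩

theorem crN_comm {n m : ℕ} {w w' : List ℕ} (h2 : Two w) (hnm : n + 2 ≤ m) :
    (∃ u, CrN n w u ∧ CrN m u w') ↔ (∃ u, CrN m w u ∧ CrN n u w') := by
  constructor
  · rintro ⟨u, ⟨v, h1, h3⟩, ⟨v', h4, h5⟩⟩
    obtain ⟨v'', h6, h7⟩ := h4.ren h3.symm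
    obtain ⟨ρ, x, h8, h9⟩ := cr_comm_right h2 hnm ⟨_, h1, h6⟩
    exact ⟨x, h8.crN, _, h9, (Ren.symm ⟨ρ, rfl⟩).trans (h7.symm.trans h5)⟩
  · rintro ⟨u, ⟨v, h1, h3⟩, ⟨v', h4, h5⟩⟩
    obtain ⟨v'', h6, h7⟩ := h4.ren h3.symm
    obtain ⟨ρ, x, h8, h9⟩ := cr_comm_left h2 hnm ⟨_, h1, h6⟩
    exact ⟨x, h8.crN, _, h9, (Ren.symm ⟨ρ, rfl⟩).trans (h7.symm.trans h5)⟩

theorem crN_braid {n : ℕ} {w w' : List ℕ} (h2 : Two w) :
    (∃ u v, CrN n w u ∧ CrN (n + 1) u v ∧ CrN n v w') ↔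
      (∃ u v, CrN (n + 1) w u ∧ CrN n u v ∧ CrN (n + 1) v w') := by
  constructor
  · rintro ⟨u, v, ⟨u1, h1, r1⟩, ⟨v1, h3, r3⟩, ⟨x1, h4, r4⟩⟩
    obtain ⟨v2, h5, r5⟩ := h3.ren r1.symm
    obtain ⟨x2, h6, r6⟩ := h4.ren (r3.symm.trans r5)
    obtain ⟨u', v', g1, g2, g3⟩ := (cr_braid h2).1 ⟨_, _, h1, h5, h6⟩
    exact ⟨u', v', g1.crN, g2.crN, _, g3, r6.symm.trans r4⟩
  · rintro ⟨u, v, ⟨u1, h1, r1⟩, ⟨v1, h3, r3⟩, ⟨x1, h4, r4⟩⟩
    obtain ⟨v2, h5, r5⟩ := h3.ren r1.symm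
    obtain ⟨x2, h6, r6⟩ := h4.ren (r3.symm.trans r5)
    obtain ⟨u', v', g1, g2, g3⟩ := (cr_braid h2).2 ⟨_, _, h1, h5, h6⟩
    exact ⟨u', v', g1.crN, g2.crN, _, g3, r6.symm.trans r4⟩

/-- Rulings satisfy the hypotheses of `Sort.lean`. -/
theorem braid_crN : Braid CrN Two :=
  ⟨fun _ _ _ h1 h2 => CrN.two h1 h2, fun _ _ _ h1 h2 => CrN.symm h1 h2,
    fun _ _ _ _ h1 h2 => crN_comm h1 h2, fun _ _ _ h1 => crN_braid h1⟩

section

variable {ι : Type*} [DecidableEq ι]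

theorem srtG_ren {T L : List ι} {w w' : List ℕ} (h : SrtG CrN T L w w') (σ : Equiv.Perm ℕ) :
    SrtG CrN T L (w.map σ) (w'.map σ) := by
  induction h with
  | refl w => exact SrtG.refl _
  | step U V s t w u w' h hc _ ih =>
    exact SrtG.step U V s t _ _ _ h (hc.ren ⟨σ, rfl⟩ ⟨σ, rfl⟩) ih

theorem Srt.of {T L : List ι} {w w' : List ℕ} (h : SrtG CrN T L w w') : Srt T L w w' :=
  ⟨w', h, Ren.refl w'⟩

theorem Srt.ren {T L : List ι} {w u w' u' : List ℕ} (h : Srt T L w w') (hr : Ren w u)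
    (hr' : Ren w' u') : Srt T L u u' := by
  obtain ⟨v, h1, h2⟩ := h
  obtain ⟨σ, rfl⟩ := hr
  exact ⟨v.map σ, srtG_ren h1 σ, (Ren.symm ⟨σ, rfl⟩).trans (h2.trans hr')⟩

theorem srtN_two {T L : List ι} {w w' : List ℕ} (h2 : Two w) (h : Srt T L w w') : Two w' := by
  obtain ⟨v, h1, h3⟩ := h
  exact h3.two (srt_inv braid_crN h2 h1)

theorem srtN_perm {T L : List ι} {w w' : List ℕ} (h : Srt T L w w') : L.Perm T := by
  obtain ⟨v, h1, -⟩ := h
  exact srt_perm h1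

private theorem srtG_len {T L : List ι} {w w' : List ℕ} (h : SrtG CrN T L w w') :
    w'.length = w.length := by
  induction h with
  | refl w => rfl
  | step U V s t w u w' h hc _ ih => rw [ih, hc.len]

theorem srtN_len {T L : List ι} {w w' : List ℕ} (h : Srt T L w w') : w'.length = w.length := by
  obtain ⟨v, h1, h3⟩ := h
  rw [h3.length, srtG_len h1]

theorem srtN_self {T : List ι} {w w' : List ℕ} (hT : T.Nodup) : Srt T T w w' ↔ Ren w w' := by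
  constructor
  · rintro ⟨v, h1, h3⟩
    rw [(srt_self hT).1 h1]
    exact h3
  · intro h
    exact ⟨w, (srt_self hT).2 rfl, h⟩

theorem srtN_one {U V : List ι} {s t : ι} {w w' : List ℕ} (hT : (U ++ s :: t :: V).Nodup) :
    Srt (U ++ t :: s :: V) (U ++ s :: t :: V) w w' ↔ CrN U.length w w' := by
  constructor
  · rintro ⟨v, h1, h3⟩
    exact ((srt_one hT).1 h1).ren (Ren.refl w) h3
  · intro h
    exact Srt.of ((srt_one hT).2 h)

theorem srtN_step {T U V : List ι} {s t : ι} {w u w' : List ℕ} (h : T.idxOf t < T.idxOf s)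
    (hc : CrN U.length w u) (hr : Srt T (U ++ t :: s :: V) u w') :
    Srt T (U ++ s :: t :: V) w w' := by
  obtain ⟨v, h1, h3⟩ := hr
  exact ⟨v, SrtG.step U V s t _ _ _ h hc h1, h3⟩

theorem srtN_exch {T U V : List ι} {s t : ι} {w w' : List ℕ} (h2 : Two w) (hT : T.Nodup)
    (hst : T.idxOf t < T.idxOf s) (h : Srt T (U ++ s :: t :: V) w w') :
    ∃ u, CrN U.length w u ∧ Srt T (U ++ t :: s :: V) u w' := by
  obtain ⟨v, h1, h3⟩ := h
  obtain ⟨u, h4, h5⟩ := srt_exch braid_crN h2 hT hst h1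
  exact ⟨u, h4, v, h5, h3⟩

theorem srtN_through {L M T : List ι} {w w' : List ℕ} (h2 : Two w) (hL : L.Nodup)
    (hLM : L.Perm M) (hLT : L.Perm T) (hb : Btw L M T) :
    Srt T L w w' ↔ ∃ u, Srt M L w u ∧ Srt T M u w' := by
  constructor
  · rintro ⟨v, h1, h3⟩
    obtain ⟨u, h4, h5⟩ := (srt_through braid_crN h2 hL hLM hLT hb).1 h1
    exact ⟨u, Srt.of h4, v, h5, h3⟩
  · rintro ⟨u, ⟨u1, h1, r1⟩, h3⟩
    obtain ⟨v, h4, r4⟩ := h3.ren r1.symm (Ren.refl w')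
    exact ⟨v, (srt_through braid_crN h2 hL hLM hLT hb).2 ⟨u1, h1, h4⟩, r4⟩

theorem srtN_symm {T L : List ι} {w w' : List ℕ} (h2 : Two w) (hL : L.Nodup)
    (h : Srt T L w w') : Srt L T w' w := by
  obtain ⟨v, h1, h3⟩ := h
  exact (Srt.of (srt_symm braid_crN h2 hL h1)).ren h3 (Ren.refl w)

theorem srtN_map {κ : Type*} [DecidableEq κ] (g : ι → κ) {T L : List ι} {w w' : List ℕ}
    (hP : L.Perm T) (hg : ∀ x ∈ L, ∀ y ∈ L, g x = g y → x = y) :
    Srt (T.map g) (L.map g) w w' ↔ Srt T L w w' :=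
  exists_congr fun _ => and_congr_left fun _ => srt_map g hP hg

end

end Pool.Agent.Helper24.RUL
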