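import Pool.Agent.Helper24.RUL.Mono
import Pool.Agent.Helper24.RUL.Block

/-!
# RUL-09: exchange of two neighbouring segments (project RUL, MP_409f7f_co)

`v < w` are neighbouring values of level `k` with `Sep E k v w` or `Sep E k w v`. Notation: `Dv, Dw`
the strands of layer `k - 1` that end at `v`, `w`, `Uv, Uw` the strands of layer `k` that begin
there. `ψ (x, y) = (x, swap v w y)` renames the strands of layer `k - 1`, `ψ'` those of layer `k`.
* `AL (ψ F) = (AL F).map ψ` and `BL (ψ' G) = (BL G).map ψ'` (because `Sep` is strict, strands with the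
  same other coordinate are not exchanged);
* `BL F = U ++ Dv ++ Dw ++ V`, `BL (ψ F) = (U ++ Dw ++ Dv ++ V).map ψ`;
  `AL G = U' ++ Uv ++ Uw ++ V'`, `AL (ψ' G) = (U' ++ Uw ++ Uv ++ V').map ψ'` (`BL_split2`, `AL_split2`).
* If `Sep E k v w`: in layer `k - 1` the strands `Dv`, `Dw` cross in `E` (last step,
  `srt_through`) and do not cross in the new link, in layer `k` they do not cross in `E` and cross in
  the new link (first step). If `Sep E k w v` it is the other way round.
* Unless `v` and `w` are both passing segments the crossing of the blocks is `srt_block` (labels are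
  just carried along, take the old labels transported by `ψ`, `ψ'`).
* If both are passing the crossing of `d, d'` in layer `k - 1` (`Cr`) is replaced by the crossing of
  `u, u'` in layer `k`: `lev_switch`. `Lev` for the new labels is clear.
-/

namespace Pool.Agent.Helper24.RUL

namespace SwapAux

/-- The positions in a list sorted by a strict linear order. -/
theorem idx_sorted {α : Type*} [BEq α] [LawfulBEq α] {R : α → α → Prop} {L : List α}
    (hL : L.Pairwise R) (htr : ∀ a b c, R a b → R b c → R a c) (hir : ∀ a, ¬ R a a)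
    {s t : α} (hs : s ∈ L) (ht : t ∈ L) : L.idxOf s < L.idxOf t ↔ R s t := by
  have hs' : L.idxOf s < L.length := List.idxOf_lt_length_iff.mpr hs
  have ht' : L.idxOf t < L.length := List.idxOf_lt_length_iff.mpr ht
  have es : L[L.idxOf s] = s := List.getElem_idxOf hs'
  have et : L[L.idxOf t] = t := List.getElem_idxOf ht'
  have hg := List.pairwise_iff_getElem.mp hL
  constructor
  · intro h
    have := hg _ _ hs' ht' h
    rwa [es, et] at this
  · intro h
    rcases lt_trichotomy (L.idxOf s) (L.idxOf t) with h1 | h1 | h1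
    · exact h1
    · exfalso
      have e : s = t := by
        rw [← es, ← et]
        congr 1
      exact hir _ (e ▸ h)
    · exfalso
      have := hg _ _ ht' hs' h1
      rw [es, et] at this
      exact hir _ (htr _ _ _ h this)

/-- renaming of the strands of layer `k - 1` -/
def ps (v w : ℚ) (s : ℚ × ℚ) : ℚ × ℚ := (s.1, Equiv.swap v w s.2)

/-- renaming of the strands of layer `k` -/
def qs (v w : ℚ) (s : ℚ × ℚ) : ℚ × ℚ := (Equiv.swap v w s.1, s.2)

variable {E : Lk} {k : ℤ} {v w : ℚ}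

theorem ps_ps (s : ℚ × ℚ) : ps v w (ps v w s) = s := by
  unfold ps
  rw [Equiv.swap_apply_self]

theorem qs_qs (s : ℚ × ℚ) : qs v w (qs v w s) = s := by
  unfold qs
  rw [Equiv.swap_apply_self]

theorem ps_inj {s t : ℚ × ℚ} (h : ps v w s = ps v w t) : s = t := by
  rw [← ps_ps (v := v) (w := w) s, h, ps_ps]

theorem qs_inj {s t : ℚ × ℚ} (h : qs v w s = qs v w t) : s = t := by
  rw [← qs_qs (v := v) (w := w) s, h, qs_qs]

theorem rel1 : rel E k (Equiv.swap v w) (k - 1) = (E (k - 1)).image (ps v w) := by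
  unfold rel
  rw [if_pos rfl]
  rfl

theorem rel2 : rel E k (Equiv.swap v w) k = (E k).image (qs v w) := by
  unfold rel
  rw [if_neg (by omega), if_pos rfl]
  rfl

theorem rel3 {j : ℤ} (h1 : j ≠ k - 1) (h2 : j ≠ k) : rel E k (Equiv.swap v w) j = E j := by
  unfold rel
  rw [if_neg h1, if_neg h2]

theorem map_ps_ps (L : List (ℚ × ℚ)) : (L.map (ps v w)).map (ps v w) = L := by
  rw [List.map_map]
  have : ps v w ∘ ps v w = id := funext fun s => ps_ps s
  rw [this, List.map_id]

theorem map_qs_qs (L : List (ℚ × ℚ)) : (L.map (qs v w)).map (qs v w) = L := by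
  rw [List.map_map]
  have : qs v w ∘ qs v w = id := funext fun s => qs_qs s
  rw [this, List.map_id]

theorem sw_lt (hvw : v < w) (hadj : ∀ u, v < u → u < w → deg E k u = 0) {x y : ℚ}
    (hx : deg E k x ≠ 0) (hy : deg E k y ≠ 0) (hxy : x < y) (hne : ¬ (x = v ∧ y = w)) :
    Equiv.swap v w x < Equiv.swap v w y := by
  have nx : ¬ (v < x ∧ x < w) := fun h => hx (hadj x h.1 h.2)
  have ny : ¬ (v < y ∧ y < w) := fun h => hy (hadj y h.1 h.2)
  by_cases x1 : x = v
  · have y1 : y ≠ w := fun h => hne ⟨x1, h⟩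
    have y2 : y ≠ v := by
      rintro rfl
      exact absurd hxy (by rw [x1]; exact lt_irrefl _)
    rw [x1, Equiv.swap_apply_left, Equiv.swap_apply_of_ne_of_ne y2 y1]
    rw [x1] at hxy
    rcases lt_trichotomy y w with h | h | h
    · exact absurd ⟨hxy, h⟩ ny
    · exact absurd h y1
    · exact h
  · by_cases x2 : x = w
    · rw [x2] at hxy
      have y1 : y ≠ w := hxy.ne'
      have y2 : y ≠ v := (hvw.trans hxy).ne'
      rw [x2, Equiv.swap_apply_right, Equiv.swap_apply_of_ne_of_ne y2 y1]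
      exact hvw.trans hxy
    · rw [Equiv.swap_apply_of_ne_of_ne x1 x2]
      by_cases y1 : y = v
      · rw [y1, Equiv.swap_apply_left]
        rw [y1] at hxy
        exact hxy.trans hvw
      · by_cases y2 : y = w
        · rw [y2, Equiv.swap_apply_right]
          rw [y2] at hxy
          rcases lt_trichotomy x v with h | h | h
          · exact h
          · exact absurd h x1
          · exact absurd ⟨h, hxy⟩ nx
        · rw [Equiv.swap_apply_of_ne_of_ne y1 y2]
          exact hxy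

theorem sep_hi (hsep : Sep E k v w ∨ Sep E k w v) (x : ℚ) :
    ¬ ((x, v) ∈ E (k - 1) ∧ (x, w) ∈ E (k - 1)) := by
  rintro ⟨h1, h2⟩
  rcases hsep with h | h
  · exact lt_irrefl _ (h.2 x x h1 h2)
  · exact lt_irrefl _ (h.2 x x h2 h1)

theorem sep_lo (hsep : Sep E k v w ∨ Sep E k w v) (x : ℚ) :
    ¬ ((v, x) ∈ E k ∧ (w, x) ∈ E k) := by
  rintro ⟨h1, h2⟩
  rcases hsep with h | h
  · exact lt_irrefl _ (h.1 x x h1 h2)
  · exact lt_irrefl _ (h.1 x x h2 h1)

theorem AL_ps (hvw : v < w) (hadj : ∀ u, v < u → u < w → deg E k u = 0)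
    (hsep : Sep E k v w ∨ Sep E k w v) :
    AL ((E (k - 1)).image (ps v w)) = (AL (E (k - 1))).map (ps v w) := by
  apply AL_image
  intro s hs t ht h
  rcases h with h | ⟨h1, h2⟩
  · exact Or.inl h
  · refine Or.inr ⟨h1, sw_lt hvw hadj (deg_pos_hi (x := s.1) hs) (deg_pos_hi (x := t.1) ht) h2 ?_⟩
    rintro ⟨e1, e2⟩
    refine sep_hi hsep s.1 ⟨?_, ?_⟩
    · rw [← e1]
      exact hs
    · rw [← e2, h1]
      exact ht

theorem BL_qs (hvw : v < w) (hadj : ∀ u, v < u → u < w → deg E k u = 0)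
    (hsep : Sep E k v w ∨ Sep E k w v) :
    BL ((E k).image (qs v w)) = (BL (E k)).map (qs v w) := by
  apply BL_image
  intro s hs t ht h
  rcases h with h | ⟨h1, h2⟩
  · exact Or.inl h
  · refine Or.inr ⟨h1, sw_lt hvw hadj (deg_pos_lo (x := s.2) hs) (deg_pos_lo (x := t.2) ht) h2 ?_⟩
    rintro ⟨e1, e2⟩
    change s.1 = v at e1
    change t.1 = w at e2
    change s.2 = t.2 at h1
    refine sep_lo hsep s.2 ⟨?_, ?_⟩
    · rw [← e1]
      exact hs
    · rw [← e2, h1]
      exact ht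

/-- The end order of layer `k - 1` in the new link, old names. -/
noncomputable def TT (E : Lk) (k : ℤ) (v w : ℚ) : List (ℚ × ℚ) :=
  (BL ((E (k - 1)).image (ps v w))).map (ps v w)

/-- The start order of layer `k` in the new link, old names. -/
noncomputable def SS (E : Lk) (k : ℤ) (v w : ℚ) : List (ℚ × ℚ) :=
  (AL ((E k).image (qs v w))).map (qs v w)

theorem TT_map : (TT E k v w).map (ps v w) = BL ((E (k - 1)).image (ps v w)) := map_ps_ps _

theorem SS_map : (SS E k v w).map (qs v w) = AL ((E k).image (qs v w)) := map_qs_qs _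

theorem mem_TT {s : ℚ × ℚ} : s ∈ TT E k v w ↔ s ∈ E (k - 1) := by
  unfold TT
  rw [List.mem_map]
  constructor
  · rintro ⟨x, hx, rfl⟩
    rw [mem_BL, Finset.mem_image] at hx
    obtain ⟨y, hy, rfl⟩ := hx
    rw [ps_ps]
    exact hy
  · intro h
    exact ⟨ps v w s, mem_BL.2 (Finset.mem_image_of_mem _ h), ps_ps s⟩

theorem mem_SS {s : ℚ × ℚ} : s ∈ SS E k v w ↔ s ∈ E k := by
  unfold SS
  rw [List.mem_map]
  constructor
  · rintro ⟨x, hx, rfl⟩
    rw [mem_AL, Finset.mem_image] at hx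
    obtain ⟨y, hy, rfl⟩ := hx
    rw [qs_qs]
    exact hy
  · intro h
    exact ⟨qs v w s, mem_AL.2 (Finset.mem_image_of_mem _ h), qs_qs s⟩

theorem TT_nodup : (TT E k v w).Nodup :=
  (BL_nodup _).map fun _ _ h => ps_inj h

theorem SS_nodup : (SS E k v w).Nodup :=
  (AL_nodup _).map fun _ _ h => qs_inj h

theorem TT_perm : (BL (E (k - 1))).Perm (TT E k v w) := by
  rw [List.perm_ext_iff_of_nodup (BL_nodup _) TT_nodup]
  intro a
  rw [mem_BL, mem_TT]

theorem SS_perm : (AL (E k)).Perm (SS E k v w) := by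
  rw [List.perm_ext_iff_of_nodup (AL_nodup _) SS_nodup]
  intro a
  rw [mem_AL, mem_SS]

theorem TT_pairwise :
    (TT E k v w).Pairwise (fun s t => lexLt (ps v w s).swap (ps v w t).swap) := by
  unfold TT
  rw [List.pairwise_map]
  refine (BL_pairwise _).imp ?_
  intro s t h
  rw [ps_ps, ps_ps]
  exact h

theorem SS_pairwise : (SS E k v w).Pairwise (fun s t => lexLt (qs v w s) (qs v w t)) := by
  unfold SS
  rw [List.pairwise_map]
  refine (AL_pairwise _).imp ?_
  intro s t h
  rw [qs_qs, qs_qs]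
  exact h

theorem TT_idx {s t : ℚ × ℚ} (hs : s ∈ E (k - 1)) (ht : t ∈ E (k - 1)) :
    @List.idxOf (ℚ × ℚ) instBEqOfDecidableEq s (TT E k v w) <
      @List.idxOf (ℚ × ℚ) instBEqOfDecidableEq t (TT E k v w) ↔
      lexLt (ps v w s).swap (ps v w t).swap :=
  @idx_sorted (ℚ × ℚ) instBEqOfDecidableEq inferInstance
    (fun s t : ℚ × ℚ => lexLt (ps v w s).swap (ps v w t).swap) (TT E k v w) TT_pairwise
    (fun _ _ _ h h' => lexLt_trans h h') (fun _ => lexLt_irrefl _) s t
    (mem_TT.2 hs) (mem_TT.2 ht)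

theorem SS_idx {s t : ℚ × ℚ} (hs : s ∈ E k) (ht : t ∈ E k) :
    @List.idxOf (ℚ × ℚ) instBEqOfDecidableEq s (SS E k v w) <
      @List.idxOf (ℚ × ℚ) instBEqOfDecidableEq t (SS E k v w) ↔
      lexLt (qs v w s) (qs v w t) :=
  @idx_sorted (ℚ × ℚ) instBEqOfDecidableEq inferInstance
    (fun s t : ℚ × ℚ => lexLt (qs v w s) (qs v w t)) (SS E k v w) SS_pairwise
    (fun _ _ _ h h' => lexLt_trans h h') (fun _ => lexLt_irrefl _) s t
    (mem_SS.2 hs) (mem_SS.2 ht)

/-- `swap v w` on the values -/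
theorem sw_cases (x : ℚ) (hvw : v < w) :
    (Equiv.swap v w x < v ↔ x < v) ∧ (w < Equiv.swap v w x ↔ w < x) ∧
      (Equiv.swap v w x = v ↔ x = w) ∧ (Equiv.swap v w x = w ↔ x = v) := by
  by_cases x1 : x = v
  · subst x1
    rw [Equiv.swap_apply_left]
    refine ⟨⟨fun h => absurd h (not_lt.2 hvw.le), fun h => absurd h (lt_irrefl _)⟩,
      ⟨fun h => absurd h (lt_irrefl _), fun h => absurd h (not_lt.2 hvw.le)⟩,
      ⟨fun h => h.symm, fun h => h.symm⟩, ⟨fun _ => rfl, fun _ => rfl⟩⟩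
  · by_cases x2 : x = w
    · subst x2
      rw [Equiv.swap_apply_right]
      refine ⟨⟨fun h => absurd h (lt_irrefl _), fun h => absurd h (not_lt.2 hvw.le)⟩,
        ⟨fun h => absurd h (not_lt.2 hvw.le), fun h => absurd h (lt_irrefl _)⟩,
        ⟨fun _ => rfl, fun _ => rfl⟩, ⟨fun h => h.symm, fun h => h.symm⟩⟩
    · rw [Equiv.swap_apply_of_ne_of_ne x1 x2]
      exact ⟨Iff.rfl, Iff.rfl, ⟨fun h => absurd h x1, fun h => absurd h x2⟩,
        ⟨fun h => absurd h x2, fun h => absurd h x1⟩⟩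

private theorem filt {α : Type*} [DecidableEq α] {F : Finset α} {μ : α → α} {P Q : α → Prop}
    [DecidablePred P] [DecidablePred Q] (h : ∀ s, P (μ s) ↔ Q s) :
    (F.image μ).filter P = (F.filter Q).image μ := by
  ext x
  simp only [Finset.mem_filter, Finset.mem_image]
  constructor
  · rintro ⟨⟨s, hs, rfl⟩, hP⟩
    exact ⟨s, ⟨hs, (h s).1 hP⟩, rfl⟩
  · rintro ⟨s, ⟨hs, hQ⟩, rfl⟩
    exact ⟨⟨s, hs, rfl⟩, (h s).2 hQ⟩

theorem TT_eq (hvw : v < w) (hadj : ∀ u, v < u → u < w → deg E k u = 0) :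
    TT E k v w = BL ((E (k - 1)).filter (fun s => s.2 < v)) ++
      BL ((E (k - 1)).filter (fun s => s.2 = w)) ++ BL ((E (k - 1)).filter (fun s => s.2 = v)) ++
      BL ((E (k - 1)).filter (fun s => w < s.2)) := by
  have hb : ∀ s ∈ (E (k - 1)).image (ps v w), ¬ (v < s.2 ∧ s.2 < w) := by
    intro s hs
    rw [Finset.mem_image] at hs
    obtain ⟨t, ht, rfl⟩ := hs
    rintro ⟨h1, h2⟩
    change v < Equiv.swap v w t.2 at h1
    change Equiv.swap v w t.2 < w at h2
    have h3 : t.2 ≠ v := by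
      intro h
      rw [h, Equiv.swap_apply_left] at h2
      exact lt_irrefl _ h2
    have h4 : t.2 ≠ w := by
      intro h
      rw [h, Equiv.swap_apply_right] at h1
      exact lt_irrefl _ h1
    rw [Equiv.swap_apply_of_ne_of_ne h3 h4] at h1 h2
    exact deg_pos_hi (x := t.1) ht (hadj _ h1 h2)
  have key : ∀ (P Q : ℚ × ℚ → Prop) [DecidablePred P] [DecidablePred Q],
      (∀ s, P (ps v w s) ↔ Q s) →
      (∀ s ∈ (E (k - 1)).filter Q, ∀ t ∈ (E (k - 1)).filter Q, lexLt s.swap t.swap →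
        lexLt (ps v w s).swap (ps v w t).swap) →
      (BL (((E (k - 1)).image (ps v w)).filter P)).map (ps v w) = BL ((E (k - 1)).filter Q) := by
    intro P Q _ _ h1 h2
    rw [filt h1, BL_image _ h2, map_ps_ps]
  unfold TT
  rw [BL_split2 _ hvw hb]
  simp only [List.map_append]
  rw [key (fun s => s.2 < v) (fun s => s.2 < v) (fun s => (sw_cases s.2 hvw).1) ?_,
    key (fun s => s.2 = v) (fun s => s.2 = w) (fun s => (sw_cases s.2 hvw).2.2.1) ?_,
    key (fun s => s.2 = w) (fun s => s.2 = v) (fun s => (sw_cases s.2 hvw).2.2.2) ?_,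
    key (fun s => w < s.2) (fun s => w < s.2) (fun s => (sw_cases s.2 hvw).2.1) ?_]
  · intro s hs t ht h
    rw [Finset.mem_filter] at hs ht
    have e1 : ps v w s = s := by
      unfold ps
      rw [Equiv.swap_apply_of_ne_of_ne (hvw.trans hs.2).ne' hs.2.ne']
    have e2 : ps v w t = t := by
      unfold ps
      rw [Equiv.swap_apply_of_ne_of_ne (hvw.trans ht.2).ne' ht.2.ne']
    rw [e1, e2]
    exact h
  · intro s hs t ht h
    rw [Finset.mem_filter] at hs ht
    rcases h with h | ⟨_, h⟩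
    · change s.2 < t.2 at h
      rw [hs.2, ht.2] at h
      exact absurd h (lt_irrefl _)
    · refine Or.inr ⟨?_, h⟩
      change Equiv.swap v w s.2 = Equiv.swap v w t.2
      rw [hs.2, ht.2]
  · intro s hs t ht h
    rw [Finset.mem_filter] at hs ht
    rcases h with h | ⟨_, h⟩
    · change s.2 < t.2 at h
      rw [hs.2, ht.2] at h
      exact absurd h (lt_irrefl _)
    · refine Or.inr ⟨?_, h⟩
      change Equiv.swap v w s.2 = Equiv.swap v w t.2
      rw [hs.2, ht.2]
  · intro s hs t ht h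
    rw [Finset.mem_filter] at hs ht
    have e1 : ps v w s = s := by
      unfold ps
      rw [Equiv.swap_apply_of_ne_of_ne hs.2.ne (hs.2.trans hvw).ne]
    have e2 : ps v w t = t := by
      unfold ps
      rw [Equiv.swap_apply_of_ne_of_ne ht.2.ne (ht.2.trans hvw).ne]
    rw [e1, e2]
    exact h

theorem SS_eq (hvw : v < w) (hadj : ∀ u, v < u → u < w → deg E k u = 0) :
    SS E k v w = AL ((E k).filter (fun s => s.1 < v)) ++
      AL ((E k).filter (fun s => s.1 = w)) ++ AL ((E k).filter (fun s => s.1 = v)) ++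
      AL ((E k).filter (fun s => w < s.1)) := by
  have hb : ∀ s ∈ (E k).image (qs v w), ¬ (v < s.1 ∧ s.1 < w) := by
    intro s hs
    rw [Finset.mem_image] at hs
    obtain ⟨t, ht, rfl⟩ := hs
    rintro ⟨h1, h2⟩
    change v < Equiv.swap v w t.1 at h1
    change Equiv.swap v w t.1 < w at h2
    have h3 : t.1 ≠ v := by
      intro h
      rw [h, Equiv.swap_apply_left] at h2
      exact lt_irrefl _ h2
    have h4 : t.1 ≠ w := by
      intro h
      rw [h, Equiv.swap_apply_right] at h1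
      exact lt_irrefl _ h1
    rw [Equiv.swap_apply_of_ne_of_ne h3 h4] at h1 h2
    exact deg_pos_lo (x := t.2) ht (hadj _ h1 h2)
  have key : ∀ (P Q : ℚ × ℚ → Prop) [DecidablePred P] [DecidablePred Q],
      (∀ s, P (qs v w s) ↔ Q s) →
      (∀ s ∈ (E k).filter Q, ∀ t ∈ (E k).filter Q, lexLt s t →
        lexLt (qs v w s) (qs v w t)) →
      (AL (((E k).image (qs v w)).filter P)).map (qs v w) = AL ((E k).filter Q) := by
    intro P Q _ _ h1 h2
    rw [filt h1, AL_image _ h2, map_qs_qs]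
  unfold SS
  rw [AL_split2 _ hvw hb]
  simp only [List.map_append]
  rw [key (fun s => s.1 < v) (fun s => s.1 < v) (fun s => (sw_cases s.1 hvw).1) ?_,
    key (fun s => s.1 = v) (fun s => s.1 = w) (fun s => (sw_cases s.1 hvw).2.2.1) ?_,
    key (fun s => s.1 = w) (fun s => s.1 = v) (fun s => (sw_cases s.1 hvw).2.2.2) ?_,
    key (fun s => w < s.1) (fun s => w < s.1) (fun s => (sw_cases s.1 hvw).2.1) ?_]
  · intro s hs t ht h
    rw [Finset.mem_filter] at hs ht
    have e1 : qs v w s = s := by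
      unfold qs
      rw [Equiv.swap_apply_of_ne_of_ne (hvw.trans hs.2).ne' hs.2.ne']
    have e2 : qs v w t = t := by
      unfold qs
      rw [Equiv.swap_apply_of_ne_of_ne (hvw.trans ht.2).ne' ht.2.ne']
    rw [e1, e2]
    exact h
  · intro s hs t ht h
    rw [Finset.mem_filter] at hs ht
    rcases h with h | ⟨_, h⟩
    · rw [hs.2, ht.2] at h
      exact absurd h (lt_irrefl _)
    · refine Or.inr ⟨?_, h⟩
      change Equiv.swap v w s.1 = Equiv.swap v w t.1
      rw [hs.2, ht.2]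
  · intro s hs t ht h
    rw [Finset.mem_filter] at hs ht
    rcases h with h | ⟨_, h⟩
    · rw [hs.2, ht.2] at h
      exact absurd h (lt_irrefl _)
    · refine Or.inr ⟨?_, h⟩
      change Equiv.swap v w s.1 = Equiv.swap v w t.1
      rw [hs.2, ht.2]
  · intro s hs t ht h
    rw [Finset.mem_filter] at hs ht
    have e1 : qs v w s = s := by
      unfold qs
      rw [Equiv.swap_apply_of_ne_of_ne hs.2.ne (hs.2.trans hvw).ne]
    have e2 : qs v w t = t := by
      unfold qs
      rw [Equiv.swap_apply_of_ne_of_ne ht.2.ne (ht.2.trans hvw).ne]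
    rw [e1, e2]
    exact h

/-- Transport of `Lev`. -/
theorem lev_tr {E F : Lk} {j : ℤ} {μ ν : ℚ × ℚ → ℚ × ℚ} (hμ : F (j - 1) = (E (j - 1)).image μ)
    (hν : F j = (E j).image ν) (iμ : ∀ s t, μ s = μ t → s = t) (iν : ∀ s t, ν s = ν t → s = t)
    (hh : ∀ s t, (μ s).2 = (μ t).2 ↔ s.2 = t.2) (ll : ∀ s t, (ν s).1 = (ν t).1 ↔ s.1 = t.1)
    (hl : ∀ s t, (μ s).2 = (ν t).1 ↔ s.2 = t.1) {b a b' a' : ℚ × ℚ → ℕ}
    (hb : ∀ s, b' (μ s) = b s) (ha : ∀ s, a' (ν s) = a s) :
    Lev F j b' a' ↔ Lev E j b a := by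
  have n1 : ∀ s t, μ s ≠ μ t ↔ s ≠ t := fun s t =>
    ⟨fun h e => h (by rw [e]), fun h e => h (iμ _ _ e)⟩
  have n2 : ∀ s t, ν s ≠ ν t ↔ s ≠ t := fun s t =>
    ⟨fun h e => h (by rw [e]), fun h e => h (iν _ _ e)⟩
  unfold Lev
  rw [hμ, hν]
  simp only [Finset.forall_mem_image, n1, n2, hh, ll, hl, hb, ha]

/-- From the rulings of the two layers to the ruling of the new link. -/
theorem finish (hvw : v < w) (hadj : ∀ u, v < u → u < w → deg E k u = 0)
    (hsep : Sep E k v w ∨ Sep E k w v) {a b : ℤ → ℚ × ℚ → ℕ}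
    (hr : ∀ j : ℤ, Two ((AL (E j)).map (a j)) ∧
      Srt (BL (E j)) (AL (E j)) ((AL (E j)).map (a j)) ((BL (E j)).map (b j)) ∧
      Lev E j (b (j - 1)) (a j))
    {c e : ℚ × ℚ → ℕ}
    (h1 : Srt (TT E k v w) (AL (E (k - 1))) ((AL (E (k - 1))).map (a (k - 1)))
      ((TT E k v w).map c))
    (h2 : Srt (BL (E k)) (SS E k v w) ((SS E k v w).map e) ((BL (E k)).map (b k)))
    (h3 : Two ((SS E k v w).map e)) (h4 : Lev E k c e) :
    Rul (rel E k (Equiv.swap v w)) := by
  classical
  set F := rel E k (Equiv.swap v w) with hF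
  have F1 : F (k - 1) = (E (k - 1)).image (ps v w) := rel1
  have F2 : F k = (E k).image (qs v w) := rel2
  have F3 : ∀ {j : ℤ}, j ≠ k - 1 → j ≠ k → F j = E j := fun g1 g2 => rel3 g1 g2
  let a' : ℤ → ℚ × ℚ → ℕ := fun j s =>
    if j = k - 1 then a (k - 1) (ps v w s) else if j = k then e (qs v w s) else a j s
  let b' : ℤ → ℚ × ℚ → ℕ := fun j s =>
    if j = k - 1 then c (ps v w s) else if j = k then b k (qs v w s) else b j s
  have a1 : ∀ s, a' (k - 1) (ps v w s) = a (k - 1) s := by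
    intro s
    show (if k - 1 = k - 1 then a (k - 1) (ps v w (ps v w s)) else _) = _
    rw [if_pos rfl, ps_ps]
  have a2 : ∀ s, a' k (qs v w s) = e s := by
    intro s
    show (if k = k - 1 then _ else if k = k then e (qs v w (qs v w s)) else _) = _
    rw [if_neg (by omega), if_pos rfl, qs_qs]
  have a3 : ∀ {j : ℤ}, j ≠ k - 1 → j ≠ k → a' j = a j := by
    intro j g1 g2
    funext s
    show (if j = k - 1 then _ else if j = k then _ else _) = _
    rw [if_neg g1, if_neg g2]
  have b1 : ∀ s, b' (k - 1) (ps v w s) = c s := by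
    intro s
    show (if k - 1 = k - 1 then c (ps v w (ps v w s)) else _) = _
    rw [if_pos rfl, ps_ps]
  have b2 : ∀ s, b' k (qs v w s) = b k s := by
    intro s
    show (if k = k - 1 then _ else if k = k then b k (qs v w (qs v w s)) else _) = _
    rw [if_neg (by omega), if_pos rfl, qs_qs]
  have b3 : ∀ {j : ℤ}, j ≠ k - 1 → j ≠ k → b' j = b j := by
    intro j g1 g2
    funext s
    show (if j = k - 1 then _ else if j = k then _ else _) = _
    rw [if_neg g1, if_neg g2]
  have mm : ∀ (L : List (ℚ × ℚ)) (f g : ℚ × ℚ → ℕ) (μ : ℚ × ℚ → ℚ × ℚ), (∀ s, f (μ s) = g s) →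
      (L.map μ).map f = L.map g := by
    intro L f g μ h
    rw [List.map_map]
    exact List.map_congr_left fun s _ => h s
  refine ⟨a', b', fun j => ?_⟩
  by_cases j1 : j = k - 1
  · subst j1
    have e1 : (AL (F (k - 1))).map (a' (k - 1)) = (AL (E (k - 1))).map (a (k - 1)) := by
      rw [F1, AL_ps hvw hadj hsep]
      exact mm _ _ _ _ a1
    have e2 : (BL (F (k - 1))).map (b' (k - 1)) = (TT E k v w).map c := by
      rw [F1, ← TT_map]
      exact mm _ _ _ _ b1
    refine ⟨?_, ?_, ?_⟩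
    · rw [e1]
      exact (hr (k - 1)).1
    · rw [e1, e2, F1, ← TT_map, AL_ps hvw hadj hsep]
      exact (srtN_map (ps v w) ((AL_perm_BL _).trans TT_perm) (fun x _ y _ h => ps_inj h)).2 h1
    · have g1 : k - 1 - 1 ≠ k - 1 := by omega
      have g2 : k - 1 - 1 ≠ k := by omega
      rw [b3 g1 g2]
      refine (lev_tr (E := E) (μ := id) (ν := ps v w) ?_ F1 (fun s t h => h)
        (fun s t h => ps_inj h) (fun s t => Iff.rfl) (fun s t => Iff.rfl) (fun s t => Iff.rfl)
        (fun s => rfl) a1).2 (hr (k - 1)).2.2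
      rw [F3 g1 g2, Finset.image_id]
  by_cases j2 : j = k
  · subst j2
    have e1 : (AL (F j)).map (a' j) = (SS E j v w).map e := by
      rw [F2, ← SS_map]
      exact mm _ _ _ _ a2
    have e2 : (BL (F j)).map (b' j) = (BL (E j)).map (b j) := by
      rw [F2, BL_qs hvw hadj hsep]
      exact mm _ _ _ _ b2
    refine ⟨?_, ?_, ?_⟩
    · rw [e1]
      exact h3
    · rw [e1, e2, F2, ← SS_map, BL_qs hvw hadj hsep]
      exact (srtN_map (qs v w) (SS_perm.symm.trans (AL_perm_BL _))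
        (fun x _ y _ h => qs_inj h)).2 h2
    · refine (lev_tr (E := E) (μ := ps v w) (ν := qs v w) F1 F2 (fun s t h => ps_inj h)
        (fun s t h => qs_inj h) ?_ ?_ ?_ b1 a2).2 h4
      · intro s t
        exact (Equiv.swap v w).injective.eq_iff
      · intro s t
        exact (Equiv.swap v w).injective.eq_iff
      · intro s t
        exact (Equiv.swap v w).injective.eq_iff
  · rw [F3 j1 j2, a3 j1 j2, b3 j1 j2]
    refine ⟨(hr j).1, (hr j).2.1, ?_⟩
    by_cases j3 : j - 1 = k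
    · have g1 : F (j - 1) = (E (j - 1)).image (qs v w) := by
        rw [j3]
        exact F2
      have g2 : ∀ s, b' (j - 1) (qs v w s) = b (j - 1) s := by
        rw [j3]
        exact b2
      refine (lev_tr (E := E) (μ := qs v w) (ν := id) g1 ?_ (fun s t h => qs_inj h)
        (fun s t h => h) (fun s t => Iff.rfl) (fun s t => Iff.rfl) (fun s t => Iff.rfl)
        g2 (fun s => rfl)).2 (hr j).2.2
      rw [F3 j1 j2, Finset.image_id]
    · have j4 : j - 1 ≠ k - 1 := by omega
      rw [b3 j4 j3]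
      have h5 := (hr j).2.2
      unfold Lev at h5 ⊢
      rw [F3 j4 j3, F3 j1 j2]
      exact h5

theorem btwI_hi (hvw : v < w) (hadj : ∀ u, v < u → u < w → deg E k u = 0) (hs : Sep E k v w) :
    Btw (AL (E (k - 1))) (TT E k v w) (BL (E (k - 1))) := by
  intro s hs1 t ht1 h1 h2
  rw [mem_AL] at hs1 ht1
  rw [AL_idx' hs1 ht1] at h1
  rw [BL_idx' hs1 ht1] at h2
  rw [TT_idx hs1 ht1]
  rcases h2 with h2 | ⟨h2, h3⟩
  · refine Or.inl (sw_lt hvw hadj (deg_pos_hi (x := s.1) hs1) (deg_pos_hi (x := t.1) ht1) h2 ?_)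
    rintro ⟨e1, e2⟩
    change s.2 = v at e1
    change t.2 = w at e2
    have h4 : t.1 < s.1 := hs.2 s.1 t.1 (by rw [← e1]; exact hs1) (by rw [← e2]; exact ht1)
    rcases h1 with h1 | ⟨h1, _⟩
    · exact lt_asymm h1 h4
    · exact h4.ne' h1
  · refine Or.inr ⟨?_, h3⟩
    change Equiv.swap v w s.2 = Equiv.swap v w t.2
    rw [show s.2 = t.2 from h2]

theorem btwII_hi (hvw : v < w) (hadj : ∀ u, v < u → u < w → deg E k u = 0) (hs : Sep E k w v) :
    Btw (AL (E (k - 1))) (BL (E (k - 1))) (TT E k v w) := by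
  intro s hs1 t ht1 h1 h2
  rw [mem_AL] at hs1 ht1
  rw [AL_idx' hs1 ht1] at h1
  rw [TT_idx hs1 ht1] at h2
  rw [BL_idx' hs1 ht1]
  by_contra hc
  have hst : s ≠ t := by
    rintro rfl
    exact lexLt_irrefl _ h1
  have h3 : lexLt t.swap s.swap := by
    rcases lexLt_total s.swap t.swap with h | h | h
    · exact absurd h hc
    · exact absurd (Prod.swap_injective h) hst
    · exact h
  rcases h3 with h3 | ⟨h3, h4⟩
  · change t.2 < s.2 at h3
    by_cases hx : t.2 = v ∧ s.2 = w
    · have h5 : t.1 < s.1 := hs.2 s.1 t.1 (by rw [← hx.2]; exact hs1) (by rw [← hx.1]; exact ht1)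
      rcases h1 with h1 | ⟨h1, _⟩
      · exact lt_asymm h1 h5
      · exact h5.ne' h1
    · have h5 := sw_lt hvw hadj (deg_pos_hi (x := t.1) ht1) (deg_pos_hi (x := s.1) hs1) h3 hx
      rcases h2 with h2 | ⟨h2, _⟩
      · exact lt_asymm h2 h5
      · exact h5.ne' h2
  · change t.1 < s.1 at h4
    change t.2 = s.2 at h3
    rcases h1 with h1 | ⟨h1, _⟩
    · exact lt_asymm h1 h4
    · exact h4.ne' h1

theorem btwI_lo (hvw : v < w) (hadj : ∀ u, v < u → u < w → deg E k u = 0) (hs : Sep E k v w) :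
    Btw (SS E k v w) (AL (E k)) (BL (E k)) := by
  intro s hs1 t ht1 h1 h2
  rw [mem_SS] at hs1 ht1
  rw [SS_idx hs1 ht1] at h1
  rw [BL_idx' hs1 ht1] at h2
  rw [AL_idx' hs1 ht1]
  by_contra hc
  have hst : s ≠ t := by
    rintro rfl
    exact lexLt_irrefl _ h1
  have h3 : lexLt t s := by
    rcases lexLt_total s t with h | h | h
    · exact absurd h hc
    · exact absurd h hst
    · exact h
  rcases h3 with h3 | ⟨h3, h4⟩
  · by_cases hx : t.1 = v ∧ s.1 = w
    · have h5 : t.2 < s.2 := hs.1 t.2 s.2 (by rw [← hx.1]; exact ht1) (by rw [← hx.2]; exact hs1)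
      rcases h2 with h2 | ⟨h2, _⟩
      · exact lt_asymm h2 h5
      · exact h5.ne' h2
    · have h5 := sw_lt hvw hadj (deg_pos_lo (x := t.2) ht1) (deg_pos_lo (x := s.2) hs1) h3 hx
      rcases h1 with h1 | ⟨h1, _⟩
      · exact lt_asymm h1 h5
      · exact h5.ne' h1
  · rcases h2 with h2 | ⟨h2, h5⟩
    · exact lt_asymm h2 h4
    · exact h4.ne' h2

theorem btwII_lo (hvw : v < w) (hadj : ∀ u, v < u → u < w → deg E k u = 0) (hs : Sep E k w v) :
    Btw (AL (E k)) (SS E k v w) (BL (E k)) := by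
  intro s hs1 t ht1 h1 h2
  rw [mem_AL] at hs1 ht1
  rw [AL_idx' hs1 ht1] at h1
  rw [BL_idx' hs1 ht1] at h2
  rw [SS_idx hs1 ht1]
  rcases h1 with h1 | ⟨h1, h3⟩
  · refine Or.inl (sw_lt hvw hadj (deg_pos_lo (x := s.2) hs1) (deg_pos_lo (x := t.2) ht1) h1 ?_)
    rintro ⟨e1, e2⟩
    have h4 : t.2 < s.2 := hs.1 t.2 s.2 (by rw [← e2]; exact ht1) (by rw [← e1]; exact hs1)
    rcases h2 with h2 | ⟨h2, _⟩
    · exact lt_asymm h2 h4
    · exact h4.ne' h2
  · refine Or.inr ⟨?_, h3⟩
    change Equiv.swap v w s.1 = Equiv.swap v w t.1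
    rw [h1]

theorem AL_length (F : Finset (ℚ × ℚ)) : (AL F).length = F.card := by
  rw [← List.toFinset_card_of_nodup (AL_nodup F)]
  congr 1
  ext s
  rw [List.mem_toFinset, mem_AL]

theorem BL_length (F : Finset (ℚ × ℚ)) : (BL F).length = F.card := by
  rw [← List.toFinset_card_of_nodup (BL_nodup F)]
  congr 1
  ext s
  rw [List.mem_toFinset, mem_BL]

theorem BL_eq (hvw : v < w) (hadj : ∀ u, v < u → u < w → deg E k u = 0) :
    BL (E (k - 1)) = BL ((E (k - 1)).filter (fun s => s.2 < v)) ++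
      BL ((E (k - 1)).filter (fun s => s.2 = v)) ++ BL ((E (k - 1)).filter (fun s => s.2 = w)) ++
      BL ((E (k - 1)).filter (fun s => w < s.2)) :=
  BL_split2 _ hvw fun s hs h => deg_pos_hi (x := s.1) hs (hadj _ h.1 h.2)

theorem AL_eq (hvw : v < w) (hadj : ∀ u, v < u → u < w → deg E k u = 0) :
    AL (E k) = AL ((E k).filter (fun s => s.1 < v)) ++
      AL ((E k).filter (fun s => s.1 = v)) ++ AL ((E k).filter (fun s => s.1 = w)) ++
      AL ((E k).filter (fun s => w < s.1)) :=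
  AL_split2 _ hvw fun s hs h => deg_pos_lo (x := s.2) hs (hadj _ h.1 h.2)

/-- A list of two different names with equal labels. -/
private theorem pair_of {X : List (ℚ × ℚ)} {f : ℚ × ℚ → ℕ} (hn : X.Nodup)
    (h : ∀ s ∈ X, ∀ t ∈ X, s ≠ t → f s = f t) (hX : X.length = 2) : ∃ p, X.map f = [p, p] := by
  match X, hX with
  | [s, t], _ =>
    have hst : s ≠ t := by
      rintro rfl
      simp at hn
    refine ⟨f s, ?_⟩
    rw [List.map_cons, List.map_cons, List.map_nil, h s (by simp) t (by simp) hst]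

variable {b a : ℚ × ℚ → ℕ}

theorem blockB (hE : Closed E) (hvw : v < w) (hadj : ∀ u, v < u → u < w → deg E k u = 0)
    (hl : Lev E k b a) (hb : Two ((BL (E (k - 1))).map b))
    (hne : ¬ (((E (k - 1)).filter (fun s => s.2 = v)).card = 1 ∧
      ((E (k - 1)).filter (fun s => s.2 = w)).card = 1)) (u : List ℕ) :
    Srt (TT E k v w) (BL (E (k - 1))) ((BL (E (k - 1))).map b) u ↔
      Ren ((TT E k v w).map b) u := by
  have hcard : ∀ x : ℚ, ((E (k - 1)).filter (fun s => s.2 = x)).card ≤ 2 := by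
    intro x
    have := hE k x
    unfold deg at this
    omega
  have hp : ∀ x : ℚ, (BL ((E (k - 1)).filter (fun s => s.2 = x))).length = 2 →
      ∃ p, (BL ((E (k - 1)).filter (fun s => s.2 = x))).map b = [p, p] := by
    intro x hx
    refine pair_of (BL_nodup _) ?_ hx
    intro s hs t ht hst
    rw [mem_BL, Finset.mem_filter] at hs ht
    exact hl.1 s hs.1 t ht.1 hst (hs.2.trans ht.2.symm)
  have hnd := BL_nodup (E (k - 1))
  rw [BL_eq hvw hadj] at hnd hb
  rw [TT_eq hvw hadj, BL_eq hvw hadj]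
  simp only [List.map_append] at hb ⊢
  refine srt_block hnd (List.length_map _) (List.length_map _) (List.length_map _)
    (List.length_map _) ?_ ?_ (hp v) (hp w) ?_ hb
  · rw [BL_length]
    exact hcard v
  · rw [BL_length]
    exact hcard w
  · rw [BL_length, BL_length]
    exact hne

theorem blockA (hE : Closed E) (hvw : v < w) (hadj : ∀ u, v < u → u < w → deg E k u = 0)
    (hl : Lev E k b a) (ha : Two ((AL (E k)).map a))
    (hne : ¬ (((E k).filter (fun s => s.1 = v)).card = 1 ∧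
      ((E k).filter (fun s => s.1 = w)).card = 1)) (u : List ℕ) :
    Srt (SS E k v w) (AL (E k)) ((AL (E k)).map a) u ↔ Ren ((SS E k v w).map a) u := by
  have hcard : ∀ x : ℚ, ((E k).filter (fun s => s.1 = x)).card ≤ 2 := by
    intro x
    have := hE k x
    unfold deg at this
    omega
  have hp : ∀ x : ℚ, (AL ((E k).filter (fun s => s.1 = x))).length = 2 →
      ∃ p, (AL ((E k).filter (fun s => s.1 = x))).map a = [p, p] := by
    intro x hx
    refine pair_of (AL_nodup _) ?_ hx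
    intro s hs t ht hst
    rw [mem_AL, Finset.mem_filter] at hs ht
    exact hl.2.1 s hs.1 t ht.1 hst (hs.2.trans ht.2.symm)
  have hnd := AL_nodup (E k)
  rw [AL_eq hvw hadj] at hnd ha
  rw [SS_eq hvw hadj, AL_eq hvw hadj]
  simp only [List.map_append] at ha ⊢
  refine srt_block hnd (List.length_map _) (List.length_map _) (List.length_map _)
    (List.length_map _) ?_ ?_ (hp v) (hp w) ?_ ha
  · rw [AL_length]
    exact hcard v
  · rw [AL_length]
    exact hcard w
  · rw [AL_length, AL_length]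
    exact hne

/-- One step: exchange of two neighbouring names, with labels. -/
private theorem step_iff {U V : List (ℚ × ℚ)} {d d' : ℚ × ℚ} (f : ℚ × ℚ → ℕ)
    (hn : (U ++ d :: d' :: V).Nodup) (u : List ℕ) :
    Srt (U ++ d' :: d :: V) (U ++ d :: d' :: V) ((U ++ d :: d' :: V).map f) u ↔
      f d ≠ f d' ∧ (Ren ((U ++ d' :: d :: V).map f) u ∨
        (Ren ((U ++ d' :: d :: V).map (f ∘ Equiv.swap d d')) u ∧
          ((V ++ U).map f).idxOf (f d') < ((V ++ U).map f).idxOf (f d))) := by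
  rw [srtN_one hn]
  have e1 : (U ++ d :: d' :: V).map f = U.map f ++ f d :: f d' :: V.map f := by simp
  have e2 : (U ++ d' :: d :: V).map f = U.map f ++ f d' :: f d :: V.map f := by simp
  have hd : d ∉ U ∧ d ∉ V ∧ d' ∉ U ∧ d' ∉ V := by
    rw [List.nodup_append'] at hn
    obtain ⟨_, h2, h3⟩ := hn
    rw [List.nodup_cons, List.nodup_cons] at h2
    refine ⟨fun h => h3 h (by simp), fun h => h2.1 (List.mem_cons_of_mem _ h),
      fun h => h3 h (by simp), h2.2.1⟩
  have hfix : ∀ x : ℚ × ℚ, x ≠ d → x ≠ d' → (f ∘ Equiv.swap d d') x = f x := by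
    intro x h1 h2
    rw [Function.comp_apply, Equiv.swap_apply_of_ne_of_ne h1 h2]
  have eU : U.map (f ∘ Equiv.swap d d') = U.map f := by
    refine List.map_congr_left fun x hx => hfix x ?_ ?_
    · rintro rfl
      exact hd.1 hx
    · rintro rfl
      exact hd.2.2.1 hx
  have eV : V.map (f ∘ Equiv.swap d d') = V.map f := by
    refine List.map_congr_left fun x hx => hfix x ?_ ?_
    · rintro rfl
      exact hd.2.1 hx
    · rintro rfl
      exact hd.2.2.2 hx
  have e3 : (U ++ d' :: d :: V).map (f ∘ Equiv.swap d d') =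
      U.map f ++ f d :: f d' :: V.map f := by
    rw [List.map_append, List.map_cons, List.map_cons, eU, eV, Function.comp_apply,
      Function.comp_apply, Equiv.swap_apply_left, Equiv.swap_apply_right]
  rw [e1, e2, e3, List.map_append]
  have h := crN_iff (W := U.map f) (Z := V.map f) (w' := u) (p := f d) (q := f d')
  rw [List.length_map] at h
  exact h

/-- The levels for the switched labels. -/
theorem lev_swap (hl : Lev E k b a) {d d' u u' : ℚ × ℚ}
    (hd : ∀ x, x ∈ E (k - 1) ∧ x.2 = v ↔ x = d) (hd' : ∀ x, x ∈ E (k - 1) ∧ x.2 = w ↔ x = d')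
    (hu : ∀ x, x ∈ E k ∧ x.1 = v ↔ x = u) (hu' : ∀ x, x ∈ E k ∧ x.1 = w ↔ x = u') :
    Lev E k (b ∘ Equiv.swap d d') (a ∘ Equiv.swap u u') := by
  have d1 := (hd d).2 rfl
  have d2 := (hd' d').2 rfl
  have u1 := (hu u).2 rfl
  have u2 := (hu' u').2 rfl
  -- what the swaps do
  have mS : ∀ s ∈ E (k - 1), Equiv.swap d d' s ∈ E (k - 1) := by
    intro s hs
    by_cases h1 : s = d
    · rw [h1, Equiv.swap_apply_left]
      exact d2.1
    · by_cases h2 : s = d'
      · rw [h2, Equiv.swap_apply_right]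
        exact d1.1
      · rw [Equiv.swap_apply_of_ne_of_ne h1 h2]
        exact hs
  have mT : ∀ t ∈ E k, Equiv.swap u u' t ∈ E k := by
    intro s hs
    by_cases h1 : s = u
    · rw [h1, Equiv.swap_apply_left]
      exact u2.1
    · by_cases h2 : s = u'
      · rw [h2, Equiv.swap_apply_right]
        exact u1.1
      · rw [Equiv.swap_apply_of_ne_of_ne h1 h2]
        exact hs
  have vS : ∀ s ∈ E (k - 1), (Equiv.swap d d' s).2 = Equiv.swap v w s.2 := by
    intro s hs
    by_cases h1 : s = d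
    · rw [h1, Equiv.swap_apply_left, d1.2, d2.2, Equiv.swap_apply_left]
    · by_cases h2 : s = d'
      · rw [h2, Equiv.swap_apply_right, d1.2, d2.2, Equiv.swap_apply_right]
      · rw [Equiv.swap_apply_of_ne_of_ne h1 h2, Equiv.swap_apply_of_ne_of_ne]
        · exact fun h => h1 ((hd s).1 ⟨hs, h⟩)
        · exact fun h => h2 ((hd' s).1 ⟨hs, h⟩)
  have vT : ∀ t ∈ E k, (Equiv.swap u u' t).1 = Equiv.swap v w t.1 := by
    intro s hs
    by_cases h1 : s = u
    · rw [h1, Equiv.swap_apply_left, u1.2, u2.2, Equiv.swap_apply_left]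
    · by_cases h2 : s = u'
      · rw [h2, Equiv.swap_apply_right, u1.2, u2.2, Equiv.swap_apply_right]
      · rw [Equiv.swap_apply_of_ne_of_ne h1 h2, Equiv.swap_apply_of_ne_of_ne]
        · exact fun h => h1 ((hu s).1 ⟨hs, h⟩)
        · exact fun h => h2 ((hu' s).1 ⟨hs, h⟩)
  obtain ⟨l1, l2, l3⟩ := hl
  refine ⟨?_, ?_, ?_⟩
  · intro s hs s' hs' hne h
    refine l1 _ (mS s hs) _ (mS s' hs') (fun e => hne ((Equiv.swap d d').injective e)) ?_
    rw [vS s hs, vS s' hs', h]
  · intro t ht t' ht' hne h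
    refine l2 _ (mT t ht) _ (mT t' ht') (fun e => hne ((Equiv.swap u u').injective e)) ?_
    rw [vT t ht, vT t' ht', h]
  · intro s hs s' hs' t ht t' ht' h1 h2
    refine l3 _ (mS s hs) _ (mS s' hs') _ (mT t ht) _ (mT t' ht') ?_ ?_
    · rw [vS s hs, vT t ht, h1]
    · rw [vS s' hs', vT t' ht', h2]

/-- The two exchanges correspond to each other. -/
theorem core (hE : Closed E) (hvw : v < w) (hv : deg E k v ≠ 0) (hw : deg E k w ≠ 0)
    (hadj : ∀ u, v < u → u < w → deg E k u = 0) (hl : Lev E k b a)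
    (hb : Two ((BL (E (k - 1))).map b)) (ha : Two ((AL (E k)).map a)) :
    (∀ u, Srt (TT E k v w) (BL (E (k - 1))) ((BL (E (k - 1))).map b) u →
      ∃ c e : ℚ × ℚ → ℕ, Ren ((TT E k v w).map c) u ∧
        Srt (SS E k v w) (AL (E k)) ((AL (E k)).map a) ((SS E k v w).map e) ∧ Lev E k c e) ∧
    (∀ u, Srt (SS E k v w) (AL (E k)) ((AL (E k)).map a) u →
      ∃ c e : ℚ × ℚ → ℕ, Ren ((SS E k v w).map e) u ∧
        Srt (TT E k v w) (BL (E (k - 1))) ((BL (E (k - 1))).map b) ((TT E k v w).map c) ∧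
        Lev E k c e) := by
  have dv := hE k v
  have dw := hE k w
  have dv2 : deg E k v = 2 := by tauto
  have dw2 : deg E k w = 2 := by tauto
  unfold deg at dv2 dw2
  by_cases hp : ((E (k - 1)).filter (fun s => s.2 = v)).card = 1 ∧
      ((E (k - 1)).filter (fun s => s.2 = w)).card = 1
  · -- both segments are passing
    have hp1 : ((E k).filter (fun s => s.1 = v)).card = 1 := by omega
    have hp2 : ((E k).filter (fun s => s.1 = w)).card = 1 := by omega
    obtain ⟨d, hd⟩ := Finset.card_eq_one.1 hp.1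
    obtain ⟨d', hd'⟩ := Finset.card_eq_one.1 hp.2
    obtain ⟨u, hu⟩ := Finset.card_eq_one.1 hp1
    obtain ⟨u', hu'⟩ := Finset.card_eq_one.1 hp2
    have gd : ∀ x, x ∈ E (k - 1) ∧ x.2 = v ↔ x = d := by
      intro x
      have : x ∈ (E (k - 1)).filter (fun s => s.2 = v) ↔ x ∈ ({d} : Finset (ℚ × ℚ)) := by rw [hd]
      rwa [Finset.mem_filter, Finset.mem_singleton] at this
    have gd' : ∀ x, x ∈ E (k - 1) ∧ x.2 = w ↔ x = d' := by
      intro x
      have : x ∈ (E (k - 1)).filter (fun s => s.2 = w) ↔ x ∈ ({d'} : Finset (ℚ × ℚ)) := by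
        rw [hd']
      rwa [Finset.mem_filter, Finset.mem_singleton] at this
    have gu : ∀ x, x ∈ E k ∧ x.1 = v ↔ x = u := by
      intro x
      have : x ∈ (E k).filter (fun s => s.1 = v) ↔ x ∈ ({u} : Finset (ℚ × ℚ)) := by rw [hu]
      rwa [Finset.mem_filter, Finset.mem_singleton] at this
    have gu' : ∀ x, x ∈ E k ∧ x.1 = w ↔ x = u' := by
      intro x
      have : x ∈ (E k).filter (fun s => s.1 = w) ↔ x ∈ ({u'} : Finset (ℚ × ℚ)) := by rw [hu']
      rwa [Finset.mem_filter, Finset.mem_singleton] at this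
    have d1 := (gd d).2 rfl
    have d2 := (gd' d').2 rfl
    have u1 := (gu u).2 rfl
    have u2 := (gu' u').2 rfl
    have eB := BL_eq (E := E) (k := k) hvw hadj
    have eT := TT_eq (E := E) (k := k) hvw hadj
    have eA := AL_eq (E := E) (k := k) hvw hadj
    have eS := SS_eq (E := E) (k := k) hvw hadj
    rw [hd, hd', BL_singleton, BL_singleton] at eB eT
    rw [hu, hu', AL_singleton, AL_singleton] at eA eS
    simp only [List.append_assoc, List.cons_append, List.nil_append] at eB eT eA eS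
    generalize BL ((E (k - 1)).filter (fun s => s.2 < v)) = U at eB eT
    generalize BL ((E (k - 1)).filter (fun s => w < s.2)) = V at eB eT
    generalize AL ((E k).filter (fun s => s.1 < v)) = U' at eA eS
    generalize AL ((E k).filter (fun s => w < s.1)) = V' at eA eS
    have nB : (U ++ d :: d' :: V).Nodup := by
      rw [← eB]
      exact BL_nodup _
    have nA : (U' ++ u :: u' :: V').Nodup := by
      rw [← eA]
      exact AL_nodup _
    have hlab : b d = b d' ↔ a u = a u' :=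
      hl.2.2 d d1.1 d' d2.1 u u1.1 u' u2.1 (d1.2.trans u1.2.symm) (d2.2.trans u2.2.symm)
    have hsw : b d ≠ b d' → ((((V ++ U).map b).idxOf (b d') < ((V ++ U).map b).idxOf (b d)) ↔
        (((V' ++ U').map a).idxOf (a u') < ((V' ++ U').map a).idxOf (a u))) := by
      intro hne
      refine lev_switch hE hl hb ha eB eA (d1.2.trans u1.2.symm) (d2.2.trans u2.2.symm) ?_ hne
      rw [d1.2, d2.2]
      exact hvw.ne
    rw [eT, eS, eB, eA]
    constructor
    · intro x hx
      rw [step_iff b nB] at hx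
      obtain ⟨hne, h | ⟨h, hi⟩⟩ := hx
      · refine ⟨b, a, h, (step_iff a nA _).2 ⟨fun h' => hne (hlab.2 h'), Or.inl (Ren.refl _)⟩, hl⟩
      · refine ⟨_, _, h, (step_iff a nA _).2 ⟨fun h' => hne (hlab.2 h'),
          Or.inr ⟨Ren.refl _, (hsw hne).1 hi⟩⟩, lev_swap hl gd gd' gu gu'⟩
    · intro x hx
      rw [step_iff a nA] at hx
      obtain ⟨hne, h | ⟨h, hi⟩⟩ := hx
      · refine ⟨b, a, h, (step_iff b nB _).2 ⟨fun h' => hne (hlab.1 h'), Or.inl (Ren.refl _)⟩, hl⟩
      · have hne' : b d ≠ b d' := fun h' => hne (hlab.1 h')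
        refine ⟨_, _, h, (step_iff b nB _).2 ⟨hne', Or.inr ⟨Ren.refl _, (hsw hne').2 hi⟩⟩,
          lev_swap hl gd gd' gu gu'⟩
  · have hq : ¬ (((E k).filter (fun s => s.1 = v)).card = 1 ∧
        ((E k).filter (fun s => s.1 = w)).card = 1) := by omega
    have hB := blockB hE hvw hadj hl hb hp
    have hA := blockA hE hvw hadj hl ha hq
    exact ⟨fun u hu => ⟨b, a, (hB u).1 hu, (hA _).2 (Ren.refl _), hl⟩,
      fun u hu => ⟨b, a, (hA u).1 hu, (hB _).2 (Ren.refl _), hl⟩⟩

end SwapAux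

theorem rul_swap {E : Lk} {k : ℤ} (hE : Closed E) {v w : ℚ} (hvw : v < w)
    (hv : deg E k v ≠ 0) (hw : deg E k w ≠ 0)
    (hadj : ∀ u, v < u → u < w → deg E k u = 0) (hsep : Sep E k v w ∨ Sep E k w v)
    (h : Rul E) : Rul (rel E k (Equiv.swap v w)) := by
  obtain ⟨a, b, hr⟩ := h
  obtain ⟨hr1, hr2, -⟩ := hr (k - 1)
  obtain ⟨hs1, hs2, hs3⟩ := hr k
  have hb2 : Two ((BL (E (k - 1))).map (b (k - 1))) := srtN_two hr1 hr2
  obtain ⟨core1, core2⟩ := SwapAux.core hE hvw hv hw hadj hs3 hb2 hs1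
  rcases hsep with hs | hs
  · obtain ⟨u, hu1, hu2⟩ := (srtN_through hr1 (AL_nodup _)
      ((AL_perm_BL _).trans SwapAux.TT_perm) (AL_perm_BL _)
      (SwapAux.btwI_hi hvw hadj hs)).1 hr2
    have hu3 : Two u := srtN_two hr1 hu1
    obtain ⟨c, e, h1, h2, h3⟩ := core1 u (srtN_symm hu3 SwapAux.TT_nodup hu2)
    have h4 : Two ((SwapAux.SS E k v w).map e) := srtN_two hs1 h2
    refine SwapAux.finish hvw hadj (Or.inl hs) hr (hu1.ren (Ren.refl _) h1.symm) ?_ h4 h3
    exact (srtN_through h4 SwapAux.SS_nodup SwapAux.SS_perm.symm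
      (SwapAux.SS_perm.symm.trans (AL_perm_BL _)) (SwapAux.btwI_lo hvw hadj hs)).2
      ⟨_, srtN_symm hs1 (AL_nodup _) h2, hs2⟩
  · obtain ⟨u, hu1, hu2⟩ := (srtN_through hs1 (AL_nodup _) SwapAux.SS_perm (AL_perm_BL _)
      (SwapAux.btwII_lo hvw hadj hs)).1 hs2
    have hu3 : Two u := srtN_two hs1 hu1
    obtain ⟨c, e, h1, h2, h3⟩ := core2 u hu1
    have h4 : Two ((SwapAux.SS E k v w).map e) := h1.symm.two hu3
    refine SwapAux.finish hvw hadj (Or.inr hs) hr ?_ (hu2.ren h1.symm (Ren.refl _)) h4 h3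
    exact (srtN_through hr1 (AL_nodup _) (AL_perm_BL _)
      ((AL_perm_BL _).trans SwapAux.TT_perm) (SwapAux.btwII_hi hvw hadj hs)).2 ⟨_, hr2, h2⟩

end Pool.Agent.Helper24.RUL
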